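import Pool.Agent.P.MP_3c8515_co.Tools

namespace Pool.Agent.P.MP_3c8515_co

open Set Submodule Module Filter

/-- index type of the four-dimensional configuration -/
inductive Bx : Type
  | gr (i j t : ℤ)
  | ix (t k : ℤ)
  | iy (t k : ℤ)
  | ax (k : ℤ)
  | ay (k : ℤ)
  | az (t : ℤ)
  | bt

open Bx

abbrev U4 := ℝ × ℝ × ℝ × ℝ

/-- an affine functional of three variables -/
def lin (a b c d : ℝ) : U4 →ₗ[ℝ] ℝ where
  toFun u := a * u.1 + b * u.2.1 + c * u.2.2.1 + d * u.2.2.2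
  map_add' u v := by simp only [Prod.fst_add, Prod.snd_add]; ring
  map_smul' t u := by simp only [Prod.smul_fst, Prod.smul_snd, smul_eq_mul, RingHom.id_apply]; ring

/-- parameters of the four-dimensional configuration -/
structure BP where
  N : ℤ
  T : ℤ
  f : ℤ → ℝ
  g : ℤ → ℝ
  I : ℤ → ℤ
  J : ℤ → ℤ
  H : ℕ → ℝ

namespace BP

def S0 (b : BP) : Bx → Prop
  | gr i j t => 0 ≤ i ∧ i ≤ b.N ∧ 0 ≤ j ∧ j ≤ b.N ∧ 0 ≤ t ∧ t ≤ b.T
  | ix t k => 3 ≤ t ∧ t < b.T ∧ t % 2 = 1 ∧ 0 ≤ k ∧ k ≤ b.N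
  | iy t k => 3 ≤ t ∧ t < b.T ∧ t % 2 = 0 ∧ 0 ≤ k ∧ k ≤ b.N
  | ax k => 0 ≤ k ∧ k ≤ b.N
  | ay k => 0 ≤ k ∧ k ≤ b.N
  | az t => 0 ≤ t ∧ t ≤ b.T
  | bt => True

def pres (b : BP) : Bx → Prop
  | gr i j t => (t < 3 → 3 ≤ i) ∧ (3 < t → i = 0 ∨ j = 0 ∨ b.I t ≤ i ∨ b.J t ≤ j)
  | _ => True

def S (b : BP) : Set Bx := {x | b.S0 x ∧ b.pres x}

noncomputable def cX (b : BP) : Bx → ℝ
  | gr i _ _ => i
  | ix _ k => b.N / 4 + k / 2
  | iy _ _ => b.N / 2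
  | ax k => b.N / 4 + k / 2
  | ay _ => -1
  | az _ => b.N + 1
  | bt => b.N / 2

noncomputable def cY (b : BP) : Bx → ℝ
  | gr _ j _ => j
  | ix _ _ => b.N / 2
  | iy _ k => b.N / 4 + k / 2
  | ax _ => -1
  | ay k => b.N / 4 + k / 2
  | az _ => b.N + 1
  | bt => 0

noncomputable def cZ (b : BP) : Bx → ℝ
  | gr _ _ t => t
  | ix t _ => t + 1 / 2
  | iy t _ => t + 1 / 2
  | ax _ => 1
  | ay _ => -1
  | az t => b.T / 4 + t / 2
  | bt => b.T + 1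

noncomputable def ξ (b : BP) (x : Bx) : U4 := (1, b.cX x, b.cY x, b.cZ x)

def st (b : BP) : Bx → ℕ
  | gr _ _ t => (2 * (t - 3)).toNat
  | ix t _ => (2 * (t - 3)).toNat + 1
  | iy t _ => (2 * (t - 3)).toNat + 1
  | ax _ => (2 * (b.T - 3)).toNat + 1
  | ay _ => (2 * (b.T - 3)).toNat + 2
  | az _ => (2 * (b.T - 3)).toNat + 3
  | bt => (2 * (b.T - 3)).toNat + 4

noncomputable def L (b : BP) (t : ℤ) : ℝ :=
  (t : ℝ) ^ 2 + if 3 < t then b.H (2 * (t - 3)).toNat else 0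

noncomputable def η (b : BP) : Bx → ℝ
  | gr i j t => b.f i + b.g j + b.L t
  | ix t k => b.f k / 2 + b.H ((2 * (t - 3)).toNat + 1)
  | iy t k => b.g k / 2 + b.H ((2 * (t - 3)).toNat + 1)
  | ax k => b.f k / 2 + b.H ((2 * (b.T - 3)).toNat + 1)
  | ay k => b.g k / 2 + b.H ((2 * (b.T - 3)).toNat + 2)
  | az t => b.L t / 2 + b.H ((2 * (b.T - 3)).toNat + 3)
  | bt => b.H ((2 * (b.T - 3)).toNat + 4)

noncomputable def bs (b : BP) : Bx → ℝ
  | gr i j t => b.f i + b.g j + (t : ℝ) ^ 2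
  | ix _ k => b.f k / 2
  | iy _ k => b.g k / 2
  | ax k => b.f k / 2
  | ay k => b.g k / 2
  | az t => (t : ℝ) ^ 2 / 2
  | bt => 0

def qf (b : BP) : Sq := ⟨fun i => i, b.f, fun i => b.f (i + 1) - b.f i⟩

def qg (b : BP) : Sq := ⟨fun i => i, b.g, fun i => b.g (i + 1) - b.g i⟩

abbrev LF0 (b : BP) (J : Set Bx) : Prop := LF {x | b.S0 x} b.ξ b.η J

abbrev LFs (b : BP) (J : Set Bx) : Prop := LF b.S b.ξ b.η J

lemma lin_xi (b : BP) (a c d e : ℝ) (x : Bx) :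
    lin a c d e (b.ξ x) = a + c * b.cX x + d * b.cY x + e * b.cZ x := by
  simp [lin, ξ]

lemma S0_fin (b : BP) : {x | b.S0 x}.Finite := by
  have h1 : ((fun x : ℤ × ℤ × ℤ => gr x.1 x.2.1 x.2.2) ''
      (Icc 0 b.N ×ˢ Icc 0 b.N ×ˢ Icc 0 b.T)).Finite :=
    ((finite_Icc _ _).prod ((finite_Icc _ _).prod (finite_Icc _ _))).image _
  have h2 : ((fun x : ℤ × ℤ => ix x.1 x.2) '' (Icc 0 b.T ×ˢ Icc 0 b.N)).Finite :=
    ((finite_Icc _ _).prod (finite_Icc _ _)).image _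
  have h3 : ((fun x : ℤ × ℤ => iy x.1 x.2) '' (Icc 0 b.T ×ˢ Icc 0 b.N)).Finite :=
    ((finite_Icc _ _).prod (finite_Icc _ _)).image _
  have h4 : (ax '' Icc 0 b.N).Finite := (finite_Icc _ _).image _
  have h5 : (ay '' Icc 0 b.N).Finite := (finite_Icc _ _).image _
  have h6 : (az '' Icc 0 b.T).Finite := (finite_Icc _ _).image _
  refine (((((h1.union h2).union h3).union h4).union h5).union h6).insert bt |>.subset ?_
  rintro (⟨i, j, t⟩ | ⟨t, k⟩ | ⟨t, k⟩ | k | k | t | _) h <;> simp only [mem_ofPred_eq, S0] at h <;>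
    simp <;> omega

end BP

/-- the properties of the parameters -/
structure BG (b : BP) : Prop where
  N : 8 ≤ b.N
  T : 6 ≤ b.T
  ev : b.T % 2 = 0
  cf : b.qf.Conv 0 b.N
  cg : b.qg.Conv 0 b.N
  I : ∀ t, b.I t ≤ b.N
  J : ∀ t, b.J t ≤ b.N
  kink : b.qf.s 1 + 10 ≤ b.qf.s 2
  rules : Rules {x | b.S0 x} b.ξ b.st b.H b.η
  big : ∀ x, b.S0 x → 0 < b.st x → 1 ≤ b.η x -
    lin (b.f 2 - 2 * (b.qf.s 2 - 1) + b.g 0 - 9) (b.qf.s 2 - 1) (b.qg.s 0) 6 (b.ξ x)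

theorem exists_H (b : BP) (hT : 3 ≤ b.T) (ψ : U4 →ₗ[ℝ] ℝ) : ∃ H : ℕ → ℝ,
    Rules {x | b.S0 x} b.ξ b.st H ({ b with H := H } : BP).η ∧
    ∀ x, b.S0 x → 0 < b.st x → 1 ≤ ({ b with H := H } : BP).η x - ψ (b.ξ x) := by
  classical
  obtain ⟨B, hB⟩ := (b.S0_fin.image fun x => 1 - (b.bs x - ψ (b.ξ x))).bddAbove
  let e : Bx → ℕ → ℝ := fun x s => (if s = b.st x ∧ 0 < s then 1 else 0) +
    match x with
    | az t => if s = (2 * (t - 3)).toNat ∧ 3 < t ∧ t ≤ b.T then 1 / 2 else 0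
    | _ => 0
  obtain ⟨H, hH, R⟩ := staged b.S0_fin b.ξ b.bs b.st e (by
      rintro (⟨i, j, t⟩ | ⟨t, k⟩ | ⟨t, k⟩ | k | k | t | _) h <;> simp only [e, h] <;> simp
      simp only [BP.st]
      omega) (by
      rintro (⟨i, j, t⟩ | ⟨t, k⟩ | ⟨t, k⟩ | k | k | t | _) s h <;> simp only [e, h.ne'] <;> simp
      simp only [BP.st] at h
      omega) (max B 0) ((2 * (b.T - 3)).toNat + 4) (by
      rintro (⟨i, j, t⟩ | ⟨t, k⟩ | ⟨t, k⟩ | k | k | t | _) h <;>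
        simp only [mem_ofPred_eq, BP.S0] at h <;> simp only [BP.st] <;> omega)
  have s1 : ∀ m : ℕ, m < (2 * (b.T - 3)).toNat + 4 + 1 → ∀ (P : Prop) [Decidable P] (c : ℝ),
      ∑ s ∈ Finset.range ((2 * (b.T - 3)).toNat + 4 + 1), H s * (if s = m ∧ P then c else 0) =
        if P then H m * c else 0 := by
    intro m hm P _ c
    rw [Finset.sum_eq_single m]
    · by_cases h : P <;> simp [h]
    · intro s _ hs; simp [hs]
    · intro h; exact absurd (Finset.mem_range.2 hm) h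
  have s2 : ∀ m : ℕ, m < (2 * (b.T - 3)).toNat + 4 + 1 →
      ∑ s ∈ Finset.range ((2 * (b.T - 3)).toNat + 4 + 1), H s * (if s = m ∧ 0 < s then 1 else 0) =
        if 0 < m then H m else 0 := by
    intro m hm
    rw [Finset.sum_eq_single m]
    · by_cases h : 0 < m <;> simp [h]
    · intro s _ hs; simp [hs]
    · intro h; exact absurd (Finset.mem_range.2 hm) h
  have hst : ∀ x, b.S0 x → b.st x < (2 * (b.T - 3)).toNat + 4 + 1 := by
    rintro (⟨i, j, t⟩ | ⟨t, k⟩ | ⟨t, k⟩ | k | k | t | _) h <;>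
      simp only [BP.S0] at h <;> simp only [BP.st] <;> omega
  have he : ∀ x ∈ {x | b.S0 x}, hts b.bs e ((2 * (b.T - 3)).toNat + 4) H x =
      ({ b with H := H } : BP).η x := by
    intro x h
    simp only [hts, e, mul_add, Finset.sum_add_distrib]
    rw [s2 _ (hst x h)]
    rcases x with ⟨i, j, t⟩ | ⟨t, k⟩ | ⟨t, k⟩ | k | k | t | _ <;>
      simp only [mem_ofPred_eq, BP.S0] at h
    · by_cases h3 : 3 < t
      · rw [if_pos (by simp only [BP.st]; omega)]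
        simp [BP.st, BP.bs, BP.η, BP.L, h3]; ring
      · rw [if_neg (by simp only [BP.st]; omega)]
        simp [BP.bs, BP.η, BP.L, h3]
    · simp [BP.st, BP.bs, BP.η]
    · simp [BP.st, BP.bs, BP.η]
    · simp [BP.st, BP.bs, BP.η]
    · simp [BP.st, BP.bs, BP.η]
    · rw [s1 _ (by omega)]
      by_cases h3 : 3 < t
      · simp [BP.st, BP.bs, BP.η, BP.L, h3, h.2]; ring
      · simp [BP.st, BP.bs, BP.η, BP.L, h3]
    · simp [BP.st, BP.bs, BP.η]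
  refine ⟨H, ⟨fun S hS J hJ => ?_, fun s hs S hS J hJ => ?_⟩, fun x hx hs => ?_⟩
  · exact (R.zero S hS J (hJ.congr fun i hi => (he i (hS hi.1)).symm)).congr
      fun i hi => he i (hS hi)
  · refine (R.tent s hs S hS J ?_).congr fun i hi => he i (hS hi)
    obtain ⟨a1, g, φ, a2, a3⟩ := hJ
    exact ⟨a1, g, φ, fun i hi h => by simpa only [he i (hS hi)] using a2 i hi h,
      fun i hi h => by simpa only [he i (hS hi)] using a3 i hi h⟩
  · have a1 := hB ⟨x, hx, rfl⟩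
    have a2 : ∀ s, B ≤ H s := fun s => (le_max_left _ _).trans (hH s)
    have a3 : ∀ s, 0 ≤ H s := fun s => (le_max_right _ _).trans (hH s)
    have a4 : b.bs x + B ≤ ({ b with H := H } : BP).η x := by
      rcases x with ⟨i, j, t⟩ | ⟨t, k⟩ | ⟨t, k⟩ | k | k | t | _ <;>
        simp only [BP.st] at hs <;> simp only [BP.bs, BP.η, BP.L]
      · rw [if_pos (by omega)]; linarith [a2 (2 * (t - 3)).toNat]
      · linarith [a2 ((2 * (t - 3)).toNat + 1)]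
      · linarith [a2 ((2 * (t - 3)).toNat + 1)]
      · linarith [a2 ((2 * (b.T - 3)).toNat + 1)]
      · linarith [a2 ((2 * (b.T - 3)).toNat + 2)]
      · split_ifs <;> linarith [a2 ((2 * (b.T - 3)).toNat + 3), a3 (2 * (t - 3)).toNat]
      · linarith [a2 ((2 * (b.T - 3)).toNat + 4)]
    simp only at a1
    linarith

end Pool.Agent.P.MP_3c8515_co
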