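import Pool.Agent.P.MP_3c8515_co.Base9

namespace Pool.Agent.P.MP_3c8515_co

open Set Submodule Module Filter Bx

noncomputable def fF (M H : ℝ) (i : ℤ) : ℝ :=
  (i : ℝ) ^ 2 + (if i ≤ 0 then H else 0) + (if 2 ≤ i then (12 * M - 2) * (i - 2) else 0) +
    (if 6 ≤ i then 2 * M * (i - 6) else 0)

noncomputable def gG (M H : ℝ) (j : ℤ) : ℝ := M * (j : ℝ) ^ 2 + if j ≤ 0 then H else 0

lemma fF6 (M H : ℝ) {i : ℤ} (h : 6 ≤ i) :
    fF M H i = (i : ℝ) ^ 2 + (12 * M - 2) * (i - 2) + 2 * M * (i - 6) := by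
  rw [fF, if_neg (by omega), if_pos (by omega), if_pos h, add_zero]

lemma gG1 (M H : ℝ) {j : ℤ} (h : 1 ≤ j) : gG M H j = M * (j : ℝ) ^ 2 := by
  rw [gG, if_neg (by omega), add_zero]

lemma fF_conv {M H : ℝ} (hM : 1 ≤ M) (hH : 0 ≤ H) (k : ℤ) (h : 0 ≤ k) :
    fF M H (k + 1) - fF M H k < fF M H (k + 1 + 1) - fF M H (k + 1) := by
  rcases le_or_gt 6 k with h6 | h6
  · rw [fF6 M H h6, fF6 M H (i := k + 1) (by omega), fF6 M H (i := k + 1 + 1) (by omega)]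
    push_cast
    linarith
  · rcases (show k = 0 ∨ k = 1 ∨ k = 2 ∨ k = 3 ∨ k = 4 ∨ k = 5 by omega) with
      rfl | rfl | rfl | rfl | rfl | rfl <;> norm_num [fF] <;> linarith

lemma gG_conv {M H : ℝ} (hM : 1 ≤ M) (hH : 0 ≤ H) (k : ℤ) (h : 0 ≤ k) :
    gG M H (k + 1) - gG M H k < gG M H (k + 1 + 1) - gG M H (k + 1) := by
  rcases h.eq_or_lt with rfl | h1
  · norm_num [gG]
    linarith
  · rw [gG1 M H h1, gG1 M H (j := k + 1) (by omega), gG1 M H (j := k + 1 + 1) (by omega)]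
    push_cast
    linarith

/-- the numerical parameters -/
noncomputable def bp (K : ℕ) (C : ℤ) (H : ℕ → ℝ) : BP where
  N := C + 2
  T := 8 + K
  f := fF ((C : ℝ) ^ 2) (16 * (C : ℝ) ^ 2 * (K : ℝ) ^ 2)
  g := gG ((C : ℝ) ^ 2) (16 * (C : ℝ) ^ 2 * (K : ℝ) ^ 2)
  I t := if t = 4 then 10 else if t = 5 then C + 2 else if t = 7 then C else 3
  J t := if t ≤ 6 then 5 else if t = 7 then 5 + 4 * K else min (4 * t - 23) (C + 2)
  H := H

theorem exists_base {K : ℕ} (hK : 1 ≤ K) (he : K % 2 = 0) : ∃ (b : BP) (C : ℤ), BG b ∧ BN b K C := by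
  obtain ⟨C, hC⟩ : ∃ C : ℤ, C = 8 * (K : ℤ) ^ 2 + 6 := ⟨_, rfl⟩
  have k1 : (1 : ℤ) ≤ K := by exact_mod_cast hK
  have k2 : (K : ℤ) ≤ (K : ℤ) ^ 2 := by nlinarith
  have hC' : (C : ℝ) = 8 * (K : ℝ) ^ 2 + 6 := by exact_mod_cast hC
  have k3 : (1 : ℝ) ≤ K := by exact_mod_cast hK
  have k4 : (1 : ℝ) ≤ (K : ℝ) ^ 2 := one_le_pow₀ k3
  have c1 : (14 : ℝ) ≤ C := by linarith
  have c2 : (14 : ℝ) ≤ (C : ℝ) ^ 2 := by nlinarith
  have c3 : (C : ℝ) ^ 2 ≤ (C : ℝ) ^ 2 * (K : ℝ) ^ 2 := by nlinarith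
  generalize (K : ℤ) ^ 2 = K2 at hC k2
  let b0 := bp K C 0
  obtain ⟨H, R, hb⟩ := exists_H b0 (show (3 : ℤ) ≤ 8 + K by omega)
    (lin (b0.f 2 - 2 * (b0.qf.s 2 - 1) + b0.g 0 - 9) (b0.qf.s 2 - 1) (b0.qg.s 0) 6)
  have f13 : (bp K C H).qf.D 1 3 = 12 * (C : ℝ) ^ 2 := by
    norm_num [Sq.D, Sq.val, BP.qf, bp, fF]
  have f10 : (bp K C H).qf.D 1 0 = 16 * (C : ℝ) ^ 2 * (K : ℝ) ^ 2 + 2 := by
    norm_num [Sq.D, Sq.val, BP.qf, bp, fF]
  have f3 : (bp K C H).qf.D 3 10 = 8 * (C : ℝ) ^ 2 + 42 := by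
    norm_num [Sq.D, Sq.val, BP.qf, bp, fF]; ring
  have f6 : (bp K C H).qf.D 6 (C + 2) = (C - 4) * (C - 5) := by
    simp only [Sq.D, Sq.val, BP.qf, bp]
    rw [fF6 _ _ (i := C + 2) (by omega)]
    norm_num [fF]; ring
  have f5 : (bp K C H).qf.D 5 C = (C - 5) * (C - 6) + 2 * (C : ℝ) ^ 2 * (C - 6) := by
    simp only [Sq.D, Sq.val, BP.qf, bp]
    rw [fF6 _ _ (i := C) (by omega)]
    norm_num [fF]; ring
  have g10 : (bp K C H).qg.D 1 0 = 16 * (C : ℝ) ^ 2 * (K : ℝ) ^ 2 + 2 * (C : ℝ) ^ 2 := by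
    norm_num [Sq.D, Sq.val, BP.qg, bp, gG]; ring
  have gD : ∀ l m : ℤ, 1 ≤ l → 1 ≤ m →
      (bp K C H).qg.D l m = (C : ℝ) ^ 2 * ((m - l) * (m - l - 1)) := by
    intro l m h1 h2
    simp only [Sq.D, Sq.val, BP.qg, bp]
    rw [gG1 _ _ h1, gG1 _ _ h2, gG1 _ _ (j := l + 1) (by omega)]
    push_cast
    ring
  have g15 : (bp K C H).qg.D 1 5 = 12 * (C : ℝ) ^ 2 := by
    rw [gD _ _ le_rfl (by omega)]; push_cast; ring
  have g5 : (bp K C H).qg.D 5 (5 + 4 * K) ≤ 16 * (C : ℝ) ^ 2 * (K : ℝ) ^ 2 := by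
    rw [gD _ _ (by omega) (by omega)]; push_cast; nlinarith
  refine ⟨bp K C H, C, ⟨show 8 ≤ C + 2 by omega, show (6 : ℤ) ≤ 8 + K by omega,
    show (8 + K : ℤ) % 2 = 0 by omega,
    ⟨fun k _ _ => by simp [BP.qf], fun k _ _ => by simp [BP.qf], fun k h _ =>
      fF_conv (by linarith) (by positivity) k h⟩,
    ⟨fun k _ _ => by simp [BP.qg], fun k _ _ => by simp [BP.qg], fun k h _ =>
      gG_conv (by linarith) (by positivity) k h⟩, fun t => ?_, fun t => ?_, ?_, R, hb⟩,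
    by omega, le_rfl, show 4 * (K : ℤ) + 6 ≤ C + 2 by omega,
    ⟨rfl, rfl, by simp only [bp]; omega, ?_, ?_, ?_⟩, ⟨rfl, rfl, by simp only [bp]; omega, ?_, ?_, ?_⟩,
    ⟨rfl, rfl, by simp only [bp]; omega, ?_, ?_, ?_⟩, ⟨rfl, rfl, by simp only [bp]; omega, ?_, ?_, ?_⟩,
    fun k hk => ⟨by simp only [bp]; split_ifs <;> omega, by simp only [bp]; split_ifs <;> omega,
      by simp only [bp]; omega, ?_, ?_, ?_⟩⟩
  · simp only [bp]; split_ifs <;> omega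
  · simp only [bp]; split_ifs <;> omega
  · norm_num [BP.qf, bp, fF]; linarith
  · rw [f3, g15]; linarith
  · rw [f3, f10]; linarith
  · rw [f3, g10]; linarith
  · rw [f6, g15]; nlinarith
  · rw [f6, f10]; nlinarith
  · rw [f6, g10]; nlinarith
  · rw [g15, f13]
  · rw [g15, g10]; linarith
  · rw [g15, f10]; linarith
  · rw [f5, show (C : ℝ) - 6 = 8 * (K : ℝ) ^ 2 by linarith]; nlinarith
  · rw [g10]; linarith
  · rw [f10]; linarith
  · rw [f13, gD _ _ (by omega) (by omega)]; push_cast; linarith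
  · rw [f13, f10]; linarith
  · rw [f13, g10]; linarith

theorem exists_data (K : ℕ) (hK : 1 ≤ K) (he : K % 2 = 0) (n : ℕ) :
    ∃ (κ ι U : Type) (_ : AddCommGroup U) (_ : Module ℝ U) (_ : Fintype κ) (_ : DecidableEq κ)
      (_ : FiniteDimensional ℝ U) (D : Data κ ι U), Fintype.card κ = n + 3 ∧ PInv D ∧
      Rigid K D := by
  induction n with
  | zero =>
    obtain ⟨b, C, G, B⟩ := exists_base hK he
    exact ⟨Option Bool, Bx, U4, _, _, _, _, inferInstance, b.data, rfl, G.pinv, G.rigid B⟩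
  | succ n ih =>
    obtain ⟨κ, ι, U, _, _, _, _, _, D, h, P, R⟩ := ih
    obtain ⟨p, G⟩ := P.exists_good
    exact ⟨Option κ, Idx ι κ, U × ℝ, _, _, _, _, inferInstance, D.step p,
      by rw [Fintype.card_option, h], G.pinv P, G.rigid P R⟩

theorem main {d : ℕ} (hd : 4 ≤ d) :
    ∃ P : Set (EuclideanSpace ℝ (Fin d)), IsPolytope d P ∧ ¬ Scribable 0 (d - 1) P := by
  obtain ⟨κ, ι, U, _, _, _, _, _, D, h, P, R⟩ := exists_data (40000 * (d - 1) ^ 2)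
    (Nat.mul_pos (by norm_num) (pow_pos (by omega) 2)) (by omega) (d - 4)
  refine final P R ?_ (by omega)
  rw [h, show d - 4 + 3 = d - 1 by omega]
  push_cast
  exact le_rfl

end Pool.Agent.P.MP_3c8515_co
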