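import Pool.Agent.P.MP_3c8515_co.Base1

namespace Pool.Agent.P.MP_3c8515_co

open Set Submodule Module Filter Bx

def boxP (i i' j j' t t' : ℤ) : Bx → Prop
  | gr a c d => i ≤ a ∧ a ≤ i' ∧ j ≤ c ∧ c ≤ j' ∧ t ≤ d ∧ d ≤ t'
  | _ => False

/-- a box of grid points -/
def Box (i i' j j' t t' : ℤ) : Set Bx := {x | boxP i i' j j' t t' x}

/-- an interval of length at most one -/
def Iv (N i i' : ℤ) : Prop := 0 ≤ i ∧ i ≤ i' ∧ i' ≤ i + 1 ∧ i' ≤ N

variable {b : BP}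

lemma mem_Box {i i' j j' t t' : ℤ} {x : Bx} (h : x ∈ Box i i' j j' t t') :
    ∃ a c d, x = gr a c d ∧ i ≤ a ∧ a ≤ i' ∧ j ≤ c ∧ c ≤ j' ∧ t ≤ d ∧ d ≤ t' := by
  rcases x with ⟨a, c, d⟩ | _ | _ | _ | _ | _ | _
  · exact ⟨a, c, d, rfl, h⟩
  all_goals exact h.elim

lemma BG.zero_face (G : BG b) {S J : Set Bx} (hS : S ⊆ {x | b.S0 x}) (c σ τ ρ : ℝ)
    (h1 : ∀ x ∈ J, ∃ i j t, x = gr i j t ∧ t ≤ 3 ∧ x ∈ S)
    (h2 : ∀ i j t, t ≤ 3 → gr i j t ∈ S →
      0 ≤ c + b.qf.val σ i + b.qg.val τ j + ((t : ℝ) ^ 2 - ρ * t) ∧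
      (c + b.qf.val σ i + b.qg.val τ j + ((t : ℝ) ^ 2 - ρ * t) = 0 ↔ gr i j t ∈ J)) :
    LF S b.ξ b.η J := by
  refine G.rules.zero S hS J ⟨fun x hx => ?_, lin (-c) σ τ ρ, ?_⟩
  · obtain ⟨i, j, t, rfl, h3, h4⟩ := h1 x hx
    exact ⟨h4, by simp only [mem_ofPred_eq, BP.st]; omega⟩
  · rintro (⟨i, j, t⟩ | ⟨t, k⟩ | ⟨t, k⟩ | k | k | t | _) ⟨hx, hs⟩ <;>
      simp only [mem_ofPred_eq, BP.st] at hs
    · have e : b.η (gr i j t) - lin (-c) σ τ ρ (b.ξ (gr i j t)) =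
          c + b.qf.val σ i + b.qg.val τ j + ((t : ℝ) ^ 2 - ρ * t) := by
        simp only [BP.lin_xi, BP.η, BP.L, BP.cX, BP.cY, BP.cZ, Sq.val, BP.qf, BP.qg,
          if_neg (show ¬ 3 < t by omega)]
        ring
      rw [e]
      exact h2 i j t (by omega) hx
    all_goals omega

lemma BG.core (G : BG b) {i i' j j' t t' : ℤ} (hi : Iv b.N i i') (hj : Iv b.N j j')
    (ht : Iv 3 t t') : b.LF0 (Box i i' j j' t t') := by
  obtain ⟨σ, hσ⟩ := G.cf.expose hi.1 hi.2.1 hi.2.2.1 hi.2.2.2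
  obtain ⟨τ, hτ⟩ := G.cg.expose hj.1 hj.2.1 hj.2.2.1 hj.2.2.2
  have hT := G.T
  unfold Iv at hi hj ht
  refine G.zero_face subset_rfl (t * t' - b.qf.val σ i - b.qg.val τ j) σ τ (t + t') ?_ ?_
  · intro x hx
    obtain ⟨a, c, d, rfl, h⟩ := mem_Box hx
    exact ⟨a, c, d, rfl, by omega, by simp only [mem_ofPred_eq, BP.S0]; omega⟩
  · intro a c d h3 hx
    simp only [mem_ofPred_eq, BP.S0] at hx
    obtain ⟨a1, a2⟩ := hσ a hx.1 hx.2.1
    obtain ⟨b1, b2⟩ := hτ c hx.2.2.1 hx.2.2.2.1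
    have c1 : 0 ≤ (d - t) * (d - t') := by
      rcases le_or_gt d t with h | h
      · exact mul_nonneg_of_nonpos_of_nonpos (by omega) (by omega)
      · exact mul_nonneg (by omega) (by omega)
    have c2 : (0 : ℝ) ≤ (((d - t) * (d - t') : ℤ) : ℝ) := by exact_mod_cast c1
    have e : (t * t' - b.qf.val σ i - b.qg.val τ j) + b.qf.val σ a + b.qg.val τ c +
        ((d : ℝ) ^ 2 - (t + t') * d) = (b.qf.val σ a - b.qf.val σ i) +
        (b.qg.val τ c - b.qg.val τ j) + (((d - t) * (d - t') : ℤ) : ℝ) := by push_cast; ring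
    rw [e]
    refine ⟨by linarith, ⟨fun h0 => ?_, fun h0 => ?_⟩⟩
    · have d1 := a2.1 (by linarith)
      have d2 := b2.1 (by linarith)
      have d3 : (d - t) * (d - t') = 0 := by exact_mod_cast (by linarith :
        (((d - t) * (d - t') : ℤ) : ℝ) = 0)
      refine ⟨d1.1, d1.2, d2.1, d2.2, ?_⟩
      rcases mul_eq_zero.1 d3 with h | h <;> omega
    · obtain ⟨d1, d2, d3, d4, d5, d6⟩ := h0
      have d7 : (d - t) * (d - t') = 0 := by
        rcases (show d = t ∨ d = t' by omega) with h | h <;> simp [h]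
      rw [a2.2 ⟨d1, d2⟩, b2.2 ⟨d3, d4⟩, d7]
      simp

lemma BP.old_plate {x : Bx} (h : b.S0 x) {t : ℤ} (ht : t ≤ b.T) (hs : b.st x < (2 * (t - 3)).toNat) :
    (∃ a c d, x = gr a c d ∧ d < t) ∨ (∃ d k, (x = ix d k ∨ x = iy d k) ∧ d < t) := by
  rcases x with ⟨i, j, d⟩ | ⟨d, k⟩ | ⟨d, k⟩ | k | k | d | _ <;> simp only [BP.st] at hs
  · exact Or.inl ⟨_, _, _, rfl, by omega⟩
  · exact Or.inr ⟨_, _, Or.inl rfl, by omega⟩
  · exact Or.inr ⟨_, _, Or.inr rfl, by omega⟩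
  all_goals omega

lemma BP.new_plate {x : Bx} (h : b.S0 x) {t : ℤ} (h3 : 3 < t) (ht : t ≤ b.T)
    (hs : b.st x = (2 * (t - 3)).toNat) : ∃ a c, x = gr a c t := by
  rcases x with ⟨i, j, d⟩ | ⟨d, k⟩ | ⟨d, k⟩ | k | k | d | _ <;> simp only [BP.st] at hs <;>
    simp only [BP.S0] at h
  · exact ⟨_, _, by rw [show d = t by omega]⟩
  all_goals omega

lemma BP.z_old {x : Bx} (h : b.S0 x) {t : ℤ} (ht : t ≤ b.T) (hs : b.st x < (2 * (t - 3)).toNat) :
    b.cZ x ≤ t - 1 / 2 := by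
  rcases BP.old_plate h ht hs with ⟨a, c, d, rfl, h'⟩ | ⟨d, k, rfl | rfl, h'⟩ <;>
    have : (d : ℝ) + 1 ≤ t := (by exact_mod_cast h') <;> simp only [BP.cZ] <;> linarith

lemma BP.shift (b : BP) (a c d t : ℤ) :
    b.ξ (gr a c t) = ((0, 0, 0, (t : ℝ) - d) : U4) + (1 : ℝ) • b.ξ (gr a c d) ∧
      b.η (gr a c t) = b.L t - b.L d + 1 * b.η (gr a c d) := by
  simp only [BP.ξ, BP.η, BP.cX, BP.cY, BP.cZ, one_smul, Prod.mk_add_mk]
  exact ⟨by simp, by ring⟩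

lemma BG.plate (G : BG b) {i i' j j' t : ℤ} (hi : Iv b.N i i') (hj : Iv b.N j j') (h0 : 0 ≤ t)
    (hT : t ≤ b.T) : b.LF0 (Box i i' j j' t t) := by
  rcases le_or_gt t 3 with h3 | h3
  · exact G.core hi hj ⟨h0, le_rfl, by omega, h3⟩
  have hi' := hi
  have hj' := hj
  unfold Iv at hi' hj'
  refine G.rules.copy subset_rfl (G.core hi hj (t := 3) (t' := 3) ⟨by omega, le_rfl, by omega, le_rfl⟩)
    (s := (2 * (t - 3)).toNat) (by omega) (lin (4 * t - 1) 0 0 (-4)) (0, 0, 0, (t : ℝ) - (3 : ℤ))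
    (b.L t - b.L 3) 1 one_pos (fun x hx => ?_) (fun x hx hs => ?_) (fun x hx hs => ?_)
  · obtain ⟨a, c, d, rfl, h⟩ := mem_Box hx
    exact ⟨by simp only [mem_ofPred_eq, BP.S0]; omega, by simp only [BP.st]; omega⟩
  · have h1 := BP.z_old hx hT hs
    rw [BP.lin_xi]
    refine ⟨by linarith, ⟨fun h => ?_, fun h => by linarith [h.1]⟩⟩
    obtain ⟨a, c, d, rfl, h⟩ := mem_Box h
    simp only [BP.st] at hs
    omega
  · obtain ⟨a, c, rfl⟩ := BP.new_plate hx h3 hT hs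
    refine Or.inr ⟨by rw [BP.lin_xi]; simp only [BP.cZ]; ring, gr a c 3, ?_, (b.shift a c 3 t).1,
      (b.shift a c 3 t).2, by simp [Box, boxP]⟩
    simp only [mem_ofPred_eq, BP.S0] at hx ⊢
    omega

lemma BG.wall0 (G : BG b) {i i' j j' t : ℤ} (hi : Iv b.N i i') (hj : Iv b.N j j') (h3 : 3 ≤ t)
    (hT : t < b.T) (d0 d1 d2 : ℝ)
    (h1 : ∀ a c : ℤ, 0 ≤ a → a ≤ b.N → 0 ≤ c → c ≤ b.N → 0 ≤ d0 + d1 * a + d2 * c)
    (h2 : ∀ a c : ℤ, i ≤ a → a ≤ i' → j ≤ c → c ≤ j' → d0 + d1 * a + d2 * c = 0)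
    (h4 : ∀ u v : ℝ, b.N / 4 ≤ u → u ≤ 3 * b.N / 4 → b.N / 4 ≤ v → v ≤ 3 * b.N / 4 →
      1 / 2 ≤ d0 + d1 * u + d2 * v) : b.LF0 (Box i i' j j' t (t + 1)) := by
  have hi' := hi
  have hj' := hj
  unfold Iv at hi' hj'
  have hN : (8 : ℝ) ≤ b.N := by exact_mod_cast G.N
  refine G.rules.copy subset_rfl (G.plate hi hj (t := t) (by omega) hT.le)
    (s := (2 * (t + 1 - 3)).toNat) (by omega) (lin (d0 + t) d1 d2 (-1))
    (0, 0, 0, ((t + 1 : ℤ) : ℝ) - t)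
    (b.L (t + 1) - b.L t) 1 one_pos (fun x hx => ?_) (fun x hx hs => ?_) (fun x hx hs => ?_)
  · obtain ⟨a, c, d, rfl, h⟩ := mem_Box hx
    exact ⟨by simp only [mem_ofPred_eq, BP.S0]; omega, by simp only [BP.st]; omega⟩
  · rw [BP.lin_xi]
    rcases BP.old_plate hx (by omega) hs with ⟨a, c, d, rfl, h⟩ | ⟨d, k, rfl | rfl, h⟩ <;>
      simp only [mem_ofPred_eq, BP.S0] at hx <;>
      have h5 : (d : ℝ) ≤ t := (by exact_mod_cast (show d ≤ t by omega)) <;>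
      simp only [BP.cX, BP.cY, BP.cZ]
    · have h6 := h1 a c hx.1 hx.2.1 hx.2.2.1 hx.2.2.2.1
      refine ⟨by linarith, ⟨fun h => ?_, fun h => ?_⟩⟩
      · simp only [Box, boxP, mem_ofPred_eq] at h ⊢
        obtain rfl : d = t := by omega
        exact ⟨by linarith [h2 a c h.1 h.2.1 h.2.2.1 h.2.2.2.1], by omega⟩
      · have := h.2
        simp only [Box, boxP, mem_ofPred_eq] at this ⊢
        omega
    · have k0 : (0 : ℝ) ≤ k := by exact_mod_cast hx.2.2.2.1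
      have k1 : (k : ℝ) ≤ b.N := by exact_mod_cast hx.2.2.2.2
      have := h4 (b.N / 4 + k / 2) (b.N / 2) (by linarith) (by linarith) (by linarith) (by linarith)
      exact ⟨by linarith, by simp [Box, boxP]⟩
    · have k0 : (0 : ℝ) ≤ k := by exact_mod_cast hx.2.2.2.1
      have k1 : (k : ℝ) ≤ b.N := by exact_mod_cast hx.2.2.2.2
      have := h4 (b.N / 2) (b.N / 4 + k / 2) (by linarith) (by linarith) (by linarith) (by linarith)
      exact ⟨by linarith, by simp [Box, boxP]⟩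
  · obtain ⟨a, c, rfl⟩ := BP.new_plate hx (by omega) (by omega) hs
    simp only [mem_ofPred_eq, BP.S0] at hx
    have h6 := h1 a c hx.1 hx.2.1 hx.2.2.1 hx.2.2.2.1
    rw [BP.lin_xi]
    simp only [BP.cX, BP.cY, BP.cZ]
    rcases h6.eq_or_lt with h7 | h7
    · refine Or.inr ⟨by push_cast; linarith, gr a c t, ?_, (b.shift a c t (t + 1)).1,
        (b.shift a c t (t + 1)).2, by simp [Box, boxP]⟩
      simp only [mem_ofPred_eq, BP.S0]
      omega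
    · exact Or.inl ⟨by push_cast; linarith, fun h => h7.ne' (h2 a c h.1 h.2.1 h.2.2.1 h.2.2.2.1)⟩

lemma BG.zbox (G : BG b) {i i' j j' t : ℤ} (hi : Iv b.N i i') (hj : Iv b.N j j') (h0 : 0 ≤ t)
    (hT : t < b.T) (hw : t < 3 ∨ i' = 0 ∨ i = b.N ∨ j' = 0 ∨ j = b.N) :
    b.LF0 (Box i i' j j' t (t + 1)) := by
  rcases lt_or_ge t 3 with h3 | h3
  · exact G.core hi hj ⟨h0, by omega, le_rfl, by omega⟩
  have hN : (8 : ℝ) ≤ b.N := by exact_mod_cast G.N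
  have hi' := hi
  have hj' := hj
  unfold Iv at hi' hj'
  rcases hw with h | h | h | h | h
  · omega
  · refine G.wall0 hi hj h3 hT 0 1 0 (fun a c a1 _ _ _ => ?_) (fun a c a1 a2 _ _ => ?_)
      (fun u v _ _ _ _ => by linarith)
    · have : (0 : ℝ) ≤ a := by exact_mod_cast a1
      linarith
    · simp [show a = 0 by omega]
  · refine G.wall0 hi hj h3 hT b.N (-1) 0 (fun a c _ a1 _ _ => ?_) (fun a c a1 a2 _ _ => ?_)
      (fun u v _ _ _ _ => by linarith)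
    · have : (a : ℝ) ≤ b.N := by exact_mod_cast a1
      linarith
    · simp [show a = b.N by omega]
  · refine G.wall0 hi hj h3 hT 0 0 1 (fun a c _ _ a1 _ => ?_) (fun a c _ _ a1 a2 => ?_)
      (fun u v _ _ _ _ => by linarith)
    · have : (0 : ℝ) ≤ c := by exact_mod_cast a1
      linarith
    · simp [show c = 0 by omega]
  · refine G.wall0 hi hj h3 hT b.N 0 (-1) (fun a c _ _ _ a1 => ?_) (fun a c _ _ a1 a2 => ?_)
      (fun u v _ _ _ _ => by linarith)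
    · have : (c : ℝ) ≤ b.N := by exact_mod_cast a1
      linarith
    · simp [show c = b.N by omega]

lemma BP.z_gap {x : Bx} (h : b.S0 x) {t : ℤ} (h3 : 3 ≤ t) (ht : t < b.T)
    (hs : b.st x < (2 * (t - 3)).toNat + 1) : b.cZ x ≤ t := by
  rcases x with ⟨i, j, d⟩ | ⟨d, k⟩ | ⟨d, k⟩ | k | k | d | _ <;> simp only [BP.st] at hs <;>
    simp only [BP.cZ]
  · exact_mod_cast (show d ≤ t by omega)
  · have : (d : ℝ) + 1 ≤ t := by exact_mod_cast (show d + 1 ≤ t by omega)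
    linarith
  · have : (d : ℝ) + 1 ≤ t := by exact_mod_cast (show d + 1 ≤ t by omega)
    linarith
  all_goals omega

lemma BG.ix_lo (G : BG b) {i i' j j' t : ℤ} (hi : Iv b.N i i') (hj : Iv b.N j j') (h3 : 3 ≤ t)
    (hT : t < b.T) (hp : t % 2 = 1) : b.LF0 (Box i i' j j' t t ∪ ix t '' Icc i i') := by
  have hi' := hi
  have hj' := hj
  unfold Iv at hi' hj'
  refine G.rules.apex (G.plate hi hj (t := t) (by omega) hT.le) (s := (2 * (t - 3)).toNat + 1)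
    (by omega) (lin (2 * t) 0 0 (-2)) (1 / 2, b.N / 4, b.N / 2 - j / 2, t / 2 + 1 / 2)
    (b.H ((2 * (t - 3)).toNat + 1) - (b.g j + b.L t) / 2) (1 / 2) (by norm_num) (ix t)
    (fun k => gr k j t) 0 b.N (fun x hx => ?_) (fun x hx hs => ?_) ?_ (fun k k1 k2 => ?_)
    (fun _ _ h => (ix.inj h).2) (fun x => ?_)
  · obtain ⟨a, c, d, rfl, h⟩ := mem_Box hx
    obtain rfl : d = t := by omega
    exact ⟨by simp [BP.st], by rw [BP.lin_xi]; simp [BP.cZ]⟩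
  · rw [BP.lin_xi]
    linarith [BP.z_gap hx h3 hT hs]
  · rintro (⟨i, j, d⟩ | ⟨d, k⟩ | ⟨d, k⟩ | k | k | d | _) hx hs <;> simp only [BP.st] at hs <;>
      simp only [mem_ofPred_eq, BP.S0] at hx
    · omega
    · exact ⟨k, by omega, by omega, by rw [show d = t by omega]⟩
    all_goals omega
  · refine ⟨⟨h3, hT, hp, k1, k2⟩, rfl, by rw [BP.lin_xi]; simp only [BP.cZ]; ring,
      by simp only [mem_ofPred_eq, BP.S0]; omega, ?_, by simp only [BP.η]; ring⟩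
    simp only [BP.ξ, BP.cX, BP.cY, BP.cZ, Prod.smul_mk, Prod.mk_add_mk, smul_eq_mul, Prod.mk.injEq]
    refine ⟨by ring, by ring, by ring, by ring⟩
  · simp only [mem_union, mem_image, mem_Icc]
    refine or_congr_right ⟨?_, ?_⟩
    · rintro ⟨k, k1, rfl⟩
      exact ⟨k, by omega, by omega, by simp only [Box, boxP, mem_ofPred_eq]; omega, rfl⟩
    · rintro ⟨k, -, -, k1, rfl⟩
      exact ⟨k, ⟨k1.1, k1.2.1⟩, rfl⟩

lemma BG.iy_lo (G : BG b) {i i' j j' t : ℤ} (hi : Iv b.N i i') (hj : Iv b.N j j') (h3 : 3 ≤ t)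
    (hT : t < b.T) (hp : t % 2 = 0) : b.LF0 (Box i i' j j' t t ∪ iy t '' Icc j j') := by
  have hi' := hi
  have hj' := hj
  unfold Iv at hi' hj'
  refine G.rules.apex (G.plate hi hj (t := t) (by omega) hT.le) (s := (2 * (t - 3)).toNat + 1)
    (by omega) (lin (2 * t) 0 0 (-2)) (1 / 2, b.N / 2 - i / 2, b.N / 4, t / 2 + 1 / 2)
    (b.H ((2 * (t - 3)).toNat + 1) - (b.f i + b.L t) / 2) (1 / 2) (by norm_num) (iy t)
    (fun k => gr i k t) 0 b.N (fun x hx => ?_) (fun x hx hs => ?_) ?_ (fun k k1 k2 => ?_)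
    (fun _ _ h => (iy.inj h).2) (fun x => ?_)
  · obtain ⟨a, c, d, rfl, h⟩ := mem_Box hx
    obtain rfl : d = t := by omega
    exact ⟨by simp [BP.st], by rw [BP.lin_xi]; simp [BP.cZ]⟩
  · rw [BP.lin_xi]
    linarith [BP.z_gap hx h3 hT hs]
  · rintro (⟨i, j, d⟩ | ⟨d, k⟩ | ⟨d, k⟩ | k | k | d | _) hx hs <;> simp only [BP.st] at hs <;>
      simp only [mem_ofPred_eq, BP.S0] at hx
    · omega
    · omega
    · exact ⟨k, by omega, by omega, by rw [show d = t by omega]⟩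
    all_goals omega
  · refine ⟨⟨h3, hT, hp, k1, k2⟩, rfl, by rw [BP.lin_xi]; simp only [BP.cZ]; ring,
      by simp only [mem_ofPred_eq, BP.S0]; omega, ?_, by simp only [BP.η]; ring⟩
    simp only [BP.ξ, BP.cX, BP.cY, BP.cZ, Prod.smul_mk, Prod.mk_add_mk, smul_eq_mul, Prod.mk.injEq]
    refine ⟨by ring, by ring, by ring, by ring⟩
  · simp only [mem_union, mem_image, mem_Icc]
    refine or_congr_right ⟨?_, ?_⟩
    · rintro ⟨k, k1, rfl⟩
      exact ⟨k, by omega, by omega, by simp only [Box, boxP, mem_ofPred_eq]; omega, rfl⟩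
    · rintro ⟨k, -, -, k1, rfl⟩
      exact ⟨k, ⟨k1.2.2.1, k1.2.2.2.1⟩, rfl⟩

lemma BG.gap_hi (G : BG b) {i i' j j' t : ℤ} (hi : Iv b.N i i') (hj : Iv b.N j j') (h3 : 3 ≤ t)
    (hT : t < b.T) {A : Set Bx} (hA : ∀ x ∈ A, ∃ k, x = ix t k ∨ x = iy t k)
    (h : b.LF0 (Box i i' j j' t t ∪ A)) : b.LF0 (Box i i' j j' (t + 1) (t + 1) ∪ A) := by
  unfold Iv at hi hj
  refine G.rules.copy subset_rfl h
    (s := (2 * (t + 1 - 3)).toNat) (by omega) (lin (2 * t + 1) 0 0 (-2))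
    (0, 0, 0, ((t + 1 : ℤ) : ℝ) - t)
    (b.L (t + 1) - b.L t) 1 one_pos ?_ (fun x hx hs => ?_) (fun x hx hs => ?_)
  · rintro x (hx | hx)
    · obtain ⟨a, c, d, rfl, h⟩ := mem_Box hx
      exact ⟨by simp only [mem_ofPred_eq, BP.S0]; omega, by simp only [BP.st]; omega⟩
    · refine ⟨h.1 (Or.inr hx), ?_⟩
      obtain ⟨k, rfl | rfl⟩ := hA x hx <;> simp only [BP.st] <;> omega
  · have h1 := BP.z_old hx (by omega) hs
    rw [BP.lin_xi]
    push_cast at h1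
    refine ⟨by linarith, ⟨?_, ?_⟩⟩
    · rintro (h2 | h2)
      · obtain ⟨a, c, d, rfl, h⟩ := mem_Box h2
        simp only [BP.st] at hs
        omega
      · refine ⟨?_, Or.inr h2⟩
        obtain ⟨k, rfl | rfl⟩ := hA x h2 <;> simp only [BP.cZ] <;> ring
    · rintro ⟨h2, h4 | h4⟩
      · obtain ⟨a, c, d, rfl, h⟩ := mem_Box h4
        obtain rfl : d = t := by omega
        simp only [BP.cZ] at h2
        linarith
      · exact Or.inr h4
  · obtain ⟨a, c, rfl⟩ := BP.new_plate hx (by omega) (by omega) hs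
    have hn : ∀ d, gr a c d ∉ A := fun d h => by simpa using hA _ h
    refine Or.inr ⟨by rw [BP.lin_xi]; simp only [BP.cZ]; push_cast; ring, gr a c t, ?_,
      (b.shift a c t (t + 1)).1, (b.shift a c t (t + 1)).2, by simp [Box, boxP, hn]⟩
    simp only [mem_ofPred_eq, BP.S0] at hx ⊢
    omega

end Pool.Agent.P.MP_3c8515_co
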