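import Pool.Agent.P.MP_3c8515_co.Base2

namespace Pool.Agent.P.MP_3c8515_co

open Set Submodule Module Filter Bx

variable {b : BP}

lemma BG.lin_nonneg (G : BG b) {x : Bx} (hx : b.S0 x) {s : ℕ} (hs : b.st x < s) {a c d e : ℝ}
    (h1 : ∀ X Y Z : ℝ, 0 ≤ X → X ≤ b.N → 0 ≤ Y → Y ≤ b.N → 0 ≤ Z → Z ≤ b.T →
      0 ≤ a + c * X + d * Y + e * Z)
    (h2 : (2 * (b.T - 3)).toNat + 1 < s → ∀ X : ℝ, b.N / 4 ≤ X → X ≤ 3 * b.N / 4 →
      0 ≤ a + c * X - d + e)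
    (h3 : (2 * (b.T - 3)).toNat + 2 < s → ∀ Y : ℝ, b.N / 4 ≤ Y → Y ≤ 3 * b.N / 4 →
      0 ≤ a - c + d * Y - e)
    (h4 : (2 * (b.T - 3)).toNat + 3 < s → ∀ Z : ℝ, b.T / 4 ≤ Z → Z ≤ 3 * b.T / 4 →
      0 ≤ a + c * (b.N + 1) + d * (b.N + 1) + e * Z)
    (h5 : (2 * (b.T - 3)).toNat + 4 < s → 0 ≤ a + c * (b.N / 2) + e * (b.T + 1)) :
    0 ≤ lin a c d e (b.ξ x) := by
  have hN : (8 : ℝ) ≤ b.N := by exact_mod_cast G.N
  rw [BP.lin_xi]
  rcases x with ⟨i, j, t⟩ | ⟨t, k⟩ | ⟨t, k⟩ | k | k | t | _ <;> simp only [BP.st] at hs <;>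
    simp only [BP.S0] at hx <;> simp only [BP.cX, BP.cY, BP.cZ]
  · exact h1 _ _ _ (by exact_mod_cast hx.1) (by exact_mod_cast hx.2.1) (by exact_mod_cast hx.2.2.1)
      (by exact_mod_cast hx.2.2.2.1) (by exact_mod_cast hx.2.2.2.2.1)
      (by exact_mod_cast hx.2.2.2.2.2)
  · have k0 : (0 : ℝ) ≤ k := by exact_mod_cast hx.2.2.2.1
    have k1 : (k : ℝ) ≤ b.N := by exact_mod_cast hx.2.2.2.2
    have t0 : (3 : ℝ) ≤ t := by exact_mod_cast hx.1
    have t1 : (t : ℝ) + 1 ≤ b.T := by exact_mod_cast hx.2.1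
    exact h1 _ _ _ (by linarith) (by linarith) (by linarith) (by linarith) (by linarith)
      (by linarith)
  · have k0 : (0 : ℝ) ≤ k := by exact_mod_cast hx.2.2.2.1
    have k1 : (k : ℝ) ≤ b.N := by exact_mod_cast hx.2.2.2.2
    have t0 : (3 : ℝ) ≤ t := by exact_mod_cast hx.1
    have t1 : (t : ℝ) + 1 ≤ b.T := by exact_mod_cast hx.2.1
    exact h1 _ _ _ (by linarith) (by linarith) (by linarith) (by linarith) (by linarith)
      (by linarith)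
  · have k0 : (0 : ℝ) ≤ k := by exact_mod_cast hx.1
    have k1 : (k : ℝ) ≤ b.N := by exact_mod_cast hx.2
    linarith [h2 hs (b.N / 4 + k / 2) (by linarith) (by linarith)]
  · have k0 : (0 : ℝ) ≤ k := by exact_mod_cast hx.1
    have k1 : (k : ℝ) ≤ b.N := by exact_mod_cast hx.2
    linarith [h3 hs (b.N / 4 + k / 2) (by linarith) (by linarith)]
  · have k0 : (0 : ℝ) ≤ t := by exact_mod_cast hx.1
    have k1 : (t : ℝ) ≤ b.T := by exact_mod_cast hx.2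
    exact h4 hs _ (by linarith) (by linarith)
  · linarith [h5 hs]

lemma BG.st_gr (G : BG b) {i j t : ℤ} (h : t ≤ b.T) : b.st (gr i j t) ≤ (2 * (b.T - 3)).toNat := by
  simp only [BP.st]; omega

lemma BG.ax_face (G : BG b) {i i' t : ℤ} (hi : Iv b.N i i') (h0 : 0 ≤ t) (hT : t ≤ b.T) :
    b.LF0 (Box i i' 0 0 t t ∪ ax '' Icc i i') := by
  have hi' := hi
  have hN := G.N
  have hT' := G.T
  unfold Iv at hi'
  refine G.rules.apex (G.plate hi (j := 0) (j' := 0) (by unfold Iv; omega) h0 hT)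
    (s := (2 * (b.T - 3)).toNat + 1) (by omega) (lin 0 0 1 0) (1 / 2, b.N / 4, -1, 1 - t / 2)
    (b.H ((2 * (b.T - 3)).toNat + 1) - (b.g 0 + b.L t) / 2) (1 / 2) (by norm_num) ax
    (fun k => gr k 0 t) 0 b.N (fun x hx => ?_) (fun x hx hs => ?_) ?_ (fun k k1 k2 => ?_)
    (fun _ _ h => ax.inj h) (fun x => ?_)
  · obtain ⟨a, c, d, rfl, h⟩ := mem_Box hx
    obtain rfl : c = 0 := by omega
    exact ⟨Nat.lt_succ_of_le (G.st_gr (by omega)), by rw [BP.lin_xi]; simp [BP.cY]⟩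
  · exact G.lin_nonneg hx hs (fun _ _ _ _ _ _ _ _ _ => by linarith) (by omega) (by omega)
      (by omega) (by omega)
  · rintro (⟨i, j, d⟩ | ⟨d, k⟩ | ⟨d, k⟩ | k | k | d | _) hx hs <;> simp only [BP.st] at hs <;>
      simp only [mem_ofPred_eq, BP.S0] at hx
    · omega
    · omega
    · omega
    · exact ⟨k, hx.1, hx.2, rfl⟩
    all_goals omega
  · refine ⟨⟨k1, k2⟩, rfl, by rw [BP.lin_xi]; simp only [BP.cY]; ring,
      by simp only [mem_ofPred_eq, BP.S0]; omega, ?_, by simp only [BP.η]; ring⟩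
    simp only [BP.ξ, BP.cX, BP.cY, BP.cZ, Prod.smul_mk, Prod.mk_add_mk, smul_eq_mul, Prod.mk.injEq]
    refine ⟨by ring, by ring, by push_cast; ring, by ring⟩
  · simp only [mem_union, mem_image, mem_Icc]
    refine or_congr_right ⟨?_, ?_⟩
    · rintro ⟨k, k1, rfl⟩
      exact ⟨k, by omega, by omega, by simp only [Box, boxP, mem_ofPred_eq]; omega, rfl⟩
    · rintro ⟨k, -, -, k1, rfl⟩
      exact ⟨k, ⟨k1.1, k1.2.1⟩, rfl⟩

lemma BG.ay_face (G : BG b) {i j j' t : ℤ} (hj : Iv b.N j j') (i0 : 0 ≤ i) (iN : i ≤ b.N)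
    (h0 : 0 ≤ t) (hT : t ≤ b.T) (hw : i = 0 ∨ t = 0) :
    b.LF0 (Box i i j j' t t ∪ ay '' Icc j j') := by
  have hj' := hj
  have hN : (8 : ℝ) ≤ b.N := by exact_mod_cast G.N
  have hT' := G.T
  unfold Iv at hj'
  obtain ⟨c, e, c0, e0, ce, cz⟩ : ∃ c e : ℝ, 0 ≤ c ∧ 0 ≤ e ∧ c + e = 1 ∧ c * i + e * t = 0 := by
    rcases hw with rfl | rfl
    · exact ⟨1, 0, by norm_num⟩
    · exact ⟨0, 1, by norm_num⟩
  refine G.rules.apex (G.plate (i := i) (i' := i) (by unfold Iv; omega) hj h0 hT)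
    (s := (2 * (b.T - 3)).toNat + 2) (by omega) (lin 0 c 0 e)
    (1 / 2, -1 - i / 2, b.N / 4, -1 - t / 2)
    (b.H ((2 * (b.T - 3)).toNat + 2) - (b.f i + b.L t) / 2) (1 / 2) (by norm_num) ay
    (fun k => gr i k t) 0 b.N (fun x hx => ?_) (fun x hx hs => ?_) ?_ (fun k k1 k2 => ?_)
    (fun _ _ h => ay.inj h) (fun x => ?_)
  · obtain ⟨a, c, d, rfl, h⟩ := mem_Box hx
    obtain rfl : a = i := by omega
    obtain rfl : d = t := by omega
    exact ⟨(G.st_gr hT).trans_lt (by omega), by rw [BP.lin_xi]; simp only [BP.cX, BP.cZ]; linarith⟩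
  · exact G.lin_nonneg hx hs (fun _ _ _ _ _ _ _ _ _ => by positivity)
      (fun _ X _ _ => by nlinarith) (by omega) (by omega) (by omega)
  · rintro (⟨i, j, d⟩ | ⟨d, k⟩ | ⟨d, k⟩ | k | k | d | _) hx hs <;> simp only [BP.st] at hs <;>
      simp only [mem_ofPred_eq, BP.S0] at hx
    · omega
    · omega
    · omega
    · omega
    · exact ⟨k, hx.1, hx.2, rfl⟩
    all_goals omega
  · refine ⟨⟨k1, k2⟩, rfl, by rw [BP.lin_xi]; simp only [BP.cX, BP.cZ]; linarith,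
      by simp only [mem_ofPred_eq, BP.S0]; omega, ?_, by simp only [BP.η]; ring⟩
    simp only [BP.ξ, BP.cX, BP.cY, BP.cZ, Prod.smul_mk, Prod.mk_add_mk, smul_eq_mul, Prod.mk.injEq]
    refine ⟨by ring, by ring, by ring, by ring⟩
  · simp only [mem_union, mem_image, mem_Icc]
    refine or_congr_right ⟨?_, ?_⟩
    · rintro ⟨k, k1, rfl⟩
      exact ⟨k, by omega, by omega, by simp only [Box, boxP, mem_ofPred_eq]; omega, rfl⟩
    · rintro ⟨k, -, -, k1, rfl⟩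
      exact ⟨k, ⟨k1.2.2.1, k1.2.2.2.1⟩, rfl⟩

lemma BG.az_face (G : BG b) {i j t t' : ℤ} (ht : Iv b.T t t') (i0 : 0 ≤ i) (iN : i ≤ b.N)
    (j0 : 0 ≤ j) (jN : j ≤ b.N) (hw : i = b.N ∨ j = b.N) :
    b.LF0 (Box i i j j t t' ∪ az '' Icc t t') := by
  have hN : (8 : ℝ) ≤ b.N := by exact_mod_cast G.N
  have hT' := G.T
  unfold Iv at ht
  obtain ⟨c, e, c0, e0, ce, cz⟩ : ∃ c e : ℝ, 0 ≤ c ∧ 0 ≤ e ∧ c + e = 1 ∧
      c * (b.N - i) + e * (b.N - j) = 0 := by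
    rcases hw with rfl | rfl
    · exact ⟨1, 0, by norm_num⟩
    · exact ⟨0, 1, by norm_num⟩
  have h0 : b.LF0 (Box i i j j t t') := by
    rcases (show t' = t ∨ t' = t + 1 by omega) with rfl | rfl
    · exact G.plate (by unfold Iv; omega) (by unfold Iv; omega) (by omega) (by omega)
    · exact G.zbox (by unfold Iv; omega) (by unfold Iv; omega) (by omega) (by omega) (by omega)
  refine G.rules.apex h0 (s := (2 * (b.T - 3)).toNat + 3) (by omega) (lin b.N (-c) (-e) 0)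
    (1 / 2, b.N + 1 - i / 2, b.N + 1 - j / 2, b.T / 4)
    (b.H ((2 * (b.T - 3)).toNat + 3) - (b.f i + b.g j) / 2) (1 / 2) (by norm_num) az
    (fun k => gr i j k) 0 b.T (fun x hx => ?_) (fun x hx hs => ?_) ?_ (fun k k1 k2 => ?_)
    (fun _ _ h => az.inj h) (fun x => ?_)
  · obtain ⟨a, c', d, rfl, h⟩ := mem_Box hx
    obtain rfl : a = i := by omega
    obtain rfl : c' = j := by omega
    refine ⟨(G.st_gr (by omega)).trans_lt (by omega), ?_⟩
    rw [BP.lin_xi]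
    simp only [BP.cX, BP.cY]
    linear_combination cz - b.N * ce
  · exact G.lin_nonneg hx hs (fun _ _ _ _ _ _ _ _ _ => by nlinarith)
      (fun _ X _ _ => by nlinarith) (fun _ X _ _ => by nlinarith) (by omega) (by omega)
  · rintro (⟨i, j, d⟩ | ⟨d, k⟩ | ⟨d, k⟩ | k | k | d | _) hx hs <;> simp only [BP.st] at hs <;>
      simp only [mem_ofPred_eq, BP.S0] at hx
    · omega
    · omega
    · omega
    · omega
    · omega
    · exact ⟨d, hx.1, hx.2, rfl⟩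
    · omega
  · refine ⟨⟨k1, k2⟩, rfl, ?_, by simp only [mem_ofPred_eq, BP.S0]; omega, ?_,
      by simp only [BP.η]; ring⟩
    · rw [BP.lin_xi]
      simp only [BP.cX, BP.cY]
      linear_combination (-(b.N : ℝ) - 1) * ce
    · simp only [BP.ξ, BP.cX, BP.cY, BP.cZ, Prod.smul_mk, Prod.mk_add_mk, smul_eq_mul,
        Prod.mk.injEq]
      refine ⟨by ring, by ring, by ring, by ring⟩
  · simp only [mem_union, mem_image, mem_Icc]
    refine or_congr_right ⟨?_, ?_⟩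
    · rintro ⟨k, k1, rfl⟩
      exact ⟨k, by omega, by omega, by simp only [Box, boxP, mem_ofPred_eq]; omega, rfl⟩
    · rintro ⟨k, -, -, k1, rfl⟩
      exact ⟨k, ⟨k1.2.2.2.2.1, k1.2.2.2.2.2⟩, rfl⟩

lemma BG.bt_face (G : BG b) {x : Bx} (hx : b.LF0 {x}) (hn : x ≠ bt) {d : ℝ} (d0 : 0 ≤ d)
    (d1 : d ≤ b.T - 1) (hz : d * b.cY x + (b.T - b.cZ x) = 0) : b.LF0 {bt, x} := by
  have hx0 : b.S0 x := hx.1 rfl
  have hN : (8 : ℝ) ≤ b.N := by exact_mod_cast G.N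
  have hT : (6 : ℝ) ≤ b.T := by exact_mod_cast G.T
  have hT' := G.T
  have hs : ∀ y, b.S0 y → y ≠ bt → b.st y < (2 * (b.T - 3)).toNat + 4 := by
    rintro (⟨i, j, d⟩ | ⟨d, k⟩ | ⟨d, k⟩ | k | k | d | _) hy hn <;> simp only [BP.S0] at hy <;>
      simp only [BP.st]
    · omega
    · omega
    · omega
    · omega
    · omega
    · omega
    · exact absurd rfl hn
  refine G.rules.copy subset_rfl hx (s := (2 * (b.T - 3)).toNat + 4) (by omega) (lin b.T 0 d (-1))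
    (b.ξ bt - b.ξ x) (b.η bt - b.η x) 1 one_pos ?_ (fun y hy h => ⟨?_, ?_⟩) (fun y hy h => ?_)
  · rintro _ (rfl | rfl)
    · exact ⟨trivial, le_rfl⟩
    · exact ⟨hx0, (hs _ hx0 hn).le⟩
  · exact G.lin_nonneg hy h (fun _ _ _ _ _ _ _ _ _ => by nlinarith)
      (fun _ X _ _ => by linarith) (fun _ X _ _ => by nlinarith) (fun _ X _ _ => by nlinarith)
      (by omega)
  · have : y ≠ bt := by
      rintro rfl
      exact lt_irrefl _ h
    simp only [mem_insert_iff, this, false_or, mem_singleton_iff, iff_and_self]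
    rintro rfl
    rw [BP.lin_xi]
    linarith
  · obtain rfl : y = bt := by
      by_contra h0
      exact (hs y hy h0).ne h
    refine Or.inr ⟨by rw [BP.lin_xi]; simp only [BP.cY, BP.cZ]; ring, x, hx0, by simp, by simp,
      by simp⟩

lemma BP.toS {J J' : Set Bx} (h : b.LF0 J) (hS : ∀ x ∈ J', x ∈ b.S) (e : ∀ x, x ∈ J' ↔ x ∈ J) :
    b.LFs J' := by
  rw [← Set.ext e] at h
  exact h.restrict (fun x hx => hx.1) hS

lemma BP.eq0 {J J' : Set Bx} (h : b.LF0 J) (e : ∀ x, x ∈ J' ↔ x ∈ J) : b.LF0 J' := by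
  rwa [← Set.ext e] at h

lemma iv1 {N i : ℤ} (h0 : 0 ≤ i) (h1 : i ≤ N) : Iv N i i := ⟨h0, le_rfl, by omega, h1⟩

lemma iv2 {N i : ℤ} (h0 : 0 ≤ i) (h1 : i + 1 ≤ N) : Iv N i (i + 1) := ⟨h0, by omega, le_rfl, h1⟩

lemma BG.vert0 (G : BG b) {x : Bx} (hx : b.S0 x) (hn : x ≠ bt) : b.LF0 {x} := by
  have hN := G.N
  have hT := G.T
  rcases x with ⟨i, j, t⟩ | ⟨t, k⟩ | ⟨t, k⟩ | k | k | t | _ <;> simp only [BP.S0] at hx
  · refine BP.eq0 (G.plate (iv1 hx.1 hx.2.1) (iv1 hx.2.2.1 hx.2.2.2.1) hx.2.2.2.2.1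
      hx.2.2.2.2.2) ?_
    rintro (_ | _ | _ | _ | _ | _ | _) <;> simp [Box, boxP] <;> omega
  · refine BP.eq0 ((G.ix_lo (iv1 hx.2.2.2.1 hx.2.2.2.2) (iv1 (i := 0) le_rfl (by omega)) hx.1 hx.2.1
      hx.2.2.1).inter (G.ix_lo (iv1 hx.2.2.2.1 hx.2.2.2.2) (iv1 (i := 1) (by omega) (by omega))
      hx.1 hx.2.1 hx.2.2.1)) ?_
    rintro (_ | _ | _ | _ | _ | _ | _) <;> simp [Box, boxP] <;> omega
  · refine BP.eq0 ((G.iy_lo (iv1 (i := 0) le_rfl (by omega)) (iv1 hx.2.2.2.1 hx.2.2.2.2) hx.1 hx.2.1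
      hx.2.2.1).inter (G.iy_lo (iv1 (i := 1) (by omega) (by omega)) (iv1 hx.2.2.2.1 hx.2.2.2.2)
      hx.1 hx.2.1 hx.2.2.1)) ?_
    rintro (_ | _ | _ | _ | _ | _ | _) <;> simp [Box, boxP] <;> omega
  · refine BP.eq0 ((G.ax_face (iv1 hx.1 hx.2) (t := 0) le_rfl (by omega)).inter
      (G.ax_face (iv1 hx.1 hx.2) (t := 1) (by omega) (by omega))) ?_
    rintro (_ | _ | _ | _ | _ | _ | _) <;> simp [Box, boxP] <;> omega
  · refine BP.eq0 ((G.ay_face (iv1 hx.1 hx.2) (i := 0) (t := 0) le_rfl (by omega) le_rfl (by omega)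
      (by omega)).inter (G.ay_face (iv1 hx.1 hx.2) (i := 0) (t := 1) le_rfl (by omega) (by omega)
      (by omega) (by omega))) ?_
    rintro (_ | _ | _ | _ | _ | _ | _) <;> simp [Box, boxP] <;> omega
  · refine BP.eq0 ((G.az_face (iv1 hx.1 hx.2) (i := b.N) (j := 0) (by omega) le_rfl le_rfl (by omega)
      (by omega)).inter (G.az_face (iv1 hx.1 hx.2) (i := b.N) (j := 1) (by omega) le_rfl (by omega)
      (by omega) (by omega))) ?_
    rintro (_ | _ | _ | _ | _ | _ | _) <;> simp [Box, boxP] <;> omega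
  · exact absurd rfl hn

lemma BG.bt_gr (G : BG b) {i j : ℤ} (h : b.S0 (gr i j b.T)) : b.LF0 {bt, gr i j b.T} := by
  have hT : (6 : ℝ) ≤ b.T := by exact_mod_cast G.T
  exact G.bt_face (G.vert0 h (by simp)) (by simp) le_rfl (by linarith) (by simp [BP.cZ])

lemma BG.bt_ax (G : BG b) {k : ℤ} (h : b.S0 (ax k)) : b.LF0 {bt, ax k} := by
  have hT : (6 : ℝ) ≤ b.T := by exact_mod_cast G.T
  exact G.bt_face (G.vert0 h (by simp)) (by simp) (by linarith) le_rfl (by simp [BP.cY, BP.cZ])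

lemma BG.vert (G : BG b) {x : Bx} (hx : x ∈ b.S) : b.LFs {x} := by
  refine LF.restrict (S := {x | b.S0 x}) ?_ (fun x hx => hx.1) (by simpa using hx)
  by_cases hn : x = bt
  · subst hn
    have hN := G.N
    refine BP.eq0 ((G.bt_ax (k := 0) ⟨le_rfl, by omega⟩).inter
      (G.bt_ax (k := 1) ⟨by omega, by omega⟩)) ?_
    rintro (_ | _ | _ | _ | _ | _ | _) <;> simp <;> omega
  · exact G.vert0 hx.1 hn

lemma mem_gr {i j t : ℤ} : gr i j t ∈ b.S ↔ (0 ≤ i ∧ i ≤ b.N ∧ 0 ≤ j ∧ j ≤ b.N ∧ 0 ≤ t ∧ t ≤ b.T) ∧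
    (t < 3 → 3 ≤ i) ∧ (3 < t → i = 0 ∨ j = 0 ∨ b.I t ≤ i ∨ b.J t ≤ j) := Iff.rfl

lemma BG.tail_face (G : BG b) {i0 t0 j j' : ℤ} (hj : Iv b.N j j') {σ ρ : ℝ} (i1 : 0 ≤ i0)
    (i2 : i0 ≤ 2) (hσ : ∀ m, 0 ≤ m → m ≤ b.N → 0 ≤ b.qf.val σ m - b.qf.val σ i0 ∧
      (b.qf.val σ m - b.qf.val σ i0 = 0 ↔ i0 ≤ m ∧ m ≤ i0)) (hs : σ < b.qf.s 3) (t1 : 0 ≤ t0)
    (t2 : t0 < 3) (h1 : ∀ t : ℤ, 0 ≤ t → t < 3 → t ≠ t0 →
      0 < b.qf.val σ 3 - b.qf.val σ i0 + ((t : ℝ) ^ 2 - 9 - ρ * (t - 3)))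
    (h2 : b.qf.val σ 3 - b.qf.val σ i0 + ((t0 : ℝ) ^ 2 - 9 - ρ * (t0 - 3)) = 0) :
    b.LFs (Box i0 i0 j j' 3 3 ∪ Box 3 3 j j' t0 t0) := by
  obtain ⟨τ, hτ⟩ := G.cg.expose hj.1 hj.2.1 hj.2.2.1 hj.2.2.2
  have hN := G.N
  have hT := G.T
  unfold Iv at hj
  refine G.zero_face (fun x hx => hx.1) (3 * ρ - 9 - b.qf.val σ i0 - b.qg.val τ j) σ τ ρ ?_ ?_
  · rintro x (hx | hx) <;> obtain ⟨a, c, d, rfl, h⟩ := mem_Box hx <;>
      exact ⟨a, c, d, rfl, by omega, mem_gr.2 (by omega)⟩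
  · intro a c d h3 hx
    rw [mem_gr] at hx
    obtain ⟨a1, a2⟩ := hσ a hx.1.1 hx.1.2.1
    obtain ⟨b1, b2⟩ := hτ c hx.1.2.2.1 hx.1.2.2.2.1
    simp only [mem_union, Box, boxP, mem_ofPred_eq]
    rcases h3.eq_or_lt with rfl | h4
    · rw [show ((3 : ℤ) : ℝ) = 3 by norm_num]
      refine ⟨by linarith, ⟨fun h0 => ?_, fun h0 => ?_⟩⟩
      · have d1 := a2.1 (by linarith)
        have d2 := b2.1 (by linarith)
        omega
      · linarith [a2.2 (by omega), b2.2 (by omega)]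
    · have c1 : b.qf.val σ 3 ≤ b.qf.val σ a := G.cf.inc (by omega) hs.le le_rfl (by omega) (by omega)
      have c2 : 0 ≤ b.qf.val σ 3 - b.qf.val σ i0 + ((d : ℝ) ^ 2 - 9 - ρ * (d - 3)) := by
        by_cases hd : d = t0
        · rw [hd, h2]
        · exact (h1 d (by omega) h4 hd).le
      refine ⟨by linarith, ⟨fun h0 => ?_, fun h0 => ?_⟩⟩
      · have d2 := b2.1 (by linarith)
        have d3 : d = t0 := by
          by_contra hd
          linarith [h1 d (by omega) h4 hd]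
        have d4 : a = 3 := by
          by_contra hd
          linarith [G.cf.sinc (j := 3) (m := a) (by omega) hs (by omega) (by omega)]
        omega
      · obtain rfl : a = 3 := by omega
        obtain rfl : d = t0 := by omega
        linarith [b2.2 (by omega)]

lemma BG.kink_slope (G : BG b) {e : ℝ} (e0 : 0 < e) (e1 : e < 10) :
    (∀ m, 0 ≤ m → m ≤ b.N → 0 ≤ b.qf.val (b.qf.s 2 - e) m - b.qf.val (b.qf.s 2 - e) 2 ∧
      (b.qf.val (b.qf.s 2 - e) m - b.qf.val (b.qf.s 2 - e) 2 = 0 ↔ 2 ≤ m ∧ m ≤ 2)) ∧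
    b.qf.s 2 - e < b.qf.s 3 ∧ b.qf.val (b.qf.s 2 - e) 3 - b.qf.val (b.qf.s 2 - e) 2 = e := by
  have hN := G.N
  have k := G.kink
  refine ⟨G.cf.expose_of (by omega) le_rfl (by omega) (by omega) (fun _ => ?_)
    (fun _ => by linarith) rfl, ?_, ?_⟩
  · norm_num; linarith
  · linarith [G.cf.s 2 (by omega) (by omega), show b.qf.s (2 + 1) = b.qf.s 3 from rfl]
  · simp only [Sq.val, BP.qf]
    norm_num
    ring

lemma BG.tail (G : BG b) {i0 t0 j j' : ℤ} (hj : Iv b.N j j')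
    (h : (0 ≤ i0 ∧ i0 ≤ 2 ∧ t0 = 0) ∨ (i0 = 2 ∧ 0 ≤ t0 ∧ t0 < 3)) :
    b.LFs (Box i0 i0 j j' 3 3 ∪ Box 3 3 j j' t0 t0) := by
  have hN := G.N
  have c3 : ∀ t : ℤ, 0 ≤ t → t < 3 → t = 0 ∨ t = 1 ∨ t = 2 := fun t _ _ => by omega
  by_cases h2 : i0 = 2
  · subst h2
    rcases c3 t0 (by omega) (by omega) with rfl | rfl | rfl
    · obtain ⟨a1, a2, a3⟩ := G.kink_slope (e := 9) (by norm_num) (by norm_num)
      refine G.tail_face hj (ρ := 0) (by omega) le_rfl a1 a2 le_rfl (by omega) ?_ (by rw [a3]; norm_num)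
      intro t t1 t2 t3
      rw [a3]
      rcases c3 t t1 t2 with rfl | rfl | rfl <;> first | exact absurd rfl t3 | norm_num
    · obtain ⟨a1, a2, a3⟩ := G.kink_slope (e := 4) (by norm_num) (by norm_num)
      refine G.tail_face hj (ρ := 2) (by omega) le_rfl a1 a2 (by omega) (by omega) ?_
        (by rw [a3]; norm_num)
      intro t t1 t2 t3
      rw [a3]
      rcases c3 t t1 t2 with rfl | rfl | rfl <;> first | exact absurd rfl t3 | norm_num
    · obtain ⟨a1, a2, a3⟩ := G.kink_slope (e := 1) (by norm_num) (by norm_num)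
      refine G.tail_face hj (ρ := 4) (by omega) le_rfl a1 a2 (by omega) (by omega) ?_
        (by rw [a3]; norm_num)
      intro t t1 t2 t3
      rw [a3]
      rcases c3 t t1 t2 with rfl | rfl | rfl <;> first | exact absurd rfl t3 | norm_num
  · obtain rfl : t0 = 0 := by omega
    obtain ⟨σ, hσ⟩ := G.cf.expose (i := i0) (i' := i0) (by omega) le_rfl (by omega) (by omega)
    have s1 : σ ≤ b.qf.s 1 := (G.cf.le_s (v := i0) (by omega) (by omega)
      (by linarith [(hσ (i0 + 1) (by omega) (by omega)).1])).trans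
      (G.cf.smono (by omega) (by omega) (by omega))
    have s2 := G.cf.step σ (k := 2) (by omega) (by omega)
    have s3 := (hσ 2 (by omega) (by omega)).1
    have s4 := G.kink
    have s5 : b.qf.X (2 + 1) - b.qf.X 2 = 1 := by simp only [BP.qf]; norm_num
    have s6 : b.qf.s 2 < b.qf.s 3 := G.cf.s 2 (by omega) (by omega)
    rw [s5, show (2 : ℤ) + 1 = 3 from rfl] at s2
    refine G.tail_face hj (ρ := (9 - (b.qf.val σ 3 - b.qf.val σ i0)) / 3) (by omega) (by omega) hσ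
      (by linarith) le_rfl (by omega) ?_ (by push_cast; ring)
    intro t t1 t2 t3
    rcases c3 t t1 t2 with rfl | rfl | rfl
    · exact absurd rfl t3
    · push_cast; linarith
    · push_cast; linarith

end Pool.Agent.P.MP_3c8515_co
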