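import Pool.Agent.P.MP_3c8515_co.Base3

namespace Pool.Agent.P.MP_3c8515_co

open Set Submodule Module Filter Bx

variable {b : BP}

/-- quadrilateral faces of the four-dimensional configuration -/
abbrev BP.Qd (b : BP) (u w u' w' : Bx) : Prop := Quad b.S b.ξ b.η u w u' w'

lemma BG.q_xy (G : BG b) {i j t : ℤ}
    (h : 0 ≤ i ∧ i < b.N ∧ 0 ≤ j ∧ j < b.N ∧ 0 ≤ t ∧ t ≤ b.T ∧ (t < 3 → 3 ≤ i) ∧
      (3 < t → b.I t ≤ i ∨ b.J t ≤ j)) :
    b.Qd (gr i j t) (gr (i + 1) j t) (gr i (j + 1) t) (gr (i + 1) (j + 1) t) := by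
  have hN := G.N
  have hT := G.T
  refine ⟨BP.toS (G.plate (iv2 (i := i) (by omega) (by omega)) (iv2 (i := j) (by omega) (by omega))
    (t := t) (by omega) (by omega)) ?_ ?_, by simp, by simp, 1, ?_, by simp only [BP.η]; ring⟩
  · rintro _ (rfl | rfl | rfl | rfl)
    · exact mem_gr.2 (by omega)
    · exact mem_gr.2 (by omega)
    · exact mem_gr.2 (by omega)
    · exact mem_gr.2 (by omega)
  · rintro (_ | _ | _ | _ | _ | _ | _) <;> simp [Box, boxP] <;> omega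
  · simp only [BP.ξ, BP.cX, BP.cY, BP.cZ, Prod.mk_sub_mk, Prod.smul_mk, smul_eq_mul,
      Prod.mk.injEq]
    push_cast
    refine ⟨by ring, by ring, by ring, by ring⟩

lemma BG.q_yx (G : BG b) {i j t : ℤ}
    (h : 0 ≤ i ∧ i < b.N ∧ 0 ≤ j ∧ j < b.N ∧ 0 ≤ t ∧ t ≤ b.T ∧ (t < 3 → 3 ≤ i) ∧
      (3 < t → b.I t ≤ i ∨ b.J t ≤ j)) :
    b.Qd (gr i j t) (gr i (j + 1) t) (gr (i + 1) j t) (gr (i + 1) (j + 1) t) := by
  have hN := G.N
  have hT := G.T
  refine ⟨BP.toS (G.plate (iv2 (i := i) (by omega) (by omega)) (iv2 (i := j) (by omega) (by omega))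
    (t := t) (by omega) (by omega)) ?_ ?_, by simp, by simp, 1, ?_, by simp only [BP.η]; ring⟩
  · rintro _ (rfl | rfl | rfl | rfl)
    · exact mem_gr.2 (by omega)
    · exact mem_gr.2 (by omega)
    · exact mem_gr.2 (by omega)
    · exact mem_gr.2 (by omega)
  · rintro (_ | _ | _ | _ | _ | _ | _) <;> simp [Box, boxP] <;> omega
  · simp only [BP.ξ, BP.cX, BP.cY, BP.cZ, Prod.mk_sub_mk, Prod.smul_mk, smul_eq_mul,
      Prod.mk.injEq]
    push_cast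
    refine ⟨by ring, by ring, by ring, by ring⟩

lemma BG.q_xz (G : BG b) {i j t : ℤ}
    (h : 0 ≤ i ∧ i < b.N ∧ 0 ≤ j ∧ j ≤ b.N ∧ 0 ≤ t ∧ t < b.T ∧ (t < 3 → 3 ≤ i) ∧
      (3 ≤ t → j = 0 ∨ j = b.N)) :
    b.Qd (gr i j t) (gr (i + 1) j t) (gr i j (t + 1)) (gr (i + 1) j (t + 1)) := by
  have hN := G.N
  have hT := G.T
  have h1 := G.J t
  have h2 := G.J (t + 1)
  have h3 := G.I t
  have h4 := G.I (t + 1)
  refine ⟨BP.toS (G.zbox (iv2 (i := i) (by omega) (by omega)) (iv1 (i := j) (by omega) (by omega))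
    (t := t) (by omega) (by omega) (by omega)) ?_ ?_, by simp, by simp, 1, ?_, by simp only [BP.η]; ring⟩
  · rintro _ (rfl | rfl | rfl | rfl)
    · exact mem_gr.2 (by omega)
    · exact mem_gr.2 (by omega)
    · exact mem_gr.2 (by omega)
    · exact mem_gr.2 (by omega)
  · rintro (_ | _ | _ | _ | _ | _ | _) <;> simp [Box, boxP] <;> omega
  · simp only [BP.ξ, BP.cX, BP.cY, BP.cZ, Prod.mk_sub_mk, Prod.smul_mk, smul_eq_mul,
      Prod.mk.injEq]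
    push_cast
    refine ⟨by ring, by ring, by ring, by ring⟩

lemma BG.q_zx (G : BG b) {i j t : ℤ}
    (h : 0 ≤ i ∧ i < b.N ∧ 0 ≤ j ∧ j ≤ b.N ∧ 0 ≤ t ∧ t < b.T ∧ (t < 3 → 3 ≤ i) ∧
      (3 ≤ t → j = 0 ∨ j = b.N)) :
    b.Qd (gr i j t) (gr i j (t + 1)) (gr (i + 1) j t) (gr (i + 1) j (t + 1)) := by
  have hN := G.N
  have hT := G.T
  have h1 := G.J t
  have h2 := G.J (t + 1)
  have h3 := G.I t
  have h4 := G.I (t + 1)
  refine ⟨BP.toS (G.zbox (iv2 (i := i) (by omega) (by omega)) (iv1 (i := j) (by omega) (by omega))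
    (t := t) (by omega) (by omega) (by omega)) ?_ ?_, by simp, by simp, 1, ?_, by simp only [BP.η]; ring⟩
  · rintro _ (rfl | rfl | rfl | rfl)
    · exact mem_gr.2 (by omega)
    · exact mem_gr.2 (by omega)
    · exact mem_gr.2 (by omega)
    · exact mem_gr.2 (by omega)
  · rintro (_ | _ | _ | _ | _ | _ | _) <;> simp [Box, boxP] <;> omega
  · simp only [BP.ξ, BP.cX, BP.cY, BP.cZ, Prod.mk_sub_mk, Prod.smul_mk, smul_eq_mul,
      Prod.mk.injEq]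
    push_cast
    refine ⟨by ring, by ring, by ring, by ring⟩

lemma BG.q_yz (G : BG b) {i j t : ℤ}
    (h : 0 ≤ i ∧ i ≤ b.N ∧ 0 ≤ j ∧ j < b.N ∧ 0 ≤ t ∧ t < b.T ∧ (t < 3 → 3 ≤ i) ∧
      (3 ≤ t → i = 0 ∨ i = b.N)) :
    b.Qd (gr i j t) (gr i (j + 1) t) (gr i j (t + 1)) (gr i (j + 1) (t + 1)) := by
  have hN := G.N
  have hT := G.T
  have h1 := G.J t
  have h2 := G.J (t + 1)
  have h3 := G.I t
  have h4 := G.I (t + 1)
  refine ⟨BP.toS (G.zbox (iv1 (i := i) (by omega) (by omega)) (iv2 (i := j) (by omega) (by omega))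
    (t := t) (by omega) (by omega) (by omega)) ?_ ?_, by simp, by simp, 1, ?_, by simp only [BP.η]; ring⟩
  · rintro _ (rfl | rfl | rfl | rfl)
    · exact mem_gr.2 (by omega)
    · exact mem_gr.2 (by omega)
    · exact mem_gr.2 (by omega)
    · exact mem_gr.2 (by omega)
  · rintro (_ | _ | _ | _ | _ | _ | _) <;> simp [Box, boxP] <;> omega
  · simp only [BP.ξ, BP.cX, BP.cY, BP.cZ, Prod.mk_sub_mk, Prod.smul_mk, smul_eq_mul,
      Prod.mk.injEq]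
    push_cast
    refine ⟨by ring, by ring, by ring, by ring⟩

lemma BG.q_zy (G : BG b) {i j t : ℤ}
    (h : 0 ≤ i ∧ i ≤ b.N ∧ 0 ≤ j ∧ j < b.N ∧ 0 ≤ t ∧ t < b.T ∧ (t < 3 → 3 ≤ i) ∧
      (3 ≤ t → i = 0 ∨ i = b.N)) :
    b.Qd (gr i j t) (gr i j (t + 1)) (gr i (j + 1) t) (gr i (j + 1) (t + 1)) := by
  have hN := G.N
  have hT := G.T
  have h1 := G.J t
  have h2 := G.J (t + 1)
  have h3 := G.I t
  have h4 := G.I (t + 1)
  refine ⟨BP.toS (G.zbox (iv1 (i := i) (by omega) (by omega)) (iv2 (i := j) (by omega) (by omega))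
    (t := t) (by omega) (by omega) (by omega)) ?_ ?_, by simp, by simp, 1, ?_, by simp only [BP.η]; ring⟩
  · rintro _ (rfl | rfl | rfl | rfl)
    · exact mem_gr.2 (by omega)
    · exact mem_gr.2 (by omega)
    · exact mem_gr.2 (by omega)
    · exact mem_gr.2 (by omega)
  · rintro (_ | _ | _ | _ | _ | _ | _) <;> simp [Box, boxP] <;> omega
  · simp only [BP.ξ, BP.cX, BP.cY, BP.cZ, Prod.mk_sub_mk, Prod.smul_mk, smul_eq_mul,
      Prod.mk.injEq]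
    push_cast
    refine ⟨by ring, by ring, by ring, by ring⟩

lemma BG.q_ixl (G : BG b) {i j t : ℤ}
    (h : 0 ≤ i ∧ i < b.N ∧ 0 ≤ j ∧ j ≤ b.N ∧ 3 ≤ t ∧ t < b.T ∧ t % 2 = 1 ∧
      (3 < t → j = 0 ∨ b.I t ≤ i ∨ b.J t ≤ j)) :
    b.Qd (ix t i) (ix t (i + 1)) (gr i j t) (gr (i + 1) j t) := by
  have hN := G.N
  have hT := G.T
  refine ⟨BP.toS (G.ix_lo (iv2 (i := i) (by omega) (by omega)) (iv1 (i := j) (by omega) (by omega))
    (t := t) (by omega) (by omega) (by omega)) ?_ ?_, by simp, by simp, 1 / 2, ?_, by simp only [BP.η]; ring⟩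
  · rintro _ (rfl | rfl | rfl | rfl)
    · exact ⟨by simp only [BP.S0]; omega, trivial⟩
    · exact ⟨by simp only [BP.S0]; omega, trivial⟩
    · exact mem_gr.2 (by omega)
    · exact mem_gr.2 (by omega)
  · rintro (_ | _ | _ | _ | _ | _ | _) <;> simp [Box, boxP] <;> omega
  · simp only [BP.ξ, BP.cX, BP.cY, BP.cZ, Prod.mk_sub_mk, Prod.smul_mk, smul_eq_mul,
      Prod.mk.injEq]
    push_cast
    refine ⟨by ring, by ring, by ring, by ring⟩

lemma BG.q_ixh (G : BG b) {i j t : ℤ}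
    (h : 0 ≤ i ∧ i < b.N ∧ 0 ≤ j ∧ j ≤ b.N ∧ 3 ≤ t ∧ t < b.T ∧ t % 2 = 1 ∧
      (3 < (t + 1) → j = 0 ∨ b.I (t + 1) ≤ i ∨ b.J (t + 1) ≤ j)) :
    b.Qd (ix t i) (ix t (i + 1)) (gr i j (t + 1)) (gr (i + 1) j (t + 1)) := by
  have hN := G.N
  have hT := G.T
  refine ⟨BP.toS (G.gap_hi (iv2 (i := i) (by omega) (by omega)) (iv1 (i := j) (by omega) (by omega))
    (t := t) (by omega) (by omega) (by rintro _ ⟨k, -, rfl⟩; exact ⟨k, Or.inl rfl⟩)
    (G.ix_lo (iv2 (i := i) (by omega) (by omega)) (iv1 (i := j) (by omega) (by omega))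
    (t := t) (by omega) (by omega) (by omega))) ?_ ?_, by simp, by simp, 1 / 2, ?_, by simp only [BP.η]; ring⟩
  · rintro _ (rfl | rfl | rfl | rfl)
    · exact ⟨by simp only [BP.S0]; omega, trivial⟩
    · exact ⟨by simp only [BP.S0]; omega, trivial⟩
    · exact mem_gr.2 (by omega)
    · exact mem_gr.2 (by omega)
  · rintro (_ | _ | _ | _ | _ | _ | _) <;> simp [Box, boxP] <;> omega
  · simp only [BP.ξ, BP.cX, BP.cY, BP.cZ, Prod.mk_sub_mk, Prod.smul_mk, smul_eq_mul,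
      Prod.mk.injEq]
    push_cast
    refine ⟨by ring, by ring, by ring, by ring⟩

lemma BG.q_iyl (G : BG b) {i j t : ℤ}
    (h : 0 ≤ i ∧ i ≤ b.N ∧ 0 ≤ j ∧ j < b.N ∧ 3 ≤ t ∧ t < b.T ∧ t % 2 = 0 ∧
      (3 < t → i = 0 ∨ b.I t ≤ i ∨ b.J t ≤ j)) :
    b.Qd (iy t j) (iy t (j + 1)) (gr i j t) (gr i (j + 1) t) := by
  have hN := G.N
  have hT := G.T
  refine ⟨BP.toS (G.iy_lo (iv1 (i := i) (by omega) (by omega)) (iv2 (i := j) (by omega) (by omega))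
    (t := t) (by omega) (by omega) (by omega)) ?_ ?_, by simp, by simp, 1 / 2, ?_, by simp only [BP.η]; ring⟩
  · rintro _ (rfl | rfl | rfl | rfl)
    · exact ⟨by simp only [BP.S0]; omega, trivial⟩
    · exact ⟨by simp only [BP.S0]; omega, trivial⟩
    · exact mem_gr.2 (by omega)
    · exact mem_gr.2 (by omega)
  · rintro (_ | _ | _ | _ | _ | _ | _) <;> simp [Box, boxP] <;> omega
  · simp only [BP.ξ, BP.cX, BP.cY, BP.cZ, Prod.mk_sub_mk, Prod.smul_mk, smul_eq_mul,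
      Prod.mk.injEq]
    push_cast
    refine ⟨by ring, by ring, by ring, by ring⟩

lemma BG.q_iyh (G : BG b) {i j t : ℤ}
    (h : 0 ≤ i ∧ i ≤ b.N ∧ 0 ≤ j ∧ j < b.N ∧ 3 ≤ t ∧ t < b.T ∧ t % 2 = 0 ∧
      (3 < (t + 1) → i = 0 ∨ b.I (t + 1) ≤ i ∨ b.J (t + 1) ≤ j)) :
    b.Qd (iy t j) (iy t (j + 1)) (gr i j (t + 1)) (gr i (j + 1) (t + 1)) := by
  have hN := G.N
  have hT := G.T
  refine ⟨BP.toS (G.gap_hi (iv1 (i := i) (by omega) (by omega)) (iv2 (i := j) (by omega) (by omega))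
    (t := t) (by omega) (by omega) (by rintro _ ⟨k, -, rfl⟩; exact ⟨k, Or.inr rfl⟩)
    (G.iy_lo (iv1 (i := i) (by omega) (by omega)) (iv2 (i := j) (by omega) (by omega))
    (t := t) (by omega) (by omega) (by omega))) ?_ ?_, by simp, by simp, 1 / 2, ?_, by simp only [BP.η]; ring⟩
  · rintro _ (rfl | rfl | rfl | rfl)
    · exact ⟨by simp only [BP.S0]; omega, trivial⟩
    · exact ⟨by simp only [BP.S0]; omega, trivial⟩
    · exact mem_gr.2 (by omega)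
    · exact mem_gr.2 (by omega)
  · rintro (_ | _ | _ | _ | _ | _ | _) <;> simp [Box, boxP] <;> omega
  · simp only [BP.ξ, BP.cX, BP.cY, BP.cZ, Prod.mk_sub_mk, Prod.smul_mk, smul_eq_mul,
      Prod.mk.injEq]
    push_cast
    refine ⟨by ring, by ring, by ring, by ring⟩

lemma BG.q_ax (G : BG b) {i t : ℤ}
    (h : 0 ≤ i ∧ i < b.N ∧ 0 ≤ t ∧ t ≤ b.T ∧ (t < 3 → 3 ≤ i)) :
    b.Qd (ax i) (ax (i + 1)) (gr i 0 t) (gr (i + 1) 0 t) := by
  have hN := G.N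
  have hT := G.T
  refine ⟨BP.toS (G.ax_face (iv2 (i := i) (by omega) (by omega)) (t := t) (by omega)
    (by omega)) ?_ ?_, by simp, by simp, 1 / 2, ?_, by simp only [BP.η]; ring⟩
  · rintro _ (rfl | rfl | rfl | rfl)
    · exact ⟨by simp only [BP.S0]; omega, trivial⟩
    · exact ⟨by simp only [BP.S0]; omega, trivial⟩
    · exact mem_gr.2 (by omega)
    · exact mem_gr.2 (by omega)
  · rintro (_ | _ | _ | _ | _ | _ | _) <;> simp [Box, boxP] <;> omega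
  · simp only [BP.ξ, BP.cX, BP.cY, BP.cZ, Prod.mk_sub_mk, Prod.smul_mk, smul_eq_mul,
      Prod.mk.injEq]
    push_cast
    refine ⟨by ring, by ring, by ring, by ring⟩

lemma BG.q_ay (G : BG b) {i j t : ℤ}
    (h : 0 ≤ i ∧ i ≤ b.N ∧ 0 ≤ j ∧ j < b.N ∧ 0 ≤ t ∧ t ≤ b.T ∧ (t < 3 → 3 ≤ i) ∧ (i = 0 ∨ t = 0)) :
    b.Qd (ay j) (ay (j + 1)) (gr i j t) (gr i (j + 1) t) := by
  have hN := G.N
  have hT := G.T
  refine ⟨BP.toS (G.ay_face (iv2 (i := j) (by omega) (by omega)) (i := i) (t := t) (by omega)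
    (by omega) (by omega) (by omega) (by omega)) ?_ ?_, by simp, by simp, 1 / 2, ?_, by simp only [BP.η]; ring⟩
  · rintro _ (rfl | rfl | rfl | rfl)
    · exact ⟨by simp only [BP.S0]; omega, trivial⟩
    · exact ⟨by simp only [BP.S0]; omega, trivial⟩
    · exact mem_gr.2 (by omega)
    · exact mem_gr.2 (by omega)
  · rintro (_ | _ | _ | _ | _ | _ | _) <;> simp [Box, boxP] <;> omega
  · simp only [BP.ξ, BP.cX, BP.cY, BP.cZ, Prod.mk_sub_mk, Prod.smul_mk, smul_eq_mul,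
      Prod.mk.injEq]
    push_cast
    refine ⟨by ring, by ring, by ring, by ring⟩

lemma BG.q_az (G : BG b) {i j t : ℤ}
    (h : 0 ≤ i ∧ i ≤ b.N ∧ 0 ≤ j ∧ j ≤ b.N ∧ 0 ≤ t ∧ t < b.T ∧ (t < 3 → 3 ≤ i) ∧
      (i = b.N ∨ j = b.N)) :
    b.Qd (az t) (az (t + 1)) (gr i j t) (gr i j (t + 1)) := by
  have hN := G.N
  have hT := G.T
  have h1 := G.J t
  have h2 := G.J (t + 1)
  have h3 := G.I t
  have h4 := G.I (t + 1)
  refine ⟨BP.toS (G.az_face (iv2 (i := t) (by omega) (by omega)) (i := i) (j := j) (by omega)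
    (by omega) (by omega) (by omega) (by omega)) ?_ ?_, by simp, by simp, 1 / 2, ?_, by simp only [BP.η]; ring⟩
  · rintro _ (rfl | rfl | rfl | rfl)
    · exact ⟨by simp only [BP.S0]; omega, trivial⟩
    · exact ⟨by simp only [BP.S0]; omega, trivial⟩
    · exact mem_gr.2 (by omega)
    · exact mem_gr.2 (by omega)
  · rintro (_ | _ | _ | _ | _ | _ | _) <;> simp [Box, boxP] <;> omega
  · simp only [BP.ξ, BP.cX, BP.cY, BP.cZ, Prod.mk_sub_mk, Prod.smul_mk, smul_eq_mul,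
      Prod.mk.injEq]
    push_cast
    refine ⟨by ring, by ring, by ring, by ring⟩

lemma BG.q_tail (G : BG b) {i j t : ℤ}
    (h : 0 ≤ j ∧ j < b.N ∧ ((0 ≤ i ∧ i ≤ 2 ∧ t = 0) ∨ (i = 2 ∧ 0 ≤ t ∧ t < 3))) :
    b.Qd (gr i j 3) (gr i (j + 1) 3) (gr 3 j t) (gr 3 (j + 1) t) := by
  have h1 := G.tail (iv2 (i := j) (by omega) (by omega)) h.2.2
  have e : ({gr i j 3, gr i (j + 1) 3, gr 3 j t, gr 3 (j + 1) t} : Set Bx) =
      Box i i j (j + 1) 3 3 ∪ Box 3 3 j (j + 1) t t := by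
    apply Set.ext
    rintro (_ | _ | _ | _ | _ | _ | _) <;> simp [Box, boxP] <;> omega
  refine ⟨e ▸ h1, by simp, by simp, 1, ?_, by simp only [BP.η]; ring⟩
  simp only [BP.ξ, BP.cX, BP.cY, BP.cZ, Prod.mk_sub_mk, Prod.smul_mk, smul_eq_mul, Prod.mk.injEq]
  push_cast
  refine ⟨by ring, by ring, by ring, by ring⟩

lemma BG.e_x (G : BG b) {i j t : ℤ} (h1 : gr i j t ∈ b.S) (h2 : gr (i + 1) j t ∈ b.S) :
    b.LFs {gr i j t, gr (i + 1) j t} := by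
  have hN := G.N
  have hT := G.T
  have h3 := h1.1
  have h4 := h2.1
  simp only [BP.S0] at h3 h4
  refine BP.toS (G.plate (iv2 (i := i) (by omega) (by omega)) (iv1 (i := j) (by omega) (by omega))
    (t := t) (by omega) (by omega)) (by rintro _ (rfl | rfl) <;> assumption) ?_
  rintro (_ | _ | _ | _ | _ | _ | _) <;> simp [Box, boxP] <;> omega

lemma BG.e_y (G : BG b) {i j t : ℤ} (h1 : gr i j t ∈ b.S) (h2 : gr i (j + 1) t ∈ b.S) :
    b.LFs {gr i j t, gr i (j + 1) t} := by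
  have hN := G.N
  have hT := G.T
  have h3 := h1.1
  have h4 := h2.1
  simp only [BP.S0] at h3 h4
  refine BP.toS (G.plate (iv1 (i := i) (by omega) (by omega)) (iv2 (i := j) (by omega) (by omega))
    (t := t) (by omega) (by omega)) (by rintro _ (rfl | rfl) <;> assumption) ?_
  rintro (_ | _ | _ | _ | _ | _ | _) <;> simp [Box, boxP] <;> omega

lemma BG.e_z (G : BG b) {i j t : ℤ} (h1 : gr i j t ∈ b.S) (h2 : gr i j (t + 1) ∈ b.S)
    (h : t < 3 ∨ i = 0 ∨ i = b.N ∨ j = 0 ∨ j = b.N) :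
    b.LFs {gr i j t, gr i j (t + 1)} := by
  have hN := G.N
  have hT := G.T
  have h3 := h1.1
  have h4 := h2.1
  simp only [BP.S0] at h3 h4
  refine BP.toS (G.zbox (iv1 (i := i) (by omega) (by omega)) (iv1 (i := j) (by omega) (by omega))
    (t := t) (by omega) (by omega) h) (by rintro _ (rfl | rfl) <;> assumption) ?_
  rintro (_ | _ | _ | _ | _ | _ | _) <;> simp [Box, boxP] <;> omega

lemma BG.e_ax (G : BG b) {k : ℤ} (h1 : ax k ∈ b.S) (h2 : ax (k + 1) ∈ b.S) :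
    b.LFs {ax k, ax (k + 1)} := by
  have hN := G.N
  have hT := G.T
  have h3 := h1.1
  have h4 := h2.1
  simp only [BP.S0] at h3 h4
  refine BP.toS ((G.ax_face (iv2 (i := k) (by omega) (by omega)) (t := 0) (by omega) (by omega)).inter
    (G.ax_face (iv2 (i := k) (by omega) (by omega)) (t := 1) (by omega) (by omega))) (by rintro _ (rfl | rfl) <;> assumption) ?_
  rintro (_ | _ | _ | _ | _ | _ | _) <;> simp [Box, boxP] <;> omega

lemma BG.e_ay (G : BG b) {k : ℤ} (h1 : ay k ∈ b.S) (h2 : ay (k + 1) ∈ b.S) :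
    b.LFs {ay k, ay (k + 1)} := by
  have hN := G.N
  have hT := G.T
  have h3 := h1.1
  have h4 := h2.1
  simp only [BP.S0] at h3 h4
  refine BP.toS ((G.ay_face (iv2 (i := k) (by omega) (by omega)) (i := 0) (t := 0) (by omega) (by omega)
    (by omega) (by omega) (by omega)).inter (G.ay_face (iv2 (i := k) (by omega) (by omega)) (i := 0)
    (t := 1) (by omega) (by omega) (by omega) (by omega) (by omega))) (by rintro _ (rfl | rfl) <;> assumption) ?_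
  rintro (_ | _ | _ | _ | _ | _ | _) <;> simp [Box, boxP] <;> omega

lemma BG.e_az (G : BG b) {k : ℤ} (h1 : az k ∈ b.S) (h2 : az (k + 1) ∈ b.S) :
    b.LFs {az k, az (k + 1)} := by
  have hN := G.N
  have hT := G.T
  have h3 := h1.1
  have h4 := h2.1
  simp only [BP.S0] at h3 h4
  refine BP.toS ((G.az_face (iv2 (i := k) (by omega) (by omega)) (i := b.N) (j := 0) (by omega)
    (by omega) (by omega) (by omega) (by omega)).inter (G.az_face (iv2 (i := k) (by omega) (by omega))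
    (i := b.N) (j := 1) (by omega) (by omega) (by omega) (by omega) (by omega))) (by rintro _ (rfl | rfl) <;> assumption) ?_
  rintro (_ | _ | _ | _ | _ | _ | _) <;> simp [Box, boxP] <;> omega

lemma BG.s_ax (G : BG b) {k t : ℤ} (h1 : ax k ∈ b.S) (h2 : gr k 0 t ∈ b.S) :
    b.LFs {ax k, gr k 0 t} := by
  have hN := G.N
  have hT := G.T
  have h3 := h1.1
  have h4 := h2.1
  simp only [BP.S0] at h3 h4
  refine BP.toS (G.ax_face (iv1 (i := k) (by omega) (by omega)) (t := t) (by omega) (by omega)) (by rintro _ (rfl | rfl) <;> assumption) ?_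
  rintro (_ | _ | _ | _ | _ | _ | _) <;> simp [Box, boxP] <;> omega

lemma BG.s_ay (G : BG b) {i k : ℤ} (h1 : ay k ∈ b.S) (h2 : gr i k 0 ∈ b.S) :
    b.LFs {ay k, gr i k 0} := by
  have hN := G.N
  have hT := G.T
  have h3 := h1.1
  have h4 := h2.1
  simp only [BP.S0] at h3 h4
  refine BP.toS (G.ay_face (iv1 (i := k) (by omega) (by omega)) (i := i) (t := 0) (by omega) (by omega)
    (by omega) (by omega) (by omega)) (by rintro _ (rfl | rfl) <;> assumption) ?_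
  rintro (_ | _ | _ | _ | _ | _ | _) <;> simp [Box, boxP] <;> omega

lemma BG.s_az (G : BG b) {j t : ℤ} (h1 : az t ∈ b.S) (h2 : gr b.N j t ∈ b.S) :
    b.LFs {az t, gr b.N j t} := by
  have hN := G.N
  have hT := G.T
  have h3 := h1.1
  have h4 := h2.1
  simp only [BP.S0] at h3 h4
  refine BP.toS (G.az_face (iv1 (i := t) (by omega) (by omega)) (i := b.N) (j := j) (by omega)
    (by omega) (by omega) (by omega) (by omega)) (by rintro _ (rfl | rfl) <;> assumption) ?_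
  rintro (_ | _ | _ | _ | _ | _ | _) <;> simp [Box, boxP] <;> omega

lemma BG.plate_face (G : BG b) {t : ℤ} (h3 : 3 < t) (hT : t ≤ b.T) (c σ τ : ℝ)
    (h : ∀ i j, gr i j t ∈ b.S → 0 ≤ c + b.qf.val σ i + b.qg.val τ j) :
    b.LFs {x | ∃ i j, x = gr i j t ∧ x ∈ b.S ∧ c + b.qf.val σ i + b.qg.val τ j = 0} := by
  have hs : (0 : ℕ) < (2 * (t - 3)).toNat := by omega
  refine G.rules.tent _ hs _ (fun x hx => hx.1) _ ⟨?_, lin (4 * t - 1) 0 0 (-4),
    lin ((t : ℝ) ^ 2 - c) σ τ 0, fun x hx hs => ?_, fun x hx hs => ?_⟩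
  · rintro _ ⟨i, j, rfl, h1, -⟩
    exact ⟨h1, le_rfl⟩
  · have h1 := BP.z_old hx.1 hT hs
    rw [BP.lin_xi]
    refine ⟨by linarith, fun h => by linarith, ⟨?_, fun h => by linarith [h.1]⟩⟩
    rintro ⟨i, j, rfl, -⟩
    exact absurd hs (lt_irrefl _)
  · obtain ⟨i, j, rfl⟩ := BP.new_plate hx.1 h3 hT hs
    have e : (b.η (gr i j t) - if b.st (gr i j t) = (2 * (t - 3)).toNat then
        b.H (2 * (t - 3)).toNat else 0) - lin ((t : ℝ) ^ 2 - c) σ τ 0 (b.ξ (gr i j t)) =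
        c + b.qf.val σ i + b.qg.val τ j := by
      rw [if_pos hs]
      simp only [BP.lin_xi, BP.η, BP.L, BP.cX, BP.cY, BP.cZ, Sq.val, BP.qf, BP.qg, if_pos h3]
      ring
    have e' : lin (4 * t - 1) 0 0 (-4) (b.ξ (gr i j t)) = -1 := by
      rw [BP.lin_xi]; simp only [BP.cZ]; ring
    simp only [e, e']
    refine ⟨le_rfl, fun _ => h i j hx, ⟨?_, fun h0 => ⟨i, j, rfl, hx, h0.2⟩⟩⟩
    rintro ⟨i', j', e1, -, h0⟩
    obtain ⟨rfl, rfl, -⟩ := gr.inj e1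
    exact ⟨trivial, h0⟩

lemma BG.notch_x (G : BG b) {t l m : ℤ} (h3 : 3 < t) (hT : t ≤ b.T) (l1 : 1 ≤ l) (l2 : l + 2 ≤ b.I t)
    (m1 : 1 ≤ m) (m2 : m < b.J t) (d : b.qf.D l (b.I t) ≤ b.qg.D m (b.J t))
    (d1 : b.qf.D l (b.I t) ≤ b.qf.D 1 0) (d2 : b.qf.D l (b.I t) ≤ b.qg.D 1 0) :
    ∃ J m', m < m' ∧ m' ≤ b.J t ∧ b.LFs J ∧ gr l (b.J t) t ∈ J ∧ gr (l + 1) (b.J t) t ∈ J ∧
      gr (b.I t) m' t ∈ J := by
  have hI := G.I t
  have hJ := G.J t
  obtain ⟨σ, m', a1, a2, a3, a4⟩ := G.cf.notch G.cg l1 l2 hI m1 m2 hJ d d1 d2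
  have a5 := G.cf.step (b.qf.s l) (k := l) (by omega) (by omega)
  refine ⟨_, m', a1, a2, G.plate_face h3 hT
    (-b.qf.D l (b.I t) - b.qf.val (b.qf.s l) l - b.qg.val σ m') (b.qf.s l) σ (fun i j h => ?_),
    ⟨_, _, rfl, mem_gr.2 (by omega), by linarith⟩, ⟨_, _, rfl, mem_gr.2 (by omega), by linarith⟩,
    ⟨_, _, rfl, mem_gr.2 (by omega), by unfold Sq.D; ring⟩⟩
  rw [mem_gr] at h
  linarith [a4 i j (by omega) (by omega) (by omega) (by omega) (by omega)]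

lemma BG.notch_y (G : BG b) {t l m : ℤ} (h3 : 3 < t) (hT : t ≤ b.T) (l1 : 1 ≤ l) (l2 : l + 2 ≤ b.J t)
    (m1 : 1 ≤ m) (m2 : m < b.I t) (d : b.qg.D l (b.J t) ≤ b.qf.D m (b.I t))
    (d1 : b.qg.D l (b.J t) ≤ b.qg.D 1 0) (d2 : b.qg.D l (b.J t) ≤ b.qf.D 1 0) :
    ∃ J m', m < m' ∧ m' ≤ b.I t ∧ b.LFs J ∧ gr (b.I t) l t ∈ J ∧ gr (b.I t) (l + 1) t ∈ J ∧
      gr m' (b.J t) t ∈ J := by
  have hI := G.I t
  have hJ := G.J t
  obtain ⟨σ, m', a1, a2, a3, a4⟩ := G.cg.notch G.cf l1 l2 hJ m1 m2 hI d d1 d2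
  have a5 := G.cg.step (b.qg.s l) (k := l) (by omega) (by omega)
  refine ⟨_, m', a1, a2, G.plate_face h3 hT
    (-b.qg.D l (b.J t) - b.qg.val (b.qg.s l) l - b.qf.val σ m') σ (b.qg.s l) (fun i j h => ?_),
    ⟨_, _, rfl, mem_gr.2 (by omega), by linarith⟩, ⟨_, _, rfl, mem_gr.2 (by omega), by linarith⟩,
    ⟨_, _, rfl, mem_gr.2 (by omega), by unfold Sq.D; ring⟩⟩
  rw [mem_gr] at h
  linarith [a4 j i (by omega) (by omega) (by omega) (by omega) (by omega)]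

lemma BG.tail_notch (G : BG b) :
    ∃ J, b.LFs J ∧ gr 2 0 3 ∈ J ∧ gr 3 0 0 ∈ J ∧ gr 3 0 1 ∈ J := by
  have hN := G.N
  have hT := G.T
  obtain ⟨a1, a2, a3⟩ := G.kink_slope (e := 6) (by norm_num) (by norm_num)
  set σ := b.qf.s 2 - 6
  refine ⟨{x | ∃ i j t, x = gr i j t ∧ t ≤ 3 ∧ x ∈ b.S ∧ (-6 - b.qf.val σ 2 - b.qg.val (b.qg.s 0) 0) +
    b.qf.val σ i + b.qg.val (b.qg.s 0) j + ((t : ℝ) ^ 2 - 1 * t) = 0}, G.zero_face (fun x hx => hx.1)
    (-6 - b.qf.val σ 2 - b.qg.val (b.qg.s 0) 0) σ (b.qg.s 0) 1 ?_ (fun i j t h3 hx => ⟨?_, ?_⟩),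
    ⟨_, _, _, rfl, le_rfl, mem_gr.2 (by omega), by push_cast; ring⟩,
    ⟨_, _, _, rfl, by omega, mem_gr.2 (by omega), by push_cast; linarith⟩,
    ⟨_, _, _, rfl, by omega, mem_gr.2 (by omega), by push_cast; linarith⟩⟩
  · rintro _ ⟨i, j, t, rfl, h1, h2, -⟩
    exact ⟨i, j, t, rfl, h1, h2⟩
  · rw [mem_gr] at hx
    have b1 := G.cg.inc (j := 0) le_rfl le_rfl le_rfl hx.1.2.2.1 hx.1.2.2.2.1
    rcases h3.eq_or_lt with rfl | h4
    · push_cast
      linarith [(a1 i (by omega) (by omega)).1]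
    · have b2 := G.cf.inc (j := 3) (m := 3) (m' := i) (by omega) a2.le le_rfl (by omega) (by omega)
      rcases (show t = 0 ∨ t = 1 ∨ t = 2 by omega) with rfl | rfl | rfl <;> push_cast <;> linarith
  · refine ⟨fun h => ⟨i, j, t, rfl, h3, hx, h⟩, ?_⟩
    rintro ⟨i', j', t', e, -, -, h⟩
    obtain ⟨rfl, rfl, rfl⟩ := gr.inj e
    exact h

lemma BG.vf_zero {a c d e : ℝ} (h : ∀ x, b.S0 x → 0 ≤ lin a c d e (b.ξ x)) :
    IsFc b.S b.ξ {x | x ∈ b.S ∧ lin a c d e (b.ξ x) = 0} :=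
  ⟨fun _ hx => hx.1, lin a c d e, fun x hx => ⟨h x hx.1, ⟨fun h0 => ⟨hx, h0⟩, fun h0 => h0.2⟩⟩⟩

end Pool.Agent.P.MP_3c8515_co
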