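import Pool.Agent.P.MP_3c8515_co.Base4

namespace Pool.Agent.P.MP_3c8515_co

open Set Submodule Module Filter Bx

variable {b : BP} {V : Type} [AddCommGroup V] [Module ℝ V] [FiniteDimensional ℝ V]
  {r : Bx → V} {ω : V}

lemma BG.xgood (G : BG b) (Z : Rz b.S b.ξ b.η r ω) (k : ℤ) : ∃ c, 0 ≤ k → k < b.N →
    Str (r (ax k)) (r (ax (k + 1))) c ∧ ∀ j t, (0 ≤ j ∧ j ≤ b.N ∧ 0 ≤ t ∧ t ≤ b.T ∧ (t < 3 → 3 ≤ k) ∧
      (3 < t → j = 0 ∨ b.I t ≤ k ∨ b.J t ≤ j)) → Str (r (gr k j t)) (r (gr (k + 1) j t)) c := by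
  by_cases hk : 0 ≤ k ∧ k < b.N
  swap
  · exact ⟨0, fun h1 h2 => absurd ⟨h1, h2⟩ hk⟩
  have hN := G.N
  have hT := G.T
  have hE := G.ev
  obtain ⟨c, hc, gA, g0⟩ := Z.meet (G.q_ax (i := k) (t := 3) (by omega))
  have up0 : ∀ t, 3 ≤ t → t ≤ b.T → Thru (r (gr k 0 t)) (r (gr (k + 1) 0 t)) c := by
    intro t ht
    induction t, ht using Int.leInduction with
    | base => exact fun _ => g0
    | succ t ht ih =>
      exact fun h => Z.ruleQ (Z.swap (G.q_xz (i := k) (j := 0) (t := t) (by omega)))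
        (Z.swap (G.q_ax (by omega))) (ih (by omega)) gA (by simp)
  have dn0 : 3 ≤ k → ∀ t, t ≤ 3 → 0 ≤ t → Thru (r (gr k 0 t)) (r (gr (k + 1) 0 t)) c := by
    intro h3 t ht
    induction t, ht using Int.leInductionDown with
    | base => exact fun _ => g0
    | pred t ht ih =>
      intro h
      have q := G.q_xz (i := k) (j := 0) (t := t - 1) (by omega)
      rw [sub_add_cancel] at q
      exact Z.ruleQ q (Z.swap (G.q_ax (by omega))) (ih (by omega)) gA (by simp)
  have gI : ∀ t, 3 ≤ t → t < b.T → t % 2 = 1 → Thru (r (ix t k)) (r (ix t (k + 1))) c :=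
    fun t h1 h2 h3 => Z.ruleQ (G.q_ixh (j := 0) (by omega)) (G.q_ixl (j := 0) (by omega))
      (up0 _ (by omega) (by omega)) (up0 _ h1 h2.le) (by simp)
  have l3 : ∀ j, 0 ≤ j → j ≤ b.N → Thru (r (gr k j 3)) (r (gr (k + 1) j 3)) c := by
    intro j hj
    induction j, hj using Int.leInduction with
    | base => exact fun _ => g0
    | succ j hj ih =>
      exact fun h => Z.ruleQ (Z.swap (G.q_xy (i := k) (j := j) (t := 3) (by omega)))
        (Z.swap (G.q_ixl (by omega))) (ih (by omega)) (gI 3 le_rfl (by omega) rfl) (by simp)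
  have core : 3 ≤ k → ∀ t, t ≤ 3 → 0 ≤ t → ∀ j, 0 ≤ j → j ≤ b.N →
      Thru (r (gr k j t)) (r (gr (k + 1) j t)) c := by
    intro h3 t ht
    induction t, ht using Int.leInductionDown with
    | base => exact fun _ => l3
    | pred t ht ih =>
      intro h j hj
      induction j, hj using Int.leInduction with
      | base => exact fun _ => dn0 h3 _ (by omega) h
      | succ j hj ih2 =>
        intro h'
        have q := G.q_xz (i := k) (j := j + 1) (t := t - 1) (by omega)
        rw [sub_add_cancel] at q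
        exact Z.ruleQ (Z.swap (G.q_xy (i := k) (j := j) (t := t - 1) (by omega))) q
          (ih2 (by omega)) (ih (by omega) _ (by omega) h') (by simp; omega)
  have adj : ∀ t, 3 < t → t ≤ b.T → ∃ s, Thru (r (ix s k)) (r (ix s (k + 1))) c ∧
      ∀ j, 0 ≤ j → j ≤ b.N → (b.I t ≤ k ∨ b.J t ≤ j) →
        b.Qd (gr k j t) (gr (k + 1) j t) (ix s k) (ix s (k + 1)) := by
    intro t h1 h2
    by_cases hp : t % 2 = 1
    · exact ⟨t, gI t h1.le (by omega) hp, fun j _ _ _ => Z.swap (G.q_ixl (by omega))⟩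
    · refine ⟨t - 1, gI _ (by omega) (by omega) (by omega), fun j _ _ _ => ?_⟩
      have q := G.q_ixh (i := k) (j := j) (t := t - 1) (by rw [sub_add_cancel]; omega)
      rw [sub_add_cancel] at q
      exact Z.swap q
  have upN : ∀ t, 3 ≤ t → t ≤ b.T → Thru (r (gr k b.N t)) (r (gr (k + 1) b.N t)) c := by
    intro t ht
    induction t, ht using Int.leInduction with
    | base => exact fun _ => l3 _ (by omega) le_rfl
    | succ t ht ih =>
      intro h
      obtain ⟨s, g, q⟩ := adj (t + 1) (by omega) h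
      exact Z.ruleQ (Z.swap (G.q_xz (i := k) (j := b.N) (t := t) (by omega)))
        (q _ (by omega) le_rfl (Or.inr (G.J _))) (ih (by omega)) g (by simp)
  have pl : ∀ t, 3 < t → t ≤ b.T → ∀ j, j ≤ b.N → 0 ≤ j → (b.I t ≤ k ∨ b.J t ≤ j) →
      Thru (r (gr k j t)) (r (gr (k + 1) j t)) c := by
    intro t h1 h2 j hj
    obtain ⟨s, g, q⟩ := adj t h1 h2
    induction j, hj using Int.leInductionDown with
    | base => exact fun _ _ => upN t h1.le h2
    | pred j hj ih =>
      intro h h'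
      have q' := G.q_xy (i := k) (j := j - 1) (t := t) (by omega)
      rw [sub_add_cancel] at q'
      exact Z.ruleQ q' (q _ h (by omega) h') (ih (by omega) (by omega)) g (by simp)
  have m1 : ax k ∈ b.S := ⟨by simp only [BP.S0]; omega, trivial⟩
  have m2 : ax (k + 1) ∈ b.S := ⟨by simp only [BP.S0]; omega, trivial⟩
  refine ⟨c, fun _ _ => ⟨Z.str gA hc g0 (G.e_x (i := k) (j := 0) (t := 3) (mem_gr.2 (by omega)) (mem_gr.2 (by omega))) (by simp)
    (by simp) m1 m2 (by simp) (by simp), fun j t h => Z.str ?_ hc gA (G.e_ax m1 m2) (by simp)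
    (by simp) (mem_gr.2 (by omega)) (mem_gr.2 (by omega)) (by simp) (by simp)⟩⟩
  rcases lt_trichotomy t 3 with h3 | rfl | h3
  · exact core (by omega) t h3.le (by omega) j (by omega) (by omega)
  · exact l3 j (by omega) (by omega)
  · by_cases hj : j = 0
    · subst hj
      exact up0 t h3.le (by omega)
    · exact pl t h3 (by omega) j (by omega) (by omega) (by omega)

lemma BG.ygood (G : BG b) (Z : Rz b.S b.ξ b.η r ω) (k : ℤ) : ∃ c, 0 ≤ k → k < b.N →
    Str (r (ay k)) (r (ay (k + 1))) c ∧ ∀ i t, (0 ≤ i ∧ i ≤ b.N ∧ 0 ≤ t ∧ t ≤ b.T ∧ (t < 3 → 3 ≤ i) ∧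
      (3 < t → i = 0 ∨ (t < b.T ∧ (b.I t ≤ i ∨ b.J t ≤ k)))) →
      Str (r (gr i k t)) (r (gr i (k + 1) t)) c := by
  by_cases hk : 0 ≤ k ∧ k < b.N
  swap
  · exact ⟨0, fun h1 h2 => absurd ⟨h1, h2⟩ hk⟩
  have hN := G.N
  have hT := G.T
  obtain ⟨c, hc, gA, g0⟩ := Z.meet (G.q_ay (i := 0) (j := k) (t := 3) (by omega))
  have up0 : ∀ t, 3 ≤ t → t ≤ b.T → Thru (r (gr 0 k t)) (r (gr 0 (k + 1) t)) c := by
    intro t ht
    induction t, ht using Int.leInduction with
    | base => exact fun _ => g0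
    | succ t ht ih =>
      exact fun h => Z.ruleQ (Z.swap (G.q_yz (i := 0) (j := k) (t := t) (by omega)))
        (Z.swap (G.q_ay (by omega))) (ih (by omega)) gA (by simp)
  have g30 : Thru (r (gr 3 k 0)) (r (gr 3 (k + 1) 0)) c :=
    Z.ruleQ (Z.swap (G.q_tail (i := 0) (by omega))) (Z.swap (G.q_ay (by omega))) g0 gA (by simp)
  have bot : ∀ i, 3 ≤ i → i ≤ b.N → Thru (r (gr i k 0)) (r (gr i (k + 1) 0)) c := by
    intro i hi
    induction i, hi using Int.leInduction with
    | base => exact fun _ => g30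
    | succ i hi ih =>
      exact fun h => Z.ruleQ (Z.swap (G.q_yx (i := i) (j := k) (t := 0) (by omega)))
        (Z.swap (G.q_ay (by omega))) (ih (by omega)) gA (by simp)
  have g13 : Thru (r (gr 1 k 3)) (r (gr 1 (k + 1) 3)) c :=
    Z.ruleQ (G.q_tail (t := 0) (by omega)) (Z.swap (G.q_yx (i := 0) (j := k) (t := 3) (by omega)))
      g30 g0 (by simp)
  have g23 : Thru (r (gr 2 k 3)) (r (gr 2 (k + 1) 3)) c :=
    Z.ruleQ (G.q_tail (t := 0) (by omega)) (Z.swap (G.q_yx (i := 1) (j := k) (t := 3) (by omega)))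
      g30 g13 (by simp)
  have w3 : ∀ t, 0 ≤ t → t ≤ 3 → Thru (r (gr 3 k t)) (r (gr 3 (k + 1) t)) c := by
    intro t ht
    induction t, ht using Int.leInduction with
    | base => exact fun _ => g30
    | succ t ht ih =>
      intro h
      refine Z.ruleQ (u1 := gr 2 k 3) (w1 := gr 2 (k + 1) 3) ?_
        (Z.swap (G.q_yz (i := 3) (j := k) (t := t) (by omega))) g23 (ih (by omega)) (by simp)
      rcases h.eq_or_lt with h | h
      · rw [h]
        exact Z.swap (G.q_yx (i := 2) (j := k) (t := 3) (by omega))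
      · exact Z.swap (G.q_tail (by omega))
  have core : ∀ t, 0 ≤ t → t ≤ 3 → ∀ i, 3 ≤ i → i ≤ b.N →
      Thru (r (gr i k t)) (r (gr i (k + 1) t)) c := by
    intro t ht
    induction t, ht using Int.leInduction with
    | base => exact fun _ => bot
    | succ t ht ih =>
      intro h i hi
      induction i, hi using Int.leInduction with
      | base => exact fun _ => w3 _ (by omega) h
      | succ i hi ih2 =>
        exact fun h' => Z.ruleQ (Z.swap (G.q_yx (i := i) (j := k) (t := t + 1) (by omega)))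
          (Z.swap (G.q_yz (i := i + 1) (j := k) (t := t) (by omega))) (ih2 (by omega))
          (ih (by omega) _ (by omega) h') (by simp)
  have gI : ∀ t, 3 ≤ t → t < b.T → t % 2 = 0 → Thru (r (iy t k)) (r (iy t (k + 1))) c :=
    fun t h1 h2 h3 => Z.ruleQ (G.q_iyh (i := 0) (by omega)) (G.q_iyl (i := 0) (by omega))
      (up0 _ (by omega) (by omega)) (up0 _ h1 h2.le) (by simp)
  have adj : ∀ t, 3 < t → t < b.T → ∃ s, Thru (r (iy s k)) (r (iy s (k + 1))) c ∧
      ∀ i, 0 ≤ i → i ≤ b.N → (b.I t ≤ i ∨ b.J t ≤ k) →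
        b.Qd (gr i k t) (gr i (k + 1) t) (iy s k) (iy s (k + 1)) := by
    intro t h1 h2
    by_cases hp : t % 2 = 0
    · exact ⟨t, gI t h1.le h2 hp, fun j _ _ _ => Z.swap (G.q_iyl (by omega))⟩
    · refine ⟨t - 1, gI _ (by omega) (by omega) (by omega), fun i _ _ _ => ?_⟩
      have q := G.q_iyh (i := i) (j := k) (t := t - 1) (by rw [sub_add_cancel]; omega)
      rw [sub_add_cancel] at q
      exact Z.swap q
  have upN : ∀ t, 3 ≤ t → t < b.T → Thru (r (gr b.N k t)) (r (gr b.N (k + 1) t)) c := by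
    intro t ht
    induction t, ht using Int.leInduction with
    | base => exact fun _ => core 3 (by omega) le_rfl _ (by omega) le_rfl
    | succ t ht ih =>
      intro h
      obtain ⟨s, g, q⟩ := adj (t + 1) (by omega) h
      exact Z.ruleQ (Z.swap (G.q_yz (i := b.N) (j := k) (t := t) (by omega)))
        (q _ (by omega) le_rfl (Or.inl (G.I _))) (ih (by omega)) g (by simp)
  have pl : ∀ t, 3 < t → t < b.T → ∀ i, i ≤ b.N → 0 ≤ i → (b.I t ≤ i ∨ b.J t ≤ k) →
      Thru (r (gr i k t)) (r (gr i (k + 1) t)) c := by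
    intro t h1 h2 i hi
    obtain ⟨s, g, q⟩ := adj t h1 h2
    induction i, hi using Int.leInductionDown with
    | base => exact fun _ _ => upN t h1.le h2
    | pred i hi ih =>
      intro h h'
      have q' := G.q_yx (i := i - 1) (j := k) (t := t) (by omega)
      rw [sub_add_cancel] at q'
      exact Z.ruleQ q' (q _ h (by omega) h') (ih (by omega) (by omega)) g (by simp)
  have m1 : ay k ∈ b.S := ⟨by simp only [BP.S0]; omega, trivial⟩
  have m2 : ay (k + 1) ∈ b.S := ⟨by simp only [BP.S0]; omega, trivial⟩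
  refine ⟨c, fun _ _ => ⟨Z.str gA hc g0 (G.e_y (i := 0) (j := k) (t := 3) (mem_gr.2 (by omega)) (mem_gr.2 (by omega))) (by simp)
    (by simp) m1 m2 (by simp) (by simp), fun i t h => Z.str ?_ hc gA (G.e_ay m1 m2) (by simp)
    (by simp) (mem_gr.2 (by omega)) (mem_gr.2 (by omega)) (by simp) (by simp)⟩⟩
  by_cases h3 : 3 < t
  · by_cases hi : i = 0
    · subst hi
      exact up0 t h3.le (by omega)
    · exact pl t h3 (by omega) i (by omega) (by omega) (by omega)
  · by_cases hi : 3 ≤ i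
    · exact core t (by omega) (by omega) i hi (by omega)
    · obtain rfl : t = 3 := by omega
      rcases (show i = 0 ∨ i = 1 ∨ i = 2 by omega) with rfl | rfl | rfl
      · exact g0
      · exact g13
      · exact g23

lemma BG.zgood (G : BG b) (Z : Rz b.S b.ξ b.η r ω) (k : ℤ) : ∃ c, 0 ≤ k → k < b.T →
    Str (r (az k)) (r (az (k + 1))) c ∧ ∀ i j, (0 ≤ i ∧ i ≤ b.N ∧ 0 ≤ j ∧ j ≤ b.N ∧ (k < 3 → 3 ≤ i) ∧
      (3 ≤ k → i = b.N ∨ j = b.N)) → Str (r (gr i j k)) (r (gr i j (k + 1))) c := by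
  by_cases hk : 0 ≤ k ∧ k < b.T
  swap
  · exact ⟨0, fun h1 h2 => absurd ⟨h1, h2⟩ hk⟩
  have hN := G.N
  have hT := G.T
  have h1 := G.J k
  have h2 := G.J (k + 1)
  have h3 := G.I k
  have h4 := G.I (k + 1)
  obtain ⟨c, hc, gA, g0⟩ := Z.meet (G.q_az (i := b.N) (j := b.N) (t := k) (by omega))
  have wx : ∀ j, j ≤ b.N → 0 ≤ j → Thru (r (gr b.N j k)) (r (gr b.N j (k + 1))) c := by
    intro j hj
    induction j, hj using Int.leInductionDown with
    | base => exact fun _ => g0
    | pred j hj ih =>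
      intro h
      have q := G.q_zy (i := b.N) (j := j - 1) (t := k) (by omega)
      rw [sub_add_cancel] at q
      exact Z.ruleQ q (Z.swap (G.q_az (by omega))) (ih (by omega)) gA (by simp)
  have wy : ∀ i, i ≤ b.N → 0 ≤ i → (k < 3 → 3 ≤ i) →
      Thru (r (gr i b.N k)) (r (gr i b.N (k + 1))) c := by
    intro i hi
    induction i, hi using Int.leInductionDown with
    | base => exact fun _ _ => g0
    | pred i hi ih =>
      intro h h'
      have q := G.q_zx (i := i - 1) (j := b.N) (t := k) (by omega)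
      rw [sub_add_cancel] at q
      exact Z.ruleQ q (Z.swap (G.q_az (by omega))) (ih (by omega) (by omega)) gA (by simp)
  have core : k < 3 → ∀ i, i ≤ b.N → 3 ≤ i → ∀ j, j ≤ b.N → 0 ≤ j →
      Thru (r (gr i j k)) (r (gr i j (k + 1))) c := by
    intro h3 i hi
    induction i, hi using Int.leInductionDown with
    | base => exact fun _ => wx
    | pred i hi ih =>
      intro h j hj
      induction j, hj using Int.leInductionDown with
      | base => exact fun _ => wy _ (by omega) (by omega) (fun _ => h)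
      | pred j hj ih2 =>
        intro h'
        have q := G.q_zy (i := i - 1) (j := j - 1) (t := k) (by omega)
        have q' := G.q_zx (i := i - 1) (j := j - 1) (t := k) (by omega)
        rw [sub_add_cancel] at q q'
        exact Z.ruleQ q q' (ih2 (by omega)) (ih (by omega) _ (by omega) h') (by simp; omega)
  have m1 : az k ∈ b.S := ⟨by simp only [BP.S0]; omega, trivial⟩
  have m2 : az (k + 1) ∈ b.S := ⟨by simp only [BP.S0]; omega, trivial⟩
  refine ⟨c, fun _ _ => ⟨Z.str gA hc g0 (G.e_z (i := b.N) (j := b.N) (t := k) (mem_gr.2 (by omega)) (mem_gr.2 (by omega))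
    (by omega)) (by simp) (by simp) m1 m2 (by simp) (by simp), fun i j h => Z.str ?_ hc gA
    (G.e_az m1 m2) (by simp) (by simp) (mem_gr.2 (by omega)) (mem_gr.2 (by omega)) (by simp)
    (by simp)⟩⟩
  by_cases h3 : k < 3
  · exact core h3 i (by omega) (by omega) j (by omega) (by omega)
  · by_cases hi : i = b.N
    · subst hi
      exact wx j (by omega) (by omega)
    · obtain rfl : j = b.N := by omega
      exact wy i (by omega) (by omega) (by omega)

end Pool.Agent.P.MP_3c8515_co
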