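import Pool.Agent.P.MP_3c8515_co.Base5

namespace Pool.Agent.P.MP_3c8515_co

open Set Submodule Module Filter Bx

variable {b : BP} {V : Type} [AddCommGroup V] [Module ℝ V] [FiniteDimensional ℝ V]
  {r : Bx → V} {ω : V}

lemma BG.coords (G : BG b) {x : Bx} (hx : b.S0 x) :
    (0 ≤ b.cX x ∧ b.cX x ≤ b.N ∧ 0 ≤ b.cY x ∧ b.cY x ≤ b.N ∧ 0 ≤ b.cZ x ∧ b.cZ x ≤ b.T) ∨
    (b.N / 4 ≤ b.cX x ∧ b.cX x ≤ 3 * b.N / 4 ∧ b.cY x = -1 ∧ b.cZ x = 1) ∨
    (b.cX x = -1 ∧ b.N / 4 ≤ b.cY x ∧ b.cY x ≤ 3 * b.N / 4 ∧ b.cZ x = -1) ∨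
    (b.cX x = b.N + 1 ∧ b.cY x = b.N + 1 ∧ b.T / 4 ≤ b.cZ x ∧ b.cZ x ≤ 3 * b.T / 4) ∨
    (x = bt ∧ b.cX x = b.N / 2 ∧ b.cY x = 0 ∧ b.cZ x = b.T + 1) := by
  have hN : (8 : ℝ) ≤ b.N := by exact_mod_cast G.N
  rcases x with ⟨i, j, t⟩ | ⟨t, k⟩ | ⟨t, k⟩ | k | k | t | _ <;>
    simp only [BP.S0] at hx <;> simp only [BP.cX, BP.cY, BP.cZ]
  · exact Or.inl (by exact_mod_cast hx)
  · have k0 : (0 : ℝ) ≤ k := by exact_mod_cast hx.2.2.2.1
    have k1 : (k : ℝ) ≤ b.N := by exact_mod_cast hx.2.2.2.2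
    have t0 : (3 : ℝ) ≤ t := by exact_mod_cast hx.1
    have t1 : (t : ℝ) + 1 ≤ b.T := by exact_mod_cast hx.2.1
    exact Or.inl ⟨by linarith, by linarith, by linarith, by linarith, by linarith, by linarith⟩
  · have k0 : (0 : ℝ) ≤ k := by exact_mod_cast hx.2.2.2.1
    have k1 : (k : ℝ) ≤ b.N := by exact_mod_cast hx.2.2.2.2
    have t0 : (3 : ℝ) ≤ t := by exact_mod_cast hx.1
    have t1 : (t : ℝ) + 1 ≤ b.T := by exact_mod_cast hx.2.1
    exact Or.inl ⟨by linarith, by linarith, by linarith, by linarith, by linarith, by linarith⟩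
  · have k0 : (0 : ℝ) ≤ k := by exact_mod_cast hx.1
    have k1 : (k : ℝ) ≤ b.N := by exact_mod_cast hx.2
    exact Or.inr (Or.inl ⟨by linarith, by linarith, trivial, trivial⟩)
  · have k0 : (0 : ℝ) ≤ k := by exact_mod_cast hx.1
    have k1 : (k : ℝ) ≤ b.N := by exact_mod_cast hx.2
    exact Or.inr (Or.inr (Or.inl ⟨trivial, by linarith, by linarith, trivial⟩))
  · have k0 : (0 : ℝ) ≤ t := by exact_mod_cast hx.1
    have k1 : (t : ℝ) ≤ b.T := by exact_mod_cast hx.2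
    exact Or.inr (Or.inr (Or.inr (Or.inl ⟨trivial, trivial, by linarith, by linarith⟩)))
  · exact Or.inr (Or.inr (Or.inr (Or.inr ⟨trivial, trivial, trivial, trivial⟩)))

lemma rk_le_two {J : Set Bx} (u v : U4) (h : ∀ x ∈ J, ∃ a : ℝ, b.ξ x = u + a • v) :
    rk b.ξ J ≤ 2 := by
  have h1 : span ℝ (b.ξ '' J) ≤ span ℝ ({u, v} : Set U4) := by
    rw [span_le]
    rintro _ ⟨x, hx, rfl⟩
    obtain ⟨a, e⟩ := h x hx
    rw [e]
    exact add_mem (subset_span (by simp)) (smul_mem _ _ (subset_span (by simp)))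
  refine (Submodule.finrank_mono h1).trans ?_
  have a1 := finrank_span_insert_le u {v}
  have a2 := finrank_span_singleton_le v
  omega

/-- the three axes of a realization -/
structure Axes (b : BP) (r : Bx → V) (o : V) (Tx Ty Tz : ℤ → V) : Prop where
  kn : ∀ i j t, (0 ≤ i ∧ i ≤ b.N ∧ 0 ≤ j ∧ j ≤ b.N ∧ 0 ≤ t ∧ t < b.T ∧ (t < 3 → 3 ≤ i) ∧
    (3 < t → b.I t ≤ i ∨ b.J t ≤ j)) → Kn (r (gr i j t)) (o + Tx i + Ty j + Tz t)
  sx : ∀ k, 0 ≤ k → k < b.N → Str (r (ax k)) (r (ax (k + 1))) (Tx (k + 1) - Tx k) ∧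
    ∀ j t, (0 ≤ j ∧ j ≤ b.N ∧ 0 ≤ t ∧ t ≤ b.T ∧ (t < 3 → 3 ≤ k) ∧
      (3 < t → j = 0 ∨ b.I t ≤ k ∨ b.J t ≤ j)) →
      Str (r (gr k j t)) (r (gr (k + 1) j t)) (Tx (k + 1) - Tx k)
  sy : ∀ k, 0 ≤ k → k < b.N → Str (r (ay k)) (r (ay (k + 1))) (Ty (k + 1) - Ty k) ∧
    ∀ i t, (0 ≤ i ∧ i ≤ b.N ∧ 0 ≤ t ∧ t ≤ b.T ∧ (t < 3 → 3 ≤ i) ∧
      (3 < t → i = 0 ∨ (t < b.T ∧ (b.I t ≤ i ∨ b.J t ≤ k)))) →
      Str (r (gr i k t)) (r (gr i (k + 1) t)) (Ty (k + 1) - Ty k)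
  sz : ∀ k, 0 ≤ k → k < b.T → Str (r (az k)) (r (az (k + 1))) (Tz (k + 1) - Tz k) ∧
    ∀ i j, (0 ≤ i ∧ i ≤ b.N ∧ 0 ≤ j ∧ j ≤ b.N ∧ (k < 3 → 3 ≤ i) ∧ (3 ≤ k → i = b.N ∨ j = b.N)) →
      Str (r (gr i j k)) (r (gr i j (k + 1))) (Tz (k + 1) - Tz k)

lemma BG.axes (G : BG b) (Z : Rz b.S b.ξ b.η r ω) : ∃ o Tx Ty Tz, Axes b r o Tx Ty Tz := by
  have hN := G.N
  have hT := G.T
  choose cx hx using G.xgood Z
  choose cy hy using G.ygood Z
  choose cz hz using G.zgood Z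
  have k0 : Kn (r (gr b.N b.N 3)) (r (gr b.N b.N 3)) := ⟨1, one_pos, (one_smul _ _).symm⟩
  obtain ⟨Tx, x0, x1, x2⟩ := axis (u := fun k => r (gr k b.N 3)) (c := cx) (lo := 0) (hi := b.N)
    (k0 := b.N) (fun k a c => (hx k a c).2 _ _ (by omega)) k0
  obtain ⟨Ty, y0, y1, y2⟩ := axis (u := fun k => r (gr b.N k 3)) (c := cy) (lo := 0) (hi := b.N)
    (k0 := b.N) (fun k a c => (hy k a c).2 _ _ (by omega)) k0
  obtain ⟨Tz, z0, z1, z2⟩ := axis (u := fun k => r (gr b.N b.N k)) (c := cz) (lo := 0) (hi := b.T)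
    (k0 := 3) (fun k a c => (hz k a c).2 _ _ (by omega)) k0
  have sx : ∀ k, 0 ≤ k → k < b.N → Str (r (ax k)) (r (ax (k + 1))) (Tx (k + 1) - Tx k) ∧
      ∀ j t, (0 ≤ j ∧ j ≤ b.N ∧ 0 ≤ t ∧ t ≤ b.T ∧ (t < 3 → 3 ≤ k) ∧
        (3 < t → j = 0 ∨ b.I t ≤ k ∨ b.J t ≤ j)) →
        Str (r (gr k j t)) (r (gr (k + 1) j t)) (Tx (k + 1) - Tx k) := by
    intro k a c
    obtain ⟨s, s0, e⟩ := x2 k a c
    rw [e]
    exact ⟨(hx k a c).1.smul s0, fun j t h => ((hx k a c).2 j t h).smul s0⟩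
  have sy : ∀ k, 0 ≤ k → k < b.N → Str (r (ay k)) (r (ay (k + 1))) (Ty (k + 1) - Ty k) ∧
      ∀ i t, (0 ≤ i ∧ i ≤ b.N ∧ 0 ≤ t ∧ t ≤ b.T ∧ (t < 3 → 3 ≤ i) ∧
        (3 < t → i = 0 ∨ (t < b.T ∧ (b.I t ≤ i ∨ b.J t ≤ k)))) →
        Str (r (gr i k t)) (r (gr i (k + 1) t)) (Ty (k + 1) - Ty k) := by
    intro k a c
    obtain ⟨s, s0, e⟩ := y2 k a c
    rw [e]
    exact ⟨(hy k a c).1.smul s0, fun j t h => ((hy k a c).2 j t h).smul s0⟩
  have sz : ∀ k, 0 ≤ k → k < b.T → Str (r (az k)) (r (az (k + 1))) (Tz (k + 1) - Tz k) ∧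
      ∀ i j, (0 ≤ i ∧ i ≤ b.N ∧ 0 ≤ j ∧ j ≤ b.N ∧ (k < 3 → 3 ≤ i) ∧ (3 ≤ k → i = b.N ∨ j = b.N)) →
        Str (r (gr i j k)) (r (gr i j (k + 1))) (Tz (k + 1) - Tz k) := by
    intro k a c
    obtain ⟨s, s0, e⟩ := z2 k a c
    rw [e]
    exact ⟨(hz k a c).1.smul s0, fun j t h => ((hz k a c).2 j t h).smul s0⟩
  refine ⟨r (gr b.N b.N 3), Tx, Ty, Tz, ?_, sx, sy, sz⟩
  generalize r (gr b.N b.N 3) = o at x1 y1 z1
  have main : ∀ n : ℕ, ∀ i j t, ((b.N - i) + (b.N - j) + (t - 3).natAbs).toNat ≤ n →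
      (0 ≤ i ∧ i ≤ b.N ∧ 0 ≤ j ∧ j ≤ b.N ∧ 0 ≤ t ∧ t < b.T ∧ (t < 3 → 3 ≤ i) ∧
      (3 < t → b.I t ≤ i ∨ b.J t ≤ j)) → Kn (r (gr i j t)) (o + Tx i + Ty j + Tz t) := by
    intro n
    induction n using Nat.strong_induction_on with
    | _ n ih =>
    intro i j t hn h
    have zn : Unit → t ≠ 3 → i = b.N ∨ j = b.N → ∃ t' c, Str (r (gr i j t')) (r (gr i j t)) c ∧
        Kn (r (gr i j t')) (o + Tx i + Ty j + Tz t') ∧ gr i j t' ∈ b.S ∧ t' ≠ t ∧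
        ∃ s : ℝ, o + Tx i + Ty j + Tz t = o + Tx i + Ty j + Tz t' + s • c := by
      intro _ h3 hw
      rcases lt_or_gt_of_ne h3 with h3 | h3
      · exact ⟨t + 1, _, ((sz t (by omega) (by omega)).2 i j (by omega)).symm,
          ih (n - 1) (by omega) _ _ _ (by omega) (by omega), mem_gr.2 (by omega), by omega, -1,
          by rw [neg_one_smul]; abel⟩
      · have a1 := G.I (t - 1)
        have a2 := G.J (t - 1)
        have a3 := (sz (t - 1) (by omega) (by omega)).2 i j (by omega)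
        rw [sub_add_cancel] at a3
        exact ⟨t - 1, _, a3, ih (n - 1) (by omega) _ _ _ (by omega) (by omega),
          mem_gr.2 (by omega), by omega, 1, by rw [one_smul]; abel⟩
    by_cases hi : i = b.N
    · by_cases hj : j = b.N
      · rw [hi, hj, x0, y0, add_zero, add_zero]
        exact z1 t (by omega)
      by_cases h3 : t = 3
      · rw [hi, h3, x0, z0, add_zero, add_zero]
        exact y1 j (by omega)
      obtain ⟨t', c, a1, a2, a3, a4, s, a5⟩ := zn () h3 (Or.inl hi)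
      exact Z.ruleA ((sy j (by omega) (by omega)).2 i t (by omega)).symm a1
        (ih (n - 1) (by omega) i (j + 1) t (by omega) (by omega)) a2 (t1 := -1)
        (by rw [neg_one_smul]; abel) a5
        (G.e_y (i := i) (j := j) (t := t) (mem_gr.2 (by omega)) (mem_gr.2 (by omega))) (by simp)
        (by simp) a3 (by simp [a4])
    have a6 := ((sx i (by omega) (by omega)).2 j t (by omega)).symm
    have a8 := G.e_x (i := i) (j := j) (t := t) (mem_gr.2 (by omega)) (mem_gr.2 (by omega))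
    by_cases hj : j = b.N
    · by_cases h3 : t = 3
      · rw [hj, h3, y0, z0, add_zero, add_zero]
        exact x1 i (by omega)
      obtain ⟨t', c, a1, a2, a3, a4, s, a5⟩ := zn () h3 (Or.inr hj)
      exact Z.ruleA a6 a1 (ih (n - 1) (by omega) (i + 1) j t (by omega) (by omega)) a2 (t1 := -1)
        (by rw [neg_one_smul]; abel) a5 a8 (by simp) (by simp) a3 (by simp [a4])
    · exact Z.ruleA a6 ((sy j (by omega) (by omega)).2 i t (by omega)).symm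
        (ih (n - 1) (by omega) (i + 1) j t (by omega) (by omega))
        (ih (n - 1) (by omega) i (j + 1) t (by omega) (by omega)) (t1 := -1) (t2 := -1)
        (by rw [neg_one_smul]; abel) (by rw [neg_one_smul]; abel) a8 (by simp) (by simp)
        (mem_gr.2 (by omega)) (by simp)
  exact fun i j t h => main _ i j t le_rfl h

lemma Axes.cx (G : BG b) (Z : Rz b.S b.ξ b.η r ω) {o : V} {Tx Ty Tz : ℤ → V}
    (A : Axes b r o Tx Ty Tz) : ∃ (e : V) (q : Sq), q.Conv 0 b.N ∧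
      ∀ k, 0 ≤ k → k ≤ b.N → Tx k = Tx 0 + q.X k • e + q.F k • ω := by
  have hN := G.N
  have hT := G.T
  have hN' : (8 : ℝ) ≤ b.N := by exact_mod_cast G.N
  have hT' : (6 : ℝ) ≤ b.T := by exact_mod_cast G.T
  have hJ := G.J b.T
  refine Z.line_conv (l := fun k => gr k b.N 3) (A := ax) (B := fun k => gr k b.N b.T) (by omega)
    (m := o + Ty b.N + Tz 3) (fun k _ _ => mem_gr.2 (by omega)) (fun _ _ h => (gr.inj h).1)
    (fun k _ _ => G.e_x (mem_gr.2 (by omega)) (mem_gr.2 (by omega)))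
    (fun k _ _ => by
      have := A.kn k b.N 3 (by omega)
      rwa [show o + Tx k + Ty b.N + Tz 3 = o + Ty b.N + Tz 3 + Tx k by abel] at this)
    ((A.sx 0 le_rfl (by omega)).2 _ _ (by omega)) (fun k a c => (A.sx k a c).1.thru)
    (fun k a c => ((A.sx k a c).2 _ _ (by omega)).thru)
    (BG.vf_zero (a := 1) (c := 0) (d := 1) (e := 0) fun x hx => ?_) (fun h => ?_)
    (rk_le_two (1, 0, -1, 1) (0, 1, 0, 0) fun x hx => ⟨b.cX x, ?_⟩)
    (BG.vf_zero (a := b.N + b.T) (c := 0) (d := -1) (e := -1) fun x hx => ?_)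
    (fun k a c => ⟨⟨⟨a, c⟩, trivial⟩, by simp [BP.lin_xi, BP.cY]⟩)
    (fun k a c => ⟨mem_gr.2 (by omega), by simp [BP.lin_xi, BP.cY, BP.cZ]⟩) (fun h => ?_)
  · rw [BP.lin_xi]
    rcases G.coords hx with h | h | h | h | h <;> linarith [h.1, h.2.1, h.2.2.1, h.2.2.2]
  · have h1 : bt ∈ b.S := ⟨trivial, trivial⟩
    rw [← h] at h1
    simpa [BP.lin_xi, BP.cY] using h1.2
  · have h1 := hx.2
    rw [BP.lin_xi] at h1
    rcases G.coords hx.1.1 with h | h | h | h | h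
    · linarith [h.2.2.1]
    · simp [BP.ξ, h.2.2.1, h.2.2.2]
    · linarith [h.2.1]
    · linarith [h.2.1]
    · linarith [h.2.2.1]
  · rw [BP.lin_xi]
    rcases G.coords hx with h | h | h | h | h
    · linarith [h.2.2.2.1, h.2.2.2.2.2]
    all_goals linarith [h.2.1, h.2.2.1, h.2.2.2]
  · have h1 := h.2
    simp only [BP.lin_xi, BP.cY, BP.cZ] at h1
    linarith

lemma Axes.cy (G : BG b) (Z : Rz b.S b.ξ b.η r ω) {o : V} {Tx Ty Tz : ℤ → V}
    (A : Axes b r o Tx Ty Tz) : ∃ (e : V) (q : Sq), q.Conv 0 b.N ∧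
      ∀ k, 0 ≤ k → k ≤ b.N → Ty k = Ty 0 + q.X k • e + q.F k • ω := by
  have hN := G.N
  have hT := G.T
  have hN' : (8 : ℝ) ≤ b.N := by exact_mod_cast G.N
  have hT' : (6 : ℝ) ≤ b.T := by exact_mod_cast G.T
  refine Z.line_conv (l := fun k => gr b.N k 3) (A := ay) (B := fun k => gr 0 k b.T) (by omega)
    (m := o + Tx b.N + Tz 3) (fun k _ _ => mem_gr.2 (by omega)) (fun _ _ h => (gr.inj h).2.1)
    (fun k _ _ => G.e_y (mem_gr.2 (by omega)) (mem_gr.2 (by omega)))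
    (fun k _ _ => by
      have := A.kn b.N k 3 (by omega)
      rwa [show o + Tx b.N + Ty k + Tz 3 = o + Tx b.N + Tz 3 + Ty k by abel] at this)
    ((A.sy 0 le_rfl (by omega)).2 _ _ (by omega)) (fun k a c => (A.sy k a c).1.thru)
    (fun k a c => ((A.sy k a c).2 _ _ (by omega)).thru)
    (BG.vf_zero (a := 1) (c := 0) (d := 0) (e := 1) fun x hx => ?_) (fun h => ?_)
    (rk_le_two (1, -1, 0, -1) (0, 0, 1, 0) fun x hx => ⟨b.cY x, ?_⟩)
    (BG.vf_zero (a := b.T) (c := 1) (d := 0) (e := -1) fun x hx => ?_)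
    (fun k a c => ⟨⟨⟨a, c⟩, trivial⟩, by simp [BP.lin_xi, BP.cZ]⟩)
    (fun k a c => ⟨mem_gr.2 (by omega), by simp [BP.lin_xi, BP.cX, BP.cZ]⟩) (fun h => ?_)
  · rw [BP.lin_xi]
    rcases G.coords hx with h | h | h | h | h
    · linarith [h.2.2.2.2.1]
    all_goals linarith [h.2.1, h.2.2.1, h.2.2.2]
  · have h1 : bt ∈ b.S := ⟨trivial, trivial⟩
    rw [← h] at h1
    have h2 := h1.2
    simp only [BP.lin_xi, BP.cZ] at h2
    linarith
  · have h1 := hx.2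
    rw [BP.lin_xi] at h1
    rcases G.coords hx.1.1 with h | h | h | h | h
    · linarith [h.2.2.2.2.1]
    · linarith [h.2.2.2]
    · simp [BP.ξ, h.1, h.2.2.2]
    · linarith [h.2.2.1]
    · linarith [h.2.2.2]
  · rw [BP.lin_xi]
    rcases G.coords hx with h | h | h | h | ⟨-, h⟩
    · linarith [h.1, h.2.2.2.2.2]
    · linarith [h.1, h.2.2.2]
    · linarith [h.1, h.2.2.2]
    · linarith [h.1, h.2.2.2]
    · linarith [h.1, h.2.2]
  · have h1 := h.2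
    simp only [BP.lin_xi, BP.cX, BP.cZ] at h1
    linarith

lemma Axes.cz (G : BG b) (Z : Rz b.S b.ξ b.η r ω) {o : V} {Tx Ty Tz : ℤ → V}
    (A : Axes b r o Tx Ty Tz) : ∃ (e : V) (q : Sq), q.Conv 0 3 ∧
      ∀ k, 0 ≤ k → k ≤ 3 → Tz k = Tz 0 + q.X k • e + q.F k • ω := by
  have hN := G.N
  have hT := G.T
  have hN' : (8 : ℝ) ≤ b.N := by exact_mod_cast G.N
  have hT' : (6 : ℝ) ≤ b.T := by exact_mod_cast G.T
  refine Z.line_conv (l := fun k => gr b.N b.N k) (A := az) (B := fun k => gr b.N 0 k) (by omega)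
    (m := o + Tx b.N + Ty b.N) (fun k _ _ => mem_gr.2 (by omega)) (fun _ _ h => (gr.inj h).2.2)
    (fun k _ _ => G.e_z (mem_gr.2 (by omega)) (mem_gr.2 (by omega)) (by omega))
    (fun k _ _ => A.kn b.N b.N k (by omega))
    ((A.sz 0 le_rfl (by omega)).2 _ _ (by omega)) (fun k a c => (A.sz k a (by omega)).1.thru)
    (fun k a c => ((A.sz k a (by omega)).2 _ _ (by omega)).thru)
    (BG.vf_zero (a := b.N + 1) (c := 0) (d := -1) (e := 0) fun x hx => ?_) (fun h => ?_)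
    (rk_le_two (1, b.N + 1, b.N + 1, 0) (0, 0, 0, 1) fun x hx => ⟨b.cZ x, ?_⟩)
    (BG.vf_zero (a := b.N) (c := -1) (d := 1) (e := 0) fun x hx => ?_)
    (fun k a c => ⟨⟨⟨a, by omega⟩, trivial⟩, by simp [BP.lin_xi, BP.cY]⟩)
    (fun k a c => ⟨mem_gr.2 (by omega), by simp [BP.lin_xi, BP.cX, BP.cY]⟩) (fun h => ?_)
  · rw [BP.lin_xi]
    rcases G.coords hx with h | h | h | h | h
    · linarith [h.2.2.2.1]
    all_goals linarith [h.2.1, h.2.2.1, h.2.2.2]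
  · have h1 : bt ∈ b.S := ⟨trivial, trivial⟩
    rw [← h] at h1
    have h2 := h1.2
    simp only [BP.lin_xi, BP.cY] at h2
    linarith
  · have h1 := hx.2
    rw [BP.lin_xi] at h1
    rcases G.coords hx.1.1 with h | h | h | h | h
    · linarith [h.2.2.2.1]
    · linarith [h.2.2.1]
    · linarith [h.2.2.1]
    · simp [BP.ξ, h.1, h.2.1]
    · linarith [h.2.2.1]
  · rw [BP.lin_xi]
    rcases G.coords hx with h | h | h | h | ⟨-, h⟩
    · linarith [h.2.1, h.2.2.1]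
    · linarith [h.2.1, h.2.2.1]
    · linarith [h.1, h.2.1]
    · linarith [h.1, h.2.1]
    · linarith [h.1, h.2.1]
  · have h1 := h.2
    simp only [BP.lin_xi, BP.cX, BP.cY] at h1
    linarith

end Pool.Agent.P.MP_3c8515_co
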