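import Pool.Agent.P.MP_3c8515_co.Base6

namespace Pool.Agent.P.MP_3c8515_co

open Set Submodule Module Filter Bx

/-- a function on the three coordinate directions -/
def tri {α : Type} (z x y : α) : Option Bool → α
  | none => z
  | some false => x
  | some true => y

namespace BP

def far : Bx → Prop
  | gr i _ t => t ≤ 3 → 3 ≤ i
  | _ => True

def E0 (b : BP) (u w : Bx) : Prop :=
  (u ∈ b.S ∧ far u) ∧ (w ∈ b.S ∧ far w) ∧ u ≠ w ∧ b.LFs {u, w}

def W (b : BP) : Set Bx := {w | Perc b.E0 bt (ax 3) w}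

def Ln (b : BP) : Option Bool → ℤ → Bx → Bx → Prop
  | none, k, u, w => (0 ≤ k ∧ k < 3) ∧ ((u = az k ∧ w = az (k + 1)) ∨
      ∃ i j, (3 ≤ i ∧ i ≤ b.N ∧ 0 ≤ j ∧ j ≤ b.N) ∧ u = gr i j k ∧ w = gr i j (k + 1))
  | some false, k, u, w => (3 ≤ k ∧ k < b.N) ∧ ((u = ax k ∧ w = ax (k + 1)) ∨
      ∃ j t, (0 ≤ j ∧ j ≤ b.N ∧ 0 ≤ t ∧ t ≤ 3) ∧ u = gr k j t ∧ w = gr (k + 1) j t)
  | some true, k, u, w => (0 ≤ k ∧ k < b.N) ∧ ((u = ay k ∧ w = ay (k + 1)) ∨
      ∃ i t, (3 ≤ i ∧ i ≤ b.N ∧ 0 ≤ t ∧ t ≤ 3) ∧ u = gr i k t ∧ w = gr i (k + 1) t)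

/-- the four-dimensional configuration as rigid data -/
noncomputable def data (b : BP) : Data (Option Bool) Bx U4 where
  S := b.S
  W := b.W
  ξ := b.ξ
  η := b.η
  one := lin 1 0 0 0
  co := tri (lin 0 0 0 1) (lin 0 1 0 0) (lin 0 0 1 0)
  lo := tri 0 3 0
  hi := tri 3 b.N b.N
  gr g := gr (g (some false)) (g (some true)) (g none)
  ap := tri az ax ay
  cp := tri (fun k => gr b.N 0 k) (fun k => gr k 0 0) (fun k => gr b.N k 0)
  Ln := b.Ln
  be := bt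
  s1 := bt
  s2 := ax 3
  v0 := gr 2 0 3
  g0 := tri 3 3 0
  x := some false
  y := some true

end BP

variable {b : BP}

lemma BG.W0 (G : BG b) {w : Bx} (h : w ∈ b.W) : w ∈ b.S ∧ BP.far w := by
  have hN := G.N
  cases h with
  | fst => exact ⟨⟨trivial, trivial⟩, trivial⟩
  | snd => exact ⟨⟨⟨by omega, by omega⟩, trivial⟩, trivial⟩
  | step a => exact a.1

lemma BP.LFs.comm {u w : Bx} (h : b.LFs {u, w}) : b.LFs {w, u} := pair_comm u w ▸ h

lemma BG.pstep (G : BG b) {w w1 w2 : Bx} (hw : w ∈ b.S) (hf : BP.far w) (h1 : w1 ∈ b.W)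
    (h2 : w2 ∈ b.W) (l1 : b.LFs {w, w1}) (l2 : b.LFs {w, w2}) (n : w ≠ w1 ∧ w ≠ w2 ∧ w1 ≠ w2) :
    w ∈ b.W :=
  Perc.step ⟨⟨hw, hf⟩, G.W0 h1, n.1, l1⟩ ⟨⟨hw, hf⟩, G.W0 h2, n.2.1, l2⟩ n.2.2 h1 h2

lemma BG.e_btax (G : BG b) {k : ℤ} (h : ax k ∈ b.S) : b.LFs {bt, ax k} :=
  (G.bt_ax h.1).restrict (fun _ hx => hx.1) (by rintro _ (rfl | rfl); exacts [⟨trivial, trivial⟩, h])

lemma BG.e_btgr (G : BG b) {i j : ℤ} (h : gr i j b.T ∈ b.S) : b.LFs {bt, gr i j b.T} :=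
  (G.bt_gr h.1).restrict (fun _ hx => hx.1) (by rintro _ (rfl | rfl); exacts [⟨trivial, trivial⟩, h])

lemma mem_ax {k : ℤ} (h : 0 ≤ k ∧ k ≤ b.N) : ax k ∈ b.S := ⟨h, trivial⟩

lemma mem_ay {k : ℤ} (h : 0 ≤ k ∧ k ≤ b.N) : ay k ∈ b.S := ⟨h, trivial⟩

lemma mem_az {k : ℤ} (h : 0 ≤ k ∧ k ≤ b.T) : az k ∈ b.S := ⟨h, trivial⟩

lemma far_gr {i j t : ℤ} (h : 3 ≤ i) : BP.far (gr i j t) := fun _ => h

lemma BG.inW (G : BG b) : (∀ k, 3 ≤ k → k ≤ b.N → ax k ∈ b.W) ∧ (∀ k, 0 ≤ k → k ≤ b.N → ay k ∈ b.W) ∧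
    (∀ k, k ≤ b.T → 0 ≤ k → az k ∈ b.W) ∧ gr b.N 0 b.T ∈ b.W ∧
    ∀ t, 0 ≤ t → t ≤ 3 → ∀ i, i ≤ b.N → 3 ≤ i → ∀ j, 0 ≤ j → j ≤ b.N → gr i j t ∈ b.W := by
  have hN := G.N
  have hT := G.T
  have wb : bt ∈ b.W := Perc.fst
  have w1 : ∀ k, 3 ≤ k → k ≤ b.N → ax k ∈ b.W := by
    intro k hk
    induction k, hk using Int.leInduction with
    | base => exact fun _ => Perc.snd
    | succ k hk ih =>
      exact fun h => G.pstep (mem_ax (by omega)) trivial wb (ih (by omega))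
        (G.e_btax (mem_ax (by omega))).comm (G.e_ax (mem_ax (by omega)) (mem_ax (by omega))).comm
        (by simp)
  have w2 : ∀ k, 3 ≤ k → k ≤ b.N → ∀ t, t ≤ b.T → 0 ≤ t → gr k 0 t ∈ b.W := by
    intro k h1 h2 t ht
    induction t, ht using Int.leInductionDown with
    | base =>
      exact fun _ => G.pstep (mem_gr.2 (by omega)) (far_gr h1) wb (w1 k h1 h2)
        (G.e_btgr (mem_gr.2 (by omega))).comm
        (G.s_ax (mem_ax (by omega)) (mem_gr.2 (by omega))).comm (by simp)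
    | pred t ht ih =>
      intro h
      have e := G.e_z (i := k) (j := 0) (t := t - 1) (mem_gr.2 (by omega)) (mem_gr.2 (by omega))
        (by omega)
      rw [sub_add_cancel] at e
      exact G.pstep (mem_gr.2 (by omega)) (far_gr h1) (ih (by omega)) (w1 k h1 h2) e
        (G.s_ax (mem_ax (by omega)) (mem_gr.2 (by omega))).comm (by simp)
  have hI := G.I b.T
  have w3 : gr b.N (0 + 1) b.T ∈ b.W :=
    G.pstep (mem_gr.2 (by omega)) (far_gr (by omega)) wb (w2 b.N (by omega) le_rfl b.T le_rfl (by omega))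
      (G.e_btgr (mem_gr.2 (by omega))).comm
      (G.e_y (mem_gr.2 (by omega)) (mem_gr.2 (by omega))).comm (by simp)
  have w4 : ∀ k, k ≤ b.T → 0 ≤ k → az k ∈ b.W := by
    intro t ht
    induction t, ht using Int.leInductionDown with
    | base =>
      exact fun _ => G.pstep (mem_az (by omega)) trivial
        (w2 b.N (by omega) le_rfl b.T le_rfl (by omega)) w3
        (G.s_az (mem_az (by omega)) (mem_gr.2 (by omega)))
        (G.s_az (mem_az (by omega)) (mem_gr.2 (by omega))) (by simp)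
    | pred t ht ih =>
      intro h
      have e := G.e_az (k := t - 1) (mem_az (by omega)) (mem_az (by omega))
      rw [sub_add_cancel] at e
      exact G.pstep (mem_az (by omega)) trivial (ih (by omega))
        (w2 b.N (by omega) le_rfl (t - 1) (by omega) h) e
        (G.s_az (mem_az (by omega)) (mem_gr.2 (by omega))) (by simp)
  have w5 : ∀ t, 0 ≤ t → t ≤ 3 → ∀ i, i ≤ b.N → 3 ≤ i → ∀ j, 0 ≤ j → j ≤ b.N → gr i j t ∈ b.W := by
    intro t t0 t3 i hi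
    induction i, hi using Int.leInductionDown with
    | base =>
      intro _ j hj
      induction j, hj using Int.leInduction with
      | base => exact fun _ => w2 _ (by omega) le_rfl t (by omega) t0
      | succ j hj ih =>
        exact fun h => G.pstep (mem_gr.2 (by omega)) (far_gr (by omega)) (ih (by omega))
          (w4 t (by omega) t0) (G.e_y (mem_gr.2 (by omega)) (mem_gr.2 (by omega))).comm
          (G.s_az (mem_az (by omega)) (mem_gr.2 (by omega))).comm (by simp)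
    | pred i hi ih =>
      intro h j hj
      induction j, hj using Int.leInduction with
      | base => exact fun _ => w2 _ h (by omega) t (by omega) t0
      | succ j hj ih2 =>
        intro h'
        have e := G.e_x (i := i - 1) (j := j + 1) (t := t) (mem_gr.2 (by omega))
          (mem_gr.2 (by omega))
        rw [sub_add_cancel] at e
        exact G.pstep (mem_gr.2 (by omega)) (far_gr h) (ih2 (by omega))
          (ih (by omega) _ (by omega) h') (G.e_y (mem_gr.2 (by omega)) (mem_gr.2 (by omega))).comm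
          e (by simp)
  refine ⟨w1, fun k h1 h2 => ?_, w4, w2 _ (by omega) le_rfl _ le_rfl (by omega), w5⟩
  exact G.pstep (mem_ay ⟨h1, h2⟩) trivial (w5 0 le_rfl (by omega) 3 (by omega) le_rfl k h1 h2)
    (w5 0 le_rfl (by omega) 4 (by omega) (by omega) k h1 h2)
    (G.s_ay (mem_ay ⟨h1, h2⟩) (mem_gr.2 (by omega)))
    (G.s_ay (mem_ay ⟨h1, h2⟩) (mem_gr.2 (by omega))) (by simp)

lemma bnd {g : Option Bool → ℤ} (h1 : b.data.lo ≤ g) (h2 : g ≤ b.data.hi) :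
    3 ≤ g (some false) ∧ g (some false) ≤ b.N ∧ 0 ≤ g (some true) ∧ g (some true) ≤ b.N ∧
      0 ≤ g none ∧ g none ≤ 3 :=
  ⟨h1 (some false), h2 (some false), h1 (some true), h2 (some true), h1 none, h2 none⟩

lemma BG.adj {a : Option Bool} {k : ℤ} {u w u' w' : Bx} (q : b.Qd u w u' w')
    (h : b.Ln a k u' w') : b.data.Adj a k (u, w) (u', w') :=
  ⟨h, _, q.1, by simp, by simp, by simp, by simp⟩

lemma BG.adj' {a : Option Bool} {k : ℤ} {u w u' w' : Bx} (q : b.Qd u' w' u w)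
    (h : b.Ln a k u' w') : b.data.Adj a k (u, w) (u', w') :=
  ⟨h, _, q.1, by simp, by simp, by simp, by simp⟩

lemma BG.conn (G : BG b) (a : Option Bool) (k : ℤ) (u w : Bx) (h : b.Ln a k u w) :
    Relation.ReflTransGen (b.data.Adj a k) (b.data.ap a k, b.data.ap a (k + 1)) (u, w) := by
  have hN := G.N
  have hT := G.T
  rcases a with _ | _ | _
  · obtain ⟨hk, ⟨rfl, rfl⟩ | ⟨i, j, ⟨h1, h2, h3, h4⟩, rfl, rfl⟩⟩ := h
    · exact Relation.ReflTransGen.refl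
    induction i, h2 using Int.leInductionDown with
    | base =>
      exact Relation.ReflTransGen.single (BG.adj (G.q_az (by omega))
        ⟨hk, Or.inr ⟨_, _, ⟨h1, le_rfl, h3, h4⟩, rfl, rfl⟩⟩)
    | pred i hi ih =>
      have q := G.q_zx (i := i - 1) (j := j) (t := k) (by omega)
      rw [sub_add_cancel] at q
      exact (ih (by omega)).tail (BG.adj' q ⟨hk, Or.inr ⟨_, _, by omega, rfl, rfl⟩⟩)
  · obtain ⟨hk, ⟨rfl, rfl⟩ | ⟨j, t, ⟨h1, h2, h3, h4⟩, rfl, rfl⟩⟩ := h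
    · exact Relation.ReflTransGen.refl
    induction j, h1 using Int.leInduction with
    | base =>
      exact Relation.ReflTransGen.single (BG.adj (G.q_ax (by omega))
        ⟨hk, Or.inr ⟨_, _, ⟨le_rfl, h2, h3, h4⟩, rfl, rfl⟩⟩)
    | succ j hj ih =>
      exact (ih (by omega)).tail (BG.adj (G.q_xy (by omega))
        ⟨hk, Or.inr ⟨_, _, by omega, rfl, rfl⟩⟩)
  · obtain ⟨hk, ⟨rfl, rfl⟩ | ⟨i, t, ⟨h1, h2, h3, h4⟩, rfl, rfl⟩⟩ := h
    · exact Relation.ReflTransGen.refl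
    induction t, h3 using Int.leInduction with
    | base =>
      exact Relation.ReflTransGen.single (BG.adj (G.q_ay (by omega))
        ⟨hk, Or.inr ⟨_, _, ⟨h1, h2, le_rfl, h4⟩, rfl, rfl⟩⟩)
    | succ t ht ih =>
      exact (ih (by omega)).tail (BG.adj (G.q_yz (by omega))
        ⟨hk, Or.inr ⟨_, _, by omega, rfl, rfl⟩⟩)

lemma BG.lnE (G : BG b) (a : Option Bool) (k : ℤ) (u w : Bx) (h : b.Ln a k u w) :
    b.data.Edge u w ∧ b.data.lo a ≤ k ∧ k < b.data.hi a := by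
  have hN := G.N
  have hT := G.T
  obtain ⟨w1, w2, w3, -, w5⟩ := G.inW
  rcases a with _ | _ | _
  · refine ⟨?_, h.1⟩
    obtain ⟨hk, ⟨rfl, rfl⟩ | ⟨i, j, ⟨h1, h2, h3, h4⟩, rfl, rfl⟩⟩ := h
    · exact ⟨w3 _ (by omega) (by omega), w3 _ (by omega) (by omega), by simp,
        G.e_az (mem_az (by omega)) (mem_az (by omega))⟩
    · exact ⟨w5 _ (by omega) (by omega) _ h2 h1 _ h3 h4, w5 _ (by omega) (by omega) _ h2 h1 _ h3 h4,
        by simp, G.e_z (mem_gr.2 (by omega)) (mem_gr.2 (by omega)) (by omega)⟩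
  · refine ⟨?_, h.1⟩
    obtain ⟨hk, ⟨rfl, rfl⟩ | ⟨j, t, ⟨h1, h2, h3, h4⟩, rfl, rfl⟩⟩ := h
    · exact ⟨w1 _ (by omega) (by omega), w1 _ (by omega) (by omega), by simp,
        G.e_ax (mem_ax (by omega)) (mem_ax (by omega))⟩
    · exact ⟨w5 _ h3 h4 _ (by omega) (by omega) _ h1 h2, w5 _ h3 h4 _ (by omega) (by omega) _ h1 h2,
        by simp, G.e_x (mem_gr.2 (by omega)) (mem_gr.2 (by omega))⟩
  · refine ⟨?_, h.1⟩
    obtain ⟨hk, ⟨rfl, rfl⟩ | ⟨i, t, ⟨h1, h2, h3, h4⟩, rfl, rfl⟩⟩ := h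
    · exact ⟨w2 _ (by omega) (by omega), w2 _ (by omega) (by omega), by simp,
        G.e_ay (mem_ay (by omega)) (mem_ay (by omega))⟩
    · exact ⟨w5 _ h3 h4 _ h2 h1 _ (by omega) (by omega), w5 _ h3 h4 _ h2 h1 _ (by omega) (by omega),
        by simp, G.e_y (mem_gr.2 (by omega)) (mem_gr.2 (by omega))⟩

end Pool.Agent.P.MP_3c8515_co
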