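import Pool.Agent.P.MP_3c8515_co.Base7

namespace Pool.Agent.P.MP_3c8515_co

open Set Submodule Module Filter Bx

variable {b : BP}

lemma BG.tn (G : BG b) : ∃ ψ : U4 →ₗ[ℝ] ℝ,
    (∀ x ∈ b.S, 0 ≤ b.η x - ψ (b.ξ x) ∧ (BP.far x → 1 ≤ b.η x - ψ (b.ξ x))) ∧
    b.η (gr 2 0 3) - ψ (b.ξ (gr 2 0 3)) = 0 ∧ b.η (gr 3 0 3) - ψ (b.ξ (gr 3 0 3)) = 1 := by
  have hN := G.N
  obtain ⟨a1, a2, a3⟩ := G.kink_slope (e := 1) one_pos (by norm_num)
  have e : ∀ i j t : ℤ, t ≤ 3 → b.η (gr i j t) -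
      lin (b.f 2 - 2 * (b.qf.s 2 - 1) + b.g 0 - 9) (b.qf.s 2 - 1) (b.qg.s 0) 6 (b.ξ (gr i j t)) =
      (b.qf.val (b.qf.s 2 - 1) i - b.qf.val (b.qf.s 2 - 1) 2) +
        (b.qg.val (b.qg.s 0) j - b.qg.val (b.qg.s 0) 0) + ((t : ℝ) - 3) ^ 2 := by
    intro i j t ht
    generalize b.qf.s 2 - 1 = σ
    generalize b.qg.s 0 = τ
    simp only [BP.lin_xi, BP.η, BP.L, BP.cX, BP.cY, BP.cZ, Sq.val, BP.qf, BP.qg,
      if_neg (show ¬ 3 < t by omega)]
    push_cast
    ring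
  refine ⟨lin (b.f 2 - 2 * (b.qf.s 2 - 1) + b.g 0 - 9) (b.qf.s 2 - 1) (b.qg.s 0) 6, fun x hx => ?_,
    by rw [e _ _ _ le_rfl]; norm_num, by rw [e _ _ _ le_rfl, a3]; norm_num⟩
  rcases Nat.eq_zero_or_pos (b.st x) with h0 | h0
  swap
  · have := G.big x hx.1 h0
    exact ⟨by linarith, fun _ => this⟩
  rcases x with ⟨i, j, t⟩ | ⟨t, k⟩ | ⟨t, k⟩ | k | k | t | _ <;> simp only [BP.st] at h0
  · rw [mem_gr] at hx
    rw [e _ _ _ (by omega)]
    have b1 := G.cg.inc (j := 0) le_rfl le_rfl le_rfl hx.1.2.2.1 hx.1.2.2.2.1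
    have b2 := (a1 i (by omega) (by omega)).1
    have b3 := sq_nonneg ((t : ℝ) - 3)
    refine ⟨by linarith, fun hf => ?_⟩
    have b4 := G.cf.inc (j := 3) (m := 3) (m' := i) (by omega) a2.le le_rfl (hf (by omega)) (by omega)
    linarith
  all_goals omega

lemma BG.cell (G : BG b) (k k' : Option Bool → ℤ) (h1 : b.data.lo ≤ k) (h2 : k' ≤ b.data.hi)
    (h3 : k ≤ k') (h4 : k' ≤ k + 1) : b.LFs (b.data.gr '' Icc k k') := by
  have hT := G.T
  have a1 := bnd h1 (h3.trans h2)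
  have a2 := bnd (h1.trans h3) h2
  have c1 : k' (some false) ≤ k (some false) + 1 := h4 _
  have c2 : k' (some true) ≤ k (some true) + 1 := h4 _
  have c3 : k' none ≤ k none + 1 := h4 _
  refine BP.toS (G.core (i := k (some false)) (i' := k' (some false)) (j := k (some true))
    (j' := k' (some true)) (t := k none) (t' := k' none) ⟨by omega, h3 _, c1, by omega⟩
    ⟨by omega, h3 _, c2, by omega⟩ ⟨by omega, h3 _, c3, by omega⟩) ?_ (fun x => ⟨?_, fun hx => ?_⟩)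
  · rintro _ ⟨g, hg, rfl⟩
    have a3 := bnd (h1.trans hg.1) (hg.2.trans h2)
    exact mem_gr.2 (by omega)
  · rintro ⟨g, hg, rfl⟩
    exact ⟨hg.1 _, hg.2 _, hg.1 _, hg.2 _, hg.1 _, hg.2 _⟩
  · obtain ⟨a, c, d, rfl, h⟩ := mem_Box hx
    refine ⟨tri d a c, ⟨?_, ?_⟩, rfl⟩
    · rintro (_ | _ | _)
      exacts [h.2.2.2.2.1, h.1, h.2.2.1]
    · rintro (_ | _ | _)
      exacts [h.2.2.2.2.2, h.2.1, h.2.2.2.1]

lemma BG.ap_pos (G : BG b) {a c d e : ℝ} (s : Option Bool) (k : ℤ) (h1 : b.data.lo s ≤ k)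
    (h2 : k ≤ b.data.hi s)
    (hz : s = none → ∀ Z : ℝ, b.T / 4 ≤ Z → Z ≤ 3 * b.T / 4 →
      0 < a + c * (b.N + 1) + d * (b.N + 1) + e * Z)
    (hx : s = some false → ∀ X : ℝ, b.N / 4 ≤ X → X ≤ 3 * b.N / 4 → 0 < a + c * X - d + e)
    (hy : s = some true → ∀ Y : ℝ, b.N / 4 ≤ Y → Y ≤ 3 * b.N / 4 → 0 < a - c + d * Y - e) :
    0 < lin a c d e (b.ξ (b.data.ap s k)) := by
  have hT : (6 : ℝ) ≤ b.T := by exact_mod_cast G.T
  rw [BP.lin_xi]
  rcases s with _ | _ | _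
  · have k0 : (0 : ℝ) ≤ k := by exact_mod_cast (show (0 : ℤ) ≤ k from h1)
    have k1 : (k : ℝ) ≤ 3 := by exact_mod_cast (show k ≤ (3 : ℤ) from h2)
    exact hz rfl (b.T / 4 + k / 2) (by linarith) (by linarith)
  · have k0 : (3 : ℝ) ≤ k := by exact_mod_cast (show (3 : ℤ) ≤ k from h1)
    have k1 : (k : ℝ) ≤ b.N := by exact_mod_cast (show k ≤ b.N from h2)
    have := hx rfl (b.N / 4 + k / 2) (by linarith) (by linarith)
    show 0 < a + c * (b.N / 4 + k / 2) + d * (-1) + e * 1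
    linarith
  · have k0 : (0 : ℝ) ≤ k := by exact_mod_cast (show (0 : ℤ) ≤ k from h1)
    have k1 : (k : ℝ) ≤ b.N := by exact_mod_cast (show k ≤ b.N from h2)
    have := hy rfl (b.N / 4 + k / 2) (by linarith) (by linarith)
    show 0 < a + c * (-1) + d * (b.N / 4 + k / 2) + e * (-1)
    linarith

theorem BG.pinv (G : BG b) : PInv b.data := by
  have hN := G.N
  have hT := G.T
  have hN' : (8 : ℝ) ≤ b.N := by exact_mod_cast G.N
  have hT' : (6 : ℝ) ≤ b.T := by exact_mod_cast G.T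
  obtain ⟨w1, w2, w3, w4, w5⟩ := G.inW
  have wb : bt ∈ b.W := Perc.fst
  have gW : ∀ g, b.data.lo ≤ g → g ≤ b.data.hi → b.data.gr g ∈ b.W := fun g h1 h2 => by
    have := bnd h1 h2
    exact w5 _ (by omega) (by omega) _ (by omega) (by omega) _ (by omega) (by omega)
  refine
    { fin := b.S0_fin.subset fun x hx => hx.1
      WS := fun x hx => (G.W0 hx).1
      one := fun i _ => by simp [BP.data, BP.lin_xi]
      dim := by simp
      vert := fun i hi => G.vert hi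
      lohi := ?_
      xy := by simp [BP.data]
      ex := ?_
      grW := gW
      co := ?_
      cell := G.cell
      seed := ⟨wb, Perc.snd, by simp [BP.data], G.e_btax (mem_ax (by omega))⟩
      perc := ?_
      lnE := G.lnE
      lnG := ?_
      lnA := ?_
      lnC := ?_
      conn := G.conn
      apW := ?_
      cpW := ?_
      apI := ?_
      cpI := ?_
      acN := ?_
      par := ?_
      gt := ?_
      beW := wb
      gb := ⟨lin (b.T + 1) 0 0 (-1), by simp [BP.data, BP.lin_xi, BP.cZ], fun x hx hn => ?_⟩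
      gtb := ⟨gr b.N 0 b.T, w4, by simp [BP.data], lin (2 * b.N + b.N * b.T) (-2) 0 (-b.N),
        fun x hx => ?_, ?_, ?_, fun s k h1 h2 => G.ap_pos s k h1 h2 ?_ ?_ ?_⟩
      gh := ⟨gr b.N 0 b.T, w4, lin b.N (-1) 1 0, fun x hx => ?_, ?_, ?_,
        fun s k h1 h2 => G.ap_pos s k h1 h2 ?_ ?_ ?_⟩
      g0 := ⟨?_, ?_⟩
      v0 := mem_gr.2 (by omega)
      tn := ?_ }
  · rintro (_ | _ | _) <;> simp only [BP.data, tri] <;> omega
  · rintro (_ | _ | _) h1 h2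
    · exact ⟨rfl, rfl⟩
    · exact absurd rfl h1
    · exact absurd rfl h2
  · rintro g - - (_ | _ | _) <;> simp [BP.data, tri, BP.lin_xi, BP.cX, BP.cY, BP.cZ]
  · intro w hw
    induction hw with
    | fst => exact Perc.fst
    | snd => exact Perc.snd
    | step a1 a2 a3 a4 a5 i1 i2 =>
      have hw := Perc.step a1 a2 a3 a4 a5
      exact Perc.step ⟨hw, a4, a1.2.2.1, a1.2.2.2⟩ ⟨hw, a5, a2.2.2.1, a2.2.2.2⟩ a3 i1 i2
  · intro g a h1 h2 h3
    have := bnd h1 h2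
    rcases a with _ | _ | _
    · exact ⟨⟨by omega, h3⟩, Or.inr ⟨_, _, by omega, rfl, by simp [BP.data]⟩⟩
    · exact ⟨⟨by omega, h3⟩, Or.inr ⟨_, _, by omega, rfl, by simp [BP.data]⟩⟩
    · exact ⟨⟨by omega, h3⟩, Or.inr ⟨_, _, by omega, rfl, by simp [BP.data]⟩⟩
  · rintro (_ | _ | _) k h1 h2 <;> exact ⟨⟨h1, h2⟩, Or.inl ⟨rfl, rfl⟩⟩
  · rintro (_ | _ | _) k h1 h2 <;> exact ⟨⟨h1, h2⟩, Or.inr ⟨_, _, by omega, rfl, rfl⟩⟩
  · rintro (_ | _ | _) k h1 h2
    · exact w3 k (le_trans h2 (show (3 : ℤ) ≤ b.T by omega)) h1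
    · exact w1 k h1 h2
    · exact w2 k h1 h2
  · rintro (_ | _ | _) k h1 h2
    · exact w5 _ h1 h2 _ le_rfl (by omega) _ le_rfl (by omega)
    · exact w5 _ le_rfl (by omega) _ h2 h1 _ le_rfl (by omega)
    · exact w5 _ le_rfl (by omega) _ le_rfl (by omega) _ h1 h2
  · rintro (_ | _ | _) k m - - - - h
    exacts [az.inj h, ax.inj h, ay.inj h]
  · rintro (_ | _ | _) k m - - - - h
    exacts [(gr.inj h).2.2, (gr.inj h).1, (gr.inj h).2.1]
  · rintro (_ | _ | _) k m - - - - <;> simp [BP.data, tri]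
  · rintro (_ | _ | _)
    · refine ⟨(1 / 2, b.N / 2 + 1, b.N + 1, b.T / 4), b.H ((2 * (b.T - 3)).toNat + 3) -
        (b.f b.N + b.g 0) / 2, 1 / 2, by norm_num, fun k _ _ => ⟨?_, ?_⟩⟩
      · simp only [BP.data, tri, BP.ξ, BP.cX, BP.cY, BP.cZ, Prod.smul_mk, smul_eq_mul,
          Prod.mk_add_mk, Prod.mk.injEq]
        push_cast
        exact ⟨by ring, by ring, by ring, by ring⟩
      · simp only [BP.data, tri, BP.η]; ring
    · refine ⟨(1 / 2, b.N / 4, -1, 1), b.H ((2 * (b.T - 3)).toNat + 1) -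
        (b.g 0 + b.L 0) / 2, 1 / 2, by norm_num, fun k _ _ => ⟨?_, ?_⟩⟩
      · simp only [BP.data, tri, BP.ξ, BP.cX, BP.cY, BP.cZ, Prod.smul_mk, smul_eq_mul,
          Prod.mk_add_mk, Prod.mk.injEq]
        push_cast
        exact ⟨by ring, by ring, by ring, by ring⟩
      · simp only [BP.data, tri, BP.η]; ring
    · refine ⟨(1 / 2, -1 - b.N / 2, b.N / 4, -1), b.H ((2 * (b.T - 3)).toNat + 2) -
        (b.f b.N + b.L 0) / 2, 1 / 2, by norm_num, fun k _ _ => ⟨?_, ?_⟩⟩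
      · simp only [BP.data, tri, BP.ξ, BP.cX, BP.cY, BP.cZ, Prod.smul_mk, smul_eq_mul,
          Prod.mk_add_mk, Prod.mk.injEq]
        push_cast
        exact ⟨by ring, by ring, by ring, by ring⟩
      · simp only [BP.data, tri, BP.η]; ring
  · rintro (_ | _ | _)
    · refine ⟨lin ((b.N + 1) * b.N) (-(b.N + 1)) 1 0, fun x hx => ?_, fun k _ _ => ?_,
        fun s hs k h1 h2 => G.ap_pos s k h1 h2 (fun h => absurd h hs) (fun _ X _ _ => by nlinarith)
          (fun _ Y _ _ => by nlinarith), ?_⟩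
      · show 0 ≤ lin _ _ _ _ (b.ξ x)
        rw [BP.lin_xi]
        rcases G.coords hx.1 with h | h | h | h | ⟨-, h⟩
        · nlinarith [h.2.1, h.2.2.1]
        · nlinarith [h.2.1, h.2.2.1]
        · rw [h.1]; nlinarith [h.2.1]
        · rw [h.1, h.2.1]; linarith
        · rw [h.1, h.2.1]; nlinarith
      · simp only [BP.data, tri, BP.lin_xi, BP.cX, BP.cY, BP.cZ]
        push_cast
        exact ⟨by ring, by ring⟩
      · simp only [BP.data, BP.lin_xi, BP.cX, BP.cY, BP.cZ]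
        nlinarith
    · refine ⟨lin 0 0 1 1, fun x hx => ?_, fun k _ _ => ?_,
        fun s hs k h1 h2 => G.ap_pos s k h1 h2 (fun _ X _ _ => by linarith) (fun h => absurd h hs)
          (fun _ Y _ _ => by linarith), ?_⟩
      · show 0 ≤ lin _ _ _ _ (b.ξ x)
        rw [BP.lin_xi]
        rcases G.coords hx.1 with h | h | h | h | ⟨-, h⟩
        · linarith [h.2.2.1, h.2.2.2.2.1]
        · linarith [h.2.2.1, h.2.2.2]
        · linarith [h.2.1, h.2.2.2]
        · linarith [h.2.1, h.2.2.1]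
        · linarith [h.2.1, h.2.2]
      · simp [BP.data, tri, BP.lin_xi, BP.cX, BP.cY, BP.cZ]
      · simp only [BP.data, BP.lin_xi, BP.cX, BP.cY, BP.cZ]
        linarith
    · refine ⟨lin b.N (-1) 0 (b.N + 1), fun x hx => ?_, fun k _ _ => ?_,
        fun s hs k h1 h2 => G.ap_pos s k h1 h2 (fun _ X _ _ => by nlinarith)
          (fun _ Y _ _ => by linarith) (fun h => absurd h hs), ?_⟩
      · show 0 ≤ lin _ _ _ _ (b.ξ x)
        rw [BP.lin_xi]
        rcases G.coords hx.1 with h | h | h | h | ⟨-, h⟩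
        · nlinarith [h.2.1, h.2.2.2.2.1]
        · rw [h.2.2.2]; linarith [h.2.1]
        · rw [h.1, h.2.2.2]; linarith
        · rw [h.1]; nlinarith [h.2.2.1]
        · rw [h.1, h.2.2]; nlinarith
      · simp only [BP.data, tri, BP.lin_xi, BP.cX, BP.cY, BP.cZ]
        push_cast
        exact ⟨by ring, by ring⟩
      · simp only [BP.data, BP.lin_xi, BP.cX, BP.cY, BP.cZ]
        nlinarith
  · show 0 < lin _ _ _ _ (b.ξ x)
    rw [BP.lin_xi]
    rcases G.coords hx.1 with h | h | h | h | ⟨h, -⟩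
    · linarith [h.2.2.2.2.2]
    · linarith [h.2.2.2]
    · linarith [h.2.2.2]
    · linarith [h.2.2.2]
    · exact absurd h hn
  · show 0 ≤ lin _ _ _ _ (b.ξ x)
    rw [BP.lin_xi]
    rcases G.coords hx.1 with h | h | h | h | ⟨-, h⟩
    · nlinarith [h.2.1, h.2.2.2.2.2]
    · rw [h.2.2.2]; nlinarith [h.2.1]
    · rw [h.1, h.2.2.2]; nlinarith
    · rw [h.1]; nlinarith [h.2.2.2]
    · rw [h.1, h.2.2]; linarith
  · simp only [BP.data, BP.lin_xi, BP.cX, BP.cY, BP.cZ]; ring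
  · simp only [BP.data, BP.lin_xi, BP.cX, BP.cY, BP.cZ]; ring
  · exact fun _ Z _ _ => by nlinarith
  · exact fun _ Z _ _ => by nlinarith
  · exact fun _ Z _ _ => by nlinarith
  · show 0 ≤ lin _ _ _ _ (b.ξ x)
    rw [BP.lin_xi]
    rcases G.coords hx.1 with h | h | h | h | ⟨-, h⟩
    · linarith [h.2.1, h.2.2.1]
    · linarith [h.2.1, h.2.2.1]
    · linarith [h.1, h.2.1]
    · linarith [h.1, h.2.1]
    · linarith [h.1, h.2.1]
  · simp [BP.data, BP.lin_xi, BP.cX, BP.cY, BP.cZ]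
  · simp only [BP.data, BP.lin_xi, BP.cX, BP.cY, BP.cZ]; linarith
  · exact fun _ Z _ _ => by linarith
  · exact fun _ Z _ _ => by linarith
  · exact fun _ Z _ _ => by linarith
  · rintro (_ | _ | _) <;> simp only [BP.data, tri] <;> omega
  · rintro (_ | _ | _) <;> simp only [BP.data, tri] <;> omega
  · obtain ⟨ψ, a1, a2, a3⟩ := G.tn
    exact ⟨ψ, 1, one_pos, fun i hi => (a1 i hi).1, a2, fun i hi => (a1 i (G.W0 hi).1).2 (G.W0 hi).2,
      a3⟩

end Pool.Agent.P.MP_3c8515_co
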