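import Pool.Agent.P.MP_3c8515_co.Base8

namespace Pool.Agent.P.MP_3c8515_co

open Set Submodule Module Filter Bx

def BP.Nx (b : BP) (t l I m J : ℤ) : Prop :=
  b.I t = I ∧ b.J t = J ∧ (3 < t ∧ t < b.T ∧ 1 ≤ l ∧ l + 2 ≤ I ∧ 1 ≤ m ∧ m < J) ∧
    b.qf.D l I ≤ b.qg.D m J ∧ b.qf.D l I ≤ b.qf.D 1 0 ∧ b.qf.D l I ≤ b.qg.D 1 0

def BP.Ny (b : BP) (t l J m I : ℤ) : Prop :=
  b.I t = I ∧ b.J t = J ∧ (3 < t ∧ t < b.T ∧ 1 ≤ l ∧ l + 2 ≤ J ∧ 1 ≤ m ∧ m < I) ∧
    b.qg.D l J ≤ b.qf.D m I ∧ b.qg.D l J ≤ b.qg.D 1 0 ∧ b.qg.D l J ≤ b.qf.D 1 0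

/-- the notches cut into the plates -/
structure BN (b : BP) (K : ℕ) (C : ℤ) : Prop where
  hC : 8 ≤ C
  hN : C + 2 ≤ b.N
  hY : 4 * K + 6 ≤ b.N
  n4 : b.Nx 4 3 10 1 5
  n5 : b.Nx 5 6 (C + 2) 1 5
  n6 : b.Ny 6 1 5 1 3
  n7 : b.Ny 7 5 (5 + 4 * K) 5 C
  n8 : ∀ k : ℕ, k < K → b.Nx (8 + k) 1 3 (5 + 4 * k) (9 + 4 * k)

variable {b : BP}

theorem BG.rigid (G : BG b) {K : ℕ} {C : ℤ} (B : BN b K C) : Rigid K b.data := by
  intro V _ _ _ r ω Z
  have hN := G.N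
  have hT := G.T
  obtain ⟨o, Tx, Ty, Tz, A⟩ := G.axes Z
  obtain ⟨ex, qx, cx, hx⟩ := A.cx G Z
  obtain ⟨ey, qy, cy, hy⟩ := A.cy G Z
  obtain ⟨ez, qz, cz, hz⟩ := A.cz G Z
  have hm : ∀ g, b.data.lo ≤ g → g ≤ b.data.hi →
      mdl (o + Tx 0 + Ty 0 + Tz 0) (tri ez ex ey) ω (tri qz qx qy) g =
        o + Tx (g (some false)) + Ty (g (some true)) + Tz (g none) := by
    intro g h1 h2
    have := bnd h1 h2
    rw [hx (g _) (by omega) (by omega), hy (g _) (by omega) (by omega),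
      hz (g _) (by omega) (by omega), mdl, Fintype.sum_option, Fintype.sum_bool]
    simp only [tri]
    abel
  have hi : ∀ {T : ℤ → V} {e : V} {q : Sq} {n k : ℤ},
      (∀ k, 0 ≤ k → k ≤ n → T k = T 0 + q.X k • e + q.F k • ω) → 0 ≤ k → k < n →
      inc e ω q k = T (k + 1) - T k := by
    intro T e q n k h h1 h2
    rw [h k h1 h2.le, h (k + 1) (by omega) (by omega), inc, sub_smul, sub_smul]
    abel
  have hv : ∀ h : V →ₗ[ℝ] ℝ, h ω = 1 → ∀ i j t, 0 ≤ i → i ≤ b.N → 0 ≤ j → j ≤ b.N →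
      h (o + Tx i + Ty j + Tz t) = h (o + Tx 0 + Ty 0 + Tz t) + qx.val (-h ex) i +
        qy.val (-h ey) j := by
    intro h h1 i j t a1 a2 a3 a4
    rw [hx i a1 a2, hy j a3 a4]
    simp only [map_add, map_smul, smul_eq_mul, h1, Sq.val]
    ring
  have nx : ∀ {t l I m J}, b.Nx t l I m J → qx.D l I ≤ qy.D m J := by
    rintro t l _ m _ ⟨rfl, rfl, a1, a2, a3, a4⟩
    have hI := G.I t
    have hJ := G.J t
    obtain ⟨F, m', b1, b2, b3, b4, b5, b6⟩ := G.notch_x (t := t) (l := l) (m := m) (by omega)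
      (by omega) (by omega) (by omega) (by omega) (by omega) a2 a3 a4
    obtain ⟨h, c1, c2, c3, -⟩ := Z.lf' b3
    have d1 := ((A.kn _ _ _ (by omega)).apply h).2.1.1 (c2 _ b4)
    have d2 := ((A.kn _ _ _ (by omega)).apply h).2.1.1 (c2 _ b5)
    have d3 := ((A.kn _ _ _ (by omega)).apply h).2.1.1 (c2 _ b6)
    have d4 := ((A.kn (b.I t) (m' - 1) t (by omega)).apply h).1.1 (c3 _ (mem_gr.2 (by omega)))
    rw [hv h c1 _ _ _ (by omega) (by omega) (by omega) (by omega)] at d1 d2 d3 d4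
    exact cx.notch_back cy (by omega) (by omega) (by omega) b1 b2 hJ d1 d2 d3 d4
  have ny : ∀ {t l J m I}, b.Ny t l J m I → qy.D l J ≤ qx.D m I := by
    rintro t l _ m _ ⟨rfl, rfl, a1, a2, a3, a4⟩
    have hI := G.I t
    have hJ := G.J t
    obtain ⟨F, m', b1, b2, b3, b4, b5, b6⟩ := G.notch_y (t := t) (l := l) (m := m) (by omega)
      (by omega) (by omega) (by omega) (by omega) (by omega) a2 a3 a4
    obtain ⟨h, c1, c2, c3, -⟩ := Z.lf' b3
    have d1 := ((A.kn _ _ _ (by omega)).apply h).2.1.1 (c2 _ b4)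
    have d2 := ((A.kn _ _ _ (by omega)).apply h).2.1.1 (c2 _ b5)
    have d3 := ((A.kn _ _ _ (by omega)).apply h).2.1.1 (c2 _ b6)
    have d4 := ((A.kn (m' - 1) (b.J t) t (by omega)).apply h).1.1 (c3 _ (mem_gr.2 (by omega)))
    rw [hv h c1 _ _ _ (by omega) (by omega) (by omega) (by omega), add_right_comm] at d1 d2 d3 d4
    exact cy.notch_back cx (by omega) (by omega) (by omega) b1 b2 hI d1 d2 d3 d4
  have tn : ∀ h : V →ₗ[ℝ] ℝ, h ω = 1 → (∀ i ∈ b.S, 0 ≤ h (r i)) → h (r (gr 2 0 3)) = 0 →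
      h (o + Tx 3 + Ty 0 + Tz 3) ≤ qx.D 1 3 := by
    intro h c1 c3 c2
    have d1 := ((A.kn 2 0 3 (by omega)).apply h).2.1.1 c2
    have d2 := ((A.kn 1 0 3 (by omega)).apply h).1.1 (c3 _ (mem_gr.2 (by omega)))
    rw [hv h c1 _ _ _ (by omega) (by omega) (by omega) (by omega)] at d1 d2 ⊢
    have d3 := cx.s_le (σ := -h ex) (v := 1) (by omega) (by omega) (by
      show qx.val _ 2 ≤ _
      linarith)
    have d4 := cx.up_fwd (j := 1) (v := 2) (m := 3) (M := 3) (by omega) d3 (by omega) (by omega)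
      le_rfl (by omega)
    linarith
  have hC := B.hC
  have hCN := B.hN
  have hY := B.hY
  have sup : ∀ k : ℕ, k ≤ K → k * qx.D 1 3 ≤ qy.D 5 (5 + 4 * k) := by
    intro k
    induction k with
    | zero => intro _; simp [Sq.D]
    | succ k ih =>
      intro hk
      have a1 := nx (B.n8 k hk)
      have a2 := cy.super (k := 5) (m := 5 + 4 * k) (n := 9 + 4 * k) (by omega) (by omega)
        (by omega) (by omega) (by omega)
      have a3 := ih (by omega)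
      rw [show (5 : ℤ) + 4 * ((k + 1 : ℕ) : ℤ) = 9 + 4 * k by push_cast; ring]
      push_cast
      linarith
  refine ⟨o + Tx 0 + Ty 0 + Tz 0, tri ez ex ey, tri qz qx qy, qx.D 1 3, ?_, fun g h1 h2 => ?_, ?_,
    fun h c1 c3 c2 => ?_, ?_, 5, 8, C, 5 + 4 * K, le_rfl, by omega, hC, by omega, hCN,
    (show (0 : ℤ) ≤ 1 by omega), by omega, (show 5 + 4 * (K : ℤ) + 1 ≤ b.N by omega),
    cx.D_pos (k := 1) (by omega) (by omega), (nx B.n4).trans (ny B.n6), (nx B.n5).trans (ny B.n6),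
    ny B.n6, sup K le_rfl, (sup K le_rfl).trans (ny B.n7)⟩
  · rintro (_ | _ | _)
    · exact cz
    · exact cx.mono (show (0 : ℤ) ≤ 3 by omega) le_rfl
    · exact cy
  · have := bnd h1 h2
    rw [hm g h1 h2]
    exact A.kn _ _ _ (by omega)
  · rintro (_ | _ | _) k u w ⟨hk, h⟩
    · show Str _ _ (inc ez ω qz k)
      rw [hi hz hk.1 hk.2]
      rcases h with ⟨rfl, rfl⟩ | ⟨i, j, h, rfl, rfl⟩
      · exact (A.sz k hk.1 (by omega)).1
      · exact (A.sz k hk.1 (by omega)).2 _ _ (by omega)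
    · show Str _ _ (inc ex ω qx k)
      rw [hi hx (by omega) hk.2]
      rcases h with ⟨rfl, rfl⟩ | ⟨i, j, h, rfl, rfl⟩
      · exact (A.sx k (by omega) hk.2).1
      · exact (A.sx k (by omega) hk.2).2 _ _ (by omega)
    · show Str _ _ (inc ey ω qy k)
      rw [hi hy hk.1 hk.2]
      rcases h with ⟨rfl, rfl⟩ | ⟨i, j, h, rfl, rfl⟩
      · exact (A.sy k hk.1 hk.2).1
      · exact (A.sy k hk.1 hk.2).2 _ _ (by omega)
  · rw [hm _ G.pinv.g0.1 G.pinv.g0.2]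
    exact tn h c1 c3 c2
  · rintro (_ | _ | _) h1 h2
    · show qz.D 0 3 ≤ _
      obtain ⟨F, b1, b2, b3, b4⟩ := G.tail_notch
      obtain ⟨h, c1, c2, c3, -⟩ := Z.lf' b1
      have d1 := tn h c1 c3 (c2 _ b2)
      have d2 := ((A.kn 3 0 0 (by omega)).apply h).2.1.1 (c2 _ b3)
      have d3 := ((A.kn 3 0 1 (by omega)).apply h).2.1.1 (c2 _ b4)
      have e : ∀ t, 0 ≤ t → t ≤ 3 → h (o + Tx 3 + Ty 0 + Tz t) =
          h (o + Tx 3 + Ty 0) + h (Tz 0) + qz.val (-h ez) t := by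
        intro t t0 t3
        rw [hz t t0 t3]
        simp only [map_add, map_smul, smul_eq_mul, c1, Sq.val]
        ring
      rw [e _ (by omega) (by omega)] at d1 d2 d3
      have s0 : -h ez = qz.s 0 := le_antisymm
        (cz.le_s le_rfl (by omega) (by rw [zero_add]; linarith))
        (cz.s_le le_rfl (by omega) (by rw [zero_add]; linarith))
      rw [Sq.D, ← s0]
      linarith
    · exact absurd rfl h1
    · exact absurd rfl h2

end Pool.Agent.P.MP_3c8515_co
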