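import Pool.Agent.P.MP_3c8515_co.Rules

namespace Pool.Agent.P.MP_3c8515_co

open Set Submodule Module Filter

/-- abscissae, values and slopes of a convex polygonal line -/
structure Sq where
  X : ℤ → ℝ
  F : ℤ → ℝ
  s : ℤ → ℝ

namespace Sq

def val (q : Sq) (σ : ℝ) (m : ℤ) : ℝ := q.F m - σ * q.X m

def D (q : Sq) (k m : ℤ) : ℝ := q.val (q.s k) m - q.val (q.s k) k

structure Conv (q : Sq) (lo hi : ℤ) : Prop where
  X : ∀ k, lo ≤ k → k < hi → q.X k < q.X (k + 1)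
  F : ∀ k, lo ≤ k → k < hi → q.F (k + 1) - q.F k = q.s k * (q.X (k + 1) - q.X k)
  s : ∀ k, lo ≤ k → k + 1 < hi → q.s k < q.s (k + 1)

def Min (q : Sq) (lo hi : ℤ) (σ : ℝ) (v : ℤ) : Prop :=
  ∀ m, lo ≤ m → m ≤ hi → q.val σ v ≤ q.val σ m

variable {q : Sq} {lo hi : ℤ}

lemma Conv.mono (h : q.Conv lo hi) {lo' hi' : ℤ} (h1 : lo ≤ lo') (h2 : hi' ≤ hi) :
    q.Conv lo' hi' :=
  ⟨fun k a b => h.X k (by omega) (by omega), fun k a b => h.F k (by omega) (by omega),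
    fun k a b => h.s k (by omega) (by omega)⟩

lemma Conv.step (h : q.Conv lo hi) (σ : ℝ) {k : ℤ} (h1 : lo ≤ k) (h2 : k < hi) :
    q.val σ (k + 1) - q.val σ k = (q.s k - σ) * (q.X (k + 1) - q.X k) := by
  have := h.F k h1 h2
  unfold val
  linear_combination this

lemma Conv.smono (h : q.Conv lo hi) {k m : ℤ} (h1 : lo ≤ k) (h2 : k ≤ m) (h3 : m < hi) :
    q.s k ≤ q.s m := by
  induction m, h2 using Int.le_induction with
  | base => exact le_rfl
  | succ m hm ih => exact (ih (by omega)).trans (h.s m (by omega) h3).le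

lemma Conv.sstrict (h : q.Conv lo hi) {k m : ℤ} (h1 : lo ≤ k) (h2 : k < m) (h3 : m < hi) :
    q.s k < q.s m :=
  (h.s k h1 (by omega)).trans_le (h.smono (by omega) (by omega) h3)

lemma Conv.Xmono (h : q.Conv lo hi) {k m : ℤ} (h1 : lo ≤ k) (h2 : k ≤ m) (h3 : m ≤ hi) :
    q.X k ≤ q.X m := by
  induction m, h2 using Int.le_induction with
  | base => exact le_rfl
  | succ m hm ih => exact (ih (by omega)).trans (h.X m (by omega) (by omega)).le

lemma Conv.inc (h : q.Conv lo hi) {σ : ℝ} {j m m' : ℤ} (h1 : lo ≤ j) (hσ : σ ≤ q.s j) (h2 : j ≤ m)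
    (h3 : m ≤ m') (h4 : m' ≤ hi) : q.val σ m ≤ q.val σ m' := by
  induction m', h3 using Int.le_induction with
  | base => exact le_rfl
  | succ n hn ih =>
    have a1 := ih (by omega)
    have a2 := h.step σ (k := n) (by omega) (by omega)
    have a3 := h.smono h1 (m := n) (by omega) (by omega)
    have a4 := h.X n (by omega) (by omega)
    nlinarith

lemma Conv.dec (h : q.Conv lo hi) {σ : ℝ} {j m m' : ℤ} (h1 : j < hi) (hσ : q.s j ≤ σ) (h2 : lo ≤ m)
    (h3 : m ≤ m') (h4 : m' ≤ j + 1) : q.val σ m' ≤ q.val σ m := by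
  induction m', h3 using Int.le_induction with
  | base => exact le_rfl
  | succ n hn ih =>
    have a1 := ih (by omega)
    have a2 := h.step σ (k := n) (by omega) (by omega)
    have a3 := h.smono (k := n) (m := j) (by omega) (by omega) h1
    have a4 := h.X n (by omega) (by omega)
    nlinarith

lemma Conv.le_s (h : q.Conv lo hi) {σ : ℝ} {v : ℤ} (h1 : lo ≤ v) (h2 : v < hi)
    (hv : q.val σ v ≤ q.val σ (v + 1)) : σ ≤ q.s v := by
  have a2 := h.step σ h1 h2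
  have a4 := h.X v h1 h2
  by_contra hc
  push Not at hc
  nlinarith

lemma Conv.s_le (h : q.Conv lo hi) {σ : ℝ} {v : ℤ} (h1 : lo ≤ v) (h2 : v < hi)
    (hv : q.val σ (v + 1) ≤ q.val σ v) : q.s v ≤ σ := by
  have a2 := h.step σ h1 h2
  have a4 := h.X v h1 h2
  by_contra hc
  push Not at hc
  nlinarith

lemma Conv.min_le (h : q.Conv lo hi) {σ : ℝ} {v : ℤ} (hm : q.Min lo hi σ v) (h1 : lo ≤ v)
    (h2 : v < hi) : σ ≤ q.s v :=
  h.le_s h1 h2 (hm _ (by omega) (by omega))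

lemma Conv.le_min (h : q.Conv lo hi) {σ : ℝ} {j v : ℤ} (hm : q.Min lo hi σ v) (h1 : lo ≤ j)
    (h2 : j < v) (h3 : v ≤ hi) : q.s j ≤ σ := by
  refine (h.smono (m := v - 1) h1 (by omega) (by omega)).trans
    (h.s_le (by omega) (by omega) ?_)
  rw [sub_add_cancel]
  exact hm _ (by omega) (by omega)

lemma chg (q : Sq) (σ τ : ℝ) (m v : ℤ) :
    q.val σ m - q.val σ v = q.val τ m - q.val τ v + (τ - σ) * (q.X m - q.X v) := by
  unfold val; ring

lemma Conv.cmp (h : q.Conv lo hi) {σ τ : ℝ} (hστ : σ ≤ τ) {v m : ℤ} (h1 : lo ≤ v) (h2 : v ≤ m)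
    (h3 : m ≤ hi) : q.val τ m - q.val τ v ≤ q.val σ m - q.val σ v := by
  rw [q.chg σ τ]
  have := h.Xmono h1 h2 h3
  nlinarith

lemma Conv.up_fwd (h : q.Conv lo hi) {σ : ℝ} {j v m M : ℤ} (h1 : lo ≤ j) (hσ : q.s j ≤ σ)
    (h2 : j ≤ v) (h3 : v ≤ m) (h4 : m ≤ M) (h5 : M ≤ hi) : q.val σ m - q.val σ v ≤ q.D j M := by
  have a1 := h.cmp hσ (v := v) (by omega) h3 (by omega)
  have a2 := h.inc h1 le_rfl (m := m) (by omega) h4 h5
  have a3 := h.inc h1 le_rfl le_rfl h2 (by omega)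
  unfold D
  linarith

lemma Conv.lo_fwd (h : q.Conv lo hi) {σ : ℝ} {v m M : ℤ} (h1 : lo ≤ v) (hσ : σ ≤ q.s v)
    (h2 : v ≤ M) (h3 : M ≤ m) (h4 : m ≤ hi) : q.D v M ≤ q.val σ m - q.val σ v := by
  have a1 := h.cmp hσ h1 (m := m) (by omega) h4
  have a2 := h.inc h1 le_rfl h2 h3 h4
  unfold D
  linarith

lemma Conv.up_bwd (h : q.Conv lo hi) {σ : ℝ} {v m M : ℤ} (h1 : v < hi) (hσ : σ ≤ q.s v)
    (h2 : lo ≤ M) (h3 : M ≤ m) (h4 : m ≤ v) : q.val σ m - q.val σ v ≤ q.D v M := by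
  have a1 := h.cmp hσ (v := m) (m := v) (by omega) h4 h1.le
  have a2 := h.dec h1 le_rfl h2 h3 (by omega)
  unfold D
  linarith

lemma Conv.lo_bwd (h : q.Conv lo hi) {σ : ℝ} {j m M : ℤ} (h1 : j < hi) (hσ : q.s j ≤ σ)
    (h2 : lo ≤ m) (h3 : m ≤ M) (h4 : M ≤ j) : q.D j M ≤ q.val σ m - q.val σ (j + 1) := by
  have a1 := h.cmp hσ (v := m) (m := j + 1) h2 (by omega) (by omega)
  have a2 := h.dec h1 le_rfl h2 h3 (by omega)
  have a3 := h.step (q.s j) (k := j) (by omega) h1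
  unfold D
  linarith

lemma Conv.D_anti (h : q.Conv lo hi) {k k' m M : ℤ} (h1 : lo ≤ k) (h2 : k ≤ k') (h3 : k' ≤ m)
    (h4 : m ≤ M) (h5 : M ≤ hi) (h6 : k' < hi) : q.D k' m ≤ q.D k M :=
  h.up_fwd h1 (h.smono h1 h2 h6) h2 h3 h4 h5

lemma Conv.super (h : q.Conv lo hi) {k m n : ℤ} (h1 : lo ≤ k) (h2 : k ≤ m) (h3 : m ≤ n)
    (h4 : n ≤ hi) (h5 : m < hi) : q.D k m + q.D m n ≤ q.D k n := by
  have := h.cmp (h.smono h1 h2 h5) (v := m) (by omega) h3 h4
  unfold D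
  linarith

lemma Conv.D_pos (h : q.Conv lo hi) {k : ℤ} (h1 : lo ≤ k) (h2 : k + 2 ≤ hi) :
    0 < q.D k (k + 2) := by
  have a1 := h.step (q.s k) h1 (by omega)
  have a2 := h.step (q.s k) (k := k + 1) (by omega) (by omega)
  have a3 := h.s k h1 (by omega)
  have a4 := h.X (k + 1) (by omega) (by omega)
  rw [show k + 1 + 1 = k + 2 by ring] at a2 a4
  unfold D
  nlinarith

lemma Conv.three (h : q.Conv lo hi) {A B C : ℤ} (h1 : lo ≤ A) (h2 : A ≤ B) (h3 : B ≤ C)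
    (h4 : C < hi) {μ c K : ℝ} (hμ : 0 < μ) (hc : 0 ≤ c) (hK : (1 + c) ^ 2 + 2 ≤ K)
    (a1 : q.D A B ≤ μ) (a2 : q.D B C ≤ μ) (a3 : q.D B A ≤ c * μ) (a4 : q.D C B ≤ c * μ)
    (a5 : K * μ ≤ q.D A C) : q.D C A ≤ (2 * c + 1) * μ := by
  have s1 := sub_nonneg.2 (h.smono h1 h2 (by omega))
  have s2 := sub_nonneg.2 (h.smono (k := B) (by omega) h3 h4)
  have l1 := sub_nonneg.2 (h.Xmono h1 h2 (by omega))
  have l2 := sub_nonneg.2 (h.Xmono (k := B) (by omega) h3 h4.le)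
  have e1 : q.D A C = q.D A B + q.D B C + (q.s B - q.s A) * (q.X C - q.X B) := by
    unfold D val; ring
  have e2 : q.D C A = q.D C B + q.D B A + (q.s C - q.s B) * (q.X B - q.X A) := by
    unfold D val; ring
  have e3 : (q.s B - q.s A) * (q.X B - q.X A) = q.D A B + q.D B A := by unfold D val; ring
  have e4 : (q.s C - q.s B) * (q.X C - q.X B) = q.D B C + q.D C B := by unfold D val; ring
  generalize q.s B - q.s A = σ1 at *
  generalize q.s C - q.s B = σ2 at *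
  generalize q.X B - q.X A = t1 at *
  generalize q.X C - q.X B = t2 at *
  by_contra hcon
  push Not at hcon
  have b1 : μ < σ2 * t1 := by linarith
  have b2 : (1 + c) ^ 2 * μ ≤ σ1 * t2 := by nlinarith
  have b3 : σ1 * t1 ≤ (1 + c) * μ := by linarith
  have b4 : σ2 * t2 ≤ (1 + c) * μ := by linarith
  have b5 : σ1 * t1 * (σ2 * t2) ≤ (1 + c) * μ * ((1 + c) * μ) :=
    mul_le_mul b3 b4 (mul_nonneg s2 l2) (by positivity)
  have b6 : (1 + c) ^ 2 * μ * μ < σ1 * t2 * (σ2 * t1) :=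
    mul_lt_mul' b2 b1 hμ.le (lt_of_lt_of_le (by positivity) b2)
  nlinarith

/-- the inequalities needed from one coordinate direction -/
def DirOK (q : Sq) (lo hi v1 v2 v3 k1 k2 k3 : ℤ) (δ t21 t13 : ℝ) : Prop :=
  ∀ σ1 σ2 σ3 : ℝ, q.Min lo hi σ1 v1 → q.Min lo hi σ2 v2 → q.Min lo hi σ3 v3 →
    ∀ m1 m2 m3 : ℤ, k1 ≤ m1 → m1 ≤ k1 + 1 → k2 ≤ m2 → m2 ≤ k2 + 1 → k3 ≤ m3 → m3 ≤ k3 + 1 →
      q.val σ1 m1 - q.val σ1 v1 ≤ δ ∧ q.val σ1 m2 - q.val σ1 v1 ≤ δ ∧
      q.val σ2 m2 - q.val σ2 v2 ≤ δ ∧ t21 ≤ q.val σ2 m1 - q.val σ2 v2 ∧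
      t13 ≤ q.val σ1 m3 - q.val σ1 v1 ∧
      q.val σ2 m3 - q.val σ2 v2 ≤ (q.val σ2 m1 - q.val σ2 v2) + (q.val σ1 m3 - q.val σ1 v1) + δ ∧
      q.val σ3 m1 ≤ q.val σ3 m2 ∧ q.val σ3 m3 ≤ q.val σ3 m2

lemma Conv.dir_extra (h : q.Conv 0 3) {μ : ℝ} (hμ : q.D 0 3 ≤ μ) :
    q.DirOK 0 3 1 1 3 2 1 2 μ 0 0 := by
  intro σ1 σ2 σ3 n1 n2 n3 m1 m2 m3 b1 b2 b3 b4 b5 b6
  have s1 := h.le_min n1 (j := 0) le_rfl (by omega) (by omega)
  have s2 := h.le_min n2 (j := 0) le_rfl (by omega) (by omega)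
  have s3 := h.le_min n3 (j := 2) (by omega) (by omega) (by omega)
  have u1 : ∀ m, 1 ≤ m → m ≤ 3 → q.val σ1 m - q.val σ1 1 ≤ μ := fun m a b =>
    (h.up_fwd le_rfl s1 (by omega) a b le_rfl).trans hμ
  have u2 : ∀ m, 1 ≤ m → m ≤ 3 → q.val σ2 m - q.val σ2 1 ≤ μ := fun m a b =>
    (h.up_fwd le_rfl s2 (by omega) a b le_rfl).trans hμ
  have p1 := n1 m3 (by omega) (by omega)
  have p2 := n2 m1 (by omega) (by omega)
  have p3 := u2 m3 (by omega) (by omega)
  exact ⟨u1 _ (by omega) (by omega), u1 _ (by omega) (by omega), u2 _ (by omega) (by omega),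
    by linarith, by linarith, by linarith,
    h.dec (by omega) s3 (by omega) (by omega) (by omega),
    h.dec (by omega) s3 (by omega) (by omega) (by omega)⟩

lemma Conv.dir_y (h : q.Conv lo hi) {Y : ℤ} (h1 : lo ≤ 1) (h2 : 5 ≤ Y) (h3 : Y + 1 ≤ hi) {μ T : ℝ}
    (hμ : q.D 1 5 ≤ μ) (hT : T ≤ q.D 5 Y) : q.DirOK lo hi 2 3 (Y + 1) 4 3 Y μ 0 T := by
  intro σ1 σ2 σ3 n1 n2 n3 m1 m2 m3 b1 b2 b3 b4 b5 b6
  have s1 := h.le_min n1 (j := 1) h1 (by omega) (by omega)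
  have s1' := h.min_le n1 (by omega) (by omega)
  have s2 := h.le_min n2 (j := 1) h1 (by omega) (by omega)
  have s2' := h.le_min n2 (j := 2) (by omega) (by omega) (by omega)
  have s3 := h.le_min n3 (j := Y) (by omega) (by omega) (by omega)
  have u1 : ∀ m, 2 ≤ m → m ≤ 5 → q.val σ1 m - q.val σ1 2 ≤ μ := fun m a b =>
    (h.up_fwd h1 s1 (by omega) a b (by omega)).trans hμ
  have u2 : ∀ m, 3 ≤ m → m ≤ 5 → q.val σ2 m - q.val σ2 3 ≤ μ := fun m a b =>
    (h.up_fwd h1 s2 (by omega) a b (by omega)).trans hμ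
  have p1 := n1 m1 (by omega) (by omega)
  have p2 := n2 m1 (by omega) (by omega)
  have p3 := u1 m1 (by omega) (by omega)
  have p4 := h.lo_fwd (v := 2) (M := Y) (m := m3) (by omega) s1' (by omega) b5 (by omega)
  have p5 := h.D_anti (k := 2) (k' := 5) (m := Y) (M := Y) (by omega) (by omega) h2 le_rfl
    (by omega) (by omega)
  have p6 := h.cmp (s1'.trans s2') (v := 3) (m := m3) (by omega) (by omega) (by omega)
  have p7 := n1 3 (by omega) (by omega)
  exact ⟨p3, u1 _ (by omega) (by omega), u2 _ (by omega) (by omega),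
    by linarith, by linarith, by linarith,
    h.dec (by omega) s3 (by omega) (by omega) (by omega),
    h.dec (by omega) s3 (by omega) (by omega) (by omega)⟩

lemma Conv.dir_xL (h : q.Conv lo hi) {A C : ℤ} (h1 : lo ≤ A - 1) (h2 : A + 2 ≤ C) (h3 : C + 1 ≤ hi)
    {δ T : ℝ} (d1 : q.D (A - 1) (A + 1) ≤ δ) (d2 : q.D (C - 1) (C + 1) ≤ δ) (d3 : q.D C A ≤ δ)
    (hT : T ≤ q.D A C) : q.DirOK lo hi C A (C + 1) C A (C - 1) δ T 0 := by
  intro σ1 σ2 σ3 n1 n2 n3 m1 m2 m3 b1 b2 b3 b4 b5 b6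
  have s1 := h.le_min n1 (j := C - 1) (by omega) (by omega) (by omega)
  have s1' := h.min_le n1 (by omega) (by omega)
  have s2 := h.le_min n2 (j := A - 1) h1 (by omega) (by omega)
  have s2' := h.min_le n2 (by omega) (by omega)
  have s3 := h.le_min n3 (j := C) (by omega) (by omega) (by omega)
  have p1 := h.up_fwd (by omega) s1 (v := C) (by omega) b1 b2 h3
  have p2 := h.up_bwd (by omega) s1' (M := A) (by omega) b3 (by omega)
  have p3 := h.up_fwd h1 s2 (v := A) (by omega) b3 b4 (by omega)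
  have p4 := h.lo_fwd (by omega) s2' (M := C) (by omega) b1 (by omega)
  have p5 := n1 m3 (by omega) (by omega)
  have p6 := n1 m1 (by omega) (by omega)
  have p7 := h.inc (by omega) s2' (m := m3) (m' := m1) (by omega) (by omega) (by omega)
  exact ⟨by linarith, by linarith, by linarith, by linarith, by linarith, by linarith,
    h.dec (by omega) s3 (by omega) (by omega) (by omega),
    h.dec (by omega) s3 (by omega) (by omega) (by omega)⟩

lemma Conv.dir_xU (h : q.Conv lo hi) {P Q : ℤ} (h1 : lo ≤ P - 2) (h2 : P ≤ Q) (h3 : Q + 2 ≤ hi)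
    {δ T : ℝ} (d1 : q.D (P - 2) (Q + 2) ≤ δ) (hT : T ≤ q.D Q P) :
    q.DirOK lo hi (P - 1) (Q + 1) (P - 1) (P - 1) (Q + 1) P δ T 0 := by
  intro σ1 σ2 σ3 n1 n2 n3 m1 m2 m3 b1 b2 b3 b4 b5 b6
  have s1 := h.le_min n1 (j := P - 2) h1 (by omega) (by omega)
  have s2 := h.le_min n2 (j := P - 2) h1 (by omega) (by omega)
  have s2' := h.le_min n2 (j := Q) (by omega) (by omega) (by omega)
  have s3 := h.min_le n3 (by omega) (by omega)
  have p1 := h.up_fwd h1 s1 (v := P - 1) (m := m1) (M := Q + 2) (by omega) b1 (by omega) h3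
  have p2 := h.up_fwd h1 s1 (v := P - 1) (m := m2) (M := Q + 2) (by omega) (by omega) (by omega) h3
  have p3 := h.up_fwd h1 s2 (v := Q + 1) (m := m2) (M := Q + 2) (by omega) b3 (by omega) h3
  have p4 := h.lo_bwd (by omega) s2' (m := m1) (M := P) (by omega) (by omega) h2
  have p5 := n1 m3 (by omega) (by omega)
  have p6 := n1 m1 (by omega) (by omega)
  have p7 := h.dec (by omega) s2' (m := m1) (m' := m3) (by omega) (by omega) (by omega)
  exact ⟨by linarith, by linarith, by linarith, by linarith, by linarith, by linarith,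
    h.inc (by omega) s3 (by omega) (by omega) (by omega),
    h.inc (by omega) s3 (by omega) (by omega) (by omega)⟩

end Sq

section Line

variable {V : Type*} [AddCommGroup V] [Module ℝ V] [FiniteDimensional ℝ V]

lemma convline {T : ℤ → V} {ω v : V} {lo hi : ℤ} (hl : lo < hi) (W : Submodule ℝ V)
    (hW : finrank ℝ W ≤ 3) (hω : ω ∈ W) (hv : v ∈ W)
    (hc : ∀ k, lo ≤ k → k < hi → T (k + 1) - T k ∈ W) (f : V →ₗ[ℝ] ℝ) (fv : f v ≠ 0)
    (fω : f ω = 0) (fc : ∀ k, lo ≤ k → k < hi → f (T (k + 1) - T k) = 0)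
    (h : ℤ → V →ₗ[ℝ] ℝ) (h1 : ∀ k, lo ≤ k → k < hi → h k ω = 1)
    (h2 : ∀ k, lo ≤ k → k < hi → h k (T (k + 1) - T k) = 0)
    (h3 : ∀ k, lo ≤ k → k + 1 < hi → 0 < h k (T (k + 1 + 1) - T (k + 1)))
    (h4 : ∀ k, lo ≤ k → k + 1 < hi → h (k + 1) (T (k + 1) - T k) < 0)
    (h5 : T (lo + 1) - T lo ≠ 0) :
    ∃ (e : V) (q : Sq), q.Conv lo hi ∧
      ∀ k, lo ≤ k → k ≤ hi → T k = T lo + q.X k • e + q.F k • ω := by
  set e := T (lo + 1) - T lo with he
  have he0 : h lo e = 0 := h2 lo le_rfl hl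
  have hω1 : h lo ω = 1 := h1 lo le_rfl hl
  have a1 : W ⊓ LinearMap.ker f < W :=
    lt_of_le_of_ne inf_le_left (fun h0 => fv (show v ∈ W ⊓ LinearMap.ker f from h0.symm ▸ hv).2)
  have a2 := Submodule.finrank_lt_finrank_of_lt a1
  have a3 : span ℝ ({e, ω} : Set V) ≤ W ⊓ LinearMap.ker f := by
    rw [span_le]
    rintro _ (rfl | rfl)
    · exact ⟨hc lo le_rfl hl, fc lo le_rfl hl⟩
    · exact ⟨hω, fω⟩
  have a4 := two_le_finrank (w := ω) h5 he0 (by rw [hω1]; exact one_ne_zero)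
  have a5 : span ℝ ({e, ω} : Set V) = W ⊓ LinearMap.ker f :=
    Submodule.eq_of_le_of_finrank_le a3 (by omega)
  have a6 : ∀ k, lo ≤ k → k ≤ hi → T k - T lo ∈ span ℝ ({e, ω} : Set V) := by
    intro k hk
    induction k, hk using Int.le_induction with
    | base => intro _; rw [sub_self]; exact zero_mem _
    | succ n hn ih =>
      intro hn'
      rw [show T (n + 1) - T lo = (T (n + 1) - T n) + (T n - T lo) by abel]
      refine add_mem ?_ (ih (by omega))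
      rw [a5]
      exact ⟨hc n hn (by omega), fc n hn (by omega)⟩
  have a7 : ∀ k, ∃ ab : ℝ × ℝ, lo ≤ k → k ≤ hi → T k = T lo + ab.1 • e + ab.2 • ω := by
    intro k
    by_cases hk : lo ≤ k ∧ k ≤ hi
    · obtain ⟨a, b, hab⟩ := mem_span_pair.1 (a6 k hk.1 hk.2)
      exact ⟨(a, b), fun _ _ => by rw [add_assoc, hab]; abel⟩
    · exact ⟨0, fun a b => absurd ⟨a, b⟩ hk⟩
  choose ab hab using a7
  have hd : ∀ k, lo ≤ k → k < hi → T (k + 1) - T k =
      ((ab (k + 1)).1 - (ab k).1) • e + ((ab (k + 1)).2 - (ab k).2) • ω := by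
    intro k hk hk'
    rw [hab k hk hk'.le, hab (k + 1) (by omega) (by omega), sub_smul, sub_smul]
    abel
  have hF : ∀ k, lo ≤ k → k < hi → (ab (k + 1)).2 - (ab k).2 =
      -(h k e) * ((ab (k + 1)).1 - (ab k).1) := by
    intro k hk hk'
    have := h2 k hk hk'
    rw [hd k hk hk', map_add, map_smul, map_smul, h1 k hk hk', smul_eq_mul, smul_eq_mul] at this
    linarith
  have hs : ∀ k, lo ≤ k → k + 1 < hi → (ab k).1 < (ab (k + 1)).1 → -(h k e) < -(h (k + 1) e) := by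
    intro k hk hk' hx
    have := h4 k hk hk'
    rw [hd k hk (by omega), map_add, map_smul, map_smul, h1 (k + 1) (by omega) hk', smul_eq_mul,
      smul_eq_mul, hF k hk (by omega)] at this
    by_contra hcon
    push Not at hcon
    nlinarith
  have hX : ∀ k, lo ≤ k → k < hi → (ab k).1 < (ab (k + 1)).1 := by
    intro k hk
    induction k, hk using Int.le_induction with
    | base =>
      intro _
      have b1 := hd lo le_rfl hl
      have b2 := hF lo le_rfl hl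
      rw [he0, neg_zero, zero_mul] at b2
      rw [b2, zero_smul, add_zero, ← he] at b1
      have b3 : ((ab (lo + 1)).1 - (ab lo).1 - 1) • e = 0 := by
        rw [sub_smul, ← b1, one_smul, sub_self]
      have := (smul_eq_zero.1 b3).resolve_right h5
      linarith
    | succ n hn ih =>
      intro hn'
      have b1 := hs n hn hn' (ih (by omega))
      have b2 := h3 n hn hn'
      rw [hd (n + 1) (by omega) hn', map_add, map_smul, map_smul, h1 n hn (by omega), smul_eq_mul,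
        smul_eq_mul, hF (n + 1) (by omega) hn'] at b2
      by_contra hcon
      push Not at hcon
      nlinarith
  exact ⟨e, ⟨fun k => (ab k).1, fun k => (ab k).2, fun k => -(h k e)⟩,
    ⟨hX, hF, fun k hk hk' => hs k hk hk' (hX k hk (by omega))⟩, hab⟩

end Line

end Pool.Agent.P.MP_3c8515_co
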