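import Mathlib

namespace Pool.Agent.P.MP_3c8515_co

/-- `P` is a `d`-polytope in `ℝ^d`: the convex hull of finitely many points, of dimension `d`. -/
def IsPolytope (d : ℕ) (P : Set (EuclideanSpace ℝ (Fin d))) : Prop :=
  (∃ S : Finset (EuclideanSpace ℝ (Fin d)), P = convexHull ℝ (S : Set (EuclideanSpace ℝ (Fin d)))) ∧
    Module.finrank ℝ (vectorSpan ℝ P) = d

/-- The face lattices (exposed faces, the empty set and the whole set included, ordered by
inclusion) are isomorphic. -/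
def CombEquiv {d : ℕ} (P Q : Set (EuclideanSpace ℝ (Fin d))) : Prop :=
  Nonempty ({F : Set (EuclideanSpace ℝ (Fin d)) // IsExposed ℝ P F} ≃o
    {F : Set (EuclideanSpace ℝ (Fin d)) // IsExposed ℝ Q F})

/-- `F` is a face of `Q` of dimension `i`. -/
def IsFace {d : ℕ} (Q : Set (EuclideanSpace ℝ (Fin d))) (i : ℕ)
    (F : Set (EuclideanSpace ℝ (Fin d))) : Prop :=
  IsExposed ℝ Q F ∧ F.Nonempty ∧ Module.finrank ℝ (vectorSpan ℝ F) = i

/-- There is a supporting hyperplane `l x = c` of `Q` cutting out `F`, with the unit ball in the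
closed half-space `l x ≤ c` that contains `Q`. -/
def StronglyAvoids {d : ℕ} (Q F : Set (EuclideanSpace ℝ (Fin d))) : Prop :=
  ∃ (l : EuclideanSpace ℝ (Fin d) →L[ℝ] ℝ) (c : ℝ), l ≠ 0 ∧ (∀ x ∈ Q, l x ≤ c) ∧
    F = {x | x ∈ Q ∧ l x = c} ∧ ∀ x ∈ Metric.closedBall (0 : EuclideanSpace ℝ (Fin d)) 1, l x ≤ c

/-- The relative interior of `F` meets the closed unit ball. -/
def StronglyCuts {d : ℕ} (F : Set (EuclideanSpace ℝ (Fin d))) : Prop :=
  (intrinsicInterior ℝ F ∩ Metric.closedBall (0 : EuclideanSpace ℝ (Fin d)) 1).Nonempty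

/-- `P` has a realization `Q` whose `i`-faces strongly avoid and whose `j`-faces strongly cut
the unit sphere. -/
def Scribable {d : ℕ} (i j : ℕ) (P : Set (EuclideanSpace ℝ (Fin d))) : Prop :=
  ∃ Q : Set (EuclideanSpace ℝ (Fin d)), IsPolytope d Q ∧ CombEquiv P Q ∧
    (∀ F, IsFace Q i F → StronglyAvoids Q F) ∧ (∀ F, IsFace Q j F → StronglyCuts F)

end Pool.Agent.P.MP_3c8515_co
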