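import Mathlib

namespace Pool.Agent.P.MP_3c8515_co

open Set Submodule Module Filter

section Faces

variable {ι V : Type*} [AddCommGroup V] [Module ℝ V]

/-- `J` is the zero set, inside `S`, of a functional that is nonnegative on the vectors `p i`. -/
def IsFc (S : Set ι) (p : ι → V) (J : Set ι) : Prop :=
  J ⊆ S ∧ ∃ h : V →ₗ[ℝ] ℝ, ∀ i ∈ S, 0 ≤ h (p i) ∧ (h (p i) = 0 ↔ i ∈ J)

/-- rank of the vectors indexed by `J` -/
noncomputable def rk (p : ι → V) (J : Set ι) : ℕ := finrank ℝ (span ℝ (p '' J))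

lemma ev_pos {S : Set ι} (hS : S.Finite) (a b : ι → ℝ) :
    ∀ᶠ t : ℝ in atTop, ∀ i ∈ S, 0 < a i → 0 < b i + t * a i := by
  rw [eventually_all_finite hS]
  intro i _
  by_cases h : 0 < a i
  · filter_upwards [eventually_gt_atTop (-(b i) / a i)] with t ht _
    rw [div_lt_iff₀ h] at ht
    linarith
  · exact Eventually.of_forall fun t h' => absurd h' h

lemma IsFc.trans {S J K : Set ι} {p : ι → V} (hS : S.Finite) (hJ : IsFc S p J)
    (hK : IsFc J p K) : IsFc S p K := by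
  obtain ⟨hJS, h, hh⟩ := hJ
  obtain ⟨hKJ, k, hk⟩ := hK
  obtain ⟨t, ht⟩ := (ev_pos hS (fun i => h (p i)) (fun i => k (p i))).exists
  refine ⟨hKJ.trans hJS, k + t • h, fun i hi => ?_⟩
  simp only [LinearMap.add_apply, LinearMap.smul_apply, smul_eq_mul]
  by_cases hiJ : i ∈ J
  · rw [(hh i hi).2.2 hiJ]
    simpa using hk i hiJ
  · have h1 : 0 < h (p i) := lt_of_le_of_ne (hh i hi).1 (fun h0 => hiJ ((hh i hi).2.1 h0.symm))
    have h2 := ht i hi h1
    refine ⟨h2.le, ⟨fun h0 => absurd h0 h2.ne', fun hiK => absurd (hKJ hiK) hiJ⟩⟩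

lemma IsFc.inter {S J K : Set ι} {p : ι → V} (hJ : IsFc S p J) (hK : IsFc S p K) :
    IsFc S p (J ∩ K) := by
  obtain ⟨hJS, h, hh⟩ := hJ
  obtain ⟨hKS, k, hk⟩ := hK
  refine ⟨inter_subset_left.trans hJS, h + k, fun i hi => ?_⟩
  simp only [LinearMap.add_apply]
  obtain ⟨a1, a2⟩ := hh i hi
  obtain ⟨b1, b2⟩ := hk i hi
  refine ⟨by linarith, ⟨fun h0 => ⟨a2.1 (by linarith), b2.1 (by linarith)⟩, fun h0 => ?_⟩⟩
  rw [a2.2 h0.1, b2.2 h0.2, add_zero]

lemma IsFc.span_le_ker {S J : Set ι} {p : ι → V} {h : V →ₗ[ℝ] ℝ} (hJ : J ⊆ S)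
    (hh : ∀ i ∈ S, 0 ≤ h (p i) ∧ (h (p i) = 0 ↔ i ∈ J)) : span ℝ (p '' J) ≤ LinearMap.ker h := by
  rw [span_le]
  rintro _ ⟨i, hi, rfl⟩
  exact (hh i (hJ hi)).2.2 hi

variable [FiniteDimensional ℝ V]

lemma rk_mono {J K : Set ι} (p : ι → V) (h : J ⊆ K) : rk p J ≤ rk p K :=
  Submodule.finrank_mono (span_mono (image_mono h))

lemma IsFc.rk_lt {S J K : Set ι} {p : ι → V} (hJ : IsFc S p J) (hJK : J ⊂ K) (hK : K ⊆ S) :
    rk p J < rk p K := by
  obtain ⟨hJS, h, hh⟩ := hJ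
  apply Submodule.finrank_lt_finrank_of_lt
  obtain ⟨i, hiK, hiJ⟩ := exists_of_ssubset hJK
  refine lt_of_le_of_ne (span_mono (image_mono hJK.subset)) (fun he => hiJ ?_)
  have h1 : p i ∈ span ℝ (p '' J) := he ▸ subset_span (mem_image_of_mem p hiK)
  exact (hh i (hK hiK)).2.1 (IsFc.span_le_ker hJS hh h1)

lemma finrank_span_singleton_le (v : V) : finrank ℝ (span ℝ ({v} : Set V)) ≤ 1 := by
  by_cases hv : v = 0
  · subst hv
    rw [span_zero_singleton, finrank_bot]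
    exact zero_le_one
  · exact (finrank_span_singleton hv).le

lemma finrank_span_insert_le (v : V) (A : Set V) :
    finrank ℝ (span ℝ (insert v A)) ≤ finrank ℝ (span ℝ A) + 1 := by
  rw [span_insert]
  refine (Submodule.finrank_add_le_finrank_add_finrank _ _).trans ?_
  have := finrank_span_singleton_le v
  omega

lemma IsFc.cover {S J K : Set ι} {p : ι → V} (hS : S.Finite) (hJ : IsFc S p J) (hK : IsFc S p K)
    (hJK : J ⊂ K) (hc : ∀ G, IsFc S p G → J ⊂ G → ¬ G ⊂ K) : rk p K ≤ rk p J + 1 := by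
  by_contra hcon
  push Not at hcon
  obtain ⟨hJS, h, hh⟩ := hJ
  obtain ⟨i0, hi0K, hi0J⟩ := exists_of_ssubset hJK
  have hKS := hK.1
  have hpos : ∀ i ∈ K, i ∉ J → 0 < h (p i) := fun i hi hiJ =>
    lt_of_le_of_ne (hh i (hKS hi)).1 (fun h0 => hiJ ((hh i (hKS hi)).2.1 h0.symm))
  have h1 : ¬ (span ℝ (p '' K) ≤ span ℝ (insert (p i0) (p '' J))) := by
    intro hle
    have h2 := Submodule.finrank_mono hle
    have h3 := finrank_span_insert_le (p i0) (p '' J)
    unfold rk at hcon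
    omega
  rw [span_le, not_subset] at h1
  obtain ⟨_, ⟨i1, hi1K, rfl⟩, hi1⟩ := h1
  obtain ⟨k, hk1, hk⟩ := Submodule.exists_le_ker_of_notMem hi1
  have hk0 : k (p i0) = 0 := hk (subset_span (mem_insert _ _))
  have hkJ : ∀ i ∈ J, k (p i) = 0 := fun i hi =>
    hk (subset_span (mem_insert_of_mem _ (mem_image_of_mem p hi)))
  have hi1J : i1 ∉ J := fun h' => hk1 (hkJ i1 h')
  have hfin : (K \ J).Finite := (hS.subset hKS).subset diff_subset
  obtain ⟨m, hm, hmin⟩ := exists_min_image (K \ J) (fun i => k (p i) / h (p i)) hfin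
    ⟨i0, hi0K, hi0J⟩
  set t := k (p m) / h (p m) with ht
  have hge : ∀ i ∈ K, 0 ≤ k (p i) - t * h (p i) := by
    intro i hi
    by_cases hiJ : i ∈ J
    · rw [hkJ i hiJ, (hh i (hKS hi)).2.2 hiJ]; simp
    · have h4 := hmin i ⟨hi, hiJ⟩
      rw [le_div_iff₀ (hpos i hi hiJ)] at h4
      linarith
  have hG : IsFc K p {i | i ∈ K ∧ k (p i) - t * h (p i) = 0} := by
    refine ⟨fun i hi => hi.1, k - t • h, fun i hi => ?_⟩
    simp only [LinearMap.sub_apply, LinearMap.smul_apply, smul_eq_mul, mem_setOf_eq]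
    exact ⟨hge i hi, ⟨fun h0 => ⟨hi, h0⟩, fun h0 => h0.2⟩⟩
  refine hc _ (hK.trans hS hG) ?_ ?_
  · refine ⟨fun i hi => ⟨hJK.subset hi, ?_⟩, fun hsub => hm.2 (hsub ⟨hm.1, ?_⟩)⟩
    · rw [hkJ i hi, (hh i (hJS hi)).2.2 hi]; simp
    · rw [ht, div_mul_cancel₀ _ (hpos m hm.1 hm.2).ne', sub_self]
  · refine ⟨fun i hi => hi.1, fun hsub => ?_⟩
    have a0 := (hsub hi0K).2
    have a1 := (hsub hi1K).2
    rw [hk0] at a0
    have a2 : t = 0 := by
      have := hpos i0 hi0K hi0J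
      have a3 : t * h (p i0) = 0 := by linarith
      exact (mul_eq_zero.1 a3).resolve_right this.ne'
    rw [a2] at a1
    exact hk1 (by linarith)

lemma rk_empty (p : ι → V) : rk p ∅ = 0 := by
  unfold rk
  rw [image_empty, span_empty, finrank_bot]

lemma rk_iso_le {ι' V' : Type*} [AddCommGroup V'] [Module ℝ V'] [FiniteDimensional ℝ V']
    {S : Set ι} {S' : Set ι'} {p : ι → V} {p' : ι' → V'} (hS : S.Finite) (hS' : S'.Finite)
    (h0 : IsFc S' p' ∅) (φ : {J // IsFc S p J} ≃o {J // IsFc S' p' J}) (J : {J // IsFc S p J}) :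
    rk p' (φ J).1 ≤ rk p J.1 := by
  induction hn : rk p J.1 using Nat.strong_induction_on generalizing J with
  | _ n ih =>
    by_cases hb : ∃ G : {J // IsFc S p J}, G < J
    · have hfin : {G : {J // IsFc S p J} | G < J}.Finite := by
        have : Finite {J // IsFc S p J} := by
          have h1 : {J | IsFc S p J}.Finite := hS.finite_subsets.subset fun J hJ => hJ.1
          exact h1
        exact toFinite _
      obtain ⟨G, hG⟩ := hfin.exists_maximal hb
      have hGJ : G < J := hG.1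
      have h1 : rk p G.1 < rk p J.1 := G.2.rk_lt hGJ J.2.1
      have h2 := ih _ (hn ▸ h1) G rfl
      have h3 : rk p' (φ J).1 ≤ rk p' (φ G).1 + 1 := by
        refine IsFc.cover hS' (φ G).2 (φ J).2 (φ.strictMono hGJ) ?_
        intro G' hG' h4 h5
        have h6 : G < φ.symm ⟨G', hG'⟩ := by
          rw [← φ.lt_iff_lt, φ.apply_symm_apply]; exact h4
        have h7 : φ.symm ⟨G', hG'⟩ < J := by
          rw [← φ.lt_iff_lt, φ.apply_symm_apply]; exact h5
        exact absurd (hG.2 h7 h6.le) (not_le_of_gt h6)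
      omega
    · have h1 : (φ J).1 = ∅ := by
        by_contra hne
        apply hb
        refine ⟨φ.symm ⟨∅, h0⟩, ?_⟩
        rw [← φ.lt_iff_lt, φ.apply_symm_apply]
        exact empty_ssubset.2 (nonempty_iff_ne_empty.2 hne)
      rw [h1, rk_empty]
      exact Nat.zero_le _

end Faces

end Pool.Agent.P.MP_3c8515_co
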