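import Pool.Agent.P.MP_3c8515_co.Transfer

namespace Pool.Agent.P.MP_3c8515_co

open Set Real
open scoped InnerProductSpace

section Ptolemy

variable {E : Type*} [NormedAddCommGroup E] [InnerProductSpace ℝ E]

noncomputable def liftS (x : E) (k : Fin 4) : WithLp 2 (E × EuclideanSpace ℝ (Fin 4)) :=
  WithLp.toLp 2 (x, EuclideanSpace.single k (√(1 - ‖x‖ ^ 2)))

lemma dist_liftS {x y : E} (hx : ‖x‖ ≤ 1) (hy : ‖y‖ ≤ 1) {k l : Fin 4} (hkl : k ≠ l) :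
    dist (liftS x k) (liftS y l) = √2 * √(1 - ⟪x, y⟫_ℝ) := by
  rw [WithLp.prod_dist_eq_of_L2, ← Real.sqrt_mul (by norm_num)]
  congr 1
  have h1 : 0 ≤ 1 - ‖x‖ ^ 2 := by nlinarith [norm_nonneg x]
  have h2 : 0 ≤ 1 - ‖y‖ ^ 2 := by nlinarith [norm_nonneg y]
  simp only [liftS, WithLp.toLp_fst, WithLp.toLp_snd, dist_eq_norm, norm_sub_sq_real,
    EuclideanSpace.inner_single_left, PiLp.norm_single, Real.norm_eq_abs, sq_abs,
    Real.sq_sqrt h1, Real.sq_sqrt h2]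
  simp [hkl]
  ring

lemma ptolemy_ball {a b c d : E} (ha : ‖a‖ ≤ 1) (hb : ‖b‖ ≤ 1) (hc : ‖c‖ ≤ 1) (hd : ‖d‖ ≤ 1) :
    √(1 - ⟪a, b⟫_ℝ) * √(1 - ⟪c, d⟫_ℝ) ≤
      √(1 - ⟪a, c⟫_ℝ) * √(1 - ⟪b, d⟫_ℝ) + √(1 - ⟪a, d⟫_ℝ) * √(1 - ⟪b, c⟫_ℝ) := by
  have h := EuclideanGeometry.mul_dist_le_mul_dist_add_mul_dist (liftS a 0) (liftS c 1) (liftS b 2)
    (liftS d 3)
  rw [dist_liftS ha hb (by decide), dist_liftS hc hd (by decide), dist_liftS ha hc (by decide),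
    dist_liftS hb hd (by decide), dist_liftS hc hb (by decide), dist_liftS ha hd (by decide),
    real_inner_comm b c] at h
  have h2 : √2 * √2 = 2 := Real.mul_self_sqrt (by norm_num)
  have e : ∀ s t : ℝ, √2 * s * (√2 * t) = 2 * (s * t) := fun s t => by
    rw [show √2 * s * (√2 * t) = (√2 * √2) * (s * t) by ring, h2]
  rw [e, e, e] at h
  linarith

/-- Lorentz product -/
noncomputable def Lor (x y : ℝ × E) : ℝ := x.1 * y.1 - ⟪x.2, y.2⟫_ℝ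

lemma Lor_comm (x y : ℝ × E) : Lor x y = Lor y x := by
  rw [Lor, Lor, real_inner_comm, mul_comm]

lemma sqrt_Lor {x y : ℝ × E} (hx : 0 < x.1) (hy : 0 < y.1) :
    √(Lor x y) = √x.1 * √y.1 * √(1 - ⟪(x.1)⁻¹ • x.2, (y.1)⁻¹ • y.2⟫_ℝ) := by
  rw [← Real.sqrt_mul hx.le, ← Real.sqrt_mul (by positivity)]
  congr 1
  rw [Lor, real_inner_smul_left, real_inner_smul_right]
  field_simp

lemma Lor_zero {x : ℝ × E} (hx : ‖x.2‖ ≤ x.1) (h0 : ¬ 0 < x.1) (y : ℝ × E) : Lor x y = 0 := by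
  have h1 : x.1 = 0 := le_antisymm (not_lt.1 h0) ((norm_nonneg _).trans hx)
  have h2 : x.2 = 0 := norm_le_zero_iff.1 (h1 ▸ hx)
  rw [Lor, h1, h2]; simp

lemma ptolemy_cone {a b c d : ℝ × E} (ha : ‖a.2‖ ≤ a.1) (hb : ‖b.2‖ ≤ b.1) (hc : ‖c.2‖ ≤ c.1)
    (hd : ‖d.2‖ ≤ d.1) :
    √(Lor a b) * √(Lor c d) ≤ √(Lor a c) * √(Lor b d) + √(Lor a d) * √(Lor b c) := by
  have hr : 0 ≤ √(Lor a c) * √(Lor b d) + √(Lor a d) * √(Lor b c) := by positivity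
  by_cases ha0 : 0 < a.1
  swap
  · rwa [Lor_zero ha ha0, sqrt_zero, zero_mul]
  by_cases hb0 : 0 < b.1
  swap
  · rwa [Lor_comm a b, Lor_zero hb hb0, sqrt_zero, zero_mul]
  by_cases hc0 : 0 < c.1
  swap
  · rwa [Lor_zero hc hc0, sqrt_zero, mul_zero]
  by_cases hd0 : 0 < d.1
  swap
  · rwa [Lor_comm c d, Lor_zero hd hd0, sqrt_zero, mul_zero]
  have hn : ∀ x : ℝ × E, ‖x.2‖ ≤ x.1 → 0 < x.1 → ‖(x.1)⁻¹ • x.2‖ ≤ 1 := by
    intro x hx hx0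
    rw [norm_smul, norm_inv, Real.norm_of_nonneg hx0.le, inv_mul_le_iff₀ hx0, mul_one]
    exact hx
  have h := ptolemy_ball (hn a ha ha0) (hn b hb hb0) (hn c hc hc0) (hn d hd hd0)
  rw [sqrt_Lor ha0 hb0, sqrt_Lor hc0 hd0, sqrt_Lor ha0 hc0, sqrt_Lor hb0 hd0, sqrt_Lor ha0 hd0,
    sqrt_Lor hb0 hc0]
  have hp : 0 ≤ √a.1 * √b.1 * √c.1 * √d.1 := by positivity
  have := mul_le_mul_of_nonneg_left h hp
  nlinarith [this]

lemma exists_Lor [CompleteSpace E] [FiniteDimensional ℝ E] (h : ℝ × E →ₗ[ℝ] ℝ)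
    (hh : ∀ x : ℝ × E, ‖x.2‖ ≤ x.1 → 0 ≤ h x) :
    ∃ n : ℝ × E, ‖n.2‖ ≤ n.1 ∧ ∀ x, h x = Lor n x := by
  let l : E →L[ℝ] ℝ := LinearMap.toContinuousLinearMap (-(h ∘ₗ LinearMap.inr ℝ ℝ E))
  let w : E := (InnerProductSpace.toDual ℝ E).symm l
  have hw : ∀ v, ⟪w, v⟫_ℝ = l v := fun v => InnerProductSpace.toDual_symm_apply
  have hx : ∀ x : ℝ × E, h x = Lor (h (1, 0), w) x := by
    intro x
    have : x = x.1 • ((1 : ℝ), (0 : E)) + LinearMap.inr ℝ ℝ E x.2 := by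
      ext <;> simp
    rw [Lor, hw]
    conv_lhs => rw [this, map_add, map_smul]
    simp [l]
    ring
  refine ⟨(h (1, 0), w), ?_, hx⟩
  have h1 := hh (1, 0) (by simp)
  have h2 := hh (‖w‖, w) le_rfl
  rw [hx, Lor, real_inner_self_eq_norm_sq] at h2
  simp only at h2 ⊢
  rcases (norm_nonneg w).eq_or_lt with h3 | h3
  · rw [← h3]; exact h1
  · nlinarith

lemma par_of_Lor {x y : ℝ × E} (hx : ‖x.2‖ ≤ x.1) (hy : ‖y.2‖ ≤ y.1) (h : Lor x y ≤ 0) :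
    y.1 • x = x.1 • y := by
  have hx0 : 0 ≤ x.1 := (norm_nonneg _).trans hx
  have hy0 : 0 ≤ y.1 := (norm_nonneg _).trans hy
  ext1
  · simp [mul_comm]
  · simp only [Prod.smul_snd]
    rw [← sub_eq_zero, ← norm_le_zero_iff]
    have h1 : ‖y.1 • x.2 - x.1 • y.2‖ ^ 2 ≤ 0 := by
      rw [norm_sub_sq_real, norm_smul, norm_smul, real_inner_smul_left, real_inner_smul_right,
        Real.norm_of_nonneg hx0, Real.norm_of_nonneg hy0]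
      have h2 : ‖x.2‖ ^ 2 ≤ x.1 ^ 2 := pow_le_pow_left₀ (norm_nonneg _) hx 2
      have h3 : ‖y.2‖ ^ 2 ≤ y.1 ^ 2 := pow_le_pow_left₀ (norm_nonneg _) hy 2
      have h4 := mul_le_mul_of_nonneg_left h2 (sq_nonneg y.1)
      have h5 := mul_le_mul_of_nonneg_left h3 (sq_nonneg x.1)
      have h6 := mul_nonneg hx0 hy0
      unfold Lor at h
      nlinarith
    nlinarith [norm_nonneg (y.1 • x.2 - x.1 • y.2)]

lemma num_obstruction {e p q m11 m12 m22 m23 m31 m32 m33 g12 g13 g23 : ℝ} (he : 0 < e)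
    (hp : 10 * e ≤ p) (hq : 10 * e ≤ q) (h11 : m11 ≤ e) (h12 : m12 ≤ e) (h22 : m22 ≤ e)
    (h23 : m23 ≤ q + p + e) (h31 : m31 ≤ m32) (h33 : m33 ≤ m32) (h32 : 0 < m32)
    (g1 : 0 ≤ g12) (g2 : 0 ≤ g13) (g3 : 0 < g23)
    (r1 : p * g12 ≤ m11 * g23 + m12 * g13) (r2 : q * g23 ≤ m22 * g13 + m23 * g12)
    (r3 : m32 * g13 ≤ m33 * g12 + m31 * g23) : False := by
  have a1 : g13 ≤ g12 + g23 := by
    by_contra hc
    push Not at hc
    nlinarith [mul_le_mul_of_nonneg_right h31 g3.le, mul_le_mul_of_nonneg_right h33 g1]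
  have a2 : p * g12 ≤ e * (g12 + 2 * g23) := by
    nlinarith [mul_le_mul_of_nonneg_right h11 g3.le, mul_le_mul_of_nonneg_right h12 g2]
  have a3 : 9 * g12 ≤ 2 * g23 := by
    by_contra hc
    push Not at hc
    nlinarith [mul_le_mul_of_nonneg_right hp g1]
  have a4 : q * g23 ≤ e * (g12 + g23) + (q + p + e) * g12 := by
    nlinarith [mul_le_mul_of_nonneg_right h22 g2, mul_le_mul_of_nonneg_right h23 g1]
  have hq0 : 0 < q := by linarith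
  have a5 : q * (9 * g12) ≤ q * (2 * g23) := mul_le_mul_of_nonneg_left a3 hq0.le
  have a6 : e * (9 * g12) ≤ e * (2 * g23) := mul_le_mul_of_nonneg_left a3 he.le
  have a7 : 10 * e * g23 ≤ q * g23 := mul_le_mul_of_nonneg_right hq g3.le
  have a8 : 0 < e * g23 := mul_pos he g3
  nlinarith

theorem obstruction {d : ℕ} {x1 x2 x3 : ℝ × EuclideanSpace ℝ (Fin d)} (c1 : x1 ∈ Cone d)
    (c2 : x2 ∈ Cone d) (c3 : x3 ∈ Cone d) {h1 h2 h3 : ℝ × EuclideanSpace ℝ (Fin d) →ₗ[ℝ] ℝ}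
    (p1 : ∀ x ∈ Cone d, 0 ≤ h1 x) (p2 : ∀ x ∈ Cone d, 0 ≤ h2 x) (p3 : ∀ x ∈ Cone d, 0 ≤ h3 x)
    {a : ℝ} (ha : 0 < a) (h11 : h1 x1 ≤ a) (h12 : h1 x2 ≤ a) (h22 : h2 x2 ≤ a)
    (h13 : 100 * a ≤ h1 x3) (h21 : 100 * a ≤ h2 x1) (h23 : h2 x3 ≤ h2 x1 + h1 x3 + a)
    (h31 : h3 x1 ≤ h3 x2) (h33 : h3 x3 ≤ h3 x2) (h32 : 0 < h3 x2) : False := by
  obtain ⟨n1, b1, e1⟩ := exists_Lor h1 p1
  obtain ⟨n2, b2, e2⟩ := exists_Lor h2 p2
  obtain ⟨n3, b3, e3⟩ := exists_Lor h3 p3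
  have g3 : 0 < Lor x2 x3 := by
    by_contra hc
    have h := par_of_Lor c2 c3 (not_lt.1 hc)
    have k1 := congrArg h1 h
    have k3 := congrArg h3 h
    simp only [map_smul, smul_eq_mul] at k1 k3
    have hx2 : 0 < x2.1 := by
      by_contra h0
      rw [e3, Lor_comm, Lor_zero c2 h0] at h32
      exact lt_irrefl _ h32
    have hx3 : 0 ≤ x3.1 := (norm_nonneg _).trans c3
    have k4 : x3.1 ≤ x2.1 := by
      by_contra h0
      push Not at h0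
      nlinarith [mul_le_mul_of_nonneg_left h33 hx2.le]
    nlinarith [mul_le_mul_of_nonneg_left h12 hx3, mul_le_mul_of_nonneg_left h13 hx2.le,
      mul_pos hx2 ha, mul_le_mul_of_nonneg_right k4 ha.le]
  have r1 := ptolemy_cone b1 c3 c1 c2
  have r2 := ptolemy_cone b2 c1 c2 c3
  have r3 := ptolemy_cone b3 c2 c1 c3
  rw [← e1, ← e1, ← e1, Lor_comm x3 x2, Lor_comm x3 x1] at r1
  rw [← e2, ← e2, ← e2] at r2
  rw [← e3, ← e3, ← e3, Lor_comm x2 x1, add_comm] at r3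
  have s10 : ∀ t, 100 * a ≤ t → 10 * √a ≤ √t := by
    intro t ht
    apply Real.le_sqrt_of_sq_le
    rw [mul_pow, Real.sq_sqrt ha.le]
    linarith
  refine num_obstruction (Real.sqrt_pos.2 ha) (s10 _ h13) (s10 _ h21) (Real.sqrt_le_sqrt h11)
    (Real.sqrt_le_sqrt h12) (Real.sqrt_le_sqrt h22) ?_ (Real.sqrt_le_sqrt h31)
    (Real.sqrt_le_sqrt h33) (Real.sqrt_pos.2 h32) (Real.sqrt_nonneg _) (Real.sqrt_nonneg _)
    (Real.sqrt_pos.2 g3) r1 r2 r3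
  rw [Real.sqrt_le_iff]
  have t1 := Real.sq_sqrt (p2 _ c1)
  have t2 := Real.sq_sqrt (p1 _ c3)
  have t3 := Real.sq_sqrt ha.le
  have t4 := Real.sqrt_nonneg (h2 x1)
  have t5 := Real.sqrt_nonneg (h1 x3)
  have t6 := Real.sqrt_nonneg a
  refine ⟨by positivity, ?_⟩
  nlinarith [mul_nonneg t4 t5, mul_nonneg t4 t6, mul_nonneg t5 t6]

end Ptolemy

end Pool.Agent.P.MP_3c8515_co
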