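import Pool.Agent.P.MP_3c8515_co.Conv
import Pool.Agent.P.MP_3c8515_co.Ptolemy

namespace Pool.Agent.P.MP_3c8515_co

open Set Submodule Module Filter

section Model

variable {κ V : Type*} [Fintype κ] [AddCommGroup V] [Module ℝ V]

/-- model vector of a grid point -/
def mdl (o : V) (e : κ → V) (ω : V) (q : κ → Sq) (g : κ → ℤ) : V :=
  o + ∑ a, ((q a).X (g a) • e a + (q a).F (g a) • ω)

/-- increment of the model along one direction -/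
def inc (e ω : V) (q : Sq) (k : ℤ) : V := (q.X (k + 1) - q.X k) • e + (q.F (k + 1) - q.F k) • ω

lemma mdl_apply (o : V) (e : κ → V) (ω : V) (q : κ → Sq) (g : κ → ℤ) (h : V →ₗ[ℝ] ℝ)
    (hω : h ω = 1) : h (mdl o e ω q g) = h o + ∑ a, (q a).val (-h (e a)) (g a) := by
  simp only [mdl, map_add, map_sum, map_smul, hω, smul_eq_mul, Sq.val]
  congr 1
  exact Finset.sum_congr rfl fun a _ => by ring

lemma mdl_update [DecidableEq κ] (o : V) (e : κ → V) (ω : V) (q : κ → Sq) (g : κ → ℤ) (a : κ)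
    (m : ℤ) : mdl o e ω q (Function.update g a m) = mdl o e ω q g +
      (((q a).X m - (q a).X (g a)) • e a + ((q a).F m - (q a).F (g a)) • ω) := by
  unfold mdl
  rw [← Finset.add_sum_erase _ _ (Finset.mem_univ a), ← Finset.add_sum_erase _ _ (Finset.mem_univ a),
    Function.update_self, Finset.sum_congr rfl
      (g := fun b => (q b).X (g b) • e b + (q b).F (g b) • ω)
      (fun b hb => by rw [Function.update_of_ne (Finset.ne_of_mem_erase hb)]), sub_smul, sub_smul]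
  abel

lemma hull_le {A : Set V} {y : V} (hy : y ∈ convexHull ℝ A) (h : V →ₗ[ℝ] ℝ) {c : ℝ}
    (hA : ∀ z ∈ A, h z ≤ c) : h y ≤ c :=
  convexHull_min hA (convex_halfSpace_le h.isLinear c) hy

lemma hull_ge {A : Set V} {y : V} (hy : y ∈ convexHull ℝ A) (h : V →ₗ[ℝ] ℝ) {c : ℝ}
    (hA : ∀ z ∈ A, c ≤ h z) : c ≤ h y :=
  convexHull_min hA (convex_halfSpace_ge h.isLinear c) hy

lemma hull_gt {A : Set V} {y : V} (hy : y ∈ convexHull ℝ A) (h : V →ₗ[ℝ] ℝ) {c : ℝ}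
    (hA : ∀ z ∈ A, c < h z) : c < h y :=
  convexHull_min hA (convex_halfSpace_gt h.isLinear c) hy

lemma hull_kn {A B : Set V} (h : ∀ z ∈ A, ∃ m ∈ B, Kn z m) {y : V} (hy : y ∈ convexHull ℝ A) :
    ∃ m ∈ convexHull ℝ B, Kn y m := by
  refine convexHull_min (t := {y | ∃ m ∈ convexHull ℝ B, Kn y m}) (fun z hz => ?_) ?_ hy
  · obtain ⟨m, hm, hk⟩ := h z hz
    exact ⟨m, subset_convexHull _ _ hm, hk⟩
  · rintro _ ⟨m, hm, s, hs, rfl⟩ _ ⟨m', hm', t, ht, rfl⟩ a b ha hb hab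
    have hp : 0 < a * s + b * t := by
      rcases ha.eq_or_lt with rfl | ha'
      · have : b = 1 := by linarith
        subst this
        simpa using ht
      · positivity
    refine ⟨(a * s / (a * s + b * t)) • m + (b * t / (a * s + b * t)) • m',
      convex_convexHull ℝ B hm hm' (by positivity) (by positivity) (by field_simp), _, hp, ?_⟩
    rw [smul_add, smul_smul, smul_smul, smul_smul, smul_smul, mul_div_cancel₀ _ hp.ne',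
      mul_div_cancel₀ _ hp.ne']

end Model

section Sym

variable {κ : Type*} [Fintype κ] [DecidableEq κ] {d : ℕ}

theorem sym {o ω : ℝ × EuclideanSpace ℝ (Fin d)} {e : κ → ℝ × EuclideanSpace ℝ (Fin d)}
    {q : κ → Sq} {lo hi : κ → ℤ}
    (Hx : ∀ k, lo ≤ k → k + 1 ≤ hi → ∃ y ∈ Cone d, y ∈ convexHull ℝ (mdl o e ω q '' Icc k (k + 1)))
    (Hv : ∀ v, lo ≤ v → v ≤ hi → ∃ h : ℝ × EuclideanSpace ℝ (Fin d) →ₗ[ℝ] ℝ, h ω = 1 ∧
      (∀ x ∈ Cone d, 0 ≤ h x) ∧ h (mdl o e ω q v) = 0 ∧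
      ∀ g, lo ≤ g → g ≤ hi → g ≠ v → 0 < h (mdl o e ω q g))
    (v1 v2 v3 k1 k2 k3 : κ → ℤ) (δ t21 t13 : κ → ℝ)
    (b1 : lo ≤ v1 ∧ v1 ≤ hi) (b2 : lo ≤ v2 ∧ v2 ≤ hi) (b3 : lo ≤ v3 ∧ v3 ≤ hi)
    (c1 : lo ≤ k1 ∧ k1 + 1 ≤ hi) (c2 : lo ≤ k2 ∧ k2 + 1 ≤ hi) (c3 : lo ≤ k3 ∧ k3 + 1 ≤ hi)
    (hn : v3 ∉ Icc k2 (k2 + 1))
    (hd : ∀ a, (q a).DirOK (lo a) (hi a) (v1 a) (v2 a) (v3 a) (k1 a) (k2 a) (k3 a) (δ a) (t21 a)
      (t13 a)) {α : ℝ} (hα : 0 < α) (s1 : ∑ a, δ a ≤ α) (s2 : 100 * α ≤ ∑ a, t21 a)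
    (s3 : 100 * α ≤ ∑ a, t13 a) : False := by
  obtain ⟨y1, C1, H1⟩ := Hx k1 c1.1 c1.2
  obtain ⟨y2, C2, H2⟩ := Hx k2 c2.1 c2.2
  obtain ⟨y3, C3, H3⟩ := Hx k3 c3.1 c3.2
  obtain ⟨h1, w1, p1, z1, n1⟩ := Hv v1 b1.1 b1.2
  obtain ⟨h2, w2, p2, z2, n2⟩ := Hv v2 b2.1 b2.2
  obtain ⟨h3, w3, p3, z3, n3⟩ := Hv v3 b3.1 b3.2
  have key : ∀ (h : ℝ × EuclideanSpace ℝ (Fin d) →ₗ[ℝ] ℝ) (v : κ → ℤ), h ω = 1 →
      h (mdl o e ω q v) = 0 → ∀ g, h (mdl o e ω q g) =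
        ∑ a, ((q a).val (-h (e a)) (g a) - (q a).val (-h (e a)) (v a)) := by
    intro h v hω hz g
    rw [mdl_apply _ _ _ _ _ _ hω] at hz ⊢
    rw [Finset.sum_sub_distrib]
    linarith
  have mn : ∀ (h : ℝ × EuclideanSpace ℝ (Fin d) →ₗ[ℝ] ℝ) (v : κ → ℤ), h ω = 1 →
      h (mdl o e ω q v) = 0 → lo ≤ v ∧ v ≤ hi →
      (∀ g, lo ≤ g → g ≤ hi → g ≠ v → 0 < h (mdl o e ω q g)) →
      ∀ a, (q a).Min (lo a) (hi a) (-h (e a)) (v a) := by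
    intro h v hω hz hb hp a m hm1 hm2
    have h0 : 0 ≤ h (mdl o e ω q (Function.update v a m)) := by
      by_cases hv : Function.update v a m = v
      · rw [hv, hz]
      · refine (hp _ (fun b => ?_) (fun b => ?_) hv).le
        · by_cases hb' : b = a
          · subst hb'; simpa using hm1
          · simpa [hb'] using hb.1 b
        · by_cases hb' : b = a
          · subst hb'; simpa using hm2
          · simpa [hb'] using hb.2 b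
    rw [mdl_update, map_add, hz] at h0
    simp only [map_add, map_smul, hω, smul_eq_mul] at h0
    unfold Sq.val
    linarith
  have main : ∀ g1 ∈ Icc k1 (k1 + 1), ∀ g2 ∈ Icc k2 (k2 + 1), ∀ g3 ∈ Icc k3 (k3 + 1),
      h1 (mdl o e ω q g1) ≤ α ∧ h1 (mdl o e ω q g2) ≤ α ∧ h2 (mdl o e ω q g2) ≤ α ∧
      100 * α ≤ h2 (mdl o e ω q g1) ∧ 100 * α ≤ h1 (mdl o e ω q g3) ∧
      h2 (mdl o e ω q g3) ≤ h2 (mdl o e ω q g1) + h1 (mdl o e ω q g3) + α ∧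
      h3 (mdl o e ω q g1) ≤ h3 (mdl o e ω q g2) ∧ h3 (mdl o e ω q g3) ≤ h3 (mdl o e ω q g2) := by
    intro g1 m1 g2 m2 g3 m3
    have A := fun a => hd a _ _ _ (mn h1 v1 w1 z1 b1 n1 a) (mn h2 v2 w2 z2 b2 n2 a)
      (mn h3 v3 w3 z3 b3 n3 a) (g1 a) (g2 a) (g3 a) (m1.1 a) (m1.2 a) (m2.1 a) (m2.2 a)
      (m3.1 a) (m3.2 a)
    simp only [key h1 v1 w1 z1, key h2 v2 w2 z2, key h3 v3 w3 z3]
    refine ⟨(Finset.sum_le_sum fun a _ => (A a).1).trans s1,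
      (Finset.sum_le_sum fun a _ => (A a).2.1).trans s1,
      (Finset.sum_le_sum fun a _ => (A a).2.2.1).trans s1,
      s2.trans (Finset.sum_le_sum fun a _ => (A a).2.2.2.1),
      s3.trans (Finset.sum_le_sum fun a _ => (A a).2.2.2.2.1), ?_,
      Finset.sum_le_sum fun a _ => sub_le_sub_right (A a).2.2.2.2.2.2.1 _,
      Finset.sum_le_sum fun a _ => sub_le_sub_right (A a).2.2.2.2.2.2.2 _⟩
    refine (Finset.sum_le_sum fun a _ => (A a).2.2.2.2.2.1).trans ?_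
    rw [Finset.sum_add_distrib, Finset.sum_add_distrib]
    linarith
  have i1 : k1 ∈ Icc k1 (k1 + 1) := ⟨le_rfl, fun a => by simp⟩
  have i2 : k2 ∈ Icc k2 (k2 + 1) := ⟨le_rfl, fun a => by simp⟩
  have i3 : k3 ∈ Icc k3 (k3 + 1) := ⟨le_rfl, fun a => by simp⟩
  refine obstruction C1 C2 C3 p1 p2 p3 hα ?_ ?_ ?_ ?_ ?_ ?_ ?_ ?_ ?_
  · exact hull_le H1 _ (by rintro _ ⟨g, hg, rfl⟩; exact (main g hg _ i2 _ i3).1)
  · exact hull_le H2 _ (by rintro _ ⟨g, hg, rfl⟩; exact (main _ i1 g hg _ i3).2.1)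
  · exact hull_le H2 _ (by rintro _ ⟨g, hg, rfl⟩; exact (main _ i1 g hg _ i3).2.2.1)
  · exact hull_ge H3 _ (by rintro _ ⟨g, hg, rfl⟩; exact (main _ i1 _ i2 g hg).2.2.2.2.1)
  · exact hull_ge H1 _ (by rintro _ ⟨g, hg, rfl⟩; exact (main g hg _ i2 _ i3).2.2.2.1)
  · have : (h2 - h1) y3 - α ≤ h2 y1 := by
      refine hull_ge H1 _ ?_
      rintro _ ⟨g, hg, rfl⟩
      rw [sub_le_iff_le_add]
      refine hull_le H3 _ ?_
      rintro _ ⟨g', hg', rfl⟩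
      have := (main g hg _ i2 g' hg').2.2.2.2.2.1
      rw [LinearMap.sub_apply]
      linarith
    rw [LinearMap.sub_apply] at this
    linarith
  · refine hull_le H1 _ ?_
    rintro _ ⟨g, hg, rfl⟩
    refine hull_ge H2 _ ?_
    rintro _ ⟨g', hg', rfl⟩
    exact (main g hg g' hg' _ i3).2.2.2.2.2.2.1
  · refine hull_le H3 _ ?_
    rintro _ ⟨g, hg, rfl⟩
    refine hull_ge H2 _ ?_
    rintro _ ⟨g', hg', rfl⟩
    exact (main _ i1 g' hg' g hg).2.2.2.2.2.2.2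
  · refine hull_gt H2 _ ?_
    rintro _ ⟨g, hg, rfl⟩
    exact n3 g (c2.1.trans hg.1) (hg.2.trans c2.2) (fun h0 => hn (h0 ▸ hg))

/-- the inequalities forced on the two main directions -/
def Ineq (K : ℝ) (lo hi lo' hi' : ℤ) (q q' : Sq) (μ : ℝ) : Prop :=
  ∃ A B C Y : ℤ, lo ≤ A - 2 ∧ A ≤ B ∧ B ≤ C ∧ A + 2 ≤ C ∧ C + 2 ≤ hi ∧ lo' ≤ 1 ∧ 5 ≤ Y ∧
    Y + 1 ≤ hi' ∧ 0 < μ ∧ q.D (A - 2) (B + 2) ≤ μ ∧ q.D (B - 2) (C + 2) ≤ μ ∧ q'.D 1 5 ≤ μ ∧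
    K * μ ≤ q'.D 5 Y ∧ K * μ ≤ q.D A C

theorem sym_xy {o ω : ℝ × EuclideanSpace ℝ (Fin d)} {e : κ → ℝ × EuclideanSpace ℝ (Fin d)}
    {q : κ → Sq} {lo hi : κ → ℤ}
    (Hx : ∀ k, lo ≤ k → k + 1 ≤ hi → ∃ y ∈ Cone d, y ∈ convexHull ℝ (mdl o e ω q '' Icc k (k + 1)))
    (Hv : ∀ v, lo ≤ v → v ≤ hi → ∃ h : ℝ × EuclideanSpace ℝ (Fin d) →ₗ[ℝ] ℝ, h ω = 1 ∧
      (∀ x ∈ Cone d, 0 ≤ h x) ∧ h (mdl o e ω q v) = 0 ∧
      ∀ g, lo ≤ g → g ≤ hi → g ≠ v → 0 < h (mdl o e ω q g))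
    {x y : κ} (hxy : x ≠ y) (hc : ∀ a, (q a).Conv (lo a) (hi a)) {μ : ℝ} (hμ : 0 < μ)
    (hex : ∀ a, a ≠ x → a ≠ y → lo a = 0 ∧ hi a = 3 ∧ (q a).D 0 3 ≤ μ) {Y : ℤ} (y1 : lo y ≤ 1)
    (y2 : 5 ≤ Y) (y3 : Y + 1 ≤ hi y) (y4 : (q y).D 1 5 ≤ μ) {T δ : ℝ} (y5 : T ≤ (q y).D 5 Y)
    {v1 v2 v3 k1 k2 k3 : ℤ} (b1 : lo x ≤ v1 ∧ v1 ≤ hi x) (b2 : lo x ≤ v2 ∧ v2 ≤ hi x)
    (b3 : lo x ≤ v3 ∧ v3 ≤ hi x) (c1 : lo x ≤ k1 ∧ k1 + 1 ≤ hi x)
    (c2 : lo x ≤ k2 ∧ k2 + 1 ≤ hi x) (c3 : lo x ≤ k3 ∧ k3 + 1 ≤ hi x)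
    (hd : (q x).DirOK (lo x) (hi x) v1 v2 v3 k1 k2 k3 δ T 0) (hδ : μ ≤ δ)
    (hT : 100 * (δ + (Fintype.card κ - 1) * μ) ≤ T) : False := by
  let t : ∀ {α : Type}, α → α → α → κ → α := fun u v w a => if a = x then u else if a = y then v else w
  have tx : ∀ {α : Type} (u v w : α), t u v w x = u := fun u v w => if_pos rfl
  have ty : ∀ {α : Type} (u v w : α), t u v w y = v := fun u v w => by
    simp only [t, if_neg hxy.symm, if_true]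
  have te : ∀ {α : Type} (u v w : α) a, a ≠ x → a ≠ y → t u v w a = w := fun u v w a h1 h2 => by
    simp only [t, if_neg h1, if_neg h2]
  have cs : ∀ P : κ → Prop, P x → P y → (∀ a, a ≠ x → a ≠ y → P a) → ∀ a, P a := by
    intro P h1 h2 h3 a
    by_cases ha : a = x
    · exact ha ▸ h1
    by_cases ha' : a = y
    · exact ha' ▸ h2
    exact h3 a ha ha'
  have bx : ∀ u v w c : ℤ, (lo x ≤ u ∧ u + c ≤ hi x) → (lo y ≤ v ∧ v + c ≤ hi y) →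
      (0 ≤ w ∧ w + c ≤ 3) → lo ≤ t u v w ∧ t u v w + (fun _ => c) ≤ hi := by
    intro u v w c h1 h2 h3
    constructor
    · refine cs _ ?_ ?_ ?_
      · rw [tx]; exact h1.1
      · rw [ty]; exact h2.1
      · intro a a1 a2
        rw [te _ _ _ a a1 a2, (hex a a1 a2).1]; exact h3.1
    · refine cs _ ?_ ?_ ?_
      · rw [Pi.add_apply, tx]; exact h1.2
      · rw [Pi.add_apply, ty]; exact h2.2
      · intro a a1 a2
        rw [Pi.add_apply, te _ _ _ a a1 a2, (hex a a1 a2).2.1]; exact h3.2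
  have bx0 : ∀ u v w : ℤ, (lo x ≤ u ∧ u ≤ hi x) → (lo y ≤ v ∧ v ≤ hi y) →
      (0 ≤ w ∧ w ≤ 3) → lo ≤ t u v w ∧ t u v w ≤ hi := by
    intro u v w h1 h2 h3
    have := bx u v w 0 (by simpa using h1) (by simpa using h2) (by simpa using h3)
    refine ⟨this.1, fun a => ?_⟩
    simpa using this.2 a
  have hcard : (1 : ℝ) ≤ Fintype.card κ := by
    have : 0 < Fintype.card κ := Fintype.card_pos_iff.2 ⟨x⟩
    exact_mod_cast this
  have one_ge : ∀ (f : κ → ℝ) (a : κ), (∀ b, 0 ≤ f b) → f a ≤ ∑ b, f b := fun f a hf =>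
    Finset.single_le_sum (fun b _ => hf b) (Finset.mem_univ a)
  have hpos : 0 < δ + (Fintype.card κ - 1) * μ := by
    have : 0 ≤ ((Fintype.card κ : ℝ) - 1) * μ := mul_nonneg (by linarith) hμ.le
    linarith
  refine sym Hx Hv (t v1 2 1) (t v2 3 1) (t v3 (Y + 1) 3) (t k1 4 2) (t k2 3 1) (t k3 Y 2)
    (t δ μ μ) (t T 0 0) (t 0 T 0) (bx0 _ _ _ b1 (by omega) (by omega))
    (bx0 _ _ _ b2 (by omega) (by omega)) (bx0 _ _ _ b3 (by omega) (by omega))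
    (bx _ _ _ 1 c1 (by omega) (by omega)) (bx _ _ _ 1 c2 (by omega) (by omega))
    (bx _ _ _ 1 c3 (by omega) (by omega)) (fun h => ?_) ?_ hpos ?_ ?_ ?_
  · have : Y + 1 ≤ 3 + 1 := by simpa only [Pi.add_apply, ty, Pi.one_apply] using h.2 y
    omega
  · refine cs _ ?_ ?_ ?_
    · simpa only [tx] using hd
    · simpa only [ty] using (hc y).dir_y y1 y2 y3 y4 y5
    · intro a a1 a2
      obtain ⟨e1, e2, e3⟩ := hex a a1 a2
      have := hc a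
      simp only [te _ _ _ a a1 a2, e1, e2] at this ⊢
      exact this.dir_extra e3
  · rw [← Finset.add_sum_erase _ _ (Finset.mem_univ x), tx, Finset.sum_congr rfl (g := fun _ => μ),
      Finset.sum_const, Finset.card_erase_of_mem (Finset.mem_univ x), Finset.card_univ,
      nsmul_eq_mul, Nat.cast_sub (Fintype.card_pos_iff.2 ⟨x⟩), Nat.cast_one]
    intro a ha
    by_cases ha' : a = y
    · rw [ha', ty]
    · exact te _ _ _ a (Finset.ne_of_mem_erase ha) ha'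
  · refine hT.trans ((tx T 0 0).symm.trans_le (one_ge _ x (cs _ ?_ ?_ ?_)))
    · rw [tx]; linarith
    · rw [ty]
    · intro a a1 a2; rw [te _ _ _ a a1 a2]
  · refine hT.trans ((ty 0 T 0).symm.trans_le (one_ge _ y (cs _ ?_ ?_ ?_)))
    · rw [tx]
    · rw [ty]; linarith
    · intro a a1 a2; rw [te _ _ _ a a1 a2]

theorem contra {o ω : ℝ × EuclideanSpace ℝ (Fin d)} {e : κ → ℝ × EuclideanSpace ℝ (Fin d)}
    {q : κ → Sq} {lo hi : κ → ℤ}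
    (Hx : ∀ k, lo ≤ k → k + 1 ≤ hi → ∃ y ∈ Cone d, y ∈ convexHull ℝ (mdl o e ω q '' Icc k (k + 1)))
    (Hv : ∀ v, lo ≤ v → v ≤ hi → ∃ h : ℝ × EuclideanSpace ℝ (Fin d) →ₗ[ℝ] ℝ, h ω = 1 ∧
      (∀ x ∈ Cone d, 0 ≤ h x) ∧ h (mdl o e ω q v) = 0 ∧
      ∀ g, lo ≤ g → g ≤ hi → g ≠ v → 0 < h (mdl o e ω q g))
    {x y : κ} (hxy : x ≠ y) (hc : ∀ a, (q a).Conv (lo a) (hi a)) {μ K : ℝ}
    (hex : ∀ a, a ≠ x → a ≠ y → lo a = 0 ∧ hi a = 3 ∧ (q a).D 0 3 ≤ μ)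
    (hI : Ineq K (lo x) (hi x) (lo y) (hi y) (q x) (q y) μ)
    (hK : 40000 * (Fintype.card κ : ℝ) ^ 2 ≤ K) : False := by
  obtain ⟨A, B, C, Y, a1, a2, a3, a4, a5, a6, a7, a8, hμ, d1, d2, d3, d4, d5⟩ := hI
  have hcard : (1 : ℝ) ≤ Fintype.card κ := by
    have : 0 < Fintype.card κ := Fintype.card_pos_iff.2 ⟨x⟩
    exact_mod_cast this
  set n : ℝ := (Fintype.card κ : ℝ) with hn
  have hx := hc x
  have up : ∀ P Q : ℤ, lo x ≤ P - 2 → P ≤ Q → Q + 2 ≤ hi x → (q x).D (P - 2) (Q + 2) ≤ μ →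
      (q x).D Q P ≤ 100 * n * μ := by
    intro P Q h1 h2 h3 h4
    by_contra hcon
    push Not at hcon
    refine sym_xy Hx Hv hxy hc hμ hex a6 a7 a8 d3 (T := 100 * n * μ) (δ := μ) ?_ (by omega) (by omega)
      (by omega) (by omega) (by omega) (by omega) (hx.dir_xU h1 h2 h3 h4 hcon.le) le_rfl ?_
    · refine le_trans ?_ d4
      refine mul_le_mul_of_nonneg_right ?_ hμ.le
      nlinarith
    · rw [← hn]; linarith
  have u1 := up A B a1 a2 (by omega) d1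
  have u2 := up B C (by omega) a3 a5 d2
  have e1 := hx.D_anti (k := A - 2) (k' := A) (m := B) (M := B + 2) a1 (by omega) a2 (by omega)
    (by omega) (by omega)
  have e2 := hx.D_anti (k := B - 2) (k' := B) (m := C) (M := C + 2) (by omega) (by omega) a3
    (by omega) a5 (by omega)
  have e3 := hx.D_anti (k := A - 2) (k' := A - 1) (m := A + 1) (M := B + 2) a1 (by omega)
    (by omega) (by omega) (by omega) (by omega)
  have e4 := hx.D_anti (k := B - 2) (k' := C - 1) (m := C + 1) (M := C + 2) (by omega) (by omega)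
    (by omega) (by omega) a5 (by omega)
  have t3 := hx.three (A := A) (B := B) (C := C) (by omega) a2 a3 (by omega) hμ
    (c := 100 * n) (K := K) (by positivity) (by nlinarith) (e1.trans d1) (e2.trans d2) u1 u2 d5
  have hle : μ ≤ (2 * (100 * n) + 1) * μ := by nlinarith
  refine sym_xy Hx Hv hxy hc hμ hex a6 a7 a8 d3 (T := K * μ) (δ := (2 * (100 * n) + 1) * μ) d4
    (by omega) (by omega) (by omega) (by omega) (by omega) (by omega)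
    (hx.dir_xL (by omega) a4 (by omega) (by linarith) (by linarith) t3 d5) hle ?_
  rw [← hn, ← add_mul, ← mul_assoc]
  refine mul_le_mul_of_nonneg_right ?_ hμ.le
  nlinarith

end Sym

end Pool.Agent.P.MP_3c8515_co
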