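import Pool.Agent.P.MP_3c8515_co.Final

namespace Pool.Agent.P.MP_3c8515_co

open Set Submodule Module Filter

/-- the data of a rigid configuration -/
structure Data (κ ι U : Type) [AddCommGroup U] [Module ℝ U] where
  S : Set ι
  W : Set ι
  ξ : ι → U
  η : ι → ℝ
  one : U →ₗ[ℝ] ℝ
  co : κ → U →ₗ[ℝ] ℝ
  lo : κ → ℤ
  hi : κ → ℤ
  gr : (κ → ℤ) → ι
  ap : κ → ℤ → ι
  cp : κ → ℤ → ι
  Ln : κ → ℤ → ι → ι → Prop
  be : ι
  s1 : ι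
  s2 : ι
  v0 : ι
  g0 : κ → ℤ
  x : κ
  y : κ

/-- bootstrap percolation with threshold two from two seeds -/
inductive Perc {ι : Type} (E : ι → ι → Prop) (s1 s2 : ι) : ι → Prop
  | fst : Perc E s1 s2 s1
  | snd : Perc E s1 s2 s2
  | step {w w1 w2 : ι} : E w w1 → E w w2 → w1 ≠ w2 → Perc E s1 s2 w1 → Perc E s1 s2 w2 →
      Perc E s1 s2 w

variable {κ ι U : Type} [AddCommGroup U] [Module ℝ U]

def Data.Edge (D : Data κ ι U) (u w : ι) : Prop :=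
  u ∈ D.W ∧ w ∈ D.W ∧ u ≠ w ∧ LF D.S D.ξ D.η {u, w}

def Data.Adj (D : Data κ ι U) (a : κ) (k : ℤ) (p p' : ι × ι) : Prop :=
  D.Ln a k p'.1 p'.2 ∧ ∃ J, LF D.S D.ξ D.η J ∧ p.1 ∈ J ∧ p.2 ∈ J ∧ p'.1 ∈ J ∧ p'.2 ∈ J

lemma Data.Edge.symm {D : Data κ ι U} {u w : ι} (h : D.Edge u w) : D.Edge w u :=
  ⟨h.2.1, h.1, h.2.2.1.symm, pair_comm u w ▸ h.2.2.2⟩

variable [Fintype κ] [DecidableEq κ]

/-- the combinatorial invariants -/
structure PInv (D : Data κ ι U) : Prop where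
  fin : D.S.Finite
  WS : D.W ⊆ D.S
  one : ∀ i ∈ D.S, D.one (D.ξ i) = 1
  dim : finrank ℝ U = Fintype.card κ + 1
  vert : ∀ i ∈ D.S, LF D.S D.ξ D.η {i}
  lohi : ∀ a, D.lo a < D.hi a
  xy : D.x ≠ D.y
  ex : ∀ a, a ≠ D.x → a ≠ D.y → D.lo a = 0 ∧ D.hi a = 3
  grW : ∀ g, D.lo ≤ g → g ≤ D.hi → D.gr g ∈ D.W
  co : ∀ g, D.lo ≤ g → g ≤ D.hi → ∀ a, D.co a (D.ξ (D.gr g)) = g a
  cell : ∀ k k', D.lo ≤ k → k' ≤ D.hi → k ≤ k' → k' ≤ k + 1 → LF D.S D.ξ D.η (D.gr '' Icc k k')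
  seed : D.Edge D.s1 D.s2
  perc : ∀ w ∈ D.W, Perc D.Edge D.s1 D.s2 w
  lnE : ∀ a k u w, D.Ln a k u w → D.Edge u w ∧ D.lo a ≤ k ∧ k < D.hi a
  lnG : ∀ g a, D.lo ≤ g → g ≤ D.hi → g a < D.hi a →
    D.Ln a (g a) (D.gr g) (D.gr (Function.update g a (g a + 1)))
  lnA : ∀ a k, D.lo a ≤ k → k < D.hi a → D.Ln a k (D.ap a k) (D.ap a (k + 1))
  lnC : ∀ a k, D.lo a ≤ k → k < D.hi a → D.Ln a k (D.cp a k) (D.cp a (k + 1))
  conn : ∀ a k u w, D.Ln a k u w →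
    Relation.ReflTransGen (D.Adj a k) (D.ap a k, D.ap a (k + 1)) (u, w)
  apW : ∀ a k, D.lo a ≤ k → k ≤ D.hi a → D.ap a k ∈ D.W
  cpW : ∀ a k, D.lo a ≤ k → k ≤ D.hi a → D.cp a k ∈ D.W
  apI : ∀ a k m, D.lo a ≤ k → k ≤ D.hi a → D.lo a ≤ m → m ≤ D.hi a → D.ap a k = D.ap a m → k = m
  cpI : ∀ a k m, D.lo a ≤ k → k ≤ D.hi a → D.lo a ≤ m → m ≤ D.hi a → D.cp a k = D.cp a m → k = m
  acN : ∀ a k m, D.lo a ≤ k → k ≤ D.hi a → D.lo a ≤ m → m ≤ D.hi a → D.ap a k ≠ D.cp a m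
  par : ∀ a, ∃ (θ : U) (θ' c : ℝ), 0 < c ∧ ∀ k, D.lo a ≤ k → k ≤ D.hi a →
    D.ξ (D.ap a k) = θ + c • D.ξ (D.cp a k) ∧ D.η (D.ap a k) = θ' + c * D.η (D.cp a k)
  gt : ∀ a, ∃ g : U →ₗ[ℝ] ℝ, (∀ i ∈ D.S, 0 ≤ g (D.ξ i)) ∧
    (∀ k, D.lo a ≤ k → k ≤ D.hi a → g (D.ξ (D.ap a k)) = 0 ∧ g (D.ξ (D.cp a k)) = 0) ∧
    (∀ b, b ≠ a → ∀ k, D.lo b ≤ k → k ≤ D.hi b → 0 < g (D.ξ (D.ap b k))) ∧ 0 < g (D.ξ D.be)
  beW : D.be ∈ D.W
  gb : ∃ g : U →ₗ[ℝ] ℝ, g (D.ξ D.be) = 0 ∧ ∀ i ∈ D.S, i ≠ D.be → 0 < g (D.ξ i)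
  gtb : ∃ wb ∈ D.W, wb ≠ D.be ∧ ∃ g : U →ₗ[ℝ] ℝ, (∀ i ∈ D.S, 0 ≤ g (D.ξ i)) ∧
    g (D.ξ D.be) = 0 ∧ g (D.ξ wb) = 0 ∧ ∀ b k, D.lo b ≤ k → k ≤ D.hi b → 0 < g (D.ξ (D.ap b k))
  gh : ∃ w2 ∈ D.W, ∃ g : U →ₗ[ℝ] ℝ, (∀ i ∈ D.S, 0 ≤ g (D.ξ i)) ∧ g (D.ξ w2) = 0 ∧
    0 < g (D.ξ D.be) ∧ ∀ b k, D.lo b ≤ k → k ≤ D.hi b → 0 < g (D.ξ (D.ap b k))
  g0 : D.lo ≤ D.g0 ∧ D.g0 ≤ D.hi
  v0 : D.v0 ∈ D.S
  tn : ∃ (ψ : U →ₗ[ℝ] ℝ) (m : ℝ), 0 < m ∧ (∀ i ∈ D.S, 0 ≤ D.η i - ψ (D.ξ i)) ∧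
    D.η D.v0 - ψ (D.ξ D.v0) = 0 ∧ (∀ i ∈ D.W, m ≤ D.η i - ψ (D.ξ i)) ∧
    D.η (D.gr D.g0) - ψ (D.ξ (D.gr D.g0)) = m

/-- what every realization looks like -/
structure Model (K : ℝ) (D : Data κ ι U) {V : Type} [AddCommGroup V] [Module ℝ V] (r : ι → V)
    (ω o : V) (e : κ → V) (q : κ → Sq) (μ : ℝ) : Prop where
  conv : ∀ a, (q a).Conv (D.lo a) (D.hi a)
  kn : ∀ g, D.lo ≤ g → g ≤ D.hi → Kn (r (D.gr g)) (mdl o e ω q g)
  str : ∀ a k u w, D.Ln a k u w → Str (r u) (r w) (inc (e a) ω (q a) k)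
  tn : ∀ h : V →ₗ[ℝ] ℝ, h ω = 1 → (∀ i ∈ D.S, 0 ≤ h (r i)) → h (r D.v0) = 0 →
    h (mdl o e ω q D.g0) ≤ μ
  ex : ∀ a, a ≠ D.x → a ≠ D.y → (q a).D 0 3 ≤ μ
  ineq : Ineq K (D.lo D.x) (D.hi D.x) (D.lo D.y) (D.hi D.y) (q D.x) (q D.y) μ

def Rigid (K : ℝ) (D : Data κ ι U) : Prop :=
  ∀ (V : Type) [AddCommGroup V] [Module ℝ V] [FiniteDimensional ℝ V] (r : ι → V) (ω : V),
    Rz D.S D.ξ D.η r ω → ∃ o e q μ, Model K D r ω o e q μ

lemma PInv.gr_inj {D : Data κ ι U} (P : PInv D) {g g' : κ → ℤ} (h1 : D.lo ≤ g) (h2 : g ≤ D.hi)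
    (h3 : D.lo ≤ g') (h4 : g' ≤ D.hi) (h : D.gr g = D.gr g') : g = g' := by
  funext a
  have a1 := P.co g h1 h2 a
  rw [h, P.co g' h3 h4 a] at a1
  exact_mod_cast a1.symm

variable [FiniteDimensional ℝ U]

lemma PInv.cell_span {D : Data κ ι U} (P : PInv D) {k : κ → ℤ} (h1 : D.lo ≤ k) (h2 : k + 1 ≤ D.hi) :
    span ℝ (D.ξ '' (D.gr '' Icc k (k + 1))) = ⊤ := by
  let Φ : U →ₗ[ℝ] ℝ × (κ → ℝ) := D.one.prod (LinearMap.pi D.co)
  set W := span ℝ (D.ξ '' (D.gr '' Icc k (k + 1))) with hW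
  have hmem : ∀ g ∈ Icc k (k + 1), ((1 : ℝ), fun a => (g a : ℝ)) ∈ W.map Φ := by
    intro g hg
    have b1 := h1.trans hg.1
    have b2 := hg.2.trans h2
    refine ⟨D.ξ (D.gr g), subset_span (mem_image_of_mem _ (mem_image_of_mem _ hg)), ?_⟩
    ext a
    · exact P.one _ (P.WS (P.grW g b1 b2))
    · exact P.co g b1 b2 a
  have hk : k ∈ Icc k (k + 1) := ⟨le_rfl, fun a => by simp⟩
  have hs : ∀ a, ((0 : ℝ), (Pi.single a 1 : κ → ℝ)) ∈ W.map Φ := by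
    intro a
    have h3 : Function.update k a (k a + 1) ∈ Icc k (k + 1) := by
      constructor <;> intro b <;> by_cases hb : b = a <;> simp [hb]
    have h4 := sub_mem (hmem _ h3) (hmem _ hk)
    have h5 : ((1 : ℝ), fun b => ((Function.update k a (k a + 1) b : ℤ) : ℝ)) -
        ((1 : ℝ), fun b => (k b : ℝ)) = ((0 : ℝ), (Pi.single a 1 : κ → ℝ)) := by
      ext b
      · simp
      · by_cases hb : b = a <;> simp [hb]
    rwa [h5] at h4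
  have htop : W.map Φ = ⊤ := by
    rw [eq_top_iff]
    rintro ⟨t, v⟩ -
    have h3 : (t, v) = t • ((1 : ℝ), fun a => (k a : ℝ)) +
        ∑ a, (v a - t * k a) • ((0 : ℝ), (Pi.single a 1 : κ → ℝ)) := by
      ext b
      · simp [Prod.fst_sum]
      · simp [Prod.snd_sum, Finset.sum_apply, Pi.single_apply]
    rw [h3]
    exact add_mem (smul_mem _ _ (hmem k hk)) (sum_mem fun a _ => smul_mem _ _ (hs a))
  have h3 := Submodule.finrank_map_le Φ W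
  rw [htop, finrank_top, finrank_prod, finrank_self, finrank_fintype_fun_eq_card] at h3
  apply Submodule.eq_top_of_finrank_eq
  have h4 := Submodule.finrank_le W
  have := P.dim
  omega

theorem final {D : Data κ ι U} (P : PInv D) {K : ℝ} (R : Rigid K D)
    (hK : 40000 * (Fintype.card κ : ℝ) ^ 2 ≤ K) {d : ℕ} (hd : d = Fintype.card κ + 1) :
    ∃ Q : Set (EuclideanSpace ℝ (Fin d)), IsPolytope d Q ∧ ¬ Scribable 0 (d - 1) Q := by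
  let p : Option ι → U × ℝ := fun i => i.elim (0, 1) fun i => (D.ξ i, D.η i)
  let S : Set (Option ι) := insert none (some '' D.S)
  have hS : S.Finite := (P.fin.image _).insert _
  have hl : ∀ J, LF D.S D.ξ D.η J → IsFc S p (some '' J) := by
    rintro J ⟨hJ, ψ, hψ⟩
    refine ⟨(image_mono hJ).trans (subset_insert _ _),
      LinearMap.snd ℝ U ℝ - ψ ∘ₗ LinearMap.fst ℝ U ℝ, ?_⟩
    rintro _ (rfl | ⟨i, hi, rfl⟩)
    · simp [p]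
    · simpa [p] using hψ i hi
  have hv : ∀ J, IsFc D.S D.ξ J → IsFc S p (insert none (some '' J)) := by
    rintro J ⟨hJ, g, hg⟩
    refine ⟨insert_subset_insert (image_mono hJ), g ∘ₗ LinearMap.fst ℝ U ℝ, ?_⟩
    rintro _ (rfl | ⟨i, hi, rfl⟩)
    · simp [p]
    · simpa [p] using hg i hi
  have hvert : ∀ i ∈ S, IsFc S p {i} := by
    rintro _ (rfl | ⟨i, hi, rfl⟩)
    · simpa using hv ∅ ⟨empty_subset _, D.one, fun i hi => by simp [P.one i hi]⟩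
    · simpa using hl _ (P.vert i hi)
  have h0 : IsFc S p ∅ := by
    have := (hvert none (mem_insert _ _)).inter (hvert (some D.v0) (Or.inr ⟨_, P.v0, rfl⟩))
    simpa using this
  have hV : finrank ℝ (U × ℝ) = d + 1 := by rw [finrank_prod, finrank_self, P.dim, hd]
  have hcell : ∀ k, D.lo ≤ k → k + 1 ≤ D.hi →
      rk p (some '' (D.gr '' Icc k (k + 1))) = d ∧ rk p S = d + 1 := by
    intro k h1 h2
    have a1 := hl _ (P.cell k (k + 1) h1 h2 (fun a => by simp) le_rfl)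
    have a2 := a1.rk_lt (K := S) ⟨a1.1, fun h => by simpa using h (mem_insert _ _)⟩ subset_rfl
    have a3 : rk p S ≤ d + 1 := hV ▸ Submodule.finrank_le _
    have a4 := Submodule.finrank_map_le (LinearMap.fst ℝ U ℝ)
      (span ℝ (p '' (some '' (D.gr '' Icc k (k + 1)))))
    rw [map_span, image_image, image_image] at a4
    have a5 := P.cell_span h1 h2
    have a6 : (fun x => (LinearMap.fst ℝ U ℝ) (p (some x))) = D.ξ := rfl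
    rw [a6, a5, finrank_top, P.dim] at a4
    unfold rk at a2 a3 ⊢
    omega
  have hlo : D.lo + 1 ≤ D.hi := fun a => P.lohi a
  obtain ⟨Q, hQ, hQ'⟩ := transfer (by omega) hV hS ⟨none, mem_insert _ _⟩ p hvert h0
    (hcell D.lo le_rfl hlo).2
  refine ⟨Q, hQ, fun hs => ?_⟩
  obtain ⟨r, t1, t2, t3⟩ := hQ' hs
  have hS' : ∀ i ∈ D.S, some i ∈ S := fun i hi => Or.inr ⟨i, hi, rfl⟩
  have hR : Rz D.S D.ξ D.η (fun i => r (some i)) (r none) := by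
    refine ⟨fun J hJ => ?_, fun J hJ => ?_, fun J hJ _ => ?_, fun J hJ _ => ?_, P.vert⟩
    · obtain ⟨-, h, hh⟩ := (t1 _ (hl J hJ)).1
      have a1 := hh none (mem_insert _ _)
      have a2 : 0 < h (r none) := lt_of_le_of_ne a1.1 (fun h0 => by simpa using a1.2.1 h0.symm)
      refine ⟨(h (r none))⁻¹ • h, by simp [a2.ne'], fun i hi => ?_⟩
      have a3 := hh _ (hS' i hi)
      simp only [LinearMap.smul_apply, smul_eq_mul, mul_eq_zero, inv_eq_zero, a2.ne', false_or]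
      exact ⟨mul_nonneg (inv_pos.2 a2).le a3.1, by simpa using a3.2⟩
    · have := (t1 _ (hl J hJ)).2
      unfold rk at this ⊢
      rwa [image_image, image_image] at this
    · obtain ⟨-, h, hh⟩ := (t1 _ (hv J hJ)).1
      refine ⟨h, (hh none (mem_insert _ _)).2.2 (mem_insert _ _), fun i hi => ?_⟩
      simpa using hh _ (hS' i hi)
    · have a1 := (t1 _ (hv J hJ)).2
      unfold rk at a1 ⊢
      rw [image_insert_eq, image_image, image_insert_eq, image_image] at a1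
      refine a1.trans ?_
      have a2 : span ℝ (insert (p none) ((fun x => p (some x)) '' J)) ≤
          span ℝ (insert (p none) (LinearMap.inl ℝ U ℝ '' (D.ξ '' J))) := by
        rw [span_le]
        rintro _ (rfl | ⟨i, hi, rfl⟩)
        · exact subset_span (mem_insert _ _)
        · have : p (some i) = D.η i • p none + LinearMap.inl ℝ U ℝ (D.ξ i) := by simp [p]
          show p (some i) ∈ _
          rw [this]
          exact add_mem (smul_mem _ _ (subset_span (mem_insert _ _)))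
            (subset_span (Or.inr ⟨_, ⟨i, hi, rfl⟩, rfl⟩))
      refine (Submodule.finrank_mono a2).trans ((finrank_span_insert_le _ _).trans ?_)
      rw [← map_span]
      exact Nat.add_le_add_right (Submodule.finrank_map_le _ _) 1
  obtain ⟨o, e, q, μ, M⟩ := R _ _ _ hR
  refine contra (o := o) (ω := r none) (e := e) (fun k h1 h2 => ?_) (fun v h1 h2 => ?_) P.xy M.conv
    (fun a a1 a2 => ⟨(P.ex a a1 a2).1, (P.ex a a1 a2).2, M.ex a a1 a2⟩) M.ineq hK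
  · obtain ⟨x, hx, hx'⟩ := t3 _ (hl _ (P.cell k (k + 1) h1 h2 (fun a => by simp) le_rfl))
      (hcell k h1 h2).1
    obtain ⟨m, hm, c, hc, rfl⟩ := hull_kn (B := mdl o e (r none) q '' Icc k (k + 1)) (by
      rintro _ ⟨_, ⟨_, ⟨g, hg, rfl⟩, rfl⟩, rfl⟩
      exact ⟨_, ⟨g, hg, rfl⟩, M.kn g (h1.trans hg.1) (hg.2.trans h2)⟩) hx'
    refine ⟨m, ?_, hm⟩
    have a1 : ‖c • m.2‖ ≤ c * m.1 := hx
    rw [norm_smul, Real.norm_of_nonneg hc.le] at a1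
    exact le_of_mul_le_mul_left a1 hc
  · have hvS := P.WS (P.grW v h1 h2)
    obtain ⟨h, a1, a2⟩ := t2 _ (hS' _ hvS)
    have a3 := a1 none (mem_insert _ _)
    have a4 : 0 < h (r none) := lt_of_le_of_ne a3.1 (fun h0 => by simpa using a3.2.1 h0.symm)
    refine ⟨(h (r none))⁻¹ • h, by simp [a4.ne'], fun x hx => ?_, ?_, fun g g1 g2 hg => ?_⟩
    · exact mul_nonneg (inv_pos.2 a4).le (a2 x hx)
    · have := ((M.kn v h1 h2).apply h).2.1.1 ((a1 _ (hS' _ hvS)).2.2 rfl)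
      simp [this]
    · have a5 := a1 _ (hS' _ (P.WS (P.grW g g1 g2)))
      have a6 : 0 < h (r (some (D.gr g))) := lt_of_le_of_ne a5.1 (fun h0 => hg
        (P.gr_inj g1 g2 h1 h2 (Option.some.inj (a5.2.1 h0.symm))))
      exact mul_pos (inv_pos.2 a4) (((M.kn g g1 g2).apply h).2.2.1 a6)

end Pool.Agent.P.MP_3c8515_co
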