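import Pool.Agent.P.MP_3c8515_co.Faces

namespace Pool.Agent.P.MP_3c8515_co

open Set Submodule Module Filter

section Poly

variable {ι E : Type*} [NormedAddCommGroup E] [NormedSpace ℝ E]

/-- homogenization -/
def hom (q : ι → E) (i : ι) : ℝ × E := (1, q i)

lemma convex_hom_preimage {C : Set (ℝ × E)} (hC : Convex ℝ C) :
    Convex ℝ {x : E | ((1 : ℝ), x) ∈ C} := by
  intro x hx y hy a b ha hb hab
  have := hC hx hy ha hb hab
  simp only [Prod.smul_mk, smul_eq_mul, mul_one, Prod.mk_add_mk, hab] at this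
  exact this

lemma hom_lin (h : ℝ × E →ₗ[ℝ] ℝ) (x y : E) (a b : ℝ) (hab : a + b = 1) :
    h (1, a • x + b • y) = a * h (1, x) + b * h (1, y) := by
  have : ((1 : ℝ), a • x + b • y) = a • ((1 : ℝ), x) + b • ((1 : ℝ), y) := by
    simp [hab]
  rw [this, map_add, map_smul, map_smul, smul_eq_mul, smul_eq_mul]

lemma hull_nonneg {S : Set ι} {q : ι → E} {h : ℝ × E →ₗ[ℝ] ℝ} (hh : ∀ i ∈ S, 0 ≤ h (hom q i)) :
    ∀ x ∈ convexHull ℝ (q '' S), 0 ≤ h (1, x) := by
  have : convexHull ℝ (q '' S) ⊆ {x | 0 ≤ h (1, x)} := by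
    apply convexHull_min
    · rintro _ ⟨i, hi, rfl⟩
      exact hh i hi
    · intro x hx y hy a b ha hb hab
      simp only [mem_ofPred_eq] at hx hy ⊢
      rw [hom_lin h x y a b hab]
      positivity
  exact fun x hx => this hx

lemma hull_zero {S J : Set ι} {q : ι → E} {h : ℝ × E →ₗ[ℝ] ℝ} (hJ : J ⊆ S)
    (hh : ∀ i ∈ S, 0 ≤ h (hom q i) ∧ (h (hom q i) = 0 ↔ i ∈ J)) :
    convexHull ℝ (q '' J) = {x | x ∈ convexHull ℝ (q '' S) ∧ h (1, x) = 0} := by
  apply Subset.antisymm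
  · intro x hx
    refine ⟨convexHull_mono (image_mono hJ) hx, le_antisymm ?_ ?_⟩
    · have := hull_nonneg (S := J) (q := q) (h := -h)
        (fun i hi => by simp [(hh i (hJ hi)).2.2 hi]) x hx
      simpa using this
    · exact hull_nonneg (fun i hi => (hh i (hJ hi)).1) x hx
  · have : convexHull ℝ (q '' S) ⊆
        {x | 0 ≤ h (1, x) ∧ (0 < h (1, x) ∨ x ∈ convexHull ℝ (q '' J))} := by
      apply convexHull_min
      · rintro _ ⟨i, hi, rfl⟩
        refine ⟨(hh i hi).1, ?_⟩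
        rcases (hh i hi).1.lt_or_eq with h1 | h1
        · exact Or.inl h1
        · exact Or.inr (subset_convexHull _ _ (mem_image_of_mem q ((hh i hi).2.1 h1.symm)))
      · intro x hx y hy a b ha hb hab
        simp only [mem_ofPred_eq] at hx hy ⊢
        rw [hom_lin h x y a b hab]
        obtain ⟨x0, x1⟩ := hx
        obtain ⟨y0, y1⟩ := hy
        refine ⟨by positivity, ?_⟩
        rcases ha.eq_or_lt with rfl | ha'
        · have hb1 : b = 1 := by linarith
          subst hb1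
          simpa using y1
        rcases hb.eq_or_lt with rfl | hb'
        · have ha1 : a = 1 := by linarith
          subst ha1
          simpa using x1
        rcases x1 with x1 | x1
        · left; positivity
        rcases y1 with y1 | y1
        · left; positivity
        exact Or.inr (convex_convexHull ℝ _ x1 y1 ha hb hab)
    rintro x ⟨hx, hx0⟩
    rcases (this hx).2 with h1 | h1
    · exact absurd hx0 h1.ne'
    · exact h1

lemma IsFc.mem_iff {S J : Set ι} {q : ι → E} (hJ : IsFc S (hom q) J) {i : ι} (hi : i ∈ S) :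
    q i ∈ convexHull ℝ (q '' J) ↔ i ∈ J := by
  obtain ⟨hJS, h, hh⟩ := hJ
  refine ⟨fun h1 => ?_, fun h1 => subset_convexHull _ _ (mem_image_of_mem q h1)⟩
  rw [hull_zero hJS hh] at h1
  exact (hh i hi).2.1 h1.2

lemma isFc_empty (S : Set ι) (q : ι → E) : IsFc S (hom q) ∅ :=
  ⟨empty_subset _, LinearMap.fst ℝ ℝ E, fun i _ => by simp [hom]⟩

lemma isFc_of_exposed {S : Set ι} {q : ι → E} {F : Set E}
    (hF : IsExposed ℝ (convexHull ℝ (q '' S)) F) :
    IsFc S (hom q) {i | i ∈ S ∧ q i ∈ F} ∧ convexHull ℝ (q '' {i | i ∈ S ∧ q i ∈ F}) = F := by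
  rcases F.eq_empty_or_nonempty with rfl | hne
  · simpa using isFc_empty S q
  obtain ⟨l, rfl⟩ := hF hne
  obtain ⟨w, hw, hwm⟩ := hne
  let h : ℝ × E →ₗ[ℝ] ℝ := l w • LinearMap.fst ℝ ℝ E - (l : E →ₗ[ℝ] ℝ) ∘ₗ LinearMap.snd ℝ ℝ E
  have hx : ∀ x, h (1, x) = l w - l x := fun x => by simp [h]
  have hh : ∀ i ∈ S, 0 ≤ h (hom q i) ∧ (h (hom q i) = 0 ↔ i ∈ {i | i ∈ S ∧ q i ∈
      {x ∈ convexHull ℝ (q '' S) | ∀ y ∈ convexHull ℝ (q '' S), l y ≤ l x}}) := by
    intro i hi
    have hq : q i ∈ convexHull ℝ (q '' S) := subset_convexHull _ _ (mem_image_of_mem q hi)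
    have h1 := hwm _ hq
    rw [hom, hx]
    refine ⟨by linarith, ⟨fun h0 => ⟨hi, hq, fun y hy => ?_⟩, fun h0 => ?_⟩⟩
    · have := hwm y hy
      linarith
    · have := h0.2.2 w hw
      linarith
  refine ⟨⟨fun i hi => hi.1, h, hh⟩, ?_⟩
  rw [hull_zero (fun i hi => hi.1) hh]
  ext x
  simp only [mem_ofPred_eq, hx]
  refine ⟨fun h0 => ⟨h0.1, fun y hy => ?_⟩, fun h0 => ⟨h0.1, ?_⟩⟩
  · have := hwm y hy
    linarith [h0.2]
  · have := h0.2 w hw
    have := hwm x h0.1
    linarith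

lemma rk_hom {J : Set ι} (q : ι → E) [FiniteDimensional ℝ E] (hJ : J.Nonempty) :
    rk (hom q) J = finrank ℝ (vectorSpan ℝ (convexHull ℝ (q '' J))) + 1 := by
  obtain ⟨i0, hi0⟩ := hJ
  rw [← direction_affineSpan, affineSpan_convexHull, direction_affineSpan]
  have h1 : span ℝ (hom q '' J) =
      span ℝ {hom q i0} ⊔ (vectorSpan ℝ (q '' J)).map (LinearMap.inr ℝ ℝ E) := by
    apply le_antisymm
    · rw [span_le]
      rintro _ ⟨i, hi, rfl⟩
      have : hom q i = hom q i0 + LinearMap.inr ℝ ℝ E (q i -ᵥ q i0) := by simp [hom]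
      rw [this]
      exact add_mem_sup (subset_span rfl) (mem_map_of_mem
        (vsub_mem_vectorSpan ℝ (mem_image_of_mem q hi) (mem_image_of_mem q hi0)))
    · refine sup_le (span_mono ?_) ?_
      · rintro _ rfl
        exact mem_image_of_mem _ hi0
      · rw [vectorSpan_eq_span_vsub_set_right ℝ (mem_image_of_mem q hi0), map_span, span_le]
        rintro _ ⟨_, ⟨_, ⟨i, hi, rfl⟩, rfl⟩, rfl⟩
        have : LinearMap.inr ℝ ℝ E (q i -ᵥ q i0) = hom q i - hom q i0 := by simp [hom]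
        rw [this]
        exact sub_mem (subset_span (mem_image_of_mem _ hi)) (subset_span (mem_image_of_mem _ hi0))
  have h2 : span ℝ {hom q i0} ⊓ (vectorSpan ℝ (q '' J)).map (LinearMap.inr ℝ ℝ E) = ⊥ := by
    rw [eq_bot_iff]
    rintro v ⟨hv1, w, -, rfl⟩
    obtain ⟨a, ha⟩ := mem_span_singleton.1 hv1
    have h3 : a = 0 := by simpa [hom] using congrArg Prod.fst ha
    rw [← ha, h3, zero_smul]
    exact zero_mem _
  have h3 := Submodule.finrank_sup_add_finrank_inf_eq (span ℝ {hom q i0})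
    ((vectorSpan ℝ (q '' J)).map (LinearMap.inr ℝ ℝ E))
  rw [h2, finrank_bot, ← h1, finrank_span_singleton (by simp [hom]),
    ← (Submodule.equivMapOfInjective _ LinearMap.inr_injective _).finrank_eq] at h3
  unfold rk
  omega

variable [FiniteDimensional ℝ E]

lemma IsFc.exposed {S J : Set ι} {q : ι → E} (hJ : IsFc S (hom q) J) :
    IsExposed ℝ (convexHull ℝ (q '' S)) (convexHull ℝ (q '' J)) := by
  obtain ⟨hJS, h, hh⟩ := hJ
  intro hne
  obtain ⟨w, hw⟩ := hne
  let l : E →L[ℝ] ℝ := LinearMap.toContinuousLinearMap (-(h ∘ₗ LinearMap.inr ℝ ℝ E))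
  have hx : ∀ x, h (1, x) = h (1, 0) - l x := fun x => by
    have : ((1 : ℝ), x) = ((1 : ℝ), (0 : E)) + LinearMap.inr ℝ ℝ E x := by simp
    rw [this, map_add]
    simp [l]
  refine ⟨l, ?_⟩
  rw [hull_zero hJS hh] at hw ⊢
  have hpos := hull_nonneg (fun i hi => (hh i hi).1)
  ext x
  simp only [mem_ofPred_eq]
  refine ⟨fun h0 => ⟨h0.1, fun y hy => ?_⟩, fun h0 => ⟨h0.1, ?_⟩⟩
  · have := hpos y hy
    have h1 := h0.2
    rw [hx] at this h1
    linarith
  · have h1 := h0.2 w hw.1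
    have h2 := hw.2
    have h3 := hpos x h0.1
    rw [hx] at h2 h3 ⊢
    linarith

/-- faces of a point configuration and exposed faces of its convex hull -/
noncomputable def faceIso (S : Set ι) (q : ι → E) :
    {J // IsFc S (hom q) J} ≃o {F // IsExposed ℝ (convexHull ℝ (q '' S)) F} where
  toFun J := ⟨convexHull ℝ (q '' J.1), J.2.exposed⟩
  invFun F := ⟨{i | i ∈ S ∧ q i ∈ F.1}, (isFc_of_exposed F.2).1⟩
  left_inv J := by
    apply Subtype.ext
    ext i
    exact ⟨fun h => (J.2.mem_iff h.1).1 h.2, fun h => ⟨J.2.1 h, (J.2.mem_iff (J.2.1 h)).2 h⟩⟩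
  right_inv F := Subtype.ext (isFc_of_exposed F.2).2
  map_rel_iff' := by
    intro J K
    refine ⟨fun h i hi => ?_, fun h => convexHull_mono (image_mono h)⟩
    exact (K.2.mem_iff (J.2.1 hi)).1 (h ((J.2.mem_iff (J.2.1 hi)).2 hi))

lemma faceIso_apply (S : Set ι) (q : ι → E) (J : {J // IsFc S (hom q) J}) :
    (faceIso S q J).1 = convexHull ℝ (q '' J.1) := rfl

end Poly

end Pool.Agent.P.MP_3c8515_co
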