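import Pool.Agent.P.MP_3c8515_co.Staged

namespace Pool.Agent.P.MP_3c8515_co

open Set Submodule Module Filter

section Lin

variable {V : Type*} [AddCommGroup V] [Module ℝ V]

/-- the line through `u`, `w` passes through `c` -/
def Thru (u w c : V) : Prop := ∃ a b : ℝ, c = a • u + b • w

/-- the line through `u`, `w` passes through `c`, outside the segment -/
def Str (u w c : V) : Prop := ∃ a b : ℝ, 0 < a ∧ b ≠ 0 ∧ w = a • u + b • c

/-- `u` is a positive multiple of `m` -/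
def Kn (u m : V) : Prop := ∃ a : ℝ, 0 < a ∧ u = a • m

lemma Thru.symm {u w c : V} (h : Thru u w c) : Thru w u c := by
  obtain ⟨a, b, rfl⟩ := h
  exact ⟨b, a, add_comm _ _⟩

lemma Thru.zero {u w c : V} (h : Thru u w c) {f : V →ₗ[ℝ] ℝ} (hu : f u = 0) (hw : f w = 0) :
    f c = 0 := by
  obtain ⟨a, b, rfl⟩ := h
  simp [hu, hw]

lemma Thru.smul {u w c : V} (h : Thru u w c) (t : ℝ) : Thru u w (t • c) := by
  obtain ⟨a, b, rfl⟩ := h
  exact ⟨t * a, t * b, by rw [smul_add, smul_smul, smul_smul]⟩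

lemma Thru.mem {u w c : V} (h : Thru u w c) {W : Submodule ℝ V} (hu : u ∈ W) (hw : w ∈ W) :
    c ∈ W := by
  obtain ⟨a, b, rfl⟩ := h
  exact add_mem (smul_mem _ _ hu) (smul_mem _ _ hw)

lemma Str.symm {u w c : V} (h : Str u w c) : Str w u c := by
  obtain ⟨a, b, ha, hb, rfl⟩ := h
  refine ⟨a⁻¹, -(b / a), inv_pos.2 ha, neg_ne_zero.2 (div_ne_zero hb ha.ne'), ?_⟩
  rw [smul_add, smul_smul, smul_smul, inv_mul_cancel₀ ha.ne', one_smul, add_assoc, ← add_smul,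
    show a⁻¹ * b + -(b / a) = 0 by field_simp; ring, zero_smul, add_zero]

lemma Str.thru {u w c : V} (h : Str u w c) : Thru u w c := by
  obtain ⟨a, b, ha, hb, rfl⟩ := h
  refine ⟨-(a / b), b⁻¹, ?_⟩
  rw [smul_add, smul_smul, smul_smul, inv_mul_cancel₀ hb, one_smul, ← add_assoc, ← add_smul,
    show -(a / b) + b⁻¹ * a = 0 by field_simp; ring, zero_smul, zero_add]

lemma Str.smul {u w c : V} (h : Str u w c) {t : ℝ} (ht : t ≠ 0) : Str u w (t • c) := by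
  obtain ⟨a, b, ha, hb, rfl⟩ := h
  exact ⟨a, b / t, ha, div_ne_zero hb ht, by rw [smul_smul, div_mul_cancel₀ _ ht]⟩

lemma Str.ne_zero {u w c : V} (h : Str u w c) {f : V →ₗ[ℝ] ℝ} (hu : f u = 0) (hw : f w ≠ 0) :
    c ≠ 0 := by
  obtain ⟨a, b, -, -, rfl⟩ := h
  rintro rfl
  simp [hu] at hw

lemma Thru.str {u w c : V} (h : Thru u w c) (hc : c ≠ 0) {f : V →ₗ[ℝ] ℝ} (hf : f c = 0)
    (hu : 0 < f u) (hw : 0 < f w) : Str u w c := by
  obtain ⟨a, b, rfl⟩ := h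
  simp only [map_add, map_smul, smul_eq_mul] at hf
  have hb : b ≠ 0 := by
    rintro rfl
    have : a = 0 := by
      have h1 : a * f u = 0 := by linarith
      exact (mul_eq_zero.1 h1).resolve_right hu.ne'
    subst this
    simp at hc
  have ha : a ≠ 0 := by
    rintro rfl
    have h1 : b * f w = 0 := by linarith
    exact hb ((mul_eq_zero.1 h1).resolve_right hw.ne')
  refine ⟨-(a / b), b⁻¹, ?_, inv_ne_zero hb, ?_⟩
  · have h1 : -(a / b) = f w / f u := by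
      field_simp
      linarith
    rw [h1]; positivity
  · rw [smul_add, smul_smul, smul_smul, inv_mul_cancel₀ hb, one_smul, ← add_assoc, ← add_smul,
      show -(a / b) + b⁻¹ * a = 0 by field_simp; ring, zero_smul, zero_add]

lemma ruleS0 {u w u2 w2 c c' : V} (hc' : c' ≠ 0) (h1 : Thru u w c') (h2 : Thru u2 w2 c')
    (h3 : Thru u2 w2 c) {f : V →ₗ[ℝ] ℝ} (hu : f u = 0) (hw : f w = 0) (hc : f c = 0)
    (hn : f u2 ≠ 0 ∨ f w2 ≠ 0) : Thru u w c := by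
  have hfc' := h1.zero hu hw
  obtain ⟨a, b, rfl⟩ := h3
  obtain ⟨a', b', e'⟩ := h2
  rw [e'] at hfc'
  simp only [map_add, map_smul, smul_eq_mul] at hc hfc'
  have hdet : a * b' = a' * b := by
    rcases hn with hn | hn
    · have : (a * b' - a' * b) * f u2 = 0 := by linear_combination b' * hc - b * hfc'
      exact sub_eq_zero.1 ((mul_eq_zero.1 this).resolve_right hn)
    · have : (a * b' - a' * b) * f w2 = 0 := by linear_combination a * hfc' - a' * hc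
      exact sub_eq_zero.1 ((mul_eq_zero.1 this).resolve_right hn)
  by_cases ha' : a' = 0
  · have hb' : b' ≠ 0 := by
      rintro rfl
      rw [ha'] at e'
      simp at e'
      exact hc' e'
    have ha : a = 0 := by
      rw [ha', zero_mul] at hdet
      exact (mul_eq_zero.1 hdet).resolve_right hb'
    have : a • u2 + b • w2 = (b / b') • c' := by
      rw [e', ha, ha', zero_smul, zero_add, zero_add, smul_smul, div_mul_cancel₀ _ hb']
    rw [this]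
    exact h1.smul _
  · have : a • u2 + b • w2 = (a / a') • c' := by
      rw [e', smul_add, smul_smul, smul_smul, div_mul_cancel₀ _ ha']
      congr 2
      field_simp
      linarith
    rw [this]
    exact h1.smul _

lemma ruleA0 {w u1 u2 c1 c2 m m1 m2 : V} (s1 : Str u1 w c1) (s2 : Str u2 w c2) (k1 : Kn u1 m1)
    (k2 : Kn u2 m2) {t1 t2 : ℝ} (e1 : m = m1 + t1 • c1) (e2 : m = m2 + t2 • c2) {f : V →ₗ[ℝ] ℝ}
    (hw : f w = 0) (hu1 : f u1 = 0) (hu2 : 0 < f u2) : Kn w m := by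
  have hc1 : f c1 = 0 := s1.thru.zero hu1 hw
  obtain ⟨a1, ha1, rfl⟩ := k1
  obtain ⟨a2, ha2, rfl⟩ := k2
  obtain ⟨a, b, ha, hb, rfl⟩ := s2
  simp only [map_add, map_smul, smul_eq_mul] at hw hu1 hu2
  have hm1 : f m1 = 0 := (mul_eq_zero.1 hu1).resolve_left ha1.ne'
  have hm : f m2 + t2 * f c2 = 0 := by
    have h1 := congrArg f e1
    have h2 := congrArg f e2
    simp only [map_add, map_smul, smul_eq_mul, hm1, hc1] at h1 h2
    linarith
  have hc2 : f c2 ≠ 0 := by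
    intro h0
    rw [h0] at hm
    have : f m2 = 0 := by linarith
    rw [this] at hu2
    simp at hu2
  have hb' : b = a * a2 * t2 := by
    have : (b - a * a2 * t2) * f c2 = 0 := by linear_combination hw - a * a2 * hm
    exact sub_eq_zero.1 ((mul_eq_zero.1 this).resolve_right hc2)
  refine ⟨a * a2, mul_pos ha ha2, ?_⟩
  rw [e2, hb', smul_add, smul_smul, smul_smul]

lemma Kn.apply {u m : V} (h : Kn u m) (f : V →ₗ[ℝ] ℝ) :
    (0 ≤ f u ↔ 0 ≤ f m) ∧ (f u = 0 ↔ f m = 0) ∧ (0 < f u ↔ 0 < f m) := by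
  obtain ⟨a, ha, rfl⟩ := h
  rw [map_smul, smul_eq_mul]
  exact ⟨mul_nonneg_iff_of_pos_left ha, by simp [ha.ne'], mul_pos_iff_of_pos_left ha⟩

lemma axis {u c : ℤ → V} {lo hi k0 : ℤ} (h : ∀ k, lo ≤ k → k < hi → Str (u k) (u (k + 1)) (c k))
    {m0 : V} (hm : Kn (u k0) m0) :
    ∃ T : ℤ → V, T k0 = 0 ∧ (∀ k, lo ≤ k → Kn (u k) (m0 + T k)) ∧
      ∀ k, lo ≤ k → k < hi → ∃ t : ℝ, t ≠ 0 ∧ T (k + 1) - T k = t • c k := by
  have h1 : ∀ k, ∃ a : ℝ, 0 < a ∧ (lo ≤ k → k < hi → ∃ b : ℝ, b ≠ 0 ∧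
      u (k + 1) = a • u k + b • c k) := by
    intro k
    by_cases hk : lo ≤ k ∧ k < hi
    · obtain ⟨a, b, ha, hb, e⟩ := h k hk.1 hk.2
      exact ⟨a, ha, fun _ _ => ⟨b, hb, e⟩⟩
    · exact ⟨1, one_pos, fun h1 h2 => absurd ⟨h1, h2⟩ hk⟩
  choose a ha hab using h1
  obtain ⟨a0, ha0, e0⟩ := hm
  let A : ℤ → ℝ := fun k => ∏ n ∈ Finset.range (k - lo).toNat, a (lo + n)
  have hA : ∀ k, 0 < A k := fun k => Finset.prod_pos fun n _ => ha _
  have hAs : ∀ k, lo ≤ k → A (k + 1) = A k * a k := by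
    intro k hk
    have e1 : (k + 1 - lo).toNat = (k - lo).toNat + 1 := by omega
    have e2 : lo + ((k - lo).toNat : ℤ) = k := by omega
    simp only [A]
    rw [e1, Finset.prod_range_succ, e2]
  refine ⟨fun k => (A k0 / a0 / A k) • u k - m0, ?_, fun k _ => ?_, fun k hk hk' => ?_⟩
  · have := hA k0
    simp only [e0, smul_smul]
    rw [show A k0 / a0 / A k0 * a0 = 1 by field_simp, one_smul, sub_self]
  · have h2 := hA k0
    have h3 := hA k
    refine ⟨(A k0 / a0 / A k)⁻¹, by positivity, ?_⟩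
    rw [add_sub_cancel, smul_smul, inv_mul_cancel₀ (by positivity), one_smul]
  · obtain ⟨b, hb, e⟩ := hab k hk hk'
    have h2 := hA k0
    have h3 := hA k
    have h4 := ha k
    refine ⟨A k0 / a0 / A (k + 1) * b, mul_ne_zero (by have := hA (k + 1); positivity) hb, ?_⟩
    simp only
    rw [e, smul_add, smul_smul, smul_smul, hAs k hk,
      show A k0 / a0 / (A k * a k) * a k = A k0 / a0 / A k by field_simp]
    abel

variable [FiniteDimensional ℝ V]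

lemma two_le_finrank {u w : V} {f : V →ₗ[ℝ] ℝ} (hu : u ≠ 0) (h1 : f u = 0) (h2 : f w ≠ 0) :
    2 ≤ finrank ℝ (span ℝ ({u, w} : Set V)) := by
  have h3 : span ℝ ({u} : Set V) < span ℝ ({u, w} : Set V) := by
    refine lt_of_le_of_ne (span_mono (by simp)) (fun he => h2 ?_)
    have h4 : w ∈ span ℝ ({u} : Set V) := he ▸ subset_span (by simp)
    obtain ⟨a, rfl⟩ := mem_span_singleton.1 h4
    simp [h1]
  have := Submodule.finrank_lt_finrank_of_lt h3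
  rw [finrank_span_singleton hu] at this
  omega

lemma meet0 {u w u' w' : V} (h : finrank ℝ (span ℝ ({u, w, u', w'} : Set V)) ≤ 3)
    (h1 : 2 ≤ finrank ℝ (span ℝ ({u, w} : Set V)))
    (h2 : 2 ≤ finrank ℝ (span ℝ ({u', w'} : Set V))) :
    ∃ c, c ≠ 0 ∧ Thru u w c ∧ Thru u' w' c := by
  have h3 := Submodule.finrank_sup_add_finrank_inf_eq (span ℝ ({u, w} : Set V))
    (span ℝ ({u', w'} : Set V))
  rw [← span_union, show ({u, w} : Set V) ∪ {u', w'} = {u, w, u', w'} by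
    ext; simp only [mem_union, mem_insert_iff, mem_singleton_iff, or_assoc]] at h3
  have h4 : span ℝ ({u, w} : Set V) ⊓ span ℝ ({u', w'} : Set V) ≠ ⊥ := by
    intro h0
    rw [h0, finrank_bot] at h3
    omega
  obtain ⟨c, ⟨hc1, hc2⟩, hc⟩ := Submodule.exists_mem_ne_zero_of_ne_bot h4
  obtain ⟨a, b, e⟩ := mem_span_pair.1 hc1
  obtain ⟨a', b', e'⟩ := mem_span_pair.1 hc2
  exact ⟨c, hc, ⟨a, b, e.symm⟩, ⟨a', b', e'.symm⟩⟩

end Lin

section Real

variable {ι U V : Type*} [AddCommGroup U] [Module ℝ U] [AddCommGroup V] [Module ℝ V]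

/-- `r`, `ω` realize the faces of the lifted configuration -/
structure Rz (S : Set ι) (ξ : ι → U) (η : ι → ℝ) (r : ι → V) (ω : V) : Prop where
  lf : ∀ J, LF S ξ η J → ∃ h : V →ₗ[ℝ] ℝ, h ω = 1 ∧ ∀ i ∈ S, 0 ≤ h (r i) ∧ (h (r i) = 0 ↔ i ∈ J)
  lr : ∀ J, LF S ξ η J → rk r J ≤ rk (fun i => (ξ i, η i)) J
  vf : ∀ J, IsFc S ξ J → J ≠ S →
    ∃ h : V →ₗ[ℝ] ℝ, h ω = 0 ∧ ∀ i ∈ S, 0 ≤ h (r i) ∧ (h (r i) = 0 ↔ i ∈ J)
  vr : ∀ J, IsFc S ξ J → J ≠ S → finrank ℝ (span ℝ (insert ω (r '' J))) ≤ rk ξ J + 1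
  vert : ∀ i ∈ S, LF S ξ η {i}

/-- a quadrilateral face with two parallel edges -/
def Quad (S : Set ι) (ξ : ι → U) (η : ι → ℝ) (u w u' w' : ι) : Prop :=
  LF S ξ η {u, w, u', w'} ∧ u ≠ w ∧ u' ≠ w' ∧
    ∃ κ : ℝ, ξ w - ξ u = κ • (ξ w' - ξ u') ∧ η w - η u = κ * (η w' - η u')

variable {S : Set ι} {ξ : ι → U} {η : ι → ℝ} {r : ι → V} {ω : V}

lemma Rz.lf' (R : Rz S ξ η r ω) {J : Set ι} (hJ : LF S ξ η J) : ∃ h : V →ₗ[ℝ] ℝ, h ω = 1 ∧
    (∀ i ∈ J, h (r i) = 0) ∧ (∀ i ∈ S, 0 ≤ h (r i)) ∧ ∀ i ∈ S, i ∉ J → 0 < h (r i) := by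
  obtain ⟨h, h1, h2⟩ := R.lf J hJ
  exact ⟨h, h1, fun i hi => (h2 i (hJ.1 hi)).2.2 hi, fun i hi => (h2 i hi).1,
    fun i hi hn => lt_of_le_of_ne (h2 i hi).1 (fun h0 => hn ((h2 i hi).2.1 h0.symm))⟩

lemma Rz.sep (R : Rz S ξ η r ω) {u w : ι} (hu : u ∈ S) (hw : w ∈ S) (h : u ≠ w) :
    ∃ f : V →ₗ[ℝ] ℝ, f (r u) = 0 ∧ 0 < f (r w) := by
  obtain ⟨f, -, h1, -, h2⟩ := R.lf' (R.vert u hu)
  exact ⟨f, h1 u rfl, h2 w hw (fun h0 => h h0.symm)⟩

variable [FiniteDimensional ℝ V] [FiniteDimensional ℝ U]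

omit [FiniteDimensional ℝ U] in
lemma Rz.two (R : Rz S ξ η r ω) {u w : ι} (hu : u ∈ S) (hw : w ∈ S) (h : u ≠ w) :
    2 ≤ finrank ℝ (span ℝ ({r u, r w} : Set V)) := by
  obtain ⟨f, h1, h2⟩ := R.sep hu hw h
  obtain ⟨f', -, h2'⟩ := R.sep hw hu h.symm
  refine two_le_finrank (fun h0 => ?_) h1 h2.ne'
  rw [h0, map_zero] at h2'
  exact lt_irrefl _ h2'

lemma Rz.meet (R : Rz S ξ η r ω) {u w u' w' : ι} (h : Quad S ξ η u w u' w') :
    ∃ c, c ≠ 0 ∧ Thru (r u) (r w) c ∧ Thru (r u') (r w') c := by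
  obtain ⟨h1, h2, h3, κ, h4, h5⟩ := h
  have h6 := R.lr _ h1
  refine meet0 ?_ (R.two (h1.1 (by simp)) (h1.1 (by simp)) h2)
    (R.two (h1.1 (by simp)) (h1.1 (by simp)) h3)
  unfold rk at h6
  rw [image_insert_eq, image_insert_eq, image_insert_eq, image_singleton, image_insert_eq,
    image_insert_eq, image_insert_eq, image_singleton] at h6
  refine h6.trans ?_
  have h7 : span ℝ ({(ξ u, η u), (ξ w, η w), (ξ u', η u'), (ξ w', η w')} : Set (U × ℝ)) ≤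
      span ℝ ({(ξ u, η u), (ξ u', η u'), (ξ w', η w')} : Set (U × ℝ)) := by
    rw [span_le]
    rintro _ (rfl | rfl | rfl | rfl)
    · exact subset_span (by simp)
    · have : (ξ w, η w) = (ξ u, η u) + κ • ((ξ w', η w') - (ξ u', η u')) := by
        ext
        · simp [← h4]
        · simp [← h5]
      rw [this]
      exact add_mem (subset_span (by simp)) (smul_mem _ _
        (sub_mem (subset_span (by simp)) (subset_span (by simp))))
    · exact subset_span (by simp)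
    · exact subset_span (by simp)
  refine (Submodule.finrank_mono h7).trans ?_
  have a1 := finrank_span_insert_le (ξ u, η u) {(ξ u', η u'), (ξ w', η w')}
  have a2 := finrank_span_insert_le (ξ u', η u') {(ξ w', η w')}
  have a3 := finrank_span_singleton_le (ξ w', η w')
  omega

/-- Rule S -/
lemma Rz.ruleS (R : Rz S ξ η r ω) {u w u1 w1 u2 w2 : ι} {c : V} (hq : Quad S ξ η u w u2 w2)
    (g2 : Thru (r u2) (r w2) c) {J : Set ι} (hJ : LF S ξ η J) (hu : u ∈ J) (hw : w ∈ J)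
    (hu1 : u1 ∈ J) (hw1 : w1 ∈ J) (g1 : Thru (r u1) (r w1) c) (hn : u2 ∉ J ∨ w2 ∉ J) :
    Thru (r u) (r w) c := by
  obtain ⟨c', hc', a1, a2⟩ := R.meet hq
  obtain ⟨f, -, h1, -, h2⟩ := R.lf' hJ
  refine ruleS0 hc' a1 a2 g2 (h1 u hu) (h1 w hw) (g1.zero (h1 u1 hu1) (h1 w1 hw1)) ?_
  rcases hn with hn | hn
  · exact Or.inl (h2 u2 (hq.1.1 (by simp)) hn).ne'
  · exact Or.inr (h2 w2 (hq.1.1 (by simp)) hn).ne'

omit [FiniteDimensional ℝ V] [FiniteDimensional ℝ U] in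
/-- upgrade from `Thru` to `Str` -/
lemma Rz.str (R : Rz S ξ η r ω) {u w u1 w1 : ι} {c : V} (g : Thru (r u) (r w) c) (hc : c ≠ 0)
    (g1 : Thru (r u1) (r w1) c) {J : Set ι} (hJ : LF S ξ η J) (hu1 : u1 ∈ J) (hw1 : w1 ∈ J)
    (hu : u ∈ S) (hw : w ∈ S) (hu' : u ∉ J) (hw' : w ∉ J) : Str (r u) (r w) c := by
  obtain ⟨f, -, h1, -, h2⟩ := R.lf' hJ
  exact g.str hc (g1.zero (h1 u1 hu1) (h1 w1 hw1)) (h2 u hu hu') (h2 w hw hw')

omit [FiniteDimensional ℝ V] [FiniteDimensional ℝ U] in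
/-- Rule A -/
lemma Rz.ruleA (R : Rz S ξ η r ω) {w u1 u2 : ι} {c1 c2 m m1 m2 : V} (s1 : Str (r u1) (r w) c1)
    (s2 : Str (r u2) (r w) c2) (k1 : Kn (r u1) m1) (k2 : Kn (r u2) m2) {t1 t2 : ℝ}
    (e1 : m = m1 + t1 • c1) (e2 : m = m2 + t2 • c2) {J : Set ι} (hJ : LF S ξ η J) (hw : w ∈ J)
    (hu1 : u1 ∈ J) (hu2 : u2 ∈ S) (hu2' : u2 ∉ J) : Kn (r w) m := by
  obtain ⟨f, -, h1, -, h2⟩ := R.lf' hJ
  exact ruleA0 s1 s2 k1 k2 e1 e2 (h1 w hw) (h1 u1 hu1) (h2 u2 hu2 hu2')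

end Real

end Pool.Agent.P.MP_3c8515_co
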