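import Pool.Agent.P.MP_3c8515_co.Faces

namespace Pool.Agent.P.MP_3c8515_co

open Set Submodule Module Filter

section Staged

variable {ι U : Type*} [AddCommGroup U] [Module ℝ U]

/-- lower faces of the lifted configuration -/
def LF (S : Set ι) (ξ : ι → U) (η : ι → ℝ) (J : Set ι) : Prop :=
  J ⊆ S ∧ ∃ ψ : U →ₗ[ℝ] ℝ, ∀ i ∈ S, 0 ≤ η i - ψ (ξ i) ∧ (η i - ψ (ξ i) = 0 ↔ i ∈ J)

lemma LF.restrict {S S' J : Set ι} {ξ : ι → U} {η : ι → ℝ} (h : LF S ξ η J) (hS : S' ⊆ S)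
    (hJ : J ⊆ S') : LF S' ξ η J := by
  obtain ⟨-, ψ, hψ⟩ := h
  exact ⟨hJ, ψ, fun i hi => hψ i (hS hi)⟩

lemma LF.inter {S J K : Set ι} {ξ : ι → U} {η : ι → ℝ} (hJ : LF S ξ η J) (hK : LF S ξ η K) :
    LF S ξ η (J ∩ K) := by
  obtain ⟨hJS, h, hh⟩ := hJ
  obtain ⟨hKS, k, hk⟩ := hK
  refine ⟨inter_subset_left.trans hJS, (1 / 2 : ℝ) • (h + k), fun i hi => ?_⟩
  simp only [LinearMap.add_apply, LinearMap.smul_apply, smul_eq_mul]
  obtain ⟨a1, a2⟩ := hh i hi
  obtain ⟨b1, b2⟩ := hk i hi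
  refine ⟨by linarith, ⟨fun h0 => ⟨a2.1 (by linarith), b2.1 (by linarith)⟩, fun h0 => ?_⟩⟩
  linarith [a2.2 h0.1, b2.2 h0.2]

lemma LF.congr {S J : Set ι} {ξ : ι → U} {η η' : ι → ℝ} (hJ : LF S ξ η J)
    (h : ∀ i ∈ S, η i = η' i) : LF S ξ η' J := by
  obtain ⟨hJS, ψ, hψ⟩ := hJ
  exact ⟨hJS, ψ, fun i hi => h i hi ▸ hψ i hi⟩

/-- hypotheses of the tent rule at stage `s`; `η'` is the height with the stage-`s` lift removed -/
def Tent (S : Set ι) (ξ : ι → U) (st : ι → ℕ) (s : ℕ) (η' : ι → ℝ) (J : Set ι) : Prop :=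
  (∀ i ∈ J, i ∈ S ∧ st i ≤ s) ∧ ∃ g ψ : U →ₗ[ℝ] ℝ,
    (∀ i ∈ S, st i < s → 0 ≤ g (ξ i) ∧ (g (ξ i) = 0 → 0 ≤ η' i - ψ (ξ i)) ∧
      (i ∈ J ↔ g (ξ i) = 0 ∧ η' i - ψ (ξ i) = 0)) ∧
    (∀ i ∈ S, st i = s → -1 ≤ g (ξ i) ∧ (g (ξ i) = -1 → 0 ≤ η' i - ψ (ξ i)) ∧
      (i ∈ J ↔ g (ξ i) = -1 ∧ η' i - ψ (ξ i) = 0))

lemma Tent.ev {S J : Set ι} {ξ : ι → U} {st : ι → ℕ} {s : ℕ} {η' : ι → ℝ} (hS : S.Finite)
    (h : Tent S ξ st s η' J) : ∀ᶠ t : ℝ in atTop,
      LF (S ∩ {i | st i ≤ s}) ξ (fun i => η' i + if st i = s then t else 0) J := by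
  obtain ⟨hJ, g, ψ, h1, h2⟩ := h
  filter_upwards [ev_pos hS (fun i => g (ξ i) + if st i = s then 1 else 0)
    (fun i => η' i - ψ (ξ i))] with t ht
  refine ⟨fun i hi => hJ i hi, ψ - t • g, fun i hi => ?_⟩
  have h3 := ht i hi.1
  simp only [LinearMap.sub_apply, LinearMap.smul_apply, smul_eq_mul]
  rcases (show st i ≤ s from hi.2).lt_or_eq with h4 | h4
  · obtain ⟨a1, a2, a3⟩ := h1 i hi.1 h4
    simp only [h4.ne, if_false, add_zero] at h3 ⊢
    rcases a1.eq_or_lt with a4 | a4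
    · rw [a3, ← a4]
      have := a2 a4.symm
      refine ⟨by linarith, ⟨fun h0 => ⟨rfl, by linarith⟩, fun h0 => by linarith [h0.2]⟩⟩
    · have := h3 a4
      refine ⟨by linarith, ⟨fun h0 => by linarith, fun h0 => absurd (a3.1 h0).1 a4.ne'⟩⟩
  · obtain ⟨a1, a2, a3⟩ := h2 i hi.1 h4
    simp only [h4, if_true] at h3 ⊢
    rcases a1.eq_or_lt with a4 | a4
    · rw [a3, ← a4]
      have := a2 a4.symm
      refine ⟨by linarith, ⟨fun h0 => ⟨rfl, by linarith⟩, fun h0 => by linarith [h0.2]⟩⟩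
    · have := h3 (by linarith)
      refine ⟨by linarith, ⟨fun h0 => by linarith, fun h0 => absurd (a3.1 h0).1 a4.ne'⟩⟩

/-- the heights of a staged configuration -/
noncomputable def hts (b : ι → ℝ) (e : ι → ℕ → ℝ) (n : ℕ) (H : ℕ → ℝ) (i : ι) : ℝ :=
  b i + ∑ s ∈ Finset.range (n + 1), H s * e i s

lemma staged_aux {I0 : Set ι} (hI : I0.Finite) (ξ : ι → U) (b : ι → ℝ) (st : ι → ℕ)
    (e : ι → ℕ → ℝ) (he1 : ∀ i, 0 < st i → e i (st i) = 1) (he0 : ∀ i s, st i < s → e i s = 0)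
    (B : ℝ) (n : ℕ) (m : ℕ) (hm : m ≤ n) :
    ∃ H : ℕ → ℝ, (∀ s, B ≤ H s) ∧ ∀ s, 0 < s → s ≤ m → ∀ S ⊆ I0, ∀ J,
      Tent S ξ st s (fun i => hts b e n H i - if st i = s then H s else 0) J →
        LF (S ∩ {i | st i ≤ s}) ξ (hts b e n H) J := by
  classical
  induction m with
  | zero => exact ⟨fun _ => B, fun _ => le_rfl, fun s h1 h2 => by omega⟩
  | succ m ih =>
    obtain ⟨H, hB, hH⟩ := ih (by omega)
    have key : ∀ (t : ℝ) (i : ι), hts b e n (Function.update H (m + 1) t) i =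
        hts b e n H i + (t - H (m + 1)) * e i (m + 1) := by
      intro t i
      have hmem : m + 1 ∈ Finset.range (n + 1) := Finset.mem_range.2 (by omega)
      unfold hts
      rw [← Finset.add_sum_erase _ _ hmem, ← Finset.add_sum_erase _ _ hmem,
        Function.update_self, Finset.sum_congr rfl (g := fun s => H s * e i s)
          (fun s hs => by rw [Function.update_of_ne (Finset.ne_of_mem_erase hs)])]
      ring
    let η' : ι → ℝ := fun i => hts b e n H i - if st i = m + 1 then H (m + 1) else 0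
    have hev : ∀ᶠ t : ℝ in atTop, ∀ S ∈ {S | S ⊆ I0}, ∀ J ∈ {S | S ⊆ I0},
        Tent S ξ st (m + 1) η' J →
        LF (S ∩ {i | st i ≤ m + 1}) ξ (fun i => η' i + if st i = m + 1 then t else 0) J := by
      rw [eventually_all_finite hI.finite_subsets]
      intro S hS
      rw [eventually_all_finite hI.finite_subsets]
      intro J _
      by_cases hT : Tent S ξ st (m + 1) η' J
      · filter_upwards [hT.ev (hI.subset hS)] with t ht _ using ht
      · exact Eventually.of_forall fun t h => absurd h hT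
    obtain ⟨t, ht, htB⟩ := (hev.and (eventually_ge_atTop B)).exists
    have hcongr : ∀ {S J s} {η1 η2 : ι → ℝ}, (∀ i, st i ≤ s → η1 i = η2 i) →
        Tent S ξ st s η1 J → Tent S ξ st s η2 J := by
      intro S J s η1 η2 h12 hT
      obtain ⟨hJ, g, ψ, h1, h2⟩ := hT
      exact ⟨hJ, g, ψ, fun i hi h => h12 i h.le ▸ h1 i hi h, fun i hi h => h12 i h.le ▸ h2 i hi h⟩
    refine ⟨Function.update H (m + 1) t, fun s => ?_, fun s hs0 hs S hS J hT => ?_⟩
    · by_cases h : s = m + 1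
      · rw [h, Function.update_self]; exact htB
      · rw [Function.update_of_ne h]; exact hB s
    · rcases hs.lt_or_eq with h | h
      · have h1 : ∀ i, st i ≤ s → hts b e n (Function.update H (m + 1) t) i = hts b e n H i := by
          intro i hi
          rw [key, he0 i _ (by omega), mul_zero, add_zero]
        refine (hH s hs0 (by omega) S hS J (hcongr (fun i hi => ?_) hT)).congr
          (fun i hi => (h1 i hi.2).symm)
        rw [h1 i hi, Function.update_of_ne h.ne]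
      · subst h
        have h1 : ∀ i, st i ≤ m + 1 → hts b e n (Function.update H (m + 1) t) i =
            η' i + if st i = m + 1 then t else 0 := by
          intro i hi
          rw [key]
          simp only [η']
          rcases hi.lt_or_eq with h2 | h2
          · rw [he0 i _ h2]; simp [h2.ne]
          · have h3 := he1 i (by omega)
            rw [h2] at h3
            simp only [h2, if_true, h3]; ring
        refine (ht S hS J (fun i hi => hS (hT.1 i hi).1) (hcongr (fun i hi => ?_) hT)).congr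
          (fun i hi => (h1 i hi.2).symm)
        rw [h1 i hi, Function.update_self, add_sub_cancel_right]

/-- the two rules that produce lower faces of a staged configuration -/
structure Rules (I0 : Set ι) (ξ : ι → U) (st : ι → ℕ) (H : ℕ → ℝ) (η : ι → ℝ) : Prop where
  zero : ∀ S ⊆ I0, ∀ J, LF (S ∩ {i | st i = 0}) ξ η J → LF S ξ η J
  tent : ∀ s, 0 < s → ∀ S ⊆ I0, ∀ J,
    Tent S ξ st s (fun i => η i - if st i = s then H s else 0) J → LF S ξ η J

theorem staged {I0 : Set ι} (hI : I0.Finite) (ξ : ι → U) (b : ι → ℝ) (st : ι → ℕ)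
    (e : ι → ℕ → ℝ) (he1 : ∀ i, 0 < st i → e i (st i) = 1) (he0 : ∀ i s, st i < s → e i s = 0)
    (B : ℝ) (n : ℕ) (hn : ∀ i ∈ I0, st i ≤ n) :
    ∃ H : ℕ → ℝ, (∀ s, B ≤ H s) ∧ Rules I0 ξ st H (hts b e n H) := by
  obtain ⟨H, hB, hH⟩ := staged_aux hI ξ b st e he1 he0 B n n le_rfl
  have up : ∀ S ⊆ I0, ∀ J s, LF (S ∩ {i | st i ≤ s}) ξ (hts b e n H) J →
      LF S ξ (hts b e n H) J := by
    intro S hS J s hJ
    have h1 : ∀ s', s ≤ s' → LF (S ∩ {i | st i ≤ s'}) ξ (hts b e n H) J := by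
      intro s' hs'
      induction s', hs' using Nat.le_induction with
      | base => exact hJ
      | succ s' hs' ih =>
        by_cases hn' : s' + 1 ≤ n
        · obtain ⟨hJS, ψ, hψ⟩ := ih
          refine hH _ (by omega) hn' S hS J ⟨fun i hi => ⟨(hJS hi).1, ?_⟩, 0, ψ, ?_, ?_⟩
          · exact (show st i ≤ s' from (hJS hi).2).trans (Nat.le_succ _)
          · intro i hi h
            have h2 := hψ i ⟨hi, show st i ≤ s' by omega⟩
            simp only [h.ne, if_false, sub_zero, LinearMap.zero_apply, le_refl, true_and,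
              forall_true_left]
            exact ⟨h2.1, h2.2.symm⟩
          · intro i hi h
            have h2 : i ∉ J := fun h3 => by
              have : st i ≤ s' := (hJS h3).2
              omega
            simp [h2]
        · have : S ∩ {i | st i ≤ s' + 1} = S ∩ {i | st i ≤ s'} := by
            ext i
            refine ⟨fun h => ⟨h.1, ?_⟩, fun h => ⟨h.1, ?_⟩⟩
            · have := hn i (hS h.1)
              show st i ≤ s'
              omega
            · exact (show st i ≤ s' from h.2).trans (Nat.le_succ _)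
          rwa [this]
    have h2 := h1 (max s n) (le_max_left _ _)
    have h3 : S ∩ {i | st i ≤ max s n} = S :=
      inter_eq_left.2 (fun i hi => (hn i (hS hi)).trans (le_max_right s n))
    rwa [h3] at h2
  refine ⟨H, hB, fun S hS J hJ => up S hS J 0 ?_, fun s hs S hS J hT => ?_⟩
  · simpa only [Nat.le_zero] using hJ
  · by_cases hsn : s ≤ n
    · exact up S hS J s (hH s hs hsn S hS J hT)
    · obtain ⟨hJ, g, ψ, h1, -⟩ := hT
      have hlt : ∀ i ∈ S, st i < s := fun i hi => lt_of_le_of_lt (hn i (hS hi)) (by omega)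
      obtain ⟨t, ht⟩ := (ev_pos (hI.subset hS) (fun i => g (ξ i))
        (fun i => hts b e n H i - ψ (ξ i))).exists
      refine ⟨fun i hi => (hJ i hi).1, ψ - t • g, fun i hi => ?_⟩
      obtain ⟨a1, a2, a3⟩ := h1 i hi (hlt i hi)
      have h3 := ht i hi
      simp only [(hlt i hi).ne, if_false, sub_zero] at a2 a3
      simp only [LinearMap.sub_apply, LinearMap.smul_apply, smul_eq_mul]
      rcases a1.eq_or_lt with a4 | a4
      · rw [a3, ← a4]
        have := a2 a4.symm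
        refine ⟨by linarith, ⟨fun h0 => ⟨rfl, by linarith⟩, fun h0 => by linarith [h0.2]⟩⟩
      · have := h3 a4
        refine ⟨by linarith, ⟨fun h0 => by linarith, fun h0 => absurd (a3.1 h0).1 a4.ne'⟩⟩

lemma Rules.copy {I0 : Set ι} {ξ : ι → U} {st : ι → ℕ} {H : ℕ → ℝ} {η : ι → ℝ}
    (R : Rules I0 ξ st H η) {S J0 J : Set ι} (hS : S ⊆ I0) (hJ0 : LF S ξ η J0) {s : ℕ} (hs : 0 < s)
    (g : U →ₗ[ℝ] ℝ) (θ : U) (θ' κ : ℝ) (hκ : 0 < κ) (hJ : ∀ i ∈ J, i ∈ S ∧ st i ≤ s)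
    (hold : ∀ i ∈ S, st i < s → 0 ≤ g (ξ i) ∧ (i ∈ J ↔ g (ξ i) = 0 ∧ i ∈ J0))
    (hnew : ∀ i ∈ S, st i = s → (-1 < g (ξ i) ∧ i ∉ J) ∨ (g (ξ i) = -1 ∧
      ∃ l ∈ S, ξ i = θ + κ • ξ l ∧ η i = θ' + κ * η l ∧ (i ∈ J ↔ l ∈ J0))) : LF S ξ η J := by
  obtain ⟨-, ψ, hψ⟩ := hJ0
  refine R.tent s hs S hS J ⟨hJ, g, ψ - (θ' - H s - ψ θ) • g, fun i hi h => ?_, fun i hi h => ?_⟩
  · obtain ⟨a1, a2⟩ := hold i hi h
    obtain ⟨b1, b2⟩ := hψ i hi
    simp only [h.ne, if_false, sub_zero, LinearMap.sub_apply, LinearMap.smul_apply, smul_eq_mul]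
    refine ⟨a1, fun h0 => by rw [h0]; linarith, ?_⟩
    rw [a2, ← b2]
    exact and_congr_right fun h0 => by rw [h0, mul_zero, sub_zero]
  · simp only [h, if_true, LinearMap.sub_apply, LinearMap.smul_apply, smul_eq_mul]
    rcases hnew i hi h with ⟨a1, a2⟩ | ⟨a1, l, hl, a2, a3, a4⟩
    · exact ⟨a1.le, fun h0 => absurd h0 a1.ne', ⟨fun h0 => absurd h0 a2,
        fun h0 => absurd h0.1 a1.ne'⟩⟩
    · obtain ⟨b1, b2⟩ := hψ l hl
      have e : η i - H s - (ψ (ξ i) - (θ' - H s - ψ θ) * g (ξ i)) = κ * (η l - ψ (ξ l)) := by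
        rw [a1, a2, a3, map_add, map_smul, smul_eq_mul]; ring
      rw [e, a4, ← b2, mul_eq_zero, or_iff_right hκ.ne']
      exact ⟨a1.ge, fun _ => mul_nonneg hκ.le b1, ⟨fun h0 => ⟨a1, h0⟩, fun h0 => h0.2⟩⟩

end Staged

end Pool.Agent.P.MP_3c8515_co
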