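import Pool.Agent.P.MP_3c8515_co.Inv

namespace Pool.Agent.P.MP_3c8515_co

open Set Submodule Module Filter

/-- index type of the configuration one dimension up -/
inductive Idx (ι κ : Type) : Type
  | lay (w : ι) (u : ℤ)
  | apx (a : κ) (k : ℤ)
  | bet

open Idx

variable {κ ι U : Type} [AddCommGroup U] [Module ℝ U]

/-- parameters of the step -/
structure Par (κ ι U : Type) [AddCommGroup U] [Module ℝ U] where
  o : U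
  ε : ℝ
  c : ℝ
  H : ℕ → ℝ
  st : κ → ℕ
  n : ℕ
  wb : ι
  w2 : ι
  G : κ → U →ₗ[ℝ] ℝ
  gb : U →ₗ[ℝ] ℝ
  gt : U →ₗ[ℝ] ℝ
  gh : U →ₗ[ℝ] ℝ
  ψ : U →ₗ[ℝ] ℝ

def Data.SS (D : Data κ ι U) : Idx ι κ → Prop
  | lay w u => (w ∈ D.S ∧ u = 3) ∨ (w ∈ D.W ∧ 0 ≤ u ∧ u ≤ 3)
  | apx a k => D.lo a ≤ k ∧ k ≤ D.hi a
  | bet => True

def Data.WW (D : Data κ ι U) : Idx ι κ → Prop
  | lay w u => w ∈ D.W ∧ 0 ≤ u ∧ u ≤ 3
  | apx a k => D.lo a ≤ k ∧ k ≤ D.hi a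
  | bet => True

noncomputable def Data.xi (D : Data κ ι U) (o : U) (ε : ℝ) : Idx ι κ → U × ℝ
  | lay w u => (D.ξ w, u)
  | apx a k => ((1 + ε) • D.ξ (D.ap a k) - ε • o, 3 / 2)
  | bet => (o, 4)

noncomputable def Data.bs (D : Data κ ι U) (ε c : ℝ) : Idx ι κ → ℝ
  | lay w u => D.η w + c * (u : ℝ) ^ 2
  | apx a k => (1 + ε) * D.η (D.ap a k)
  | bet => 0

def stg (st : κ → ℕ) (n : ℕ) : Idx ι κ → ℕ
  | lay _ _ => 0
  | apx a _ => st a + 1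
  | bet => n + 1

noncomputable def Data.et (D : Data κ ι U) (p : Par κ ι U) : Idx ι κ → ℝ
  | lay w u => D.η w + p.c * (u : ℝ) ^ 2
  | apx a k => (1 + p.ε) * D.η (D.ap a k) + p.H (p.st a + 1)
  | bet => p.H (p.n + 1)

def Data.LL (D : Data κ ι U) : Option κ → ℤ → Idx ι κ → Idx ι κ → Prop
  | none, t, i, j => ∃ w ∈ D.W, 0 ≤ t ∧ t < 3 ∧ i = lay w t ∧ j = lay w (t + 1)
  | some a, k, i, j => (∃ u w t, D.Ln a k u w ∧ 0 ≤ t ∧ t ≤ 3 ∧ i = lay u t ∧ j = lay w t) ∨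
      (D.lo a ≤ k ∧ k < D.hi a ∧ i = apx a k ∧ j = apx a (k + 1))

/-- the configuration one dimension up -/
noncomputable def Data.step (D : Data κ ι U) (p : Par κ ι U) :
    Data (Option κ) (Idx ι κ) (U × ℝ) where
  S := {i | D.SS i}
  W := {i | D.WW i}
  ξ := D.xi p.o p.ε
  η := D.et p
  one := D.one ∘ₗ LinearMap.fst ℝ U ℝ
  co a := a.elim (LinearMap.snd ℝ U ℝ) fun a => D.co a ∘ₗ LinearMap.fst ℝ U ℝ
  lo a := a.elim 0 D.lo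
  hi a := a.elim 3 D.hi
  gr g := lay (D.gr fun a => g (some a)) (g none)
  ap a k := a.elim (lay D.be k) fun a => apx a k
  cp a k := a.elim (lay p.wb k) fun a => lay (D.ap a k) 3
  Ln := D.LL
  be := bet
  s1 := lay D.s1 3
  s2 := lay D.s2 3
  v0 := lay D.v0 3
  g0 a := a.elim 3 D.g0
  x := some D.x
  y := some D.y

/-- the properties of the parameters -/
structure Good (D : Data κ ι U) (p : Par κ ι U) : Prop where
  one : D.one p.o = 1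
  int : ∀ g : U →ₗ[ℝ] ℝ, (∀ i ∈ D.S, 0 ≤ g (D.ξ i)) → ∀ i ∈ D.S, 0 < g (D.ξ i) → 0 < g p.o
  ε0 : 0 < p.ε
  ε1 : p.ε ≤ 1
  c0 : 0 < p.c
  stI : Function.Injective p.st
  stn : ∀ a, p.st a < p.n
  rules : Rules {i | D.SS i} (D.xi p.o p.ε) (stg p.st p.n) p.H (D.et p)
  G0 : ∀ a, ∀ i ∈ D.S, 0 ≤ p.G a (D.ξ i)
  Gz : ∀ a k, D.lo a ≤ k → k ≤ D.hi a → p.G a (D.ξ (D.ap a k)) = 0 ∧ p.G a (D.ξ (D.cp a k)) = 0
  Gp : ∀ a b, b ≠ a → ∀ k, D.lo b ≤ k → k ≤ D.hi b → 0 < p.G a (D.xi p.o p.ε (apx b k)).1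
  Gb : ∀ a, 0 < p.G a (D.ξ D.be)
  bz : p.gb (D.ξ D.be) = 0
  bp : ∀ i ∈ D.S, i ≠ D.be → 0 < p.gb (D.ξ i)
  ba : ∀ b k, D.lo b ≤ k → k ≤ D.hi b → 0 < p.gb (D.xi p.o p.ε (apx b k)).1
  wbW : p.wb ∈ D.W
  wbN : p.wb ≠ D.be
  t0 : ∀ i ∈ D.S, 0 ≤ p.gt (D.ξ i)
  tz : p.gt (D.ξ D.be) = 0 ∧ p.gt (D.ξ p.wb) = 0
  ta : ∀ b k, D.lo b ≤ k → k ≤ D.hi b → 0 < p.gt (D.xi p.o p.ε (apx b k)).1
  tq : 0 < p.gt p.o
  w2W : p.w2 ∈ D.W
  h0 : ∀ i ∈ D.S, 0 ≤ p.gh (D.ξ i)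
  hz : p.gh (D.ξ p.w2) = 0
  hb : 0 < p.gh (D.ξ D.be)
  ha : ∀ b k, D.lo b ≤ k → k ≤ D.hi b → 0 < p.gh (D.xi p.o p.ε (apx b k)).1
  p0 : ∀ i ∈ D.S, 0 ≤ D.η i - p.ψ (D.ξ i)
  pv : D.η D.v0 - p.ψ (D.ξ D.v0) = 0
  pW : ∀ i ∈ D.W, 6 * p.c ≤ D.η i - p.ψ (D.ξ i)
  pg : D.η (D.gr D.g0) - p.ψ (D.ξ (D.gr D.g0)) = 6 * p.c
  pH : ∀ i, D.SS i → 0 < stg p.st p.n i → 6 * p.c ≤ D.et p i -
    (p.ψ (D.xi p.o p.ε i).1 + 6 * p.c * (D.xi p.o p.ε i).2 - 9 * p.c)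

variable [Fintype κ] [DecidableEq κ]

lemma PInv.SS_fin {D : Data κ ι U} (P : PInv D) : {i | D.SS i}.Finite := by
  have h1 : ((fun x : ι × ℤ => (lay x.1 x.2 : Idx ι κ)) '' (D.S ×ˢ Icc 0 3)).Finite :=
    (P.fin.prod (finite_Icc _ _)).image _
  have h2 : (⋃ a : κ, (fun k => (apx a k : Idx ι κ)) '' Icc (D.lo a) (D.hi a)).Finite :=
    finite_iUnion fun a => (finite_Icc _ _).image _
  refine ((h1.union h2).insert bet).subset ?_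
  rintro (⟨w, u⟩ | ⟨a, k⟩ | _) h
  · refine Or.inr (Or.inl ⟨(w, u), ?_, rfl⟩)
    rcases h with ⟨h1, rfl⟩ | ⟨h1, h2, h3⟩
    · exact ⟨h1, by simp⟩
    · exact ⟨P.WS h1, h2, h3⟩
  · exact Or.inr (Or.inr (mem_iUnion.2 ⟨a, k, h, rfl⟩))
  · exact Or.inl rfl

theorem PInv.exists_good {D : Data κ ι U} (P : PInv D) : ∃ p, Good D p := by
  classical
  choose G G0 Gz Gp Gb using P.gt
  obtain ⟨gb, bz, bp⟩ := P.gb
  obtain ⟨wb, wbW, wbN, gt, t0, tz1, tz2, tp⟩ := P.gtb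
  obtain ⟨w2, w2W, gh, h0, hz, hb, hp⟩ := P.gh
  obtain ⟨ψ, m, hm, p0, pv, pW, pg⟩ := P.tn
  let T := P.fin.toFinset
  have hT : ∀ i, i ∈ T ↔ i ∈ D.S := fun i => P.fin.mem_toFinset
  have hc : (0 : ℝ) < T.card := by
    exact_mod_cast Finset.card_pos.2 ⟨D.v0, (hT _).2 P.v0⟩
  let o : U := (T.card : ℝ)⁻¹ • ∑ i ∈ T, D.ξ i
  have ho : ∀ g : U →ₗ[ℝ] ℝ, g o = (T.card : ℝ)⁻¹ * ∑ i ∈ T, g (D.ξ i) := fun g => by
    simp [o]
  have hint : ∀ g : U →ₗ[ℝ] ℝ, (∀ i ∈ D.S, 0 ≤ g (D.ξ i)) → ∀ i ∈ D.S, 0 < g (D.ξ i) → 0 < g o := by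
    intro g h1 i hi h2
    rw [ho]
    exact mul_pos (inv_pos.2 hc) (Finset.sum_pos' (fun j hj => h1 j ((hT j).1 hj))
      ⟨i, (hT i).2 hi, h2⟩)
  have hev : ∀ g : U →ₗ[ℝ] ℝ, ∀ᶠ t : ℝ in atTop, ∀ i ∈ D.S, 0 < g (D.ξ i) →
      0 < (g (D.ξ i) - g o) + t * g (D.ξ i) := fun g => ev_pos P.fin _ _
  obtain ⟨t, ⟨⟨⟨e1, e2⟩, e3⟩, e4⟩, ht⟩ := (((((eventually_all.2 fun a => hev (G a)).and
    (hev gb)).and (hev gt)).and (hev gh)).and (eventually_ge_atTop 1)).exists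
  have ht0 : 0 < t := by linarith
  have conv : ∀ g : U →ₗ[ℝ] ℝ, (∀ i ∈ D.S, 0 < g (D.ξ i) →
      0 < (g (D.ξ i) - g o) + t * g (D.ξ i)) → ∀ b k, D.lo b ≤ k → k ≤ D.hi b →
      0 < g (D.ξ (D.ap b k)) → 0 < g (D.xi o t⁻¹ (apx b k)).1 := by
    intro g hg b k h1 h2 h3
    have h4 := mul_pos (inv_pos.2 ht0) (hg _ (P.WS (P.apW b k h1 h2)) h3)
    simp only [Data.xi, map_sub, map_smul, smul_eq_mul]
    rw [mul_add, ← mul_assoc, inv_mul_cancel₀ ht0.ne'] at h4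
    linarith
  let st : κ → ℕ := fun a => (Fintype.equivFin κ a : ℕ)
  let n := Fintype.card κ
  obtain ⟨B, hB⟩ := (P.SS_fin.image fun i => m - (D.bs t⁻¹ (m / 6) i -
    (ψ (D.xi o t⁻¹ i).1 + m * (D.xi o t⁻¹ i).2 - 9 * (m / 6)))).bddAbove
  obtain ⟨H, hH, R⟩ := staged P.SS_fin (D.xi o t⁻¹) (D.bs t⁻¹ (m / 6)) (stg st n)
    (fun i s => if s = stg st n i ∧ 0 < s then 1 else 0) (fun i hi => by simp [hi])
    (fun i s h => by simp [h.ne']) B (n + 1) (by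
      rintro (⟨w, u⟩ | ⟨a, k⟩ | _) _
      · simp [stg]
      · have := (Fintype.equivFin κ a).2
        simp only [stg, st, n]
        omega
      · simp [stg])
  let p : Par κ ι U := ⟨o, t⁻¹, m / 6, H, st, n, wb, w2, G, gb, gt, gh, ψ⟩
  have het : ∀ i, D.et p i = D.bs t⁻¹ (m / 6) i + if 0 < stg st n i then H (stg st n i) else 0 := by
    rintro (⟨w, u⟩ | ⟨a, k⟩ | _) <;> simp [Data.et, Data.bs, stg, p]
  have hts' : hts (D.bs t⁻¹ (m / 6)) (fun i s => if s = stg st n i ∧ 0 < s then 1 else 0) (n + 1) H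
      = D.et p := by
    funext i
    rw [het, hts]
    congr 1
    rw [Finset.sum_eq_single (stg st n i)]
    · simp
    · intro s _ hs; simp [hs]
    · intro h
      exfalso
      apply h
      rw [Finset.mem_range]
      rcases i with ⟨w, u⟩ | ⟨a, k⟩ | _
      · simp [stg]
      · have := (Fintype.equivFin κ a).2
        simp only [stg, st, n]
        omega
      · simp [stg]
  rw [hts'] at R
  have apb : ∀ b k, D.lo b ≤ k → k ≤ D.hi b → D.ap b k ≠ D.be := by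
    intro b k h1 h2 h3
    have := (Gz b k h1 h2).1
    rw [h3] at this
    exact (Gb b).ne' this
  refine ⟨p, ?_, hint, inv_pos.2 ht0, inv_le_one_of_one_le₀ ht, by simp only [p]; positivity,
    fun a b h => (Fintype.equivFin κ).injective (Fin.ext h), fun a => (Fintype.equivFin κ a).2, R,
    G0, Gz, fun a b h k h1 h2 => conv _ (e1 a) b k h1 h2 (Gp a b h k h1 h2), Gb, bz, bp,
    fun b k h1 h2 => conv _ e2 b k h1 h2 (bp _ (P.WS (P.apW b k h1 h2)) (apb b k h1 h2)), wbW, wbN,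
    t0, ⟨tz1, tz2⟩, fun b k h1 h2 => conv _ e3 b k h1 h2 (tp b k h1 h2),
    hint _ t0 _ (P.WS (P.apW D.x _ le_rfl (P.lohi _).le)) (tp _ _ le_rfl (P.lohi _).le), w2W, h0, hz,
    hb, fun b k h1 h2 => conv _ e4 b k h1 h2 (hp b k h1 h2), p0, pv, ?_, ?_, ?_⟩
  · show D.one o = 1
    rw [ho, Finset.sum_congr rfl (fun i hi => P.one i ((hT i).1 hi))]
    simp [hc.ne']
  · intro i hi
    have := pW i hi
    simp only [p]
    linarith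
  · simp only [p]
    linarith
  · intro i hi hs
    have h1 := hB ⟨i, hi, rfl⟩
    have h2 := hH (stg st n i)
    rw [het, if_pos hs]
    simp only [p] at h1 ⊢
    linarith

end Pool.Agent.P.MP_3c8515_co
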