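import Pool.Agent.P.MP_3c8515_co.Step1

namespace Pool.Agent.P.MP_3c8515_co

open Set Submodule Module Filter Idx

variable {κ ι U : Type} [AddCommGroup U] [Module ℝ U] [Fintype κ] [DecidableEq κ]
  {D : Data κ ι U} {p : Par κ ι U}

/-- lower faces one dimension up -/
abbrev Data.LF' (D : Data κ ι U) (p : Par κ ι U) (J : Set (Idx ι κ)) : Prop :=
  LF {i | D.SS i} (D.xi p.o p.ε) (D.et p) J

/-- an affine functional one dimension up -/
noncomputable def Data.fn (D : Data κ ι U) (g : U →ₗ[ℝ] ℝ) (a b : ℝ) : U × ℝ →ₗ[ℝ] ℝ :=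
  g ∘ₗ LinearMap.fst ℝ U ℝ + a • LinearMap.snd ℝ U ℝ + b • (D.one ∘ₗ LinearMap.fst ℝ U ℝ)

lemma PInv.SS_S (P : PInv D) {w : ι} {u : ℤ} (h : D.SS (lay w u)) : w ∈ D.S ∧ 0 ≤ u ∧ u ≤ 3 := by
  rcases h with ⟨h1, rfl⟩ | ⟨h1, h2, h3⟩
  · exact ⟨h1, by omega, le_rfl⟩
  · exact ⟨P.WS h1, h2, h3⟩

lemma Good.one_xi (G : Good D p) (P : PInv D) {i : Idx ι κ} (h : D.SS i) :
    D.one (D.xi p.o p.ε i).1 = 1 := by
  rcases i with ⟨w, u⟩ | ⟨a, k⟩ | _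
  · exact P.one w (P.SS_S h).1
  · simp only [Data.xi, map_sub, map_smul, G.one, P.one _ (P.WS (P.apW a k h.1 h.2)), smul_eq_mul]
    ring
  · exact G.one

lemma Good.fn_xi (G : Good D p) (P : PInv D) (g : U →ₗ[ℝ] ℝ) (a b : ℝ) {i : Idx ι κ}
    (h : i ∈ {i | D.SS i}) :
    D.fn g a b (D.xi p.o p.ε i) = g (D.xi p.o p.ε i).1 + a * (D.xi p.o p.ε i).2 + b := by
  simp [Data.fn, G.one_xi P (show D.SS i from h)]

lemma Good.zero_face (G : Good D p) (P : PInv D) (g : U →ₗ[ℝ] ℝ) (a b : ℝ) {J : Set (Idx ι κ)}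
    (h1 : ∀ i ∈ J, ∃ w u, i = lay w u ∧ D.SS (lay w u))
    (h2 : ∀ w u, D.SS (lay w u) → 0 ≤ D.η w + p.c * (u : ℝ) ^ 2 - (g (D.ξ w) + a * u + b) ∧
      (D.η w + p.c * (u : ℝ) ^ 2 - (g (D.ξ w) + a * u + b) = 0 ↔ lay w u ∈ J)) : D.LF' p J := by
  refine G.rules.zero _ subset_rfl J ⟨fun i hi => ?_, D.fn g a b, ?_⟩
  · obtain ⟨w, u, rfl, h⟩ := h1 i hi
    exact ⟨h, rfl⟩
  · rintro (⟨w, u⟩ | ⟨a, k⟩ | _) ⟨hi, hs⟩
    · rw [G.fn_xi P _ _ _ hi]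
      exact h2 w u hi
    · simp [stg] at hs
    · simp [stg] at hs

lemma Good.lay_face (G : Good D p) (P : PInv D) {J : Set ι} (hJ : LF D.S D.ξ D.η J) {t t' : ℤ}
    (h1 : t ≤ t') (h2 : t' ≤ t + 1) {J' : Set (Idx ι κ)}
    (hJ' : ∀ i, i ∈ J' ↔ D.SS i ∧ ∃ w ∈ J, ∃ u, t ≤ u ∧ u ≤ t' ∧ i = lay w u) : D.LF' p J' := by
  obtain ⟨hJS, ψ, hψ⟩ := hJ
  refine G.zero_face P ψ (p.c * (t + t')) (-(p.c * t * t')) (fun i hi => ?_) (fun w u hi => ?_)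
  · obtain ⟨h3, w, -, u, -, -, rfl⟩ := (hJ' i).1 hi
    exact ⟨w, u, rfl, h3⟩
  · obtain ⟨a1, a2⟩ := hψ w (P.SS_S hi).1
    have e : D.η w + p.c * (u : ℝ) ^ 2 - (ψ (D.ξ w) + p.c * (t + t') * u + -(p.c * t * t')) =
        (D.η w - ψ (D.ξ w)) + p.c * (((u - t) * (u - t') : ℤ) : ℝ) := by push_cast; ring
    have b1 : 0 ≤ (u - t) * (u - t') := by
      rcases le_or_gt u t with h | h
      · exact mul_nonneg_of_nonpos_of_nonpos (by omega) (by omega)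
      · exact mul_nonneg (by omega) (by omega)
    have b2 : (0 : ℝ) ≤ p.c * (((u - t) * (u - t') : ℤ) : ℝ) :=
      mul_nonneg G.c0.le (by exact_mod_cast b1)
    rw [e, hJ']
    refine ⟨by linarith, ⟨fun h0 => ⟨hi, w, a2.1 (by linarith), u, ?_⟩, ?_⟩⟩
    · have b3 : p.c * (((u - t) * (u - t') : ℤ) : ℝ) = 0 := by linarith
      have b4 : (u - t) * (u - t') = 0 := by
        exact_mod_cast (mul_eq_zero.1 b3).resolve_left G.c0.ne'
      rcases mul_eq_zero.1 b4 with h | h <;> exact ⟨by omega, by omega, rfl⟩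
    · rintro ⟨-, w', hw, u', c1, c2, e'⟩
      obtain ⟨rfl, rfl⟩ := lay.inj e'
      have b4 : (u - t) * (u - t') = 0 := by
        rcases (show u = t ∨ u = t' by omega) with h | h <;> simp [h]
      rw [a2.2 hw, b4]; simp

lemma Good.vert_lay (G : Good D p) (P : PInv D) {w : ι} {t : ℤ} (h : D.SS (lay w t)) :
    D.LF' p {lay w t} := by
  refine G.lay_face P (P.vert w (P.SS_S h).1) (le_refl t) (by omega) fun i => ⟨?_, ?_⟩
  · rintro rfl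
    exact ⟨h, w, rfl, t, le_rfl, le_rfl, rfl⟩
  · rintro ⟨-, w, rfl, u, h1, h2, rfl⟩
    rw [le_antisymm h2 h1]; rfl

lemma Good.pair_lay (G : Good D p) (P : PInv D) {u w : ι} (hu : u ∈ D.W) (hw : w ∈ D.W)
    (h : LF D.S D.ξ D.η {u, w}) {t : ℤ} (h0 : 0 ≤ t) (h3 : t ≤ 3) :
    D.LF' p {lay u t, lay w t} := by
  refine G.lay_face P h (le_refl t) (by omega) fun i => ⟨?_, ?_⟩
  · rintro (rfl | rfl)
    · exact ⟨Or.inr ⟨hu, h0, h3⟩, u, by simp, t, le_rfl, le_rfl, rfl⟩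
    · exact ⟨Or.inr ⟨hw, h0, h3⟩, w, by simp, t, le_rfl, le_rfl, rfl⟩
  · rintro ⟨-, w, (rfl | rfl), u, h1, h2, rfl⟩ <;> rw [le_antisymm h2 h1] <;> simp

lemma Good.up_lay (G : Good D p) (P : PInv D) {w : ι} (hw : w ∈ D.W) {t : ℤ} (h0 : 0 ≤ t)
    (h3 : t < 3) : D.LF' p {lay w t, lay w (t + 1)} := by
  refine G.lay_face P (P.vert w (P.WS hw)) (show t ≤ t + 1 by omega) le_rfl fun i => ⟨?_, ?_⟩
  · rintro (rfl | rfl)
    · exact ⟨Or.inr ⟨hw, h0, by omega⟩, w, rfl, t, le_rfl, by omega, rfl⟩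
    · exact ⟨Or.inr ⟨hw, by omega, by omega⟩, w, rfl, t + 1, by omega, le_rfl, rfl⟩
  · rintro ⟨-, w, rfl, u, h1, h2, rfl⟩
    rcases (show u = t ∨ u = t + 1 by omega) with rfl | rfl <;> simp

lemma Good.quad_lay (G : Good D p) (P : PInv D) {u w : ι} (h : D.Edge u w) {t : ℤ} (h0 : 0 ≤ t)
    (h3 : t < 3) : D.LF' p {lay u t, lay u (t + 1), lay w t, lay w (t + 1)} := by
  obtain ⟨hu, hw, -, h⟩ := h
  refine G.lay_face P h (show t ≤ t + 1 by omega) le_rfl fun i => ⟨?_, ?_⟩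
  · rintro (rfl | rfl | rfl | rfl)
    · exact ⟨Or.inr ⟨hu, h0, by omega⟩, u, by simp, t, le_rfl, by omega, rfl⟩
    · exact ⟨Or.inr ⟨hu, by omega, by omega⟩, u, by simp, t + 1, by omega, le_rfl, rfl⟩
    · exact ⟨Or.inr ⟨hw, h0, by omega⟩, w, by simp, t, le_rfl, by omega, rfl⟩
    · exact ⟨Or.inr ⟨hw, by omega, by omega⟩, w, by simp, t + 1, by omega, le_rfl, rfl⟩
  · rintro ⟨-, w, (rfl | rfl), u, h1, h2, rfl⟩ <;>
      rcases (show u = t ∨ u = t + 1 by omega) with rfl | rfl <;> simp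

lemma Good.top_lay (G : Good D p) (P : PInv D) {J : Set ι} (hJ : LF D.S D.ξ D.η J) :
    D.LF' p ((fun w => lay w 3) '' J) := by
  refine G.lay_face P hJ (le_refl 3) (by omega) fun i => ⟨?_, ?_⟩
  · rintro ⟨w, hw, rfl⟩
    exact ⟨Or.inl ⟨hJ.1 hw, rfl⟩, w, hw, 3, le_rfl, le_rfl, rfl⟩
  · rintro ⟨-, w, hw, u, h1, h2, rfl⟩
    exact ⟨w, hw, by rw [le_antisymm h2 h1]⟩

lemma Good.Go (G : Good D p) (P : PInv D) (a : κ) : 0 < p.G a p.o :=
  G.int _ (G.G0 a) _ (P.WS P.beW) (G.Gb a)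

lemma Good.G_apx (G : Good D p) {a : κ} {k : ℤ} (h1 : D.lo a ≤ k) (h2 : k ≤ D.hi a) :
    p.G a (D.xi p.o p.ε (apx a k)).1 = -(p.ε * p.G a p.o) := by
  simp [Data.xi, (G.Gz a k h1 h2).1]

lemma Good.apx_face (G : Good D p) (P : PInv D) {a : κ} {l : ℤ → ι} {u : ℤ} (u0 : 0 ≤ u)
    (u3 : u ≤ 3) (lW : ∀ k, D.lo a ≤ k → k ≤ D.hi a → l k ∈ D.W)
    (lG : ∀ k, D.lo a ≤ k → k ≤ D.hi a → p.G a (D.ξ (l k)) = 0)
    (lI : ∀ k m, D.lo a ≤ k → k ≤ D.hi a → D.lo a ≤ m → m ≤ D.hi a → l k = l m → k = m)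
    {θ : U} {θ' c : ℝ} (hc : 0 < c) (lP : ∀ k, D.lo a ≤ k → k ≤ D.hi a →
      D.ξ (D.ap a k) = θ + c • D.ξ (l k) ∧ D.η (D.ap a k) = θ' + c * D.η (l k))
    {k k' : ℤ} (k1 : D.lo a ≤ k) (k2 : k ≤ D.hi a) (k3 : D.lo a ≤ k') (k4 : k' ≤ D.hi a)
    (h : LF D.S D.ξ D.η {l k, l k'}) :
    D.LF' p {apx a k, apx a k', lay (l k) u, lay (l k') u} := by
  have hγ := mul_pos G.ε0 (G.Go P a)
  have hε : 0 < 1 + p.ε := by linarith [G.ε0]
  refine G.rules.copy subset_rfl (G.pair_lay P (lW k k1 k2) (lW k' k3 k4) h u0 u3)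
    (s := p.st a + 1) (by omega) ((p.ε * p.G a p.o)⁻¹ • (p.G a ∘ₗ LinearMap.fst ℝ U ℝ))
    ((1 + p.ε) • θ - p.ε • p.o, 3 / 2 - (1 + p.ε) * c * u)
    ((1 + p.ε) * θ' + p.H (p.st a + 1) - (1 + p.ε) * c * (p.c * (u : ℝ) ^ 2)) ((1 + p.ε) * c)
    (mul_pos hε hc) ?_ ?_ ?_
  · rintro _ (rfl | rfl | rfl | rfl)
    · exact ⟨⟨k1, k2⟩, le_rfl⟩
    · exact ⟨⟨k3, k4⟩, le_rfl⟩
    · exact ⟨Or.inr ⟨lW k k1 k2, u0, u3⟩, Nat.zero_le _⟩
    · exact ⟨Or.inr ⟨lW k' k3 k4, u0, u3⟩, Nat.zero_le _⟩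
  · rintro (⟨w, t⟩ | ⟨b, m⟩ | _) hi hs
    · have h1 := G.G0 a w (P.SS_S hi).1
      refine ⟨mul_nonneg (inv_pos.2 hγ).le h1, ?_⟩
      simp only [mem_insert_iff, mem_singleton_iff, reduceCtorEq, false_or, iff_and_self]
      rintro (h2 | h2) <;> rw [h2]
      · simp [Data.xi, lG k k1 k2]
      · simp [Data.xi, lG k' k3 k4]
    · have hb : b ≠ a := by
        rintro rfl
        exact lt_irrefl _ hs
      refine ⟨mul_nonneg (inv_pos.2 hγ).le (G.Gp a b hb m hi.1 hi.2).le, ?_⟩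
      simp [hb]
    · have := G.stn a
      simp only [stg] at hs
      omega
  · rintro (⟨w, t⟩ | ⟨b, m⟩ | _) hi hs
    · simp [stg] at hs
    · obtain rfl : b = a := G.stI (by simpa [stg] using hs)
      refine Or.inr ⟨?_, lay (l m) u, Or.inr ⟨lW m hi.1 hi.2, u0, u3⟩, ?_, ?_, ?_⟩
      · simp only [LinearMap.smul_apply, LinearMap.comp_apply, LinearMap.fst_apply,
          G.G_apx hi.1 hi.2, smul_eq_mul, mul_neg, inv_mul_cancel₀ hγ.ne']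
      · simp only [Data.xi, (lP m hi.1 hi.2).1, Prod.smul_mk, Prod.mk_add_mk, smul_eq_mul,
          smul_add, smul_smul, Prod.mk.injEq]
        exact ⟨by abel, by ring⟩
      · simp only [Data.et, (lP m hi.1 hi.2).2]
        ring
      · simp only [mem_insert_iff, mem_singleton_iff, apx.injEq, true_and, reduceCtorEq, or_false,
          lay.injEq, and_true]
        exact or_congr ⟨fun h => h ▸ rfl, lI _ _ hi.1 hi.2 k1 k2⟩
          ⟨fun h => h ▸ rfl, lI _ _ hi.1 hi.2 k3 k4⟩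
    · have := G.stn a
      simp only [stg] at hs
      omega

lemma PInv.ap_pair (P : PInv D) {a : κ} {k : ℤ} (h1 : D.lo a ≤ k) (h2 : k < D.hi a) :
    LF D.S D.ξ D.η {D.ap a k, D.ap a (k + 1)} := (P.lnE _ _ _ _ (P.lnA a k h1 h2)).1.2.2.2

lemma Good.quad_aa (G : Good D p) (P : PInv D) {a : κ} {k u : ℤ} (h1 : D.lo a ≤ k) (h2 : k < D.hi a)
    (u0 : 0 ≤ u) (u3 : u ≤ 3) :
    D.LF' p {apx a k, apx a (k + 1), lay (D.ap a k) u, lay (D.ap a (k + 1)) u} :=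
  G.apx_face P u0 u3 (P.apW a) (fun k h1 h2 => (G.Gz a k h1 h2).1) (P.apI a) (θ := 0) (θ' := 0)
    one_pos (fun k _ _ => by simp) h1 h2.le (by omega) (by omega) (P.ap_pair h1 h2)

lemma Good.spoke_aa (G : Good D p) (P : PInv D) {a : κ} {k u : ℤ} (h1 : D.lo a ≤ k)
    (h2 : k ≤ D.hi a) (u0 : 0 ≤ u) (u3 : u ≤ 3) : D.LF' p {apx a k, lay (D.ap a k) u} := by
  simpa using G.apx_face P u0 u3 (P.apW a) (fun k h1 h2 => (G.Gz a k h1 h2).1) (P.apI a) (θ := 0)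
    (θ' := 0) one_pos (fun k _ _ => by simp) h1 h2 h1 h2
    (by simpa using P.vert _ (P.WS (P.apW a k h1 h2)))

lemma Good.quad_ac (G : Good D p) (P : PInv D) {a : κ} {k : ℤ} (h1 : D.lo a ≤ k) (h2 : k < D.hi a) :
    D.LF' p {apx a k, apx a (k + 1), lay (D.cp a k) 3, lay (D.cp a (k + 1)) 3} := by
  obtain ⟨θ, θ', c, hc, h⟩ := P.par a
  exact G.apx_face P (by omega) le_rfl (P.cpW a) (fun k h1 h2 => (G.Gz a k h1 h2).2) (P.cpI a)
    hc h h1 h2.le (by omega) (by omega) (P.lnE _ _ _ _ (P.lnC a k h1 h2)).1.2.2.2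

lemma Good.spoke_ac (G : Good D p) (P : PInv D) {a : κ} {k : ℤ} (h1 : D.lo a ≤ k)
    (h2 : k ≤ D.hi a) : D.LF' p {apx a k, lay (D.cp a k) 3} := by
  obtain ⟨θ, θ', c, hc, h⟩ := P.par a
  simpa using G.apx_face P (u := 3) (by omega) le_rfl (P.cpW a)
    (fun k h1 h2 => (G.Gz a k h1 h2).2) (P.cpI a) hc h h1 h2 h1 h2
    (by simpa using P.vert _ (P.WS (P.cpW a k h1 h2)))

lemma Good.edge_apx (G : Good D p) (P : PInv D) {a : κ} {k : ℤ} (h1 : D.lo a ≤ k)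
    (h2 : k < D.hi a) : D.LF' p {apx a k, apx a (k + 1)} := by
  have := (G.quad_aa P h1 h2 (u := 3) (by omega) le_rfl).inter
    (G.quad_aa P h1 h2 (u := 2) (by omega) (by omega))
  have e : ({apx a k, apx a (k + 1), lay (D.ap a k) 3, lay (D.ap a (k + 1)) 3} : Set (Idx ι κ)) ∩
      {apx a k, apx a (k + 1), lay (D.ap a k) 2, lay (D.ap a (k + 1)) 2} =
      {apx a k, apx a (k + 1)} := by
    ext i
    simp only [mem_inter_iff, mem_insert_iff, mem_singleton_iff]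
    constructor
    · rintro ⟨rfl | rfl | rfl | rfl, h⟩ <;> simp at h ⊢
    · rintro (rfl | rfl) <;> simp
  rwa [e] at this

lemma Good.vert_apx (G : Good D p) (P : PInv D) {a : κ} {k : ℤ} (h1 : D.lo a ≤ k)
    (h2 : k ≤ D.hi a) : D.LF' p {apx a k} := by
  have := (G.spoke_aa P h1 h2 (u := 3) (by omega) le_rfl).inter
    (G.spoke_aa P h1 h2 (u := 2) (by omega) (by omega))
  have e : ({apx a k, lay (D.ap a k) 3} : Set (Idx ι κ)) ∩ {apx a k, lay (D.ap a k) 2} =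
      {apx a k} := by
    ext i
    simp only [mem_inter_iff, mem_insert_iff, mem_singleton_iff]
    constructor
    · rintro ⟨rfl | rfl, h⟩ <;> simp at h ⊢
    · rintro rfl; simp
  rwa [e] at this

lemma Good.spoke_bet (G : Good D p) (P : PInv D) {w : ι} (hw : w ∈ D.S) :
    D.LF' p {bet, lay w 3} := by
  have hw' : D.SS (lay w 3) := Or.inl ⟨hw, rfl⟩
  refine G.rules.copy subset_rfl (G.vert_lay P hw') (s := p.n + 1) (by omega) (D.fn 0 (-1) 3)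
    (D.xi p.o p.ε bet - D.xi p.o p.ε (lay w 3)) (D.et p bet - D.et p (lay w 3)) 1 one_pos ?_ ?_ ?_
  · rintro _ (rfl | rfl)
    · exact ⟨trivial, le_rfl⟩
    · exact ⟨hw', Nat.zero_le _⟩
  · rintro (⟨w', t⟩ | ⟨b, m⟩ | _) hi hs
    · rw [G.fn_xi P _ _ _ hi]
      have h1 : (t : ℝ) ≤ 3 := by exact_mod_cast (P.SS_S hi).2.2
      simp only [Data.xi, LinearMap.zero_apply, mem_insert_iff, mem_singleton_iff, reduceCtorEq,
        false_or, iff_and_self, lay.injEq]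
      refine ⟨by linarith, fun h => ?_⟩
      rw [h.2]; norm_num
    · rw [G.fn_xi P _ _ _ hi]
      simp only [Data.xi, LinearMap.zero_apply, mem_insert_iff, mem_singleton_iff, reduceCtorEq]
      norm_num
    · exact absurd hs (lt_irrefl _)
  · rintro (⟨w', t⟩ | ⟨b, m⟩ | _) hi hs
    · simp [stg] at hs
    · have := G.stn b
      simp only [stg] at hs
      omega
    · refine Or.inr ⟨?_, lay w 3, hw', by simp, by simp, by simp⟩
      rw [G.fn_xi P _ _ _ hi]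
      simp only [Data.xi, LinearMap.zero_apply]
      norm_num

lemma Good.vert_bet (G : Good D p) (P : PInv D) : D.LF' p {bet} := by
  have := (G.spoke_bet P (P.WS P.seed.1)).inter (G.spoke_bet P (P.WS P.seed.2.1))
  have e : ({bet, lay D.s1 3} : Set (Idx ι κ)) ∩ {bet, lay D.s2 3} = {bet} := by
    ext i
    simp only [mem_inter_iff, mem_insert_iff, mem_singleton_iff]
    constructor
    · rintro ⟨rfl | rfl, h⟩
      · rfl
      · simp [P.seed.2.2.1] at h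
    · rintro rfl; simp
  rwa [e] at this

lemma Good.vert (G : Good D p) (P : PInv D) {i : Idx ι κ} (hi : D.SS i) : D.LF' p {i} := by
  rcases i with ⟨w, t⟩ | ⟨b, m⟩ | _
  · exact G.vert_lay P hi
  · exact G.vert_apx P hi.1 hi.2
  · exact G.vert_bet P

end Pool.Agent.P.MP_3c8515_co
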