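import Pool.Agent.P.MP_3c8515_co.Step2

namespace Pool.Agent.P.MP_3c8515_co

open Set Submodule Module Filter Idx

variable {κ ι U : Type} [AddCommGroup U] [Module ℝ U] [Fintype κ] [DecidableEq κ]
  {D : Data κ ι U} {p : Par κ ι U}

lemma PInv.reach (P : PInv D) {u w : ι} (hu : u ∈ D.W) (hw : w ∈ D.W) :
    Relation.ReflTransGen D.Edge u w := by
  have h : ∀ w, Perc D.Edge D.s1 D.s2 w → Relation.ReflTransGen D.Edge D.s1 w := by
    intro w hw
    induction hw with
    | fst => exact .refl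
    | snd => exact .single P.seed
    | step h1 _ _ _ _ ih _ => exact ih.tail h1.symm
  have hs : ∀ a b, Relation.ReflTransGen D.Edge a b → Relation.ReflTransGen D.Edge b a := by
    intro a b hab
    induction hab with
    | refl => exact .refl
    | tail _ e ih => exact .head e.symm ih
  exact (hs _ _ (h u (P.perc u hu))).trans (h w (P.perc w hw))

lemma Good.edge_lay (G : Good D p) (P : PInv D) {u w : ι} (h : D.Edge u w) {t : ℤ} (h0 : 0 ≤ t)
    (h3 : t ≤ 3) : (D.step p).Edge (lay u t) (lay w t) :=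
  ⟨⟨h.1, h0, h3⟩, ⟨h.2.1, h0, h3⟩, fun e => h.2.2.1 (lay.inj e).1,
    G.pair_lay P h.1 h.2.1 h.2.2.2 h0 h3⟩

lemma Good.edge_up (G : Good D p) (P : PInv D) {w : ι} (h : w ∈ D.W) {t : ℤ} (h0 : 0 ≤ t)
    (h3 : t < 3) : (D.step p).Edge (lay w t) (lay w (t + 1)) :=
  ⟨⟨h, h0, h3.le⟩, ⟨h, by omega, by omega⟩, fun e => by have := (lay.inj e).2; omega,
    G.up_lay P h h0 h3⟩

lemma Good.perc (G : Good D p) (P : PInv D) {i : Idx ι κ} (hi : D.WW i) :
    Perc (D.step p).Edge (lay D.s1 3) (lay D.s2 3) i := by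
  have h1 : ∀ w, Perc D.Edge D.s1 D.s2 w →
      Perc (D.step p).Edge (lay D.s1 3) (lay D.s2 3) (lay w 3) := by
    intro w hw
    induction hw with
    | fst => exact .fst
    | snd => exact .snd
    | step e1 e2 e3 _ _ i1 i2 =>
      exact .step (G.edge_lay P e1 (by omega) le_rfl) (G.edge_lay P e2 (by omega) le_rfl)
        (fun e => e3 (lay.inj e).1) i1 i2
  have h2 : ∀ a k, D.lo a ≤ k → k ≤ D.hi a →
      Perc (D.step p).Edge (lay D.s1 3) (lay D.s2 3) (apx a k) := by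
    intro a k k1 k2
    have a1 := P.apW a k k1 k2
    have a2 := P.cpW a k k1 k2
    exact .step (w1 := lay (D.ap a k) 3) (w2 := lay (D.cp a k) 3)
      ⟨⟨k1, k2⟩, ⟨a1, by omega, le_rfl⟩, by simp, G.spoke_aa P k1 k2 (by omega) le_rfl⟩
      ⟨⟨k1, k2⟩, ⟨a2, by omega, le_rfl⟩, by simp, G.spoke_ac P k1 k2⟩
      (fun e => P.acN a k k k1 k2 k1 k2 (lay.inj e).1) (h1 _ (P.perc _ a1)) (h1 _ (P.perc _ a2))
  have h3 : ∀ u : ℤ, u ≤ 3 → 0 ≤ u → ∀ w ∈ D.W,
      Perc (D.step p).Edge (lay D.s1 3) (lay D.s2 3) (lay w u) := by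
    intro u hu
    induction u, hu using Int.leInductionDown with
    | base => exact fun _ w hw => h1 w (P.perc w hw)
    | pred u hu ih =>
      intro h0 w hw
      have k2 := (P.lohi D.x).le
      have a1 := P.apW D.x _ le_rfl k2
      have up : ∀ w ∈ D.W, (D.step p).Edge (lay w (u - 1)) (lay w u) := fun w hw => by
        simpa using G.edge_up P hw h0 (by omega)
      have hr := P.reach a1 hw
      induction hr with
      | refl =>
        exact .step (w1 := apx D.x (D.lo D.x)) (Data.Edge.symm ⟨⟨le_rfl, k2⟩, ⟨a1, h0, by omega⟩,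
          by simp, G.spoke_aa P le_rfl k2 h0 (by omega)⟩) (up _ a1) (by simp)
          (h2 _ _ le_rfl k2) (ih (by omega) _ a1)
      | tail _ e ih2 =>
        exact .step (G.edge_lay P e.symm h0 (by omega)) (up _ hw)
          (fun e => by have := (lay.inj e).2; omega) (ih2 e.1) (ih (by omega) _ hw)
  rcases i with ⟨w, u⟩ | ⟨a, k⟩ | _
  · exact h3 u hi.2.2 hi.2.1 w hi.1
  · exact h2 a k hi.1 hi.2
  · exact .step (w1 := lay D.s1 3) (w2 := lay D.s2 3)
      ⟨trivial, ⟨P.seed.1, by omega, le_rfl⟩, by simp, G.spoke_bet P (P.WS P.seed.1)⟩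
      ⟨trivial, ⟨P.seed.2.1, by omega, le_rfl⟩, by simp, G.spoke_bet P (P.WS P.seed.2.1)⟩
      (fun e => P.seed.2.2.1 (lay.inj e).1) .fst .snd

lemma upd_some (g : Option κ → ℤ) (a : κ) (v : ℤ) :
    (fun b => Function.update g (some a) v (some b)) = Function.update (fun b => g (some b)) a v := by
  funext b
  by_cases h : b = a
  · subst h; simp
  · simp [h]

lemma Good.conn (G : Good D p) (P : PInv D) {a : Option κ} {k : ℤ} {i j : Idx ι κ}
    (h : D.LL a k i j) : Relation.ReflTransGen ((D.step p).Adj a k)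
      ((D.step p).ap a k, (D.step p).ap a (k + 1)) (i, j) := by
  rcases a with _ | a
  · obtain ⟨w, hw, h0, h3, rfl, rfl⟩ := h
    have hr := P.reach P.beW hw
    induction hr with
    | refl => exact .refl
    | tail _ e ih =>
      exact (ih e.1).tail ⟨⟨_, hw, h0, h3, rfl, rfl⟩, _, G.quad_lay P e h0 h3, by simp, by simp,
        by simp, by simp⟩
  · rcases h with ⟨u, w, t, h, h0, h3, rfl, rfl⟩ | ⟨-, -, rfl, rfl⟩
    swap
    · exact .refl
    obtain ⟨-, k1, k2⟩ := P.lnE _ _ _ _ h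
    have key : ∀ q, Relation.ReflTransGen (D.Adj a k) (D.ap a k, D.ap a (k + 1)) q →
        D.Ln a k q.1 q.2 ∧ Relation.ReflTransGen ((D.step p).Adj (some a) k)
          (apx a k, apx a (k + 1)) (lay q.1 t, lay q.2 t) := by
      intro q hq
      induction hq with
      | refl =>
        exact ⟨P.lnA a k k1 k2, .single ⟨Or.inl ⟨_, _, t, P.lnA a k k1 k2, h0, h3, rfl, rfl⟩, _,
          G.quad_aa P k1 k2 h0 h3, by simp, by simp, by simp, by simp⟩⟩
      | tail _ e ih =>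
        obtain ⟨e1, J, hJ, m1, m2, m3, m4⟩ := e
        have b1 := (P.lnE _ _ _ _ ih.1).1
        have b2 := (P.lnE _ _ _ _ e1).1
        exact ⟨e1, ih.2.tail ⟨Or.inl ⟨_, _, t, e1, h0, h3, rfl, rfl⟩, _,
          G.lay_face P hJ (le_refl t) (by omega) (fun i => Iff.rfl),
          ⟨Or.inr ⟨b1.1, h0, h3⟩, _, m1, t, le_rfl, le_rfl, rfl⟩,
          ⟨Or.inr ⟨b1.2.1, h0, h3⟩, _, m2, t, le_rfl, le_rfl, rfl⟩,
          ⟨Or.inr ⟨b2.1, h0, h3⟩, _, m3, t, le_rfl, le_rfl, rfl⟩,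
          ⟨Or.inr ⟨b2.2.1, h0, h3⟩, _, m4, t, le_rfl, le_rfl, rfl⟩⟩⟩
    exact (key _ (P.conn _ _ _ _ h)).2

lemma Good.old_nonneg (G : Good D p) (P : PInv D) {g : U →ₗ[ℝ] ℝ} (h0 : ∀ i ∈ D.S, 0 ≤ g (D.ξ i))
    (h1 : ∀ b k, D.lo b ≤ k → k ≤ D.hi b → 0 < g (D.xi p.o p.ε (apx b k)).1) (h2 : 0 < g p.o)
    {i : Idx ι κ} (hi : D.SS i) : 0 ≤ g (D.xi p.o p.ε i).1 := by
  rcases i with ⟨w, u⟩ | ⟨a, k⟩ | _
  · exact h0 w (P.SS_S hi).1
  · exact (h1 a k hi.1 hi.2).le
  · exact h2.le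

lemma Good.tilt (G : Good D p) (P : PInv D) (a : κ) {t : ℝ} (t1 : 2 / 3 * (p.ε * p.G a p.o) ≤ t)
    (t2 : t ≤ p.G a p.o) {i : Idx ι κ} (hi : D.SS i) :
    0 ≤ D.fn (p.G a) (-t) (3 * t) (D.xi p.o p.ε i) := by
  have hγ := mul_pos G.ε0 (G.Go P a)
  rw [G.fn_xi P _ _ _ hi]
  rcases i with ⟨w, u⟩ | ⟨b, k⟩ | _
  · have a1 := G.G0 a w (P.SS_S hi).1
    have a2 : (u : ℝ) ≤ 3 := by exact_mod_cast (P.SS_S hi).2.2
    simp only [Data.xi]
    nlinarith
  · by_cases hb : b = a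
    · subst hb
      rw [G.G_apx hi.1 hi.2]
      simp only [Data.xi]
      linarith
    · have := G.Gp a b hb k hi.1 hi.2
      simp only [Data.xi] at this ⊢
      linarith
  · simp only [Data.xi]
    linarith

theorem Good.pinv [FiniteDimensional ℝ U] (G : Good D p) (P : PInv D) : PInv (D.step p) where
  fin := P.SS_fin
  WS := by
    rintro (⟨w, u⟩ | ⟨a, k⟩ | _) h
    · exact Or.inr h
    · exact h
    · trivial
  one := fun i hi => G.one_xi P hi
  dim := by rw [finrank_prod, finrank_self, P.dim, Fintype.card_option]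
  vert := fun i hi => G.vert P hi
  lohi := by
    rintro (_ | a)
    · show (0 : ℤ) < 3
      omega
    · exact P.lohi a
  xy := fun h => P.xy (Option.some.inj h)
  ex := by
    rintro (_ | a) h1 h2
    · exact ⟨rfl, rfl⟩
    · exact P.ex a (fun h => h1 (congrArg some h)) (fun h => h2 (congrArg some h))
  grW := fun g h1 h2 => ⟨P.grW _ (fun a => h1 (some a)) (fun a => h2 (some a)), h1 none, h2 none⟩
  co := by
    rintro g h1 h2 (_ | a)
    · rfl
    · exact P.co _ (fun a => h1 (some a)) (fun a => h2 (some a)) a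
  cell := by
    intro k k' h1 h2 h3 h4
    refine G.lay_face P (P.cell (fun a => k (some a)) (fun a => k' (some a)) (fun a => h1 (some a))
      (fun a => h2 (some a)) (fun a => h3 (some a)) (fun a => h4 (some a))) (h3 none) (h4 none)
      fun i => ⟨?_, ?_⟩
    · rintro ⟨g, hg, rfl⟩
      have a1 := h1.trans hg.1
      have a2 := hg.2.trans h2
      exact ⟨Or.inr ⟨P.grW _ (fun a => a1 (some a)) (fun a => a2 (some a)), a1 none, a2 none⟩,
        _, ⟨_, ⟨fun a => hg.1 (some a), fun a => hg.2 (some a)⟩, rfl⟩, _, hg.1 none, hg.2 none, rfl⟩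
    · rintro ⟨-, _, ⟨g, hg, rfl⟩, u, u1, u2, rfl⟩
      refine ⟨fun a => a.elim u g, ⟨?_, ?_⟩, rfl⟩
      · rintro (_ | a)
        · exact u1
        · exact hg.1 a
      · rintro (_ | a)
        · exact u2
        · exact hg.2 a
  seed := G.edge_lay P P.seed (by omega) le_rfl
  perc := fun w hw => G.perc P hw
  lnE := by
    rintro (_ | a) k i j h
    · obtain ⟨w, hw, h0, h3, rfl, rfl⟩ := h
      exact ⟨G.edge_up P hw h0 h3, h0, h3⟩
    · rcases h with ⟨u, w, t, h, h0, h3, rfl, rfl⟩ | ⟨k1, k2, rfl, rfl⟩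
      · exact ⟨G.edge_lay P (P.lnE _ _ _ _ h).1 h0 h3, (P.lnE _ _ _ _ h).2⟩
      · exact ⟨⟨⟨k1, k2.le⟩, ⟨by omega, by omega⟩, by simp, G.edge_apx P k1 k2⟩, k1, k2⟩
  lnG := by
    rintro g (_ | a) h1 h2 h3
    · exact ⟨_, P.grW _ (fun a => h1 (some a)) (fun a => h2 (some a)), h1 none, h3, rfl, by
        simp [Data.step]⟩
    · refine Or.inl ⟨_, _, g none, P.lnG (fun a => g (some a)) a (fun a => h1 (some a))
        (fun a => h2 (some a)) h3, h1 none, h2 none, rfl, ?_⟩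
      simp only [Data.step, upd_some]
      simp
  lnA := by
    rintro (_ | a) k h1 h2
    · exact ⟨_, P.beW, h1, h2, rfl, rfl⟩
    · exact Or.inr ⟨h1, h2, rfl, rfl⟩
  lnC := by
    rintro (_ | a) k h1 h2
    · exact ⟨_, G.wbW, h1, h2, rfl, rfl⟩
    · exact Or.inl ⟨_, _, 3, P.lnA a k h1 h2, by omega, le_rfl, rfl, rfl⟩
  conn := fun a k u w h => G.conn P h
  apW := by
    rintro (_ | a) k h1 h2
    · exact ⟨P.beW, h1, h2⟩
    · exact ⟨h1, h2⟩
  cpW := by
    rintro (_ | a) k h1 h2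
    · exact ⟨G.wbW, h1, h2⟩
    · exact ⟨P.apW a k h1 h2, by omega, le_rfl⟩
  apI := by
    rintro (_ | a) k m _ _ _ _ h
    · exact (lay.inj h).2
    · exact (apx.inj h).2
  cpI := by
    rintro (_ | a) k m h1 h2 h3 h4 h
    · exact (lay.inj h).2
    · exact P.apI a k m h1 h2 h3 h4 (lay.inj h).1
  acN := by
    rintro (_ | a) k m _ _ _ _ h
    · exact G.wbN (lay.inj h).1.symm
    · simp [Data.step] at h
  par := by
    rintro (_ | a)
    · exact ⟨(D.ξ D.be - D.ξ p.wb, 0), D.η D.be - D.η p.wb, 1, one_pos, fun k _ _ => by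
        simp [Data.step, Data.xi, Data.et]; ring⟩
    · refine ⟨(-(p.ε • p.o), 3 / 2 - (1 + p.ε) * 3), p.H (p.st a + 1) - (1 + p.ε) * (p.c * 9),
        1 + p.ε, by linarith [G.ε0], fun k _ _ => ?_⟩
      simp only [Data.step, Data.xi, Data.et, Option.elim, Prod.smul_mk, Prod.mk_add_mk,
        smul_eq_mul, Prod.mk.injEq]
      refine ⟨⟨by abel, by push_cast; ring⟩, by push_cast; ring⟩
  gt := by
    rintro (_ | a)
    · refine ⟨p.gt ∘ₗ LinearMap.fst ℝ U ℝ, fun i hi => G.old_nonneg P G.t0 G.ta G.tq hi,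
        fun k _ _ => G.tz, ?_, G.tq⟩
      rintro (_ | b) h k h1 h2
      · exact absurd rfl h
      · exact G.ta b k h1 h2
    · have hγ := mul_pos G.ε0 (G.Go P a)
      have hγ' : p.ε * p.G a p.o ≤ p.G a p.o := mul_le_of_le_one_left (G.Go P a).le G.ε1
      refine ⟨D.fn (p.G a) (-(2 / 3 * (p.ε * p.G a p.o))) (3 * (2 / 3 * (p.ε * p.G a p.o))),
        fun i hi => G.tilt P a le_rfl (by linarith) hi, fun k h1 h2 => ⟨?_, ?_⟩, ?_, ?_⟩
      · show D.fn _ _ _ (D.xi p.o p.ε (apx a k)) = 0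
        rw [G.fn_xi P _ _ _ (i := apx a k) ⟨h1, h2⟩, G.G_apx h1 h2]
        simp only [Data.xi]
        ring
      · show D.fn _ _ _ (D.xi p.o p.ε (lay (D.ap a k) 3)) = 0
        rw [G.fn_xi P _ _ _ (i := lay (D.ap a k) 3) (Or.inl ⟨P.WS (P.apW a k h1 h2), rfl⟩)]
        simp only [Data.xi, (G.Gz a k h1 h2).1]
        push_cast
        ring
      · rintro (_ | b) h k h1 h2
        · show 0 < D.fn _ _ _ (D.xi p.o p.ε (lay D.be k))
          rw [G.fn_xi P _ _ _ (i := lay D.be k) (Or.inr ⟨P.beW, h1, h2⟩)]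
          have a1 := G.Gb a
          have a2 : (k : ℝ) ≤ 3 := by exact_mod_cast (show k ≤ 3 from h2)
          simp only [Data.xi]
          nlinarith
        · show 0 < D.fn _ _ _ (D.xi p.o p.ε (apx b k))
          rw [G.fn_xi P _ _ _ (i := apx b k) ⟨h1, h2⟩]
          have := G.Gp a b (fun e => h (congrArg some e)) k h1 h2
          simp only [Data.xi] at this ⊢
          linarith
      · show 0 < D.fn _ _ _ (D.xi p.o p.ε bet)
        rw [G.fn_xi P _ _ _ (i := bet) trivial]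
        simp only [Data.xi]
        linarith
  beW := trivial
  gb := by
    refine ⟨D.fn 0 (-1) 4, ?_, ?_⟩
    · show D.fn _ _ _ (D.xi p.o p.ε bet) = 0
      rw [G.fn_xi P _ _ _ (i := bet) trivial]
      simp [Data.xi]
    · rintro i hi h
      show 0 < D.fn _ _ _ (D.xi p.o p.ε i)
      rw [G.fn_xi P _ _ _ hi]
      rcases i with ⟨w, u⟩ | ⟨b, k⟩ | _
      · have a2 : (u : ℝ) ≤ 3 := by exact_mod_cast (P.SS_S hi).2.2
        simp only [Data.xi, LinearMap.zero_apply]
        linarith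
      · simp only [Data.xi, LinearMap.zero_apply]
        norm_num
      · exact absurd rfl h
  gtb := by
    have hγ := mul_pos G.ε0 (G.Go P D.x)
    have hγ' : p.ε * p.G D.x p.o ≤ p.G D.x p.o := mul_le_of_le_one_left (G.Go P D.x).le G.ε1
    have k2 := (P.lohi D.x).le
    refine ⟨lay (D.ap D.x (D.lo D.x)) 3, ⟨P.apW _ _ le_rfl k2, by omega, le_rfl⟩,
      by simp [Data.step], D.fn (p.G D.x) (-(p.G D.x p.o)) (3 * p.G D.x p.o),
      fun i hi => G.tilt P D.x (by linarith) le_rfl hi, ?_, ?_, ?_⟩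
    · show D.fn _ _ _ (D.xi p.o p.ε bet) = 0
      rw [G.fn_xi P _ _ _ (i := bet) trivial]
      simp only [Data.xi]
      ring
    · show D.fn _ _ _ (D.xi p.o p.ε (lay (D.ap D.x (D.lo D.x)) 3)) = 0
      rw [G.fn_xi P _ _ _ (i := lay _ 3) (Or.inl ⟨P.WS (P.apW _ _ le_rfl k2), rfl⟩)]
      simp only [Data.xi, (G.Gz _ _ le_rfl k2).1]
      push_cast
      ring
    · rintro (_ | b) k h1 h2
      · show 0 < D.fn _ _ _ (D.xi p.o p.ε (lay D.be k))
        rw [G.fn_xi P _ _ _ (i := lay D.be k) (Or.inr ⟨P.beW, h1, h2⟩)]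
        have a1 := G.Gb D.x
        have a2 : (k : ℝ) ≤ 3 := by exact_mod_cast (show k ≤ 3 from h2)
        have a3 := G.Go P D.x
        simp only [Data.xi]
        nlinarith
      · show 0 < D.fn _ _ _ (D.xi p.o p.ε (apx b k))
        rw [G.fn_xi P _ _ _ (i := apx b k) ⟨h1, h2⟩]
        by_cases hb : b = D.x
        · subst hb
          rw [G.G_apx h1 h2]
          simp only [Data.xi]
          linarith
        · have := G.Gp D.x b hb k h1 h2
          have a3 := G.Go P D.x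
          simp only [Data.xi] at this ⊢
          linarith
  gh := by
    have ho := G.int _ G.h0 _ (P.WS P.beW) G.hb
    refine ⟨lay p.w2 3, ⟨G.w2W, by omega, le_rfl⟩, p.gh ∘ₗ LinearMap.fst ℝ U ℝ,
      fun i hi => G.old_nonneg P G.h0 G.ha ho hi, G.hz, ho, ?_⟩
    rintro (_ | b) k h1 h2
    · exact G.hb
    · exact G.ha b k h1 h2
  g0 := by
    constructor <;> rintro (_ | a)
    · show (0 : ℤ) ≤ 3
      omega
    · exact P.g0.1 a
    · exact le_rfl
    · exact P.g0.2 a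
  v0 := Or.inl ⟨P.v0, rfl⟩
  tn := by
    have c0 := G.c0
    have key : ∀ w u, D.SS (lay w u) → D.et p (lay w u) -
        D.fn p.ψ (6 * p.c) (-(9 * p.c)) (D.xi p.o p.ε (lay w u)) =
        D.η w - p.ψ (D.ξ w) + p.c * ((u : ℝ) - 3) ^ 2 := by
      intro w u h
      rw [G.fn_xi P _ _ _ (i := lay w u) h]
      simp only [Data.xi, Data.et]
      ring
    have key2 : ∀ i, D.SS i → 0 < stg p.st p.n i →
        6 * p.c ≤ D.et p i - D.fn p.ψ (6 * p.c) (-(9 * p.c)) (D.xi p.o p.ε i) := by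
      intro i hi hs
      rw [G.fn_xi P _ _ _ (i := i) hi]
      have := G.pH i hi hs
      linarith
    refine ⟨D.fn p.ψ (6 * p.c) (-(9 * p.c)), 6 * p.c, by linarith, ?_, ?_, ?_, ?_⟩
    · rintro (⟨w, u⟩ | ⟨b, k⟩ | _) hi
      · refine le_of_le_of_eq ?_ (key w u hi).symm
        have := G.p0 w (P.SS_S hi).1
        positivity
      · exact le_trans (by linarith) (key2 (apx b k) hi (by simp [stg]))
      · exact le_trans (by linarith) (key2 bet hi (by simp [stg]))
    · refine (key D.v0 3 (Or.inl ⟨P.v0, rfl⟩)).trans ?_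
      rw [G.pv]; norm_num
    · rintro (⟨w, u⟩ | ⟨b, k⟩ | _) hi
      · refine le_of_le_of_eq ?_ (key w u (Or.inr hi)).symm
        have := G.pW w hi.1
        have h2 : 0 ≤ p.c * ((u : ℝ) - 3) ^ 2 := by positivity
        linarith
      · exact key2 (apx b k) hi (by simp [stg])
      · exact key2 bet hi (by simp [stg])
    · refine (key (D.gr D.g0) 3 (Or.inl ⟨P.WS (P.grW _ P.g0.1 P.g0.2), rfl⟩)).trans ?_
      rw [G.pg]; norm_num

end Pool.Agent.P.MP_3c8515_co
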