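import Pool.Agent.P.MP_3c8515_co.Step3

namespace Pool.Agent.P.MP_3c8515_co

open Set Submodule Module Filter Idx

lemma rk_le_of_map {ι ι' V V' : Type*} [AddCommGroup V] [Module ℝ V] [AddCommGroup V']
    [Module ℝ V'] [FiniteDimensional ℝ V] {p : ι → V} {p' : ι' → V'} (f : ι → ι') (L : V →ₗ[ℝ] V')
    {J : Set ι} (h : ∀ i ∈ J, p' (f i) = L (p i)) : rk p' (f '' J) ≤ rk p J := by
  unfold rk
  rw [image_image, image_congr h, ← image_image L p, ← map_span]
  exact Submodule.finrank_map_le _ _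

lemma box_ind {κ : Type} [Fintype κ] [DecidableEq κ] {lo hi g0 : κ → ℤ} (Pr : (κ → ℤ) → Prop)
    (b0 : lo ≤ g0 ∧ g0 ≤ hi) (h0 : Pr g0)
    (hs : ∀ g a, lo ≤ g → g ≤ hi → g a < hi a → (Pr g ↔ Pr (Function.update g a (g a + 1)))) :
    ∀ g, lo ≤ g → g ≤ hi → Pr g := by
  have key : ∀ n : ℕ, ∀ g, lo ≤ g → g ≤ hi → ∑ a, (g a - lo a).toNat = n → (Pr lo ↔ Pr g) := by
    intro n
    induction n with
    | zero =>
      intro g h1 _ h3
      have : g = lo := by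
        funext a
        have h4 := (Finset.sum_eq_zero_iff.1 h3) a (Finset.mem_univ a)
        have : lo a ≤ g a := h1 a
        omega
      rw [this]
    | succ n ih =>
      intro g h1 h2 h3
      obtain ⟨a, -, ha⟩ := Finset.exists_ne_zero_of_sum_ne_zero (h3.trans_ne n.succ_ne_zero)
      have c1 : lo ≤ Function.update g a (g a - 1) := by
        intro b
        by_cases hb : b = a
        · subst hb; simp only [Function.update_self]; omega
        · simpa [hb] using h1 b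
      have c2 : Function.update g a (g a - 1) ≤ hi := by
        intro b
        by_cases hb : b = a
        · subst hb; simp only [Function.update_self]; have : g b ≤ hi b := h2 b; omega
        · simpa [hb] using h2 b
      have c3 := hs _ a c1 c2 (by
        simp only [Function.update_self]; have : g a ≤ hi a := h2 a; omega)
      simp only [Function.update_self, Function.update_idem, sub_add_cancel,
        Function.update_eq_self] at c3
      refine (ih _ c1 c2 ?_).trans c3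
      rw [← Finset.add_sum_erase _ _ (Finset.mem_univ a)] at h3 ⊢
      rw [Function.update_self, Finset.sum_congr rfl (g := fun b => (g b - lo b).toNat)
        (fun b hb => by rw [Function.update_of_ne (Finset.ne_of_mem_erase hb)])]
      omega
  exact fun g h1 h2 => (key _ g h1 h2 rfl).1 ((key _ g0 b0.1 b0.2 rfl).2 h0)

variable {κ ι U : Type} [AddCommGroup U] [Module ℝ U] [Fintype κ] [DecidableEq κ]
  [FiniteDimensional ℝ U] {D : Data κ ι U} {p : Par κ ι U}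
  {V : Type} [AddCommGroup V] [Module ℝ V] [FiniteDimensional ℝ V] {r : Idx ι κ → V} {ω : V}

/-- realizations one dimension up -/
abbrev Data.Rz' (D : Data κ ι U) (p : Par κ ι U) (r : Idx ι κ → V) (ω : V) : Prop :=
  Rz {i | D.SS i} (D.xi p.o p.ε) (D.et p) r ω

omit [FiniteDimensional ℝ U] in
lemma Good.top_vf (G : Good D p) (P : PInv D) {J : Set ι} (hJ : IsFc D.S D.ξ J) (hne : J ≠ D.S) :
    IsFc {i | D.SS i} (D.xi p.o p.ε) ((fun w => lay w 3) '' J) := by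
  obtain ⟨hJS, g, hg⟩ := hJ
  obtain ⟨i0, hi0, hi0'⟩ := exists_of_ssubset (hJS.ssubset_of_ne hne)
  have ho : 0 < g p.o := G.int g (fun i hi => (hg i hi).1) i0 hi0
    (lt_of_le_of_ne (hg i0 hi0).1 fun h0 => hi0' ((hg i0 hi0).2.1 h0.symm))
  refine ⟨?_, D.fn g (-(5 / 6 * g p.o)) (3 * (5 / 6 * g p.o)), fun i hi => ?_⟩
  · rintro _ ⟨w, hw, rfl⟩
    exact Or.inl ⟨hJS hw, rfl⟩
  rw [G.fn_xi P _ _ _ hi]
  rcases i with ⟨w, u⟩ | ⟨b, k⟩ | _
  · obtain ⟨a1, a2⟩ := hg w (P.SS_S hi).1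
    have a3 : (u : ℝ) ≤ 3 := by exact_mod_cast (P.SS_S hi).2.2
    have a4 : 0 ≤ g p.o * (3 - u) := mul_nonneg ho.le (by linarith)
    simp only [Data.xi, mem_image, lay.injEq]
    refine ⟨by linarith, ⟨fun h0 => ⟨w, a2.1 (by linarith), rfl, ?_⟩, ?_⟩⟩
    · have a5 : g p.o * (3 - u) = 0 := by linarith
      have a6 : (3 : ℝ) = u := by
        have := (mul_eq_zero.1 a5).resolve_left ho.ne'
        linarith
      exact_mod_cast a6
    · rintro ⟨w', hw', rfl, rfl⟩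
      rw [a2.2 hw']
      push_cast
      ring
  · have a1 := (hg _ (P.WS (P.apW b k hi.1 hi.2))).1
    have a2 : p.ε * g p.o ≤ g p.o := mul_le_of_le_one_left ho.le G.ε1
    have a3 : 0 ≤ (1 + p.ε) * g (D.ξ (D.ap b k)) := mul_nonneg (by linarith [G.ε0]) a1
    simp only [Data.xi, map_sub, map_smul, smul_eq_mul, mem_image, reduceCtorEq, and_false,
      exists_false, iff_false]
    exact ⟨by linarith, by linarith⟩
  · simp only [Data.xi, mem_image, reduceCtorEq, and_false, exists_false, iff_false]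
    exact ⟨by linarith, by linarith⟩

omit [FiniteDimensional ℝ V] in
lemma Good.rz_top (G : Good D p) (P : PInv D) (Z : D.Rz' p r ω) :
    Rz D.S D.ξ D.η (fun w => r (lay w 3)) ω := by
  have hm : ∀ (J : Set ι) (w : ι), (lay w 3 : Idx ι κ) ∈ (fun w => lay w 3) '' J ↔ w ∈ J := by
    simp
  have hne : ∀ J : Set ι, (fun w => (lay w 3 : Idx ι κ)) '' J ≠ {i | D.SS i} := by
    intro J h
    have : (bet : Idx ι κ) ∈ (fun w => (lay w 3 : Idx ι κ)) '' J := by rw [h]; trivial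
    simp at this
  refine ⟨fun J hJ => ?_, fun J hJ => ?_, fun J hJ hn => ?_, fun J hJ hn => ?_, P.vert⟩
  · obtain ⟨h, h1, h2⟩ := Z.lf _ (G.top_lay P hJ)
    exact ⟨h, h1, fun i hi => by rw [← hm J i]; exact h2 (lay i 3) (Or.inl ⟨hi, rfl⟩)⟩
  · have a1 := Z.lr _ (G.top_lay P hJ)
    have a2 := rk_le_of_map (p := fun i => (D.ξ i, D.η i))
      (p' := fun i => (D.xi p.o p.ε i, D.et p i)) (fun w => lay w 3)
      (((LinearMap.fst ℝ U ℝ).prod ((3 : ℝ) • D.one ∘ₗ LinearMap.fst ℝ U ℝ)).prod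
        (LinearMap.snd ℝ U ℝ + (9 * p.c) • D.one ∘ₗ LinearMap.fst ℝ U ℝ)) (J := J) (fun i hi => by
          simp [Data.xi, Data.et, P.one i (hJ.1 hi)]; ring)
    unfold rk at a1 ⊢
    rw [image_image] at a1
    exact a1.trans a2
  · obtain ⟨h, h1, h2⟩ := Z.vf _ (G.top_vf P hJ hn) (hne J)
    exact ⟨h, h1, fun i hi => by rw [← hm J i]; exact h2 (lay i 3) (Or.inl ⟨hi, rfl⟩)⟩
  · have a1 := Z.vr _ (G.top_vf P hJ hn) (hne J)
    have a2 := rk_le_of_map (p := D.ξ) (p' := D.xi p.o p.ε) (fun w => lay w 3)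
      (LinearMap.id.prod ((3 : ℝ) • D.one)) (J := J) (fun i hi => by
          simp [Data.xi, P.one i (hJ.1 hi)])
    rw [image_image] at a1
    omega

omit [FiniteDimensional ℝ U] in
lemma Good.quad_u (G : Good D p) (P : PInv D) {u w : ι} (h : D.Edge u w) {t : ℤ} (h0 : 0 ≤ t)
    (h3 : t < 3) : Quad {i | D.SS i} (D.xi p.o p.ε) (D.et p) (lay u t) (lay u (t + 1)) (lay w t)
      (lay w (t + 1)) :=
  ⟨G.quad_lay P h h0 h3, by simp, by simp, 1, by simp [Data.xi], by simp [Data.et]⟩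

omit [FiniteDimensional ℝ U] in
lemma Good.quad_a (G : Good D p) (P : PInv D) {u w : ι} (h : D.Edge u w) {t : ℤ} (h0 : 0 ≤ t)
    (h3 : t < 3) : Quad {i | D.SS i} (D.xi p.o p.ε) (D.et p) (lay u t) (lay w t) (lay u (t + 1))
      (lay w (t + 1)) :=
  ⟨insert_comm (lay u (t + 1)) (lay w t) _ ▸ G.quad_lay P h h0 h3, by simp [h.2.2.1],
    by simp [h.2.2.1], 1, by simp [Data.xi], by simp [Data.et]⟩

lemma Good.ulines (G : Good D p) (P : PInv D) (Z : D.Rz' p r ω) (t : ℤ) :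
    ∃ c, 0 ≤ t → t < 3 → ∀ w ∈ D.W, Str (r (lay w t)) (r (lay w (t + 1))) c := by
  by_cases ht : 0 ≤ t ∧ t < 3
  swap
  · exact ⟨0, fun h1 h2 => absurd ⟨h1, h2⟩ ht⟩
  obtain ⟨h0, h3⟩ := ht
  obtain ⟨c, hc, g1, g2⟩ := Z.meet (G.quad_u P P.seed h0 h3)
  have key : ∀ w, Perc D.Edge D.s1 D.s2 w → Thru (r (lay w t)) (r (lay w (t + 1))) c := by
    intro w hw
    induction hw with
    | fst => exact g1
    | snd => exact g2
    | step e1 e2 e3 _ _ i1 i2 =>
      exact Z.ruleS (G.quad_u P e2 h0 h3) i2 (G.quad_lay P e1 h0 h3) (by simp) (by simp) (by simp)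
        (by simp) i1 (Or.inl (by simp [e3.symm, e2.2.2.1.symm]))
  refine ⟨c, fun _ _ w hw => ?_⟩
  by_cases h : w = D.s1
  · exact Z.str (key w (P.perc w hw)) hc g2 (G.up_lay P P.seed.2.1 h0 h3) (by simp) (by simp)
      (Or.inr ⟨hw, h0, by omega⟩) (Or.inr ⟨hw, by omega, by omega⟩)
      (by simp [h, P.seed.2.2.1]) (by simp [h, P.seed.2.2.1])
  · exact Z.str (key w (P.perc w hw)) hc g1 (G.up_lay P P.seed.1 h0 h3) (by simp) (by simp)
      (Or.inr ⟨hw, h0, by omega⟩) (Or.inr ⟨hw, by omega, by omega⟩) (by simp [h]) (by simp [h])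

lemma Good.alines (G : Good D p) (P : PInv D) (Z : D.Rz' p r ω) {a : κ} {k : ℤ} {c : V}
    (hc : ∀ u w, D.Ln a k u w → Str (r (lay u 3)) (r (lay w 3)) c) {i j : Idx ι κ}
    (h : D.LL (some a) k i j) : Str (r i) (r j) c := by
  have hk : D.lo a ≤ k ∧ k < D.hi a := by
    rcases h with ⟨u, w, t, h, -⟩ | ⟨h1, h2, -⟩
    · exact (P.lnE _ _ _ _ h).2
    · exact ⟨h1, h2⟩
  obtain ⟨k1, k2⟩ := hk
  have eA := (P.lnE _ _ _ _ (P.lnA a k k1 k2)).1
  have gA := hc _ _ (P.lnA a k k1 k2)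
  have c0 : c ≠ 0 := by
    obtain ⟨f, f1, f2⟩ := Z.sep (u := lay (D.ap a k) 3) (w := lay (D.ap a (k + 1)) 3)
      (Or.inr ⟨eA.1, by omega, le_rfl⟩) (Or.inr ⟨eA.2.1, by omega, le_rfl⟩) (by simp [eA.2.2.1])
    exact gA.ne_zero f1 f2.ne'
  have g1 : Thru (r (apx a k)) (r (apx a (k + 1))) c := by
    refine Z.ruleS (u2 := lay (D.ap a k) 3) (w2 := lay (D.ap a (k + 1)) 3)
      ⟨G.quad_aa P k1 k2 (by omega) le_rfl, by simp, by simp [eA.2.2.1], 1 + p.ε, ?_, ?_⟩ gA.thru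
      (G.quad_ac P k1 k2) (by simp) (by simp) (by simp) (by simp)
      (hc _ _ (P.lnC a k k1 k2)).thru (Or.inl ?_)
    · simp [Data.xi, smul_sub]
    · simp only [Data.et]; ring
    · simp [P.acN a k k k1 k2.le k1 k2.le, P.acN a k (k + 1) k1 k2.le (by omega) (by omega)]
  have key : ∀ t : ℤ, t ≤ 3 → 0 ≤ t → ∀ u w, D.Ln a k u w →
      Thru (r (lay u t)) (r (lay w t)) c := by
    intro t ht
    induction t, ht using Int.leInductionDown with
    | base => exact fun _ u w h => (hc u w h).thru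
    | pred t ht ih =>
      intro h0 u w h
      have qa : ∀ u w, D.Edge u w → Quad {i | D.SS i} (D.xi p.o p.ε) (D.et p) (lay u (t - 1))
          (lay w (t - 1)) (lay u t) (lay w t) := fun u w e => by
        simpa using G.quad_a P e h0 (by omega)
      have hne : t ≠ t - 1 := by omega
      have : ∀ q, Relation.ReflTransGen (D.Adj a k) (D.ap a k, D.ap a (k + 1)) q →
          D.Ln a k q.1 q.2 ∧ Thru (r (lay q.1 (t - 1))) (r (lay q.2 (t - 1))) c := by
        intro q hq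
        induction hq with
        | refl =>
          exact ⟨P.lnA a k k1 k2, Z.ruleS (qa _ _ eA) (ih (by omega) _ _ (P.lnA a k k1 k2))
            (G.quad_aa P k1 k2 h0 (by omega)) (by simp) (by simp) (by simp) (by simp) g1
            (Or.inl (by simp [hne]))⟩
        | @tail q1 q2 _ e ih2 =>
          obtain ⟨e1, J, hJ, m1, m2, m3, m4⟩ := e
          have b1 := (P.lnE _ _ _ _ ih2.1).1
          have b2 := (P.lnE _ _ _ _ e1).1
          refine ⟨e1, Z.ruleS (u1 := lay q1.1 (t - 1)) (w1 := lay q1.2 (t - 1)) (qa _ _ b2) (ih (by omega) _ _ e1)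
            (G.lay_face P hJ (le_refl (t - 1)) (by omega) (fun i => Iff.rfl))
            ⟨Or.inr ⟨b2.1, h0, by omega⟩, _, m3, _, le_rfl, le_rfl, rfl⟩
            ⟨Or.inr ⟨b2.2.1, h0, by omega⟩, _, m4, _, le_rfl, le_rfl, rfl⟩
            ⟨Or.inr ⟨b1.1, h0, by omega⟩, _, m1, _, le_rfl, le_rfl, rfl⟩
            ⟨Or.inr ⟨b1.2.1, h0, by omega⟩, _, m2, _, le_rfl, le_rfl, rfl⟩ ih2.2 (Or.inl ?_)⟩
          rintro ⟨-, w, -, u, u1, u2, e⟩
          have := (lay.inj e).2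
          omega
      exact (this _ (P.conn _ _ _ _ h)).2
  rcases h with ⟨u, w, t, h, h0, h3, rfl, rfl⟩ | ⟨-, -, rfl, rfl⟩
  · rcases h3.eq_or_lt with rfl | h3'
    · exact hc u w h
    · have b := (P.lnE _ _ _ _ h).1
      exact Z.str (key t h3 h0 u w h) c0 (hc u w h).thru
        (G.pair_lay P b.1 b.2.1 b.2.2.2 (by omega) le_rfl) (by simp) (by simp)
        (Or.inr ⟨b.1, h0, h3⟩) (Or.inr ⟨b.2.1, h0, h3⟩) (by simp [h3'.ne]) (by simp [h3'.ne])
  · exact Z.str g1 c0 gA.thru (G.pair_lay P eA.1 eA.2.1 eA.2.2.2 (by omega) le_rfl) (by simp)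
      (by simp) ⟨k1, k2.le⟩ ⟨by omega, by omega⟩ (by simp) (by simp)

omit [FiniteDimensional ℝ U] in
lemma Good.vf_zero (G : Good D p) (P : PInv D) {g : U →ₗ[ℝ] ℝ} (h0 : ∀ i ∈ D.S, 0 ≤ g (D.ξ i))
    (h1 : ∀ b k, D.lo b ≤ k → k ≤ D.hi b → 0 < g (D.xi p.o p.ε (apx b k)).1) (h2 : 0 < g p.o) :
    IsFc {i | D.SS i} (D.xi p.o p.ε) {i | D.SS i ∧ g (D.xi p.o p.ε i).1 = 0} ∧
      {i | D.SS i ∧ g (D.xi p.o p.ε i).1 = 0} ≠ {i | D.SS i} := by
  refine ⟨⟨fun i hi => hi.1, g ∘ₗ LinearMap.fst ℝ U ℝ, fun i hi =>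
    ⟨G.old_nonneg P h0 h1 h2 hi, ⟨fun h => ⟨hi, h⟩, fun h => h.2⟩⟩⟩, fun h => ?_⟩
  have : (bet : Idx ι κ) ∈ {i | D.SS i ∧ g (D.xi p.o p.ε i).1 = 0} := by rw [h]; trivial
  exact h2.ne' this.2

lemma Good.uconv (G : Good D p) (P : PInv D) (Z : D.Rz' p r ω) {w : ι} (hw : w ∈ D.W) {m : V}
    (hm : Kn (r (lay w 3)) m) : ∃ (T : ℤ → V) (e : V) (q : Sq), T 3 = 0 ∧ q.Conv 0 3 ∧
      (∀ t, 0 ≤ t → t ≤ 3 → Kn (r (lay w t)) (m + T t)) ∧
      (∀ t, 0 ≤ t → t ≤ 3 → T t = T 0 + q.X t • e + q.F t • ω) ∧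
      ∀ t, 0 ≤ t → t < 3 → ∀ w ∈ D.W, Str (r (lay w t)) (r (lay w (t + 1))) (T (t + 1) - T t) := by
  choose c hc using G.ulines P Z
  obtain ⟨T, T3, TK, TS⟩ := axis (u := fun t => r (lay w t)) (lo := 0) (hi := 3)
    (fun t h0 h3 => hc t h0 h3 w hw) hm
  have hs : ∀ t, 0 ≤ t → t < 3 → ∀ w ∈ D.W,
      Str (r (lay w t)) (r (lay w (t + 1))) (T (t + 1) - T t) := by
    intro t h0 h3 w hw
    obtain ⟨τ, hτ, e⟩ := TS t h0 h3
    rw [e]
    exact (hc t h0 h3 w hw).smul hτ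
  have b0 : ∀ i ∈ D.S, 0 ≤ p.gb (D.ξ i) := fun i hi => by
    by_cases h : i = D.be
    · rw [h, G.bz]
    · exact (G.bp i hi h).le
  obtain ⟨v1, v1'⟩ := G.vf_zero P b0 G.ba (G.int _ b0 _ (P.WS G.wbW) (G.bp _ (P.WS G.wbW) G.wbN))
  obtain ⟨v2, v2'⟩ := G.vf_zero P G.h0 G.ha (G.int _ G.h0 _ (P.WS P.beW) G.hb)
  have r1 := Z.vr _ v1 v1'
  have r2 : rk (D.xi p.o p.ε) {i | D.SS i ∧ p.gb (D.xi p.o p.ε i).1 = 0} ≤ 2 := by
    have : span ℝ (D.xi p.o p.ε '' {i | D.SS i ∧ p.gb (D.xi p.o p.ε i).1 = 0}) ≤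
        span ℝ {(D.ξ D.be, (0 : ℝ)), ((0 : U), (1 : ℝ))} := by
      rw [span_le]
      rintro _ ⟨(⟨w, u⟩ | ⟨b, k⟩ | _), ⟨h1, h2⟩, rfl⟩
      · obtain rfl : w = D.be := by
          by_contra h
          exact (G.bp w (P.SS_S h1).1 h).ne' h2
        exact mem_span_pair.2 ⟨1, u, by simp [Data.xi]⟩
      · exact absurd h2 (G.ba b k h1.1 h1.2).ne'
      · exact absurd h2 (G.int _ b0 _ (P.WS G.wbW) (G.bp _ (P.WS G.wbW) G.wbN)).ne'
    refine (Submodule.finrank_mono this).trans ((finrank_span_insert_le _ _).trans ?_)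
    have := finrank_span_singleton_le ((0 : U), (1 : ℝ))
    omega
  obtain ⟨f, f1, f2⟩ := Z.vf _ v2 v2'
  have hb : ∀ t, 0 ≤ t → t ≤ 3 → r (lay D.be t) ∈
      span ℝ (insert ω (r '' {i | D.SS i ∧ p.gb (D.xi p.o p.ε i).1 = 0})) := fun t h0 h3 =>
    subset_span (Or.inr ⟨lay D.be t, ⟨Or.inr ⟨P.beW, h0, h3⟩, G.bz⟩, rfl⟩)
  have he : ∀ t, ∃ h : V →ₗ[ℝ] ℝ, 0 ≤ t → t < 3 → h ω = 1 ∧ ∀ u, 0 ≤ u → u ≤ 3 →
      (u = t ∨ u = t + 1 → h (m + T u) = 0) ∧ (u ≠ t → u ≠ t + 1 → 0 < h (m + T u)) := by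
    intro t
    by_cases ht : 0 ≤ t ∧ t < 3
    · obtain ⟨h, a1, a2, -, a3⟩ := Z.lf' (G.up_lay P hw ht.1 ht.2)
      refine ⟨h, fun _ _ => ⟨a1, fun u u0 u3 => ⟨fun hu => ?_, fun hu hu' => ?_⟩⟩⟩
      · exact ((TK u u0).apply h).2.1.1 (a2 _ (by simpa using hu))
      · exact ((TK u u0).apply h).2.2.1 (a3 _ (Or.inr ⟨hw, u0, u3⟩) (by simp [hu, hu']))
    · exact ⟨0, fun a b => absurd ⟨a, b⟩ ht⟩
  choose h hh using he
  have hd : ∀ (g : V →ₗ[ℝ] ℝ) u v, g (T u - T v) = g (m + T u) - g (m + T v) := fun g u v => by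
    simp
  obtain ⟨e, q, hq, hT⟩ := convline (T := T) (ω := ω) (v := r (lay D.be 0)) (lo := 0) (hi := 3)
    (by omega) _ (r1.trans (by omega)) (subset_span (mem_insert _ _)) (hb 0 le_rfl (by omega))
    (fun t h0 h3 => (hs t h0 h3 _ P.beW).thru.mem (hb t h0 h3.le) (hb (t + 1) (by omega) (by omega)))
    f (fun h0 => G.hb.ne' ((f2 _ (Or.inr ⟨P.beW, le_rfl, by omega⟩)).2.1 h0).2) f1
    (fun t h0 h3 => (hs t h0 h3 _ G.w2W).thru.zero
      ((f2 _ (Or.inr ⟨G.w2W, h0, h3.le⟩)).2.2 ⟨Or.inr ⟨G.w2W, h0, h3.le⟩, G.hz⟩)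
      ((f2 _ (Or.inr ⟨G.w2W, by omega, by omega⟩)).2.2 ⟨Or.inr ⟨G.w2W, by omega, by omega⟩, G.hz⟩))
    h (fun t h0 h3 => (hh t h0 h3).1)
    (fun t h0 h3 => by
      rw [hd, ((hh t h0 h3).2 t h0 h3.le).1 (Or.inl rfl),
        ((hh t h0 h3).2 (t + 1) (by omega) (by omega)).1 (Or.inr rfl), sub_self])
    (fun t h0 h3 => by
      rw [hd, ((hh t h0 (by omega)).2 (t + 1) (by omega) (by omega)).1 (Or.inr rfl), sub_zero]
      exact ((hh t h0 (by omega)).2 _ (by omega) (by omega)).2 (by omega) (by omega))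
    (fun t h0 h3 => by
      rw [hd, ((hh (t + 1) (by omega) h3).2 (t + 1) (by omega) (by omega)).1 (Or.inl rfl), zero_sub,
        neg_lt_zero]
      exact ((hh (t + 1) (by omega) h3).2 _ (by omega) (by omega)).2 (by omega) (by omega))
    (by
      obtain ⟨f, f1, f2⟩ := Z.sep (u := lay w 0) (w := lay w (0 + 1))
        (Or.inr ⟨hw, by omega, by omega⟩) (Or.inr ⟨hw, by omega, by omega⟩) (by simp)
      exact (hs 0 le_rfl (by omega) w hw).ne_zero f1 f2.ne')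
  exact ⟨T, e, q, T3, hq, fun t h0 _ => TK t h0, hT, hs⟩

theorem Good.rigid (G : Good D p) (P : PInv D) {K : ℝ} (R : Rigid K D) : Rigid K (D.step p) := by
  intro V _ _ _ r ω Z
  obtain ⟨o, e, q, μ, M⟩ := R V _ ω (G.rz_top P Z)
  have w0 := P.grW _ P.g0.1 P.g0.2
  obtain ⟨T, e', q', T3, hq, TK, hT, hs⟩ := G.uconv P Z w0 (M.kn _ P.g0.1 P.g0.2)
  have hA := fun a k i j => G.alines P Z (a := a) (k := k) (i := i) (j := j) (M.str a k)
  have hK : ∀ t : ℤ, t ≤ 3 → 0 ≤ t → ∀ g, D.lo ≤ g → g ≤ D.hi →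
      Kn (r (lay (D.gr g) t)) (mdl o e ω q g + T t) := by
    intro t ht
    induction t, ht using Int.leInductionDown with
    | base => intro _ g h1 h2; rw [T3, add_zero]; exact M.kn g h1 h2
    | pred t ht ih =>
      intro h0
      have one : ∀ g g' c (s : ℝ), D.lo ≤ g → g ≤ D.hi → D.gr g' ∈ D.W → D.gr g' ≠ D.gr g →
          Str (r (lay (D.gr g') (t - 1))) (r (lay (D.gr g) (t - 1))) c →
          mdl o e ω q g = mdl o e ω q g' + s • c →
          Kn (r (lay (D.gr g') (t - 1))) (mdl o e ω q g' + T (t - 1)) →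
          Kn (r (lay (D.gr g) (t - 1))) (mdl o e ω q g + T (t - 1)) := by
        intro g g' c s h1 h2 h3 h4 h5 h6 h7
        have b1 := hs (t - 1) h0 (by omega) _ (P.grW g h1 h2)
        have b2 := G.up_lay P (P.grW g h1 h2) h0 (by omega)
        rw [sub_add_cancel] at b1 b2
        refine Z.ruleA b1.symm h5 (ih (by omega) g h1 h2) h7 (t1 := -1) (t2 := s) ?_ ?_ b2 (by simp)
          (by simp) (Or.inr ⟨h3, h0, by omega⟩) (by simp [h4])
        · rw [neg_one_smul]; abel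
        · rw [h6]; abel
      refine box_ind _ P.g0 (TK _ h0 (by omega)) (fun g a h1 h2 h3 => ?_)
      have l := P.lnG g a h1 h2 h3
      have b := (P.lnE _ _ _ _ l).1
      have s := hA a _ _ _ (Or.inl ⟨_, _, t - 1, l, h0, by omega, rfl, rfl⟩)
      have c1 : D.lo ≤ Function.update g a (g a + 1) := by
        intro b
        by_cases hb : b = a
        · have : D.lo a ≤ g a := h1 a
          rw [hb, Function.update_self]
          exact this.trans (Int.le_add_one le_rfl)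
        · simpa [hb] using h1 b
      have c2 : Function.update g a (g a + 1) ≤ D.hi := by
        intro b
        by_cases hb : b = a
        · subst hb; simp only [Function.update_self]; omega
        · simpa [hb] using h2 b
      exact ⟨one _ _ _ 1 c1 c2 b.1 b.2.2.1 s (by rw [mdl_update, one_smul]; rfl),
        one _ _ _ (-1) h1 h2 b.2.1 b.2.2.1.symm s.symm (by
          rw [mdl_update, neg_one_smul]; exact (add_neg_cancel_right _ _).symm)⟩
  have hm : ∀ g : Option κ → ℤ, 0 ≤ g none → g none ≤ 3 →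
      mdl (o + T 0) (fun a => a.elim e' e) ω (fun a => a.elim q' q) g =
        mdl o e ω q (fun a => g (some a)) + T (g none) := by
    intro g h0 h3
    rw [hT _ h0 h3]
    simp only [mdl, Fintype.sum_option, Option.elim]
    abel
  refine ⟨o + T 0, fun a => a.elim e' e, fun a => a.elim q' q, μ, ?_, fun g h1 h2 => ?_, ?_,
    fun h h1 h2 h3 => ?_, ?_, M.ineq⟩
  · rintro (_ | a)
    · exact hq
    · exact M.conv a
  · rw [hm g (h1 none) (h2 none)]
    exact hK _ (h2 none) (h1 none) _ (fun a => h1 (some a)) (fun a => h2 (some a))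
  · rintro (_ | a) k i j h
    · obtain ⟨w, hw, h0, h3, rfl, rfl⟩ := h
      have : inc e' ω q' k = T (k + 1) - T k := by
        rw [hT k h0 h3.le, hT (k + 1) (by omega) (by omega), inc, sub_smul, sub_smul]
        abel
      exact this ▸ hs k h0 h3 w hw
    · exact hA a k _ _ h
  · rw [hm _ (show (0 : ℤ) ≤ 3 by omega) le_rfl]
    show h (mdl o e ω q D.g0 + T 3) ≤ μ
    rw [T3, add_zero]
    exact M.tn h h1 (fun i hi => h2 (lay i 3) (Or.inl ⟨hi, rfl⟩)) h3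
  · rintro (_ | a) a1 a2
    swap
    · exact M.ex a (fun h => a1 (congrArg some h)) (fun h => a2 (congrArg some h))
    have c0 := G.c0
    have hN : D.LF' p {i | ∃ w u, i = lay w u ∧ D.SS (lay w u) ∧
        D.η w + p.c * (u : ℝ) ^ 2 - (p.ψ (D.ξ w) + p.c * u + 6 * p.c) = 0} := by
      refine G.zero_face P p.ψ p.c (6 * p.c) ?_ (fun w u hi => ⟨?_, ⟨fun h => ⟨w, u, rfl, hi, h⟩, ?_⟩⟩)
      · rintro _ ⟨w, u, rfl, h, -⟩
        exact ⟨w, u, rfl, h⟩
      · rcases hi with ⟨h1, rfl⟩ | ⟨h1, h2, h3⟩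
        · have := G.p0 w h1
          push_cast
          linarith
        · have := G.pW w h1
          rcases (show u = 0 ∨ u = 1 ∨ u = 2 ∨ u = 3 by omega) with rfl | rfl | rfl | rfl <;>
            push_cast <;> linarith
      · rintro ⟨w', u', e, -, h⟩
        obtain ⟨rfl, rfl⟩ := lay.inj e
        exact h
    obtain ⟨h, h1, h2, h3, -⟩ := Z.lf' hN
    have b3 := M.tn h h1 (fun i hi => h3 (lay i 3) (Or.inl ⟨hi, rfl⟩))
      (h2 _ ⟨_, _, rfl, Or.inl ⟨P.v0, rfl⟩, by have := G.pv; push_cast; linarith⟩)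
    have b0 := ((TK 0 le_rfl (by omega)).apply h).2.1.1
      (h2 _ ⟨_, _, rfl, Or.inr ⟨w0, le_rfl, by omega⟩, by have := G.pg; push_cast; linarith⟩)
    have b1 := ((TK 1 (by omega) (by omega)).apply h).2.1.1
      (h2 _ ⟨_, _, rfl, Or.inr ⟨w0, by omega, by omega⟩, by have := G.pg; push_cast; linarith⟩)
    have hv : ∀ t, 0 ≤ t → t ≤ 3 → h (T t) = h (T 0) + q'.val (-h e') t := by
      intro t h0 h3
      rw [hT t h0 h3, map_add, map_add, map_smul, map_smul, h1, Sq.val, smul_eq_mul, smul_eq_mul]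
      ring
    have v0 := hv 0 le_rfl (by omega)
    have v1 := hv 1 (by omega) (by omega)
    have v3 := hv 3 (by omega) le_rfl
    rw [map_add] at b0 b1
    rw [T3, map_zero] at v3
    have s0 : -h e' = q'.s 0 := le_antisymm (hq.le_s le_rfl (by omega) (by rw [zero_add]; linarith))
      (hq.s_le le_rfl (by omega) (by rw [zero_add]; linarith))
    show q'.D 0 3 ≤ μ
    rw [Sq.D, ← s0]
    linarith

end Pool.Agent.P.MP_3c8515_co
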