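import Pool.Agent.P.MP_3c8515_co.Step4

namespace Pool.Agent.P.MP_3c8515_co

open Set Submodule Module Filter

namespace Sq

variable {q : Sq} {lo hi : ℤ}

lemma Conv.sinc (h : q.Conv lo hi) {σ : ℝ} {j m : ℤ} (h1 : lo ≤ j) (hσ : σ < q.s j) (h3 : j < m)
    (h4 : m ≤ hi) : q.val σ j < q.val σ m := by
  have a1 := h.inc h1 hσ.le (m := j + 1) (m' := m) (by omega) h3 h4
  have a2 := h.step σ h1 (by omega)
  have a4 := h.X j h1 (by omega)
  nlinarith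

lemma Conv.sdec (h : q.Conv lo hi) {σ : ℝ} {j m : ℤ} (h1 : j < hi) (hσ : q.s j < σ) (h2 : lo ≤ m)
    (h3 : m ≤ j) : q.val σ (j + 1) < q.val σ m := by
  have a1 := h.dec h1 hσ.le h2 h3 (by omega)
  have a2 := h.step σ (k := j) (by omega) h1
  have a4 := h.X j (by omega) h1
  nlinarith

lemma Conv.expose_of (h : q.Conv lo hi) {σ : ℝ} {i i' : ℤ} (h1 : lo ≤ i) (h2 : i ≤ i')
    (h3 : i' ≤ i + 1) (h4 : i' ≤ hi) (a : lo < i → q.s (i - 1) < σ) (b : i' < hi → σ < q.s i')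
    (c : q.val σ i' = q.val σ i) (m : ℤ) (m1 : lo ≤ m) (m2 : m ≤ hi) :
    0 ≤ q.val σ m - q.val σ i ∧ (q.val σ m - q.val σ i = 0 ↔ i ≤ m ∧ m ≤ i') := by
  rcases lt_or_ge m i with h5 | h5
  · have := h.sdec (j := i - 1) (by omega) (a (by omega)) m1 (by omega)
    rw [sub_add_cancel] at this
    exact ⟨by linarith, ⟨fun h0 => by linarith, fun h0 => by omega⟩⟩
  rcases lt_or_ge i' m with h6 | h6
  · have := h.sinc (j := i') (by omega) (b (by omega)) h6 m2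
    exact ⟨by linarith, ⟨fun h0 => by linarith, fun h0 => by omega⟩⟩
  · rcases (show m = i ∨ m = i' by omega) with rfl | rfl
    · exact ⟨by linarith, ⟨fun _ => ⟨h5, h6⟩, fun _ => by linarith⟩⟩
    · exact ⟨by linarith, ⟨fun _ => ⟨h5, h6⟩, fun _ => by linarith⟩⟩

lemma Conv.expose (h : q.Conv lo hi) {i i' : ℤ} (h1 : lo ≤ i) (h2 : i ≤ i') (h3 : i' ≤ i + 1)
    (h4 : i' ≤ hi) : ∃ σ, ∀ m, lo ≤ m → m ≤ hi →
      0 ≤ q.val σ m - q.val σ i ∧ (q.val σ m - q.val σ i = 0 ↔ i ≤ m ∧ m ≤ i') := by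
  rcases (show i' = i + 1 ∨ i' = i by omega) with rfl | rfl
  · refine ⟨q.s i, h.expose_of h1 h2 h3 h4 (fun a => h.sstrict (by omega) (by omega) (by omega))
      (fun a => h.s i h1 a) ?_⟩
    have := h.step (q.s i) h1 (by omega)
    linarith
  · by_cases a : lo < i'
    · by_cases b : i' < hi
      · have := h.sstrict (k := i' - 1) (m := i') (by omega) (by omega) b
        exact ⟨(q.s (i' - 1) + q.s i') / 2, h.expose_of h1 h2 h3 h4 (fun _ => by linarith)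
          (fun _ => by linarith) rfl⟩
      · exact ⟨q.s (i' - 1) + 1, h.expose_of h1 h2 h3 h4 (fun _ => by linarith)
          (fun c => absurd c b) rfl⟩
    · exact ⟨q.s i' - 1, h.expose_of h1 h2 h3 h4 (fun c => absurd c a) (fun _ => by linarith) rfl⟩

lemma Conv.notch {q' : Sq} {N : ℤ} (h : q.Conv 0 N) (h' : q'.Conv 0 N) {l m I J : ℤ} (l1 : 1 ≤ l)
    (l2 : l + 2 ≤ I) (l3 : I ≤ N) (m1 : 1 ≤ m) (m2 : m < J) (m3 : J ≤ N)
    (d : q.D l I ≤ q'.D m J) (d1 : q.D l I ≤ q.D 1 0) (d2 : q.D l I ≤ q'.D 1 0) :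
    ∃ (σ : ℝ) (m' : ℤ), m < m' ∧ m' ≤ J ∧ q'.val σ J - q'.val σ m' = q.D l I ∧
      ∀ i j, 0 ≤ i → i ≤ N → 0 ≤ j → j ≤ N → (i = 0 ∨ j = 0 ∨ I ≤ i ∨ J ≤ j) →
        q.D l I ≤ (q.val (q.s l) i - q.val (q.s l) l) + (q'.val σ j - q'.val σ m') := by
  classical
  have v0 : 0 < q.D l I := (h.D_pos (k := l) (by omega) (by omega)).trans_le
    (h.D_anti (by omega) le_rfl (by omega) l2 l3 (by omega))
  have hex : ∃ n : ℕ, m + n < J ∧ q'.D (m + n) J < q.D l I := by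
    refine ⟨(J - 1 - m).toNat, by omega, ?_⟩
    rw [show m + ((J - 1 - m).toNat : ℤ) = J - 1 by omega]
    have := h'.step (q'.s (J - 1)) (k := J - 1) (by omega) (by omega)
    rw [sub_add_cancel] at this
    unfold D at v0 ⊢
    linarith
  obtain ⟨n, ⟨n1, n2⟩, n3⟩ : ∃ n : ℕ, (m + n < J ∧ q'.D (m + n) J < q.D l I) ∧
      ∀ k < n, ¬ (m + k < J ∧ q'.D (m + k) J < q.D l I) :=
    ⟨Nat.find hex, Nat.find_spec hex, fun k hk => Nat.find_min hex hk⟩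
  have n0 : n ≠ 0 := by
    rintro rfl
    simp only [Nat.cast_zero, add_zero] at n2
    linarith
  have n4 : q.D l I ≤ q'.D (m + n - 1) J := by
    have := n3 (n - 1) (by omega)
    rw [show m + ((n - 1 : ℕ) : ℤ) = m + n - 1 by omega] at this
    exact not_lt.1 fun h0 => this ⟨by omega, h0⟩
  generalize hm' : m + n = m' at n1 n2 n4
  have m4 : m < m' := by omega
  have hX : 0 < q'.X J - q'.X m' := by
    have a1 := h'.X m' (by omega) (by omega)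
    have a2 := h'.Xmono (k := m' + 1) (m := J) (by omega) (by omega) m3
    linarith
  set σ := (q'.F J - q'.F m' - q.D l I) / (q'.X J - q'.X m') with hσ
  have e : q'.val σ J - q'.val σ m' = q.D l I := by
    have : σ * (q'.X J - q'.X m') = q'.F J - q'.F m' - q.D l I := div_mul_cancel₀ _ hX.ne'
    unfold val
    linarith
  have s1 : σ ≤ q'.s m' := by
    have := q'.chg σ (q'.s m') J m'
    by_contra hc
    push Not at hc
    unfold D at n2 e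
    nlinarith
  have s2 : q'.s (m' - 1) ≤ σ := by
    have a1 := q'.chg σ (q'.s (m' - 1)) J m'
    have a2 := h'.step (q'.s (m' - 1)) (k := m' - 1) (by omega) (by omega)
    rw [sub_add_cancel] at a2
    by_contra hc
    push Not at hc
    unfold D at n4 e
    nlinarith
  have p1 : ∀ i, 0 ≤ i → i ≤ N → q.val (q.s l) l ≤ q.val (q.s l) i := by
    intro i i1 i2
    rcases le_total l i with h0 | h0
    · exact h.inc (by omega) le_rfl le_rfl h0 i2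
    · exact h.dec (j := l) (by omega) le_rfl i1 h0 (by omega)
  have p2 : ∀ j, 0 ≤ j → j ≤ N → q'.val σ m' ≤ q'.val σ j := by
    intro j j1 j2
    rcases le_total m' j with h0 | h0
    · exact h'.inc (by omega) s1 le_rfl h0 j2
    · exact h'.dec (j := m' - 1) (by omega) s2 j1 h0 (by omega)
  refine ⟨σ, m', m4, n1.le, e, fun i j i1 i2 j1 j2 hc => ?_⟩
  have p3 := p1 i i1 i2
  have p4 := p2 j j1 j2
  rcases hc with rfl | rfl | hc | hc
  · have a1 := h.lo_bwd (j := 1) (m := 0) (M := 0) (by omega) (h.smono (by omega) l1 (by omega))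
      le_rfl le_rfl (by omega)
    have a2 := p1 (1 + 1) (by omega) (by omega)
    linarith
  · have a1 := h'.lo_bwd (j := 1) (m := 0) (M := 0) (by omega)
      ((h'.smono (m := m' - 1) (by omega) (by omega) (by omega)).trans s2) le_rfl le_rfl (by omega)
    have a2 := p2 (1 + 1) (by omega) (by omega)
    linarith
  · have := h.inc (j := l) (by omega) le_rfl (m := I) (by omega) hc i2
    unfold D
    linarith
  · have := h'.inc (j := m') (by omega) s1 n1.le hc j2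
    linarith

lemma Conv.notch_back {q' : Sq} {N : ℤ} (h : q.Conv 0 N) (h' : q'.Conv 0 N) {l m m' I J : ℤ}
    (l1 : 0 ≤ l) (l2 : l < N) (m1 : 0 ≤ m) (m2 : m < m') (m3 : m' ≤ J) (m4 : J ≤ N) {σ τ c : ℝ}
    (e1 : c + q.val σ l + q'.val τ J = 0) (e2 : c + q.val σ (l + 1) + q'.val τ J = 0)
    (e3 : c + q.val σ I + q'.val τ m' = 0) (e4 : 0 ≤ c + q.val σ I + q'.val τ (m' - 1)) :
    q.D l I ≤ q'.D m J := by
  have s0 : σ = q.s l := le_antisymm (h.le_s l1 l2 (by linarith)) (h.s_le l1 l2 (by linarith))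
  have s1 : q'.s (m' - 1) ≤ τ := h'.s_le (by omega) (by omega) (by rw [sub_add_cancel]; linarith)
  have a1 := h'.up_fwd (j := m) (v := m') (m := J) (M := J) m1
    ((h'.smono m1 (by omega) (by omega)).trans s1) m2.le m3 le_rfl m4
  rw [D, ← s0]
  linarith

end Sq

section Gen

variable {ι U V : Type*} [AddCommGroup U] [Module ℝ U] [AddCommGroup V] [Module ℝ V]

lemma Rules.apex {I0 : Set ι} {ξ : ι → U} {st : ι → ℕ} {H : ℕ → ℝ} {η : ι → ℝ}
    (R : Rules I0 ξ st H η) {J0 J : Set ι} (hJ0 : LF I0 ξ η J0) {s : ℕ} (hs : 0 < s)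
    (g : U →ₗ[ℝ] ℝ) (θ : U) (θ' κ : ℝ) (hκ : 0 < κ) (y l : ℤ → ι) (lo hi : ℤ)
    (hz : ∀ i ∈ J0, st i < s ∧ g (ξ i) = 0) (hold : ∀ i ∈ I0, st i < s → 0 ≤ g (ξ i))
    (hnew : ∀ i ∈ I0, st i = s → ∃ k, lo ≤ k ∧ k ≤ hi ∧ i = y k)
    (hy : ∀ k, lo ≤ k → k ≤ hi → y k ∈ I0 ∧ st (y k) = s ∧ g (ξ (y k)) = -1 ∧ l k ∈ I0 ∧
      ξ (y k) = θ + κ • ξ (l k) ∧ η (y k) = θ' + κ * η (l k))
    (inj : Function.Injective y)
    (hJ : ∀ i, i ∈ J ↔ i ∈ J0 ∨ ∃ k, lo ≤ k ∧ k ≤ hi ∧ l k ∈ J0 ∧ i = y k) : LF I0 ξ η J := by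
  refine R.copy subset_rfl hJ0 hs g θ θ' κ hκ (fun i hi => ?_) (fun i hi h => ?_)
    (fun i hi h => ?_)
  · rcases (hJ i).1 hi with h | ⟨k, k1, k2, -, rfl⟩
    · exact ⟨hJ0.1 h, (hz i h).1.le⟩
    · exact ⟨(hy k k1 k2).1, (hy k k1 k2).2.1.le⟩
  · refine ⟨hold i hi h, (hJ i).trans ⟨?_, fun h0 => Or.inl h0.2⟩⟩
    rintro (h0 | ⟨k, k1, k2, -, rfl⟩)
    · exact ⟨(hz i h0).2, h0⟩
    · exact absurd (hy k k1 k2).2.1 h.ne
  · obtain ⟨k, k1, k2, rfl⟩ := hnew i hi h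
    obtain ⟨-, -, a1, a2, a3, a4⟩ := hy k k1 k2
    refine Or.inr ⟨a1, l k, a2, a3, a4, (hJ _).trans ⟨?_, fun h0 => Or.inr ⟨k, k1, k2, h0, rfl⟩⟩⟩
    rintro (h0 | ⟨k', -, -, h0, e⟩)
    · exact absurd h (hz _ h0).1.ne
    · rwa [inj e]

variable {S : Set ι} {ξ : ι → U} {η : ι → ℝ} {r : ι → V} {ω : V}

lemma Rz.swap (R : Rz S ξ η r ω) {u w u' w' : ι} (h : Quad S ξ η u w u' w') :
    Quad S ξ η u' w' u w := by
  obtain ⟨h1, h2, h3, κ, h4, h5⟩ := h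
  have hκ : κ ≠ 0 := by
    rintro rfl
    obtain ⟨-, ψ, hψ⟩ := R.vert u (h1.1 (by simp))
    rw [zero_smul, sub_eq_zero] at h4
    rw [zero_mul, sub_eq_zero] at h5
    have a1 := (hψ u (h1.1 (by simp))).2.2 rfl
    rw [← h4, ← h5] at a1
    exact h2 ((hψ w (h1.1 (by simp))).2.1 a1).symm
  refine ⟨?_, h3, h2, κ⁻¹, ?_, ?_⟩
  · have : ({u', w', u, w} : Set ι) = {u, w, u', w'} := by
      ext; simp only [mem_insert_iff, mem_singleton_iff]; tauto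
    rwa [this]
  · rw [h4, smul_smul, inv_mul_cancel₀ hκ, one_smul]
  · rw [h5, ← mul_assoc, inv_mul_cancel₀ hκ, one_mul]

variable [FiniteDimensional ℝ V] [FiniteDimensional ℝ U]

lemma Rz.ruleQ (R : Rz S ξ η r ω) {u w u1 w1 u2 w2 : ι} {c : V} (q1 : Quad S ξ η u w u1 w1)
    (q2 : Quad S ξ η u w u2 w2) (g1 : Thru (r u1) (r w1) c) (g2 : Thru (r u2) (r w2) c)
    (hn : u2 ∉ ({u, w, u1, w1} : Set ι)) : Thru (r u) (r w) c :=
  R.ruleS q2 g2 q1.1 (by simp) (by simp) (by simp) (by simp) g1 (Or.inl hn)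

omit [FiniteDimensional ℝ U] in
lemma Rz.line_conv (R : Rz S ξ η r ω) {l A B : ℤ → ι} {lo hi : ℤ} (hl : lo < hi) {T : ℤ → V} {m : V}
    (lS : ∀ k, lo ≤ k → k ≤ hi → l k ∈ S) (lI : Function.Injective l)
    (lE : ∀ k, lo ≤ k → k < hi → LF S ξ η {l k, l (k + 1)})
    (lK : ∀ k, lo ≤ k → k ≤ hi → Kn (r (l k)) (m + T k))
    (lG : Str (r (l lo)) (r (l (lo + 1))) (T (lo + 1) - T lo))
    (AG : ∀ k, lo ≤ k → k < hi → Thru (r (A k)) (r (A (k + 1))) (T (k + 1) - T k))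
    (BG : ∀ k, lo ≤ k → k < hi → Thru (r (B k)) (r (B (k + 1))) (T (k + 1) - T k))
    {J1 J2 : Set ι} (v1 : IsFc S ξ J1) (n1 : J1 ≠ S) (r1 : rk ξ J1 ≤ 2) (v2 : IsFc S ξ J2)
    (AJ : ∀ k, lo ≤ k → k ≤ hi → A k ∈ J1) (BJ : ∀ k, lo ≤ k → k ≤ hi → B k ∈ J2)
    (AN : A lo ∉ J2) : ∃ (e : V) (q : Sq), q.Conv lo hi ∧
      ∀ k, lo ≤ k → k ≤ hi → T k = T lo + q.X k • e + q.F k • ω := by
  have a0 : A lo ∈ S := v1.1 (AJ lo le_rfl hl.le)
  obtain ⟨f, f1, f2⟩ := R.vf _ v2 (fun h => AN (h ▸ a0))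
  have r2 := R.vr _ v1 n1
  have hb : ∀ t, lo ≤ t → t ≤ hi → r (A t) ∈ span ℝ (insert ω (r '' J1)) := fun t h0 h3 =>
    subset_span (Or.inr ⟨_, AJ t h0 h3, rfl⟩)
  have hz : ∀ t, lo ≤ t → t ≤ hi → f (r (B t)) = 0 := fun t h0 h3 =>
    (f2 _ (v2.1 (BJ t h0 h3))).2.2 (BJ t h0 h3)
  have he : ∀ t, ∃ h : V →ₗ[ℝ] ℝ, lo ≤ t → t < hi → h ω = 1 ∧ ∀ u, lo ≤ u → u ≤ hi →
      (u = t ∨ u = t + 1 → h (m + T u) = 0) ∧ (u ≠ t → u ≠ t + 1 → 0 < h (m + T u)) := by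
    intro t
    by_cases ht : lo ≤ t ∧ t < hi
    · obtain ⟨h, a1, a2, -, a3⟩ := R.lf' (lE t ht.1 ht.2)
      refine ⟨h, fun _ _ => ⟨a1, fun u u0 u3 => ⟨fun hu => ?_, fun hu hu' => ?_⟩⟩⟩
      · exact ((lK u u0 u3).apply h).2.1.1 (a2 _ (by rcases hu with rfl | rfl <;> simp))
      · exact ((lK u u0 u3).apply h).2.2.1 (a3 _ (lS u u0 u3) (by simp [lI.eq_iff, hu, hu']))
    · exact ⟨0, fun a b => absurd ⟨a, b⟩ ht⟩
  choose h hh using he
  have hd : ∀ (g : V →ₗ[ℝ] ℝ) u v, g (T u - T v) = g (m + T u) - g (m + T v) := fun g u v => by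
    simp
  exact convline (T := T) (ω := ω) (v := r (A lo)) hl _ (r2.trans (by omega))
    (subset_span (mem_insert _ _)) (hb lo le_rfl hl.le)
    (fun t h0 h3 => (AG t h0 h3).mem (hb t h0 h3.le) (hb (t + 1) (by omega) (by omega)))
    f (fun h0 => AN ((f2 _ a0).2.1 h0)) f1
    (fun t h0 h3 => (BG t h0 h3).zero (hz t h0 h3.le) (hz (t + 1) (by omega) (by omega)))
    h (fun t h0 h3 => (hh t h0 h3).1)
    (fun t h0 h3 => by
      rw [hd, ((hh t h0 h3).2 t h0 h3.le).1 (Or.inl rfl),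
        ((hh t h0 h3).2 (t + 1) (by omega) (by omega)).1 (Or.inr rfl), sub_self])
    (fun t h0 h3 => by
      rw [hd, ((hh t h0 (by omega)).2 (t + 1) (by omega) (by omega)).1 (Or.inr rfl), sub_zero]
      exact ((hh t h0 (by omega)).2 _ (by omega) (by omega)).2 (by omega) (by omega))
    (fun t h0 h3 => by
      rw [hd, ((hh (t + 1) (by omega) h3).2 (t + 1) (by omega) (by omega)).1 (Or.inl rfl), zero_sub,
        neg_lt_zero]
      exact ((hh (t + 1) (by omega) h3).2 _ (by omega) (by omega)).2 (by omega) (by omega))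
    (by
      obtain ⟨f, f1, f2⟩ := R.sep (lS lo le_rfl hl.le) (lS (lo + 1) (by omega) (by omega))
        (fun e => by have := lI e; omega)
      exact lG.ne_zero f1 f2.ne')

end Gen

end Pool.Agent.P.MP_3c8515_co
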