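import Pool.Agent.P.MP_3c8515_co.Poly
import Pool.Agent.P.MP_3c8515_co.Defs

namespace Pool.Agent.P.MP_3c8515_co

open Set Submodule Module Filter

section Transfer

lemma exists_chart {V E : Type*} [AddCommGroup V] [Module ℝ V] [FiniteDimensional ℝ V]
    [AddCommGroup E] [Module ℝ E] [FiniteDimensional ℝ E] (lam : V →ₗ[ℝ] ℝ) (v : V)
    (hv : lam v ≠ 0) (hd : finrank ℝ V = finrank ℝ E + 1) :
    ∃ Φ : V ≃ₗ[ℝ] ℝ × E, ∀ w, (Φ w).1 = lam w := by
  have hr : LinearMap.range lam = ⊤ := by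
    rw [eq_top_iff]
    intro t _
    exact ⟨(t / lam v) • v, by rw [map_smul, smul_eq_mul, div_mul_cancel₀ _ hv]⟩
  have hk : finrank ℝ (LinearMap.ker lam) = finrank ℝ E := by
    have := lam.finrank_range_add_finrank_ker
    rw [hr, finrank_top, finrank_self] at this
    omega
  let e : LinearMap.ker lam ≃ₗ[ℝ] E := LinearEquiv.ofFinrankEq _ _ hk
  let pr : V →ₗ[ℝ] V := LinearMap.id - lam.smulRight ((lam v)⁻¹ • v)
  have hpr : ∀ w, pr w ∈ LinearMap.ker lam := by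
    intro w
    simp only [pr, LinearMap.mem_ker, LinearMap.sub_apply, LinearMap.id_apply,
      LinearMap.smulRight_apply, map_sub, map_smul, smul_eq_mul]
    field_simp
    ring
  let f : V →ₗ[ℝ] ℝ × E := lam.prod (e.toLinearMap ∘ₗ pr.codRestrict _ hpr)
  have hf : Function.Injective f := by
    rw [← LinearMap.ker_eq_bot, eq_bot_iff]
    intro w hw
    have h1 : lam w = 0 := congrArg Prod.fst hw
    have h2 : e (pr.codRestrict _ hpr w) = 0 := congrArg Prod.snd hw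
    have h3 : pr w = 0 := congrArg Subtype.val (e.map_eq_zero_iff.1 h2)
    simpa [pr, h1] using h3
  refine ⟨f.linearEquivOfInjective hf ?_, fun w => rfl⟩
  rw [hd, finrank_prod, finrank_self, add_comm]

lemma isFc_congr {ι V V' : Type*} [AddCommGroup V] [Module ℝ V] [AddCommGroup V'] [Module ℝ V']
    {S J : Set ι} {p : ι → V} {p' : ι → V'} (Φ : V ≃ₗ[ℝ] V') (c : ι → ℝ) (hc : ∀ i ∈ S, 0 < c i)
    (hp : ∀ i ∈ S, p' i = c i • Φ (p i)) (hJ : IsFc S p J) : IsFc S p' J := by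
  obtain ⟨hJS, h, hh⟩ := hJ
  refine ⟨hJS, h ∘ₗ Φ.symm.toLinearMap, fun i hi => ?_⟩
  have h1 : (h ∘ₗ Φ.symm.toLinearMap) (p' i) = c i * h (p i) := by
    rw [hp i hi]; simp
  rw [h1, mul_eq_zero, or_iff_right (hc i hi).ne']
  exact ⟨mul_nonneg (hc i hi).le (hh i hi).1, (hh i hi).2⟩

lemma rk_congr {ι V V' : Type*} [AddCommGroup V] [Module ℝ V] [AddCommGroup V'] [Module ℝ V']
    {J : Set ι} {p : ι → V} {p' : ι → V'} (Φ : V ≃ₗ[ℝ] V') (c : ι → ℝ) (hc : ∀ i ∈ J, 0 < c i)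
    (hp : ∀ i ∈ J, p' i = c i • Φ (p i)) : rk p' J = rk p J := by
  have : span ℝ (p' '' J) = (span ℝ (p '' J)).map Φ.toLinearMap := by
    apply le_antisymm
    · rw [span_le]
      rintro _ ⟨i, hi, rfl⟩
      rw [hp i hi]
      exact smul_mem _ _ (mem_map_of_mem (subset_span (mem_image_of_mem p hi)))
    · rw [map_span, span_le]
      rintro _ ⟨_, ⟨i, hi, rfl⟩, rfl⟩
      have h1 : Φ.toLinearMap (p i) = (c i)⁻¹ • p' i := by
        rw [hp i hi, smul_smul, inv_mul_cancel₀ (hc i hi).ne', one_smul]; rfl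
      rw [h1]
      exact smul_mem _ _ (subset_span (mem_image_of_mem p' hi))
  unfold rk
  rw [this, LinearEquiv.finrank_map_eq]

/-- the solid light cone over the unit ball -/
def Cone (d : ℕ) : Set (ℝ × EuclideanSpace ℝ (Fin d)) := {x | ‖x.2‖ ≤ x.1}

theorem transfer_hom {ι : Type*} {d : ℕ} (hd : 1 ≤ d) {S : Set ι} (hS : S.Finite)
    (q : ι → EuclideanSpace ℝ (Fin d)) (hv : ∀ i ∈ S, IsFc S (hom q) {i})
    (hP : Scribable 0 (d - 1) (convexHull ℝ (q '' S))) :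
    ∃ r : ι → ℝ × EuclideanSpace ℝ (Fin d),
      (∀ J, IsFc S (hom q) J → IsFc S r J ∧ rk r J ≤ rk (hom q) J) ∧
      (∀ i ∈ S, ∃ h : ℝ × EuclideanSpace ℝ (Fin d) →ₗ[ℝ] ℝ,
        (∀ j ∈ S, 0 ≤ h (r j) ∧ (h (r j) = 0 ↔ j = i)) ∧ ∀ x ∈ Cone d, 0 ≤ h x) ∧
      (∀ J, IsFc S (hom q) J → rk (hom q) J = d → ∃ x ∈ Cone d, x ∈ convexHull ℝ (r '' J)) := by
  classical
  obtain ⟨Q, ⟨⟨T, hT⟩, -⟩, ⟨ψ⟩, hav, hcut⟩ := hP
  have hTf : (T : Set (EuclideanSpace ℝ (Fin d))).Finite := T.finite_toSet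
  generalize (T : Set (EuclideanSpace ℝ (Fin d))) = T' at hT hTf
  rw [← image_id T'] at hT
  subst hT
  let φ := (faceIso S q).trans (ψ.trans (faceIso T' id).symm)
  have hrk : ∀ J, rk (hom id) (φ J).1 = rk (hom q) J.1 := by
    intro J
    apply le_antisymm (rk_iso_le hS hTf (isFc_empty _ _) φ J)
    have := rk_iso_le hTf hS (isFc_empty _ _) φ.symm (φ J)
    rwa [φ.symm_apply_apply] at this
  have hne : ∀ J : {J // IsFc S (hom q) J}, rk (hom q) J.1 ≠ 0 → (φ J).1.Nonempty := by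
    intro J hJ
    rw [nonempty_iff_ne_empty]
    intro h0
    rw [← hrk, h0, rk_empty] at hJ
    exact hJ rfl
  have hone : ∀ i, rk (hom q) {i} = 1 := by
    intro i
    unfold rk
    rw [image_singleton, finrank_span_singleton (by simp [hom])]
  have hpt : ∀ i, ∃ x : EuclideanSpace ℝ (Fin d), ∀ hi : i ∈ S, (φ ⟨{i}, hv i hi⟩).1 = {x} := by
    intro i
    by_cases hi : i ∈ S
    · obtain ⟨x, hx⟩ := hne ⟨{i}, hv i hi⟩ (by rw [hone]; exact one_ne_zero)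
      refine ⟨x, fun _ => ?_⟩
      have h1 := hrk ⟨{i}, hv i hi⟩
      rw [hone, rk_hom id ⟨x, hx⟩] at h1
      have h2 : vectorSpan ℝ (convexHull ℝ (id '' (φ ⟨{i}, hv i hi⟩).1)) = ⊥ :=
        Submodule.finrank_eq_zero.1 (by omega)
      refine eq_singleton_iff_unique_mem.2 ⟨hx, fun y hy => ?_⟩
      have h3 := vsub_mem_vectorSpan ℝ (subset_convexHull ℝ _ (mem_image_of_mem id hy))
        (subset_convexHull ℝ _ (mem_image_of_mem id hx))
      rw [h2, Submodule.mem_bot] at h3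
      exact sub_eq_zero.1 h3
    · exact ⟨0, fun h => absurd h hi⟩
  choose pt hpt using hpt
  have hmem : ∀ i ∈ S, ∀ J, pt i ∈ (φ J).1 ↔ i ∈ J.1 := by
    intro i hi J
    rw [← singleton_subset_iff, ← hpt i hi, ← singleton_subset_iff (a := i)]
    exact φ.le_iff_le (x := ⟨{i}, hv i hi⟩) (y := J)
  have hptT : ∀ i ∈ S, pt i ∈ T' := fun i hi =>
    (φ ⟨{i}, hv i hi⟩).2.1 ((hmem i hi _).2 rfl)
  refine ⟨hom pt, fun J hJ => ⟨?_, ?_⟩, fun i hi => ?_, fun J hJ hJd => ?_⟩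
  · obtain ⟨-, h, hh⟩ := (φ ⟨J, hJ⟩).2
    refine ⟨hJ.1, h, fun i hi => ⟨(hh _ (hptT i hi)).1, ?_⟩⟩
    rw [← hmem i hi ⟨J, hJ⟩]
    exact (hh _ (hptT i hi)).2
  · rw [← hrk ⟨J, hJ⟩]
    apply Submodule.finrank_mono (span_mono _)
    rintro _ ⟨i, hi, rfl⟩
    exact ⟨pt i, (hmem i (hJ.1 hi) _).2 hi, rfl⟩
  · have h1 : IsFace (convexHull ℝ (id '' T')) 0 {pt i} := by
      have h2 := (φ ⟨{i}, hv i hi⟩).2.exposed
      rw [hpt i hi, image_singleton, convexHull_singleton] at h2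
      refine ⟨h2, singleton_nonempty _, ?_⟩
      rw [vectorSpan_singleton, finrank_bot]
    obtain ⟨l, c, -, hl1, hl2, hl3⟩ := hav _ h1
    let h : ℝ × EuclideanSpace ℝ (Fin d) →ₗ[ℝ] ℝ :=
      c • LinearMap.fst ℝ ℝ _ - (l : EuclideanSpace ℝ (Fin d) →ₗ[ℝ] ℝ) ∘ₗ LinearMap.snd ℝ ℝ _
    have hx : ∀ x, h x = c * x.1 - l x.2 := fun x => by simp [h]
    refine ⟨h, fun j hj => ?_, fun x hxC => ?_⟩
    · have hjQ : pt j ∈ convexHull ℝ (id '' T') :=
        subset_convexHull _ _ (mem_image_of_mem id (hptT j hj))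
      have h3 := hl1 _ hjQ
      rw [hx]
      simp only [hom, mul_one]
      refine ⟨by linarith, ⟨fun h0 => ?_, fun h0 => ?_⟩⟩
      · have h4 : pt j ∈ ({pt i} : Set _) := by
          rw [hl2]; exact ⟨hjQ, by linarith⟩
        rw [← hpt i hi, hmem j hj] at h4
        exact h4
      · have h4 : pt j ∈ ({pt i} : Set _) := by rw [h0]; rfl
        rw [hl2] at h4
        linarith [h4.2]
    · rw [hx]
      have hx1 : 0 ≤ x.1 := (norm_nonneg _).trans hxC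
      rcases hx1.eq_or_lt with h0 | h0
      · have h5 : x.2 = 0 := norm_le_zero_iff.1 (h0 ▸ hxC)
        rw [h5, ← h0]; simp
      · have h5 := hl3 ((x.1)⁻¹ • x.2) (by
          rw [mem_closedBall_zero_iff, norm_smul, norm_inv, Real.norm_of_nonneg hx1,
            inv_mul_le_iff₀ h0, mul_one]
          exact hxC)
        rw [map_smul, smul_eq_mul, inv_mul_le_iff₀ h0] at h5
        linarith
  · have hne' := hne ⟨J, hJ⟩ (by rw [hJd]; omega)
    have h1 : IsFace (convexHull ℝ (id '' T')) (d - 1) (convexHull ℝ (id '' (φ ⟨J, hJ⟩).1)) := by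
      refine ⟨(φ ⟨J, hJ⟩).2.exposed, (hne'.image id).mono (subset_convexHull _ _), ?_⟩
      have h2 := hrk ⟨J, hJ⟩
      rw [rk_hom id hne', hJd] at h2
      omega
    obtain ⟨x, hx1, hx2⟩ := hcut _ h1
    have hx3 := intrinsicInterior_subset hx1
    refine ⟨(1, x), mem_closedBall_zero_iff.1 hx2, ?_⟩
    have h3 : convexHull ℝ (pt '' J) ⊆ {x | ((1 : ℝ), x) ∈ convexHull ℝ (hom pt '' J)} := by
      apply convexHull_min _ (convex_hom_preimage (convex_convexHull ℝ _))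
      rintro _ ⟨i, hi, rfl⟩
      exact subset_convexHull ℝ (hom pt '' J) (mem_image_of_mem _ hi)
    apply h3
    by_contra hx4
    obtain ⟨f, u, hf1, hf2⟩ := geometric_hahn_banach_point_closed (convex_convexHull ℝ _)
      (((hS.subset hJ.1).image pt).isClosed_convexHull ℝ) hx4
    obtain ⟨y, hy, hmin⟩ := exists_min_image (φ ⟨J, hJ⟩).1 f (hTf.subset (φ ⟨J, hJ⟩).2.1) hne'
    let k : ℝ × EuclideanSpace ℝ (Fin d) →ₗ[ℝ] ℝ :=
      (f : EuclideanSpace ℝ (Fin d) →ₗ[ℝ] ℝ) ∘ₗ LinearMap.snd ℝ ℝ _ - f y • LinearMap.fst ℝ ℝ _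
    have hk : ∀ z, k (1, z) = f z - f y := fun z => by simp [k]
    have hG : IsFc (φ ⟨J, hJ⟩).1 (hom id) {z | z ∈ (φ ⟨J, hJ⟩).1 ∧ f z = f y} := by
      refine ⟨fun z hz => hz.1, k, fun z hz => ?_⟩
      rw [hom, hk]
      have := hmin z hz
      exact ⟨by simpa using this, ⟨fun h0 => ⟨hz, by simpa [sub_eq_zero] using h0⟩,
        fun h0 => by simpa [sub_eq_zero] using h0.2⟩⟩
    have hG' := (φ ⟨J, hJ⟩).2.trans hTf hG
    have h5 : (φ.symm ⟨_, hG'⟩).1.Nonempty := by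
      rw [nonempty_iff_ne_empty]
      intro h0
      have h6 := hrk (φ.symm ⟨_, hG'⟩)
      have h7 : ({z | z ∈ (φ ⟨J, hJ⟩).1 ∧ f z = f y}).Nonempty := ⟨y, hy, rfl⟩
      rw [h0, rk_empty, φ.apply_symm_apply, rk_hom id h7] at h6
      omega
    obtain ⟨i, hi⟩ := h5
    have hiS := (φ.symm ⟨_, hG'⟩).2.1 hi
    have h6 := (hmem i hiS _).2 hi
    rw [φ.apply_symm_apply] at h6
    have h7 : i ∈ J := (hmem i hiS ⟨J, hJ⟩).1 h6.1
    have h8 := hf2 _ (subset_convexHull ℝ _ (mem_image_of_mem pt h7))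
    have h9 := hull_nonneg (S := (φ ⟨J, hJ⟩).1) (q := id) (h := k)
      (fun z hz => by rw [hom, hk]; simpa using hmin z hz) x hx3
    rw [hk] at h9
    linarith [h6.2]

theorem transfer {ι V : Type*} [AddCommGroup V] [Module ℝ V] [FiniteDimensional ℝ V] {d : ℕ}
    (hd : 1 ≤ d) (hV : finrank ℝ V = d + 1) {S : Set ι} (hS : S.Finite) (hne : S.Nonempty)
    (p : ι → V) (hv : ∀ i ∈ S, IsFc S p {i}) (h0 : IsFc S p ∅) (hsp : rk p S = d + 1) :
    ∃ P : Set (EuclideanSpace ℝ (Fin d)), IsPolytope d P ∧ (Scribable 0 (d - 1) P →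
      ∃ r : ι → ℝ × EuclideanSpace ℝ (Fin d),
      (∀ J, IsFc S p J → IsFc S r J ∧ rk r J ≤ rk p J) ∧
      (∀ i ∈ S, ∃ h : ℝ × EuclideanSpace ℝ (Fin d) →ₗ[ℝ] ℝ,
        (∀ j ∈ S, 0 ≤ h (r j) ∧ (h (r j) = 0 ↔ j = i)) ∧ ∀ x ∈ Cone d, 0 ≤ h x) ∧
      (∀ J, IsFc S p J → rk p J = d → ∃ x ∈ Cone d, x ∈ convexHull ℝ (r '' J))) := by
  classical
  obtain ⟨-, lam, hlam⟩ := h0
  have hpos : ∀ i ∈ S, 0 < lam (p i) := fun i hi =>
    lt_of_le_of_ne (hlam i hi).1 (fun h => (hlam i hi).2.1 h.symm)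
  obtain ⟨i0, hi0⟩ := hne
  obtain ⟨Φ, hΦ⟩ := exists_chart (E := EuclideanSpace ℝ (Fin d)) lam (p i0) (hpos i0 hi0).ne'
    (by rw [hV, finrank_euclideanSpace_fin])
  let q : ι → EuclideanSpace ℝ (Fin d) := fun i => (lam (p i))⁻¹ • (Φ (p i)).2
  have hq : ∀ i ∈ S, hom q i = (lam (p i))⁻¹ • Φ (p i) := by
    intro i hi
    ext1
    · simp only [hom, Prod.smul_fst, hΦ, smul_eq_mul]
      rw [inv_mul_cancel₀ (hpos i hi).ne']
    · rfl
  have hfc : ∀ J, IsFc S p J → IsFc S (hom q) J := fun J hJ =>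
    isFc_congr Φ _ (fun i hi => inv_pos.2 (hpos i hi)) hq hJ
  have hrk : ∀ J ⊆ S, rk (hom q) J = rk p J := fun J hJ =>
    rk_congr Φ _ (fun i hi => inv_pos.2 (hpos i (hJ hi))) (fun i hi => hq i (hJ hi))
  refine ⟨convexHull ℝ (q '' S), ⟨⟨(hS.image q).toFinset, by simp⟩, ?_⟩, fun hP => ?_⟩
  · have h1 := hrk S subset_rfl
    rw [rk_hom q ⟨i0, hi0⟩, hsp] at h1
    omega
  · obtain ⟨r, h1, h2, h3⟩ := transfer_hom hd hS q (fun i hi => hfc _ (hv i hi)) hP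
    refine ⟨r, fun J hJ => ?_, h2, fun J hJ hJd => h3 J (hfc J hJ) ?_⟩
    · rw [← hrk J hJ.1]
      exact h1 J (hfc J hJ)
    · rw [hrk J hJ.1, hJd]

end Transfer

end Pool.Agent.P.MP_3c8515_co
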